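import Mathlib

/-!
# A1: the area sub-mean value property of `log⁺ |H|`
-/

open MeasureTheory Set Metric Filter Topology Complex
open scoped Real ENNReal

namespace MP2c3e4e

/-- Circle sub-mean value property of `log⁺ |H|`, from Jensen's formula. -/
theorem submean_circle {H : ℂ → ℂ} {z : ℂ} {ρ : ℝ} (hρ : 0 < ρ)
    (hH : AnalyticOnNhd ℂ H (closedBall z ρ)) :
    Real.posLog ‖H z‖ ≤ Real.circleAverage (fun x => Real.posLog ‖H x‖) z ρ := by
  have habs : |ρ| = ρ := abs_of_pos hρ
  have hmero : MeromorphicOn H (sphere z |ρ|) := by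
    rw [habs]
    exact (hH.mono sphere_subset_closedBall).meromorphicOn
  by_cases h1 : ‖H z‖ ≤ 1
  · have h0 : Real.posLog ‖H z‖ = 0 := by
      rw [Real.posLog_eq_zero_iff, abs_norm]; exact h1
    rw [h0]
    exact Real.circleAverage_nonneg_of_nonneg fun x _ => Real.posLog_nonneg
  · push Not at h1
    have hne : H z ≠ 0 := by
      intro h; rw [h, norm_zero] at h1; linarith
    have h2 : Real.posLog ‖H z‖ = Real.log ‖H z‖ := Real.posLog_eq_log (by rw [abs_norm]; exact h1.le)
    have hJ := AnalyticOnNhd.circleAverage_log_norm (c := z) (R := ρ) (f := H) hρ.ne'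
      (by rw [habs]; exact hH) hne
    have h3 : 0 ≤ ∑ᶠ u, MeromorphicOn.divisor H (closedBall z |ρ|) u * Real.log (ρ * ‖z - u‖⁻¹) := by
      apply finsum_nonneg
      intro u
      by_cases hu : u ∈ closedBall z |ρ|
      · refine mul_nonneg ?_ ?_
        · have hd := MeromorphicOn.AnalyticOnNhd.divisor_nonneg (𝕜 := ℂ) (f := H) (U := closedBall z |ρ|)
            (by rw [habs]; exact hH)
          exact_mod_cast hd u
        · rcases eq_or_ne u z with rfl | huz
          · simp
          · apply Real.log_nonneg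
            have hp : 0 < ‖z - u‖ := norm_pos_iff.2 (sub_ne_zero.2 huz.symm)
            rw [← div_eq_mul_inv, one_le_div hp]
            rw [habs, mem_closedBall, dist_comm, dist_eq_norm] at hu
            exact hu
      · have : MeromorphicOn.divisor H (closedBall z |ρ|) u = 0 :=
          Function.locallyFinsuppWithin.apply_eq_zero_of_notMem _ hu
        simp [this]
    have h4 : Real.circleAverage (fun x => Real.log ‖H x‖) z ρ
        ≤ Real.circleAverage (fun x => Real.posLog ‖H x‖) z ρ := by
      apply Real.circleAverage_mono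
      · exact hmero.circleIntegrable_log_norm
      · exact hmero.circleIntegrable_posLog_norm
      · intro x _
        exact le_max_right _ _
    rw [h2]
    linarith

theorem circleAverage_eq_symm (f : ℂ → ℝ) (z : ℂ) (ρ : ℝ) :
    ∫ θ in (-π)..π, f (circleMap z ρ θ) = 2 * π * Real.circleAverage f z ρ := by
  have hper : Function.Periodic (fun θ => f (circleMap z ρ θ)) (2 * π) := by
    intro θ
    simp only [periodic_circleMap z ρ θ]
  have h1 := hper.intervalIntegral_add_eq (-π) 0
  have h2 : -π + 2 * π = π := by ring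
  rw [h2, zero_add] at h1
  rw [h1, Real.circleAverage_def, smul_eq_mul, ← mul_assoc, mul_inv_cancel₀ (by positivity),
    one_mul]

/-- If every circle average of a continuous `f ≥ 0` with center `z` and radius `< r` is at
least `a`, then `π r² a ≤ ∫_{ball z r} f`. -/
theorem area_of_circle {f : ℂ → ℝ} {z : ℂ} {r a : ℝ} (hr : 0 < r)
    (hf : ContinuousOn f (closedBall z r)) (hf0 : ∀ x, 0 ≤ f x)
    (h : ∀ ρ, 0 < ρ → ρ < r → a ≤ Real.circleAverage f z ρ) :
    π * r ^ 2 * a ≤ ∫ x in ball z r, f x := by
  classical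
  have hint : IntegrableOn f (ball z r) :=
    (hf.integrableOn_compact (isCompact_closedBall z r)).mono_set ball_subset_closedBall
  have hint0 : 0 ≤ ∫ x in ball z r, f x := integral_nonneg fun x => hf0 x
  set g : ℂ → ℝ≥0∞ := (ball z r).indicator fun x => ENNReal.ofReal (f x) with hg
  have hgm : Measurable g := by
    have h1 : Measurable ((ball z r).indicator f) := by
      rw [← Set.piecewise_eq_indicator]
      exact (hf.mono ball_subset_closedBall).measurable_piecewise continuousOn_const
        measurableSet_ball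
    have h2 : g = fun x => ENNReal.ofReal ((ball z r).indicator f x) := by
      funext x
      by_cases hx : x ∈ ball z r
      · simp [hg, hx]
      · simp [hg, hx]
    rw [h2]
    exact h1.ennreal_ofReal
  have e1 : ENNReal.ofReal (∫ x in ball z r, f x) = ∫⁻ x, g x := by
    rw [ofReal_integral_eq_lintegral_ofReal hint (Eventually.of_forall fun x => hf0 x), hg,
      lintegral_indicator measurableSet_ball]
  have e2 : ∫⁻ x, g x = ∫⁻ w, g (z + w) := (lintegral_add_left_eq_self g z).symm
  have e3 : ∫⁻ w, g (z + w) = ∫⁻ p in polarCoord.target,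
      ENNReal.ofReal p.1 • g (z + Complex.polarCoord.symm p) :=
    (Complex.lintegral_comp_polarCoord_symm fun w => g (z + w)).symm
  have e4 : ∫⁻ p in polarCoord.target, ENNReal.ofReal p.1 • g (z + Complex.polarCoord.symm p)
      = ∫⁻ ρ in Ioi (0 : ℝ), ∫⁻ θ in Ioo (-π) π,
        ENNReal.ofReal ρ • g (z + Complex.polarCoord.symm (ρ, θ)) := by
    rw [polarCoord_target, Measure.volume_eq_prod, setLIntegral_prod]
    apply Measurable.aemeasurable
    simp only [smul_eq_mul]
    refine measurable_fst.ennreal_ofReal.mul (hgm.comp ?_)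
    simp only [Complex.polarCoord_symm_apply]
    fun_prop
  have e5 : ∀ ρ ∈ Ioo (0 : ℝ) r, ENNReal.ofReal (ρ * (2 * π * a)) ≤ ∫⁻ θ in Ioo (-π) π,
        ENNReal.ofReal ρ • g (z + Complex.polarCoord.symm (ρ, θ)) := by
    intro ρ hρ
    have hmem : ∀ θ : ℝ, circleMap z ρ θ ∈ ball z r := by
      intro θ
      rw [mem_ball, dist_eq_norm]
      simp [circleMap, abs_of_pos hρ.1, hρ.2]
    have hcm : ∀ θ : ℝ, z + Complex.polarCoord.symm (ρ, θ) = circleMap z ρ θ := by
      intro θ
      rw [Complex.polarCoord_symm_apply, circleMap, Complex.exp_mul_I]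
      simp
    have hcont : Continuous fun θ : ℝ => f (circleMap z ρ θ) :=
      (hf.mono ball_subset_closedBall).comp_continuous (continuous_circleMap z ρ) hmem
    have hintθ : IntegrableOn (fun θ : ℝ => ρ * f (circleMap z ρ θ)) (Ioo (-π) π) := by
      have : IntegrableOn (fun θ : ℝ => ρ * f (circleMap z ρ θ)) (Icc (-π) π) :=
        (continuous_const.mul hcont).continuousOn.integrableOn_compact isCompact_Icc
      exact this.mono_set Ioo_subset_Icc_self
    have h1 : ∫⁻ θ in Ioo (-π) π, ENNReal.ofReal ρ • g (z + Complex.polarCoord.symm (ρ, θ))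
        = ∫⁻ θ in Ioo (-π) π, ENNReal.ofReal (ρ * f (circleMap z ρ θ)) := by
      refine lintegral_congr fun θ => ?_
      rw [hcm θ, hg, Set.indicator_of_mem (hmem θ), smul_eq_mul, ENNReal.ofReal_mul hρ.1.le]
    rw [h1, ← ofReal_integral_eq_lintegral_ofReal hintθ
      (Eventually.of_forall fun θ => mul_nonneg hρ.1.le (hf0 _))]
    apply ENNReal.ofReal_le_ofReal
    rw [integral_const_mul, ← integral_Ioc_eq_integral_Ioo,
      ← intervalIntegral.integral_of_le (by linarith [Real.pi_pos]), circleAverage_eq_symm]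
    have := h ρ hρ.1 hρ.2
    have h2π : 0 < 2 * π := by positivity
    exact mul_le_mul_of_nonneg_left (mul_le_mul_of_nonneg_left this h2π.le) hρ.1.le
  rcases le_or_gt a 0 with ha | ha
  · have : π * r ^ 2 * a ≤ 0 := mul_nonpos_of_nonneg_of_nonpos (by positivity) ha
    linarith
  rw [← ENNReal.ofReal_le_ofReal_iff hint0, e1, e2, e3, e4]
  calc ENNReal.ofReal (π * r ^ 2 * a)
      = ENNReal.ofReal (∫ ρ in Ioo (0 : ℝ) r, ρ * (2 * π * a)) := by
        rw [← integral_Ioc_eq_integral_Ioo, ← intervalIntegral.integral_of_le hr.le,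
          intervalIntegral.integral_mul_const, integral_id]
        congr 1
        ring
    _ = ∫⁻ ρ in Ioo (0 : ℝ) r, ENNReal.ofReal (ρ * (2 * π * a)) := by
        apply ofReal_integral_eq_lintegral_ofReal
        · have : IntegrableOn (fun ρ : ℝ => ρ * (2 * π * a)) (Icc 0 r) :=
            (continuous_id.mul continuous_const).continuousOn.integrableOn_compact isCompact_Icc
          exact this.mono_set Ioo_subset_Icc_self
        · filter_upwards [ae_restrict_mem measurableSet_Ioo] with ρ hρ
          have := hρ.1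
          positivity
    _ ≤ ∫⁻ ρ in Ioo (0 : ℝ) r, ∫⁻ θ in Ioo (-π) π,
        ENNReal.ofReal ρ • g (z + Complex.polarCoord.symm (ρ, θ)) :=
        setLIntegral_mono' measurableSet_Ioo e5
    _ ≤ _ := lintegral_mono_set Ioo_subset_Ioi_self

/-- A1. Area sub-mean value property of `log⁺ |H|`. -/
theorem submean_area {H : ℂ → ℂ} {z : ℂ} {r : ℝ} (hr : 0 < r)
    (hH : AnalyticOnNhd ℂ H (closedBall z r)) :
    Real.posLog ‖H z‖ ≤ (π * r ^ 2)⁻¹ * ∫ x in ball z r, Real.posLog ‖H x‖ := by
  have hp : 0 < π * r ^ 2 := by positivity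
  rw [← div_eq_inv_mul, le_div_iff₀ hp, mul_comm]
  apply area_of_circle hr
  · exact Real.continuous_posLog.comp_continuousOn hH.continuousOn.norm
  · intro x; exact Real.posLog_nonneg
  · intro ρ h0 hρ
    exact submean_circle h0 (hH.mono (closedBall_subset_closedBall hρ.le))

end MP2c3e4e
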