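import Pool.Agent.Lib_MP_2c3e4e_an.A1

/-!
# A2: Domar's lemma (quantitative log log theorem)
-/

open MeasureTheory Set Metric Filter Topology Complex
open scoped Real ENNReal

namespace MP2c3e4e

theorem volume_real_ball (w : ℂ) {r : ℝ} (hr : 0 ≤ r) : volume.real (ball w r) = π * r ^ 2 := by
  rw [Measure.real, Complex.volume_ball]
  simp [ENNReal.toReal_mul, ENNReal.toReal_ofReal hr]
  ring

/-- One step: a ball with `π r² = 8 |{v > M / 2}|` around a point with `v ≥ M` contains a point
with `v > 2 M`. -/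
theorem domar_step {H : ℂ → ℂ} {w : ℂ} {r M c : ℝ} (hr : 0 < r) (hM : 0 < M) (hc : 0 < c)
    (hH : AnalyticOnNhd ℂ H (closedBall w r)) (hw : M ≤ Real.posLog ‖H w‖)
    (hvol : volume {x ∈ closedBall w r | M / 2 < Real.posLog ‖H x‖} ≤ ENNReal.ofReal c)
    (hrc : π * r ^ 2 = 8 * c) : ∃ w' ∈ ball w r, 2 * M ≤ Real.posLog ‖H w'‖ := by
  by_contra hcon
  push Not at hcon
  have hcont : ContinuousOn (fun x => Real.posLog ‖H x‖) (closedBall w r) :=
    Real.continuous_posLog.comp_continuousOn hH.continuousOn.norm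
  set v : ℂ → ℝ := fun x => Real.posLog ‖H x‖ with hv
  set E : Set ℂ := ball w r ∩ v ⁻¹' Ioi (M / 2) with hE
  have hEo : IsOpen E := (hcont.mono ball_subset_closedBall).isOpen_inter_preimage isOpen_ball
    isOpen_Ioi
  have hEv : volume.real E ≤ c := by
    have h1 : volume E ≤ ENNReal.ofReal c := by
      refine le_trans (measure_mono ?_) hvol
      rintro x ⟨hx1, hx2⟩
      exact ⟨ball_subset_closedBall hx1, hx2⟩
    exact ENNReal.toReal_le_of_le_ofReal hc.le h1
  have hball : volume.real (ball w r) = 8 * c := by rw [volume_real_ball w hr.le, hrc]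
  have hfin : volume (ball w r) ≠ ∞ := measure_ball_lt_top.ne
  have hint : IntegrableOn v (ball w r) :=
    (hcont.integrableOn_compact (isCompact_closedBall w r)).mono_set ball_subset_closedBall
  have hint1 : IntegrableOn (E.indicator fun _ => 2 * M) (ball w r) :=
    (integrableOn_const hfin).indicator hEo.measurableSet
  have hint2 : IntegrableOn (fun _ : ℂ => M / 2) (ball w r) := integrableOn_const hfin
  have h1 : ∫ x in ball w r, v x ≤ ∫ x in ball w r, ((E.indicator fun _ => 2 * M) x + M / 2) := by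
    refine setIntegral_mono_on hint (hint1.add hint2) measurableSet_ball ?_
    intro x hx
    by_cases hxE : x ∈ E
    · rw [Set.indicator_of_mem hxE]
      have := hcon x hx
      simp only [hv]
      linarith
    · rw [Set.indicator_of_notMem hxE]
      have : ¬ M / 2 < v x := fun h => hxE ⟨hx, h⟩
      linarith
  have h2 : ∫ x in ball w r, ((E.indicator fun _ => 2 * M) x + M / 2)
      = volume.real E * (2 * M) + 8 * c * (M / 2) := by
    rw [integral_add hint1 hint2, setIntegral_indicator hEo.measurableSet, setIntegral_const,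
      setIntegral_const, hball]
    have : ball w r ∩ E = E := by
      rw [hE, ← Set.inter_assoc, Set.inter_self]
    rw [this, smul_eq_mul, smul_eq_mul]
  have h3 := submean_area hr hH
  have hp : 0 < π * r ^ 2 := by positivity
  rw [← div_eq_inv_mul, le_div_iff₀ hp, hrc] at h3
  have h4 : M * (8 * c) ≤ volume.real E * (2 * M) + 8 * c * (M / 2) :=
    (mul_le_mul_of_nonneg_right hw (by positivity)).trans ((h3.trans h1).trans h2.le)
  have h5 : volume.real E * (2 * M) ≤ c * (2 * M) :=
    mul_le_mul_of_nonneg_right hEv (by positivity)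
  nlinarith [mul_pos hM hc]

/-- A2. Domar's lemma (quantitative log log theorem). -/
theorem domar (C₀ σ : ℝ) (hC : 0 < C₀) (hσ : 0 < σ) : ∃ K : ℝ, 0 < K ∧
    ∀ (H : ℂ → ℂ) (z : ℂ) (R : ℝ), 0 < R → R ≤ 1 → AnalyticOnNhd ℂ H (closedBall z R) →
      (∀ s : ℝ, 1 ≤ s → volume {x ∈ closedBall z R | s < Real.posLog ‖H x‖} ≤
        ENNReal.ofReal (C₀ * s ^ (-σ))) →
      Real.posLog ‖H z‖ ≤ K * R ^ (-(2 / σ)) := by
  set A : ℝ := √(8 * C₀ / π) with hA
  have hA0 : 0 < A := Real.sqrt_pos.2 (by positivity)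
  set q : ℝ := 2 ^ (-(σ / 2)) with hq
  have hq0 : 0 < q := by positivity
  have hq1 : q < 1 := Real.rpow_lt_one_of_one_lt_of_neg (by norm_num) (by linarith)
  set B : ℝ := A / (1 - q) with hB
  have hB0 : 0 < B := div_pos hA0 (by linarith)
  set L : ℝ := max 1 (B ^ (2 / σ)) with hL
  have hL1 : 1 ≤ L := le_max_left _ _
  have hL0 : 0 < L := by linarith
  refine ⟨2 * L, by positivity, ?_⟩
  intro H z R hR hR1 hH hvol
  by_contra hcon
  push Not at hcon
  set T : ℝ := Real.posLog ‖H z‖ with hT
  have hRp : 1 ≤ R ^ (-(2 / σ)) :=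
    Real.one_le_rpow_of_pos_of_le_one_of_nonpos hR hR1 (by
      have : 0 < 2 / σ := by positivity
      linarith)
  have hT2 : L * R ^ (-(2 / σ)) < T / 2 := by linarith
  have hT1 : 1 < T / 2 := by
    refine lt_of_le_of_lt ?_ hT2
    calc (1 : ℝ) = 1 * 1 := by ring
      _ ≤ L * R ^ (-(2 / σ)) := mul_le_mul hL1 hRp (by norm_num) hL0.le
  have hT0 : 0 < T := by linarith
  -- the total radius
  set D : ℝ := A * (T / 2) ^ (-(σ / 2)) with hD
  have hD0 : 0 < D := by positivity
  have hDR : D / (1 - q) ≤ R := by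
    have h1 : (T / 2) ^ (-(σ / 2)) ≤ (L * R ^ (-(2 / σ))) ^ (-(σ / 2)) :=
      Real.rpow_le_rpow_of_nonpos (by positivity) hT2.le (by linarith)
    have h2 : (L * R ^ (-(2 / σ))) ^ (-(σ / 2)) = L ^ (-(σ / 2)) * R := by
      rw [Real.mul_rpow hL0.le (by positivity), ← Real.rpow_mul hR.le]
      have : -(2 / σ) * -(σ / 2) = 1 := by field_simp
      rw [this, Real.rpow_one]
    have h3 : L ^ (-(σ / 2)) ≤ B⁻¹ := by
      have h4 : (B ^ (2 / σ)) ^ (-(σ / 2)) = B⁻¹ := by
        rw [← Real.rpow_mul hB0.le]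
        have : 2 / σ * -(σ / 2) = -1 := by field_simp
        rw [this, Real.rpow_neg_one]
      rw [← h4]
      exact Real.rpow_le_rpow_of_nonpos (by positivity) (le_max_right _ _) (by linarith)
    have h5 : (T / 2) ^ (-(σ / 2)) ≤ B⁻¹ * R := by
      refine h1.trans (h2.le.trans ?_)
      exact mul_le_mul_of_nonneg_right h3 hR.le
    calc D / (1 - q) = B * (T / 2) ^ (-(σ / 2)) := by rw [hD, hB]; ring
      _ ≤ B * (B⁻¹ * R) := mul_le_mul_of_nonneg_left h5 hB0.le
      _ = R := by field_simp
  have hsum : ∀ k : ℕ, ∑ j ∈ Finset.range k, D * q ^ j + D * q ^ k ≤ R := by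
    intro k
    rw [← Finset.sum_range_succ, ← Finset.mul_sum]
    have h1 : ∑ j ∈ Finset.range (k + 1), q ^ j ≤ 1 / (1 - q) := by
      rw [geom_sum_eq hq1.ne]
      rw [show (q ^ (k + 1) - 1) / (q - 1) = (1 - q ^ (k + 1)) / (1 - q) by
        rw [← neg_sub 1 (q ^ (k + 1)), ← neg_sub 1 q, neg_div_neg_eq]]
      apply div_le_div_of_nonneg_right _ (by linarith)
      have : 0 < q ^ (k + 1) := by positivity
      linarith
    calc D * ∑ j ∈ Finset.range (k + 1), q ^ j ≤ D * (1 / (1 - q)) :=
          mul_le_mul_of_nonneg_left h1 hD0.le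
      _ = D / (1 - q) := by ring
      _ ≤ R := hDR
  have key : ∀ k : ℕ, ∃ w, dist w z ≤ ∑ j ∈ Finset.range k, D * q ^ j ∧
      2 ^ k * T ≤ Real.posLog ‖H w‖ := by
    intro k
    induction k with
    | zero => exact ⟨z, by simp, by simp [hT]⟩
    | succ k ih =>
      obtain ⟨w, hw1, hw2⟩ := ih
      have hrk : 0 < D * q ^ k := by positivity
      have hsub : closedBall w (D * q ^ k) ⊆ closedBall z R := by
        apply closedBall_subset_closedBall'
        linarith [hsum k]
      have hMk : 0 < 2 ^ k * T := by positivity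
      have hs1 : 1 ≤ 2 ^ k * T / 2 := by
        have : (1 : ℝ) ≤ 2 ^ k := one_le_pow₀ (by norm_num)
        nlinarith
      obtain ⟨w', hw'1, hw'2⟩ := domar_step (c := C₀ * (2 ^ k * T / 2) ^ (-σ)) hrk hMk
        (by positivity) (hH.mono hsub) hw2
        (by
          refine le_trans (measure_mono ?_) (hvol (2 ^ k * T / 2) hs1)
          rintro x ⟨hx1, hx2⟩
          exact ⟨hsub hx1, hx2⟩)
        (by
          have e1 : (D * q ^ k) ^ 2 = A ^ 2 * ((T / 2) ^ (-(σ / 2)) * q ^ k) ^ 2 := by
            rw [hD]; ring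
          have e2 : A ^ 2 = 8 * C₀ / π := Real.sq_sqrt (by positivity)
          have e3 : (T / 2) ^ (-(σ / 2)) * q ^ k = (2 ^ k * T / 2) ^ (-(σ / 2)) := by
            rw [hq, ← Real.rpow_natCast ((2 : ℝ) ^ (-(σ / 2))) k, ← Real.rpow_mul (by norm_num),
              show 2 ^ k * T / 2 = 2 ^ k * (T / 2) by ring,
              Real.mul_rpow (by positivity) (by positivity), ← Real.rpow_natCast 2 k,
              ← Real.rpow_mul (by norm_num), mul_comm (k : ℝ), mul_comm ((T / 2) ^ (-(σ / 2)))]
          have e4 : ((2 ^ k * T / 2) ^ (-(σ / 2))) ^ 2 = (2 ^ k * T / 2) ^ (-σ) := by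
            rw [← Real.rpow_natCast, ← Real.rpow_mul (by positivity)]
            congr 1
            push_cast
            ring
          rw [e1, e2, e3, e4]
          field_simp)
      refine ⟨w', ?_, ?_⟩
      · rw [Finset.sum_range_succ]
        have := dist_triangle w' w z
        have h' : dist w' w < D * q ^ k := mem_ball.1 hw'1
        linarith
      · rw [pow_succ]
        linarith
  have hcont : ContinuousOn (fun x => Real.posLog ‖H x‖) (closedBall z R) :=
    Real.continuous_posLog.comp_continuousOn hH.continuousOn.norm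
  obtain ⟨M, hM⟩ := (isCompact_closedBall z R).bddAbove_image hcont
  obtain ⟨k, hk⟩ := pow_unbounded_of_one_lt (M / T) (by norm_num : (1 : ℝ) < 2)
  obtain ⟨w, hw1, hw2⟩ := key k
  have hwR : w ∈ closedBall z R := by
    rw [mem_closedBall]
    have : 0 < D * q ^ k := by positivity
    linarith [hsum k]
  have h6 : Real.posLog ‖H w‖ ≤ M := hM (mem_image_of_mem _ hwR)
  rw [div_lt_iff₀ hT0] at hk
  linarith

end MP2c3e4e
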