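import Pool.Agent.Lib_MP_2c3e4e_an.A2

/-!
# A3: averages of `log (1 / d)`
-/

open MeasureTheory Set Metric Filter Topology Complex
open scoped Real ENNReal

namespace MP2c3e4e

/-- Layer cake estimate. -/
theorem lintegral_log_infDist_le {C₁ : ℝ} (hC : 0 < C₁) {Γ : Set ℂ} {z : ℂ} {r : ℝ}
    (hr : 0 < r) (hr1 : r ≤ 1)
    (hvol : ∀ t : ℝ, 0 < t → t ≤ 1 → volume {x ∈ ball z r | infDist x Γ < t} ≤
        ENNReal.ofReal (C₁ * t)) :
    ∫⁻ x in ball z r, ENNReal.ofReal (Real.log (1 / min 1 (infDist x Γ)))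
      ≤ ENNReal.ofReal (π * r ^ 2 * (2 * Real.log (1 / r)) + C₁ * r ^ 2) := by
  set g : ℂ → ℝ := fun x => Real.log (1 / min 1 (infDist x Γ)) with hg
  have hgm : Measurable g := by
    have h1 : Measurable fun x : ℂ => infDist x Γ := measurable_infDist
    exact Real.measurable_log.comp (measurable_const.div (measurable_const.min h1))
  have hg0 : ∀ x, 0 ≤ g x := by
    intro x
    simp only [hg, one_div, Real.log_inv, Left.nonneg_neg_iff]
    exact Real.log_nonpos (le_min zero_le_one infDist_nonneg) (min_le_left _ _)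
  have hlt : ∀ s, 0 < s → ∀ x, s < g x → infDist x Γ < Real.exp (-s) := by
    intro s hs x hx
    simp only [hg, one_div, Real.log_inv] at hx
    by_contra hcon
    push Not at hcon
    have h1 : Real.exp (-s) ≤ min 1 (infDist x Γ) :=
      le_min (Real.exp_le_one_iff.2 (by linarith)) hcon
    have h2 := Real.log_le_log (Real.exp_pos _) h1
    rw [Real.log_exp] at h2
    linarith
  set s₀ : ℝ := 2 * Real.log (1 / r) with hs₀
  have hs₀0 : 0 ≤ s₀ := by
    have : 0 ≤ Real.log (1 / r) := Real.log_nonneg (by rw [one_le_div hr]; exact hr1)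
    linarith
  rw [lintegral_eq_lintegral_meas_lt _ (Eventually.of_forall hg0) hgm.aemeasurable]
  have hb1 : ∀ s, 0 < s → (volume.restrict (ball z r)) {a | s < g a}
      ≤ ENNReal.ofReal (C₁ * Real.exp (-s)) := by
    intro s hs
    rw [Measure.restrict_apply (measurableSet_lt measurable_const hgm)]
    refine le_trans (measure_mono ?_) (hvol (Real.exp (-s)) (Real.exp_pos _)
      (Real.exp_le_one_iff.2 (by linarith)))
    rintro x ⟨hx1, hx2⟩
    exact ⟨hx2, hlt s hs x hx1⟩
  have hb2 : ∀ s, (volume.restrict (ball z r)) {a | s < g a} ≤ ENNReal.ofReal (π * r ^ 2) := by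
    intro s
    rw [Measure.restrict_apply (measurableSet_lt measurable_const hgm)]
    refine le_trans (measure_mono Set.inter_subset_right) ?_
    rw [← volume_real_ball z hr.le, Measure.real, ENNReal.ofReal_toReal measure_ball_lt_top.ne]
  have hsplit : Ioi (0 : ℝ) = Ioc 0 s₀ ∪ Ioi s₀ := (Ioc_union_Ioi_eq_Ioi hs₀0).symm
  calc ∫⁻ s in Ioi (0 : ℝ), (volume.restrict (ball z r)) {a | s < g a}
      ≤ (∫⁻ s in Ioc 0 s₀, (volume.restrict (ball z r)) {a | s < g a})
        + ∫⁻ s in Ioi s₀, (volume.restrict (ball z r)) {a | s < g a} := by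
        rw [hsplit]; exact lintegral_union_le _ _ _
    _ ≤ (∫⁻ _ in Ioc 0 s₀, ENNReal.ofReal (π * r ^ 2))
        + ∫⁻ s in Ioi s₀, ENNReal.ofReal (C₁ * Real.exp (-s)) := by
        refine add_le_add (lintegral_mono fun s => hb2 s) ?_
        refine setLIntegral_mono' measurableSet_Ioi fun s hs => hb1 s ?_
        exact lt_of_le_of_lt hs₀0 hs
    _ = ENNReal.ofReal (π * r ^ 2 * s₀) + ENNReal.ofReal (C₁ * r ^ 2) := by
        congr 1
        · rw [lintegral_const, Measure.restrict_apply MeasurableSet.univ, Set.univ_inter,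
            Real.volume_Ioc, sub_zero, ← ENNReal.ofReal_mul (by positivity)]
        · rw [← ofReal_integral_eq_lintegral_ofReal]
          · rw [integral_const_mul, integral_exp_neg_Ioi]
            congr 2
            rw [hs₀, one_div, Real.log_inv, mul_neg, neg_neg, two_mul, Real.exp_add,
              Real.exp_log hr]
            ring
          · exact (integrableOn_exp_neg_Ioi s₀).const_mul C₁
          · exact Eventually.of_forall fun s => by positivity
    _ = ENNReal.ofReal (π * r ^ 2 * s₀ + C₁ * r ^ 2) :=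
        (ENNReal.ofReal_add (by positivity) (by positivity)).symm

/-- A3. If `log⁺ |H| ≤ b + N log (1/d(x))` off a set whose `t`-neighbourhoods have area at most
`C t`, then `log⁺ |H z| ≤ b + N (2 log (1/r) + K)`. -/
theorem logavg (C₁ : ℝ) (hC : 0 < C₁) : ∃ K : ℝ, 0 < K ∧
    ∀ (H : ℂ → ℂ) (Γ : Set ℂ) (z : ℂ) (r b N : ℝ), 0 < r → r ≤ 1 → 0 ≤ b → 0 ≤ N →
      AnalyticOnNhd ℂ H (closedBall z r) →
      (∀ t : ℝ, 0 < t → t ≤ 1 → volume {x ∈ ball z r | infDist x Γ < t} ≤
        ENNReal.ofReal (C₁ * t)) →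
      (∀ x ∈ ball z r, 0 < infDist x Γ →
        Real.posLog ‖H x‖ ≤ b + N * Real.log (1 / min 1 (infDist x Γ))) →
      Real.posLog ‖H z‖ ≤ b + N * (2 * Real.log (1 / r) + K) := by
  refine ⟨C₁ / π, by positivity, ?_⟩
  intro H Γ z r b N hr hr1 hb hN hH hvol hbd
  set g : ℂ → ℝ := fun x => Real.log (1 / min 1 (infDist x Γ)) with hg
  have hgm : Measurable g := by
    have h1 : Measurable fun x : ℂ => infDist x Γ := measurable_infDist
    exact Real.measurable_log.comp (measurable_const.div (measurable_const.min h1))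
  have hg0 : ∀ x, 0 ≤ g x := by
    intro x
    simp only [hg, one_div, Real.log_inv, Left.nonneg_neg_iff]
    exact Real.log_nonpos (le_min zero_le_one infDist_nonneg) (min_le_left _ _)
  have hp : 0 < π * r ^ 2 := by positivity
  have hs₀0 : 0 ≤ Real.log (1 / r) := Real.log_nonneg (by rw [one_le_div hr]; exact hr1)
  have hcont : ContinuousOn (fun x => Real.posLog ‖H x‖) (closedBall z r) :=
    Real.continuous_posLog.comp_continuousOn hH.continuousOn.norm
  have hint : IntegrableOn (fun x => Real.posLog ‖H x‖) (ball z r) :=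
    (hcont.integrableOn_compact (isCompact_closedBall z r)).mono_set ball_subset_closedBall
  have hzero : volume {x ∈ ball z r | infDist x Γ ≤ 0} = 0 := by
    have h1 : ∀ n : ℕ, volume {x ∈ ball z r | infDist x Γ ≤ 0}
        ≤ ENNReal.ofReal (C₁ * (1 / ((n : ℝ) + 1))) := by
      intro n
      have hn : (0 : ℝ) < 1 / ((n : ℝ) + 1) := by positivity
      refine le_trans (measure_mono ?_) (hvol _ hn ?_)
      · rintro x ⟨hx1, hx2⟩
        exact ⟨hx1, lt_of_le_of_lt hx2 hn⟩
      · rw [div_le_one (by positivity)]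
        have : (0 : ℝ) ≤ n := Nat.cast_nonneg n
        linarith
    have h2 : Tendsto (fun n : ℕ => ENNReal.ofReal (C₁ * (1 / ((n : ℝ) + 1)))) atTop (𝓝 0) := by
      have h3 := (tendsto_one_div_add_atTop_nhds_zero_nat (𝕜 := ℝ)).const_mul C₁
      rw [mul_zero] at h3
      have h4 := (ENNReal.continuous_ofReal.tendsto 0).comp h3
      rw [ENNReal.ofReal_zero] at h4
      exact h4
    exact le_antisymm (ge_of_tendsto' h2 h1) zero_le
  have hae : ∀ᵐ x ∂(volume.restrict (ball z r)),
      ENNReal.ofReal (Real.posLog ‖H x‖) ≤ ENNReal.ofReal b + ENNReal.ofReal N *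
        ENNReal.ofReal (g x) := by
    have h1 : ∀ᵐ x ∂volume, x ∉ {x ∈ ball z r | infDist x Γ ≤ 0} :=
      measure_eq_zero_iff_ae_notMem.1 hzero
    filter_upwards [ae_restrict_mem measurableSet_ball, ae_restrict_of_ae h1] with x hx1 hx2
    have h3 : 0 < infDist x Γ := by
      by_contra hcon
      exact hx2 ⟨hx1, not_lt.1 hcon⟩
    rw [← ENNReal.ofReal_mul hN, ← ENNReal.ofReal_add hb (mul_nonneg hN (hg0 x))]
    exact ENNReal.ofReal_le_ofReal (hbd x hx1 h3)
  have h1 : ENNReal.ofReal (∫ x in ball z r, Real.posLog ‖H x‖)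
      ≤ ENNReal.ofReal (b * (π * r ^ 2) + N * (π * r ^ 2 * (2 * Real.log (1 / r)) + C₁ * r ^ 2)) := by
    rw [ofReal_integral_eq_lintegral_ofReal hint
      (Eventually.of_forall fun x => Real.posLog_nonneg)]
    refine (lintegral_mono_ae hae).trans ?_
    rw [lintegral_add_left measurable_const, lintegral_const_mul _ hgm.ennreal_ofReal,
      lintegral_const, Measure.restrict_apply MeasurableSet.univ, Set.univ_inter,
      ENNReal.ofReal_add (by positivity) (by positivity), ENNReal.ofReal_mul hb,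
      ENNReal.ofReal_mul hN]
    refine add_le_add (mul_le_mul_right ?_ _) (mul_le_mul_right
      (lintegral_log_infDist_le hC hr hr1 hvol) _)
    rw [← volume_real_ball z hr.le, Measure.real, ENNReal.ofReal_toReal measure_ball_lt_top.ne]
  rw [ENNReal.ofReal_le_ofReal_iff (by positivity)] at h1
  have h3 := submean_area hr hH
  rw [← div_eq_inv_mul, le_div_iff₀ hp] at h3
  have h4 : Real.posLog ‖H z‖ * (π * r ^ 2)
      ≤ (b + N * (2 * Real.log (1 / r) + C₁ / π)) * (π * r ^ 2) := by
    refine (h3.trans h1).trans (le_of_eq ?_)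
    field_simp
  exact le_of_mul_le_mul_right h4 hp

end MP2c3e4e
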