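import Pool.Agent.Lib_MP_2c3e4e_an.A2

/-!
# A4: bounded circle averages of `log⁺ |H|`
-/

open MeasureTheory Set Metric Filter Topology Complex
open scoped Real ENNReal

namespace MP2c3e4e

/-- If the circle averages of `f ≥ 0` with center `0` and radius in `[1/2, 1)` are `≤ C`, then
the integral of `f` over a disc `ball s δ` with `1/2 ≤ |s| - δ`, `|s| + δ < 1` is
`≤ 4 π C δ`. -/
theorem area_le_of_circle {f : ℂ → ℝ} {s : ℂ} {δ C : ℝ} (hδ : 0 < δ)
    (h1 : 1 / 2 ≤ ‖s‖ - δ) (h2 : ‖s‖ + δ < 1)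
    (hf : ContinuousOn f (ball 0 1)) (hf0 : ∀ x, 0 ≤ f x)
    (h : ∀ ρ, 1 / 2 ≤ ρ → ρ < 1 → Real.circleAverage f 0 ρ ≤ C) :
    ∫ x in ball s δ, f x ≤ 4 * π * C * δ := by
  classical
  have hC0 : 0 ≤ C := le_trans (Real.circleAverage_nonneg_of_nonneg fun x _ => hf0 x)
    (h (1 / 2) le_rfl (by norm_num))
  have hsub : closedBall s δ ⊆ ball 0 1 := by
    intro x hx
    rw [mem_ball_zero_iff]
    rw [mem_closedBall, dist_eq_norm] at hx
    have := norm_le_norm_add_norm_sub' x s
    linarith
  have hsub' : ball s δ ⊆ ball 0 1 := ball_subset_closedBall.trans hsub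
  have hint : IntegrableOn f (ball s δ) :=
    ((hf.mono hsub).integrableOn_compact (isCompact_closedBall s δ)).mono_set
      ball_subset_closedBall
  set g : ℂ → ℝ≥0∞ := (ball s δ).indicator fun x => ENNReal.ofReal (f x) with hg
  have hgm : Measurable g := by
    have h1 : Measurable ((ball s δ).indicator f) := by
      rw [← Set.piecewise_eq_indicator]
      exact (hf.mono hsub').measurable_piecewise continuousOn_const measurableSet_ball
    have h2 : g = fun x => ENNReal.ofReal ((ball s δ).indicator f x) := by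
      funext x
      by_cases hx : x ∈ ball s δ
      · simp [hg, hx]
      · simp [hg, hx]
    rw [h2]
    exact h1.ennreal_ofReal
  have e1 : ENNReal.ofReal (∫ x in ball s δ, f x) = ∫⁻ x, g x := by
    rw [ofReal_integral_eq_lintegral_ofReal hint (Eventually.of_forall fun x => hf0 x), hg,
      lintegral_indicator measurableSet_ball]
  have e3 : ∫⁻ w, g w = ∫⁻ p in polarCoord.target,
      ENNReal.ofReal p.1 • g (Complex.polarCoord.symm p) :=
    (Complex.lintegral_comp_polarCoord_symm g).symm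
  have e4 : ∫⁻ p in polarCoord.target, ENNReal.ofReal p.1 • g (Complex.polarCoord.symm p)
      = ∫⁻ ρ in Ioi (0 : ℝ), ∫⁻ θ in Ioo (-π) π,
        ENNReal.ofReal ρ • g (Complex.polarCoord.symm (ρ, θ)) := by
    rw [polarCoord_target, Measure.volume_eq_prod, setLIntegral_prod]
    apply Measurable.aemeasurable
    simp only [smul_eq_mul]
    have hsm : Measurable (fun p : ℝ × ℝ => Complex.polarCoord.symm p) := by
      simp only [Complex.polarCoord_symm_apply]
      fun_prop
    exact measurable_fst.ennreal_ofReal.mul (hgm.comp hsm)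
  have hcm : ∀ ρ θ : ℝ, Complex.polarCoord.symm (ρ, θ) = circleMap 0 ρ θ := by
    intro ρ θ
    rw [Complex.polarCoord_symm_apply, circleMap, Complex.exp_mul_I]
    simp
  have e5 : ∀ ρ ∈ Ioi (0 : ℝ), ∫⁻ θ in Ioo (-π) π,
        ENNReal.ofReal ρ • g (Complex.polarCoord.symm (ρ, θ)) ≤
        (Ioo (‖s‖ - δ) (‖s‖ + δ)).indicator (fun _ => ENNReal.ofReal (2 * π * C)) ρ := by
    intro ρ hρ0
    have hρ0' : 0 < ρ := hρ0
    by_cases hρ : ρ ∈ Ioo (‖s‖ - δ) (‖s‖ + δ)
    · rw [Set.indicator_of_mem hρ]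
      have hρ1 : ρ < 1 := hρ.2.trans h2
      have hρ2 : 1 / 2 ≤ ρ := h1.trans hρ.1.le
      have hmem : ∀ θ : ℝ, circleMap 0 ρ θ ∈ ball (0 : ℂ) 1 := by
        intro θ
        rw [mem_ball_zero_iff]
        simp [circleMap, abs_of_pos hρ0', hρ1]
      have hcont : Continuous fun θ : ℝ => f (circleMap 0 ρ θ) :=
        hf.comp_continuous (continuous_circleMap 0 ρ) hmem
      have hintθ : IntegrableOn (fun θ : ℝ => ρ * f (circleMap 0 ρ θ)) (Ioo (-π) π) := by
        have : IntegrableOn (fun θ : ℝ => ρ * f (circleMap 0 ρ θ)) (Icc (-π) π) :=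
          (continuous_const.mul hcont).continuousOn.integrableOn_compact isCompact_Icc
        exact this.mono_set Ioo_subset_Icc_self
      have h3 : ∫⁻ θ in Ioo (-π) π, ENNReal.ofReal ρ • g (Complex.polarCoord.symm (ρ, θ))
          ≤ ∫⁻ θ in Ioo (-π) π, ENNReal.ofReal (ρ * f (circleMap 0 ρ θ)) := by
        refine lintegral_mono fun θ => ?_
        rw [hcm, smul_eq_mul, ENNReal.ofReal_mul hρ0'.le]
        refine mul_le_mul_right ?_ _
        exact Set.indicator_le_self _ _ _
      refine h3.trans ?_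
      rw [← ofReal_integral_eq_lintegral_ofReal hintθ
        (Eventually.of_forall fun θ => mul_nonneg hρ0'.le (hf0 _))]
      apply ENNReal.ofReal_le_ofReal
      rw [integral_const_mul, ← integral_Ioc_eq_integral_Ioo,
        ← intervalIntegral.integral_of_le (by linarith [Real.pi_pos]), circleAverage_eq_symm]
      have h4 := h ρ hρ2 hρ1
      have h2π : 0 < 2 * π := by positivity
      calc ρ * (2 * π * Real.circleAverage f 0 ρ) ≤ ρ * (2 * π * C) :=
            mul_le_mul_of_nonneg_left (mul_le_mul_of_nonneg_left h4 h2π.le) hρ0'.le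
        _ ≤ 1 * (2 * π * C) := mul_le_mul_of_nonneg_right hρ1.le (by positivity)
        _ = 2 * π * C := one_mul _
    · rw [Set.indicator_of_notMem hρ]
      apply le_of_eq
      rw [lintegral_eq_zero_iff']
      · refine Eventually.of_forall fun θ => ?_
        have hnot : circleMap 0 ρ θ ∉ ball s δ := by
          intro hmem
          apply hρ
          rw [mem_ball, dist_eq_norm] at hmem
          have hn : ‖circleMap 0 ρ θ‖ = ρ := by simp [circleMap, abs_of_pos hρ0']
          have a1 := norm_le_norm_add_norm_sub' (circleMap 0 ρ θ) s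
          have a2 := norm_le_norm_add_norm_sub' s (circleMap 0 ρ θ)
          rw [norm_sub_rev] at a2
          rw [hn] at a1 a2
          exact ⟨by linarith, by linarith⟩
        simp only [hcm, hg, Set.indicator_of_notMem hnot, smul_zero, Pi.zero_apply]
      · apply Measurable.aemeasurable
        simp only [smul_eq_mul]
        refine measurable_const.mul (hgm.comp ?_)
        simp only [Complex.polarCoord_symm_apply]
        fun_prop
  have h0 : 0 ≤ 4 * π * C * δ := by positivity
  rw [← ENNReal.ofReal_le_ofReal_iff h0, e1, e3, e4]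
  calc ∫⁻ ρ in Ioi (0 : ℝ), ∫⁻ θ in Ioo (-π) π,
        ENNReal.ofReal ρ • g (Complex.polarCoord.symm (ρ, θ))
      ≤ ∫⁻ ρ in Ioi (0 : ℝ),
        (Ioo (‖s‖ - δ) (‖s‖ + δ)).indicator (fun _ => ENNReal.ofReal (2 * π * C)) ρ :=
        setLIntegral_mono' measurableSet_Ioi e5
    _ ≤ ∫⁻ ρ : ℝ, (Ioo (‖s‖ - δ) (‖s‖ + δ)).indicator (fun _ => ENNReal.ofReal (2 * π * C)) ρ :=
        setLIntegral_le_lintegral _ _
    _ = ENNReal.ofReal (2 * π * C) * ENNReal.ofReal (2 * δ) := by
        rw [lintegral_indicator measurableSet_Ioo, lintegral_const,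
          Measure.restrict_apply MeasurableSet.univ, Set.univ_inter, Real.volume_Ioo]
        congr 2
        ring
    _ = ENNReal.ofReal (4 * π * C * δ) := by
        rw [← ENNReal.ofReal_mul (by positivity)]
        congr 1
        ring

/-- A4. Bounded circle averages of `log⁺ |H|` give `log⁺ |H s| ≤ K C / (1 - |s|)`. -/
theorem bounded_type : ∃ K : ℝ, 0 < K ∧
    ∀ (H : ℂ → ℂ) (C : ℝ), DifferentiableOn ℂ H (ball 0 1) →
      (∀ r : ℝ, 1 / 2 ≤ r → r < 1 →
        Real.circleAverage (fun x => Real.posLog ‖H x‖) 0 r ≤ C) →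
      ∀ s ∈ ball (0 : ℂ) 1, Real.posLog ‖H s‖ ≤ K * C / (1 - ‖s‖) := by
  refine ⟨32, by norm_num, ?_⟩
  intro H C hH hav s hs
  have hs1 : ‖s‖ < 1 := mem_ball_zero_iff.1 hs
  have hC0 : 0 ≤ C := le_trans (Real.circleAverage_nonneg_of_nonneg fun x _ =>
    Real.posLog_nonneg) (hav (1 / 2) le_rfl (by norm_num))
  have hcont : ContinuousOn (fun x => Real.posLog ‖H x‖) (ball 0 1) :=
    Real.continuous_posLog.comp_continuousOn hH.continuousOn.norm
  have hfar : ∀ s : ℂ, ‖s‖ < 1 → 3 / 4 ≤ ‖s‖ → Real.posLog ‖H s‖ ≤ 8 * C / (1 - ‖s‖) := by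
    intro s hs1 hs2
    set δ : ℝ := (1 - ‖s‖) / 2 with hδ
    have hδ0 : 0 < δ := by rw [hδ]; linarith
    have hsub : closedBall s δ ⊆ ball 0 1 := by
      intro x hx
      rw [mem_ball_zero_iff]
      rw [mem_closedBall, dist_eq_norm] at hx
      have := norm_le_norm_add_norm_sub' x s
      linarith
    have h1 := submean_area hδ0 ((hH.analyticOnNhd isOpen_ball).mono hsub)
    have h2 := area_le_of_circle (f := fun x => Real.posLog ‖H x‖) (s := s) (C := C) hδ0
      (by rw [hδ]; linarith) (by rw [hδ]; linarith) hcont (fun x => Real.posLog_nonneg) hav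
    have hp : 0 < π * δ ^ 2 := by positivity
    rw [← div_eq_inv_mul, le_div_iff₀ hp] at h1
    have h3 := h1.trans h2
    have hd : 0 < 1 - ‖s‖ := by linarith
    rw [le_div_iff₀ hd]
    have h4 : 1 - ‖s‖ = 2 * δ := by rw [hδ]; ring
    rw [h4]
    have h5 : Real.posLog ‖H s‖ * δ * (π * δ) ≤ 4 * C * (π * δ) := by
      calc Real.posLog ‖H s‖ * δ * (π * δ) = Real.posLog ‖H s‖ * (π * δ ^ 2) := by ring
        _ ≤ 4 * π * C * δ := h3
        _ = 4 * C * (π * δ) := by ring
    have h6 := le_of_mul_le_mul_right h5 (by positivity)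
    linarith
  have hd : 0 < 1 - ‖s‖ := by linarith
  rcases le_or_gt (3 / 4) ‖s‖ with h34 | h34
  · refine (hfar s hs1 h34).trans ?_
    apply div_le_div_of_nonneg_right _ hd.le
    linarith
  · have hsb : s ∈ closedBall (0 : ℂ) (3 / 4) := by
      rw [mem_closedBall_zero_iff]; exact h34.le
    have hsub : closedBall (0 : ℂ) (3 / 4) ⊆ ball 0 1 := closedBall_subset_ball (by norm_num)
    have hdc : DiffContOnCl ℂ H (ball 0 (3 / 4)) := by
      apply DifferentiableOn.diffContOnCl
      rw [closure_ball _ (by norm_num)]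
      exact hH.mono hsub
    have hne : (ball (0 : ℂ) (3 / 4)).Nonempty := ⟨0, by simp⟩
    obtain ⟨w, hw1, hw2⟩ := Complex.exists_mem_frontier_isMaxOn_norm isBounded_ball hne hdc
    rw [frontier_ball _ (by norm_num), mem_sphere_zero_iff_norm] at hw1
    have h1 : ‖H s‖ ≤ ‖H w‖ := by
      apply hw2
      rw [closure_ball _ (by norm_num)]
      exact hsb
    have h2 : Real.posLog ‖H s‖ ≤ Real.posLog ‖H w‖ :=
      Real.posLog_le_posLog (norm_nonneg _) h1
    have h3 := hfar w (by rw [hw1]; norm_num) (by rw [hw1])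
    rw [hw1] at h3
    have h4 : 8 * C / (1 - 3 / 4) = 32 * C := by ring
    rw [h4] at h3
    refine (h2.trans h3).trans ?_
    rw [le_div_iff₀ hd]
    have : 0 ≤ ‖s‖ := norm_nonneg s
    nlinarith

end MP2c3e4e
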