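import Mathlib

open MeasureTheory Set Metric Filter Topology Complex
open scoped Real ENNReal

namespace MP2c3e4e

/-- A5. Neighbourhoods of Lipschitz curves have small area. -/
theorem area_nbhd {Γ : Set ℂ} {L : NNReal} {γ : ℝ → ℂ} (hγ : LipschitzOnWith L γ (Icc 0 1))
    (hΓ : Γ ⊆ γ '' Icc 0 1) (hne : Γ.Nonempty) : ∃ C : ℝ, 0 < C ∧ ∀ t : ℝ, 0 < t → t ≤ 1 →
      volume {x : ℂ | infDist x Γ < t} ≤ ENNReal.ofReal (C * t) := by
  refine ⟨3 * π * ((L : ℝ) + 1) ^ 2, by positivity, fun t ht ht1 => ?_⟩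
  set N : ℕ := ⌈1 / t⌉₊ with hN
  have hNpos : 0 < N := Nat.ceil_pos.2 (by positivity)
  have hNr : (0 : ℝ) < N := by exact_mod_cast hNpos
  have hN1 : 1 / t ≤ N := Nat.le_ceil _
  have hN2 : (N : ℝ) < 1 / t + 1 := Nat.ceil_lt_add_one (by positivity)
  have hNt : 1 / (N : ℝ) ≤ t := by
    rw [div_le_iff₀ hNr]
    rw [div_le_iff₀ ht] at hN1
    linarith
  have hcov : {x : ℂ | infDist x Γ < t} ⊆
      ⋃ k ∈ Finset.range (N + 1), ball (γ ((k : ℝ) / N)) (((L : ℝ) + 1) * t) := by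
    intro x hx
    obtain ⟨y, hy, hxy⟩ := (infDist_lt_iff hne).1 hx
    obtain ⟨s, hs, rfl⟩ := hΓ hy
    have hsN : 0 ≤ s * N := mul_nonneg hs.1 hNr.le
    set k : ℕ := ⌊s * N⌋₊ with hk
    have hk1 : (k : ℝ) ≤ s * N := Nat.floor_le hsN
    have hk2 : s * N < k + 1 := Nat.lt_floor_add_one _
    have hkN : (k : ℝ) ≤ N := hk1.trans (by nlinarith [hs.2])
    have hkmem : (k : ℝ) / N ∈ Icc (0 : ℝ) 1 :=
      ⟨by positivity, (div_le_one hNr).2 hkN⟩
    have hd : dist s ((k : ℝ) / N) ≤ t := by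
      rw [Real.dist_eq, abs_le]
      have h1 : (k : ℝ) / N ≤ s := by rwa [div_le_iff₀ hNr]
      have h2 : s - (k : ℝ) / N ≤ 1 / N := by
        rw [sub_le_iff_le_add, ← add_div, le_div_iff₀ hNr]
        linarith
      constructor <;> linarith
    simp only [mem_iUnion, Finset.mem_range, mem_ball]
    refine ⟨k, ?_, ?_⟩
    · have : k ≤ N := by exact_mod_cast hkN
      omega
    · have h3 : dist (γ s) (γ ((k : ℝ) / N)) ≤ L * t :=
        (hγ.dist_le_mul s hs _ hkmem).trans (mul_le_mul_of_nonneg_left hd L.2)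
      calc dist x (γ ((k : ℝ) / N)) ≤ dist x (γ s) + dist (γ s) (γ ((k : ℝ) / N)) :=
            dist_triangle _ _ _
        _ < ((L : ℝ) + 1) * t := by linarith
  have hr : 0 ≤ ((L : ℝ) + 1) * t := by positivity
  calc volume {x : ℂ | infDist x Γ < t}
      ≤ volume (⋃ k ∈ Finset.range (N + 1), ball (γ ((k : ℝ) / N)) (((L : ℝ) + 1) * t)) :=
        measure_mono hcov
    _ ≤ ∑ k ∈ Finset.range (N + 1), volume (ball (γ ((k : ℝ) / N)) (((L : ℝ) + 1) * t)) :=
        measure_biUnion_finset_le _ _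
    _ = ∑ k ∈ Finset.range (N + 1), ENNReal.ofReal ((((L : ℝ) + 1) * t) ^ 2 * π) := by
        refine Finset.sum_congr rfl fun k _ => ?_
        rw [Complex.volume_ball, ENNReal.ofReal_mul (by positivity :
          (0 : ℝ) ≤ (((L : ℝ) + 1) * t) ^ 2), ENNReal.ofReal_pow hr]
        congr 1
        rw [ENNReal.ofReal, Real.toNNReal_of_nonneg Real.pi_pos.le]
        rfl
    _ = ENNReal.ofReal (((N : ℝ) + 1) * ((((L : ℝ) + 1) * t) ^ 2 * π)) := by
        rw [Finset.sum_const, Finset.card_range, nsmul_eq_mul,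
          ENNReal.ofReal_mul (by positivity : (0 : ℝ) ≤ (N : ℝ) + 1)]
        congr 1
        rw [← Nat.cast_add_one, ENNReal.ofReal_natCast]
    _ ≤ ENNReal.ofReal (3 * π * ((L : ℝ) + 1) ^ 2 * t) := by
        refine ENNReal.ofReal_le_ofReal ?_
        have h1 : ((N : ℝ) + 1) * t ≤ 3 := by
          have h2 : (N : ℝ) * t < (1 / t + 1) * t := mul_lt_mul_of_pos_right hN2 ht
          have h3 : (1 / t + 1) * t = 1 + t := by field_simp
          nlinarith
        have h4 : ((N : ℝ) + 1) * ((((L : ℝ) + 1) * t) ^ 2 * π) =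
            (((N : ℝ) + 1) * t) * (π * ((L : ℝ) + 1) ^ 2 * t) := by ring
        rw [h4]
        have h5 : 0 ≤ π * ((L : ℝ) + 1) ^ 2 * t := by positivity
        nlinarith [mul_le_mul_of_nonneg_right h1 h5]

end MP2c3e4e
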