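import Mathlib

/-!
B1: Wirtinger's inequality for functions supported on a set of measure `< ℓ`.
-/

open MeasureTheory Set Metric Filter Topology
open scoped Real ENNReal

namespace MP2c3e4e

theorem hasDerivAt_mul_of_zero {v w : ℝ → ℝ} {v' x : ℝ} (hv : HasDerivAt v v' x) (h0 : v x = 0)
    (hw : ContinuousAt w x) : HasDerivAt (fun y => v y * w y) (v' * w x) x := by
  rw [hasDerivAt_iff_tendsto_slope] at hv ⊢
  have h1 : slope (fun y => v y * w y) x = fun y => slope v x y * w y := by
    ext y
    simp only [slope, vsub_eq_sub, smul_eq_mul, h0]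
    ring
  rw [h1]
  exact hv.mul (hw.tendsto.mono_left nhdsWithin_le_nhds)

/-- B1. Wirtinger's inequality for functions supported on a set of measure `< ℓ`. -/
theorem wirtinger {v v' : ℝ → ℝ} {a b ℓ : ℝ} (hab : a ≤ b) (hℓ : 0 < ℓ)
    (hv : ∀ x, HasDerivAt v (v' x) x) (hv' : Continuous v') (ha : v a = 0) (hb : v b = 0)
    (hm : volume {x ∈ Icc a b | v x ≠ 0} < ENNReal.ofReal ℓ) :
    (π / ℓ) ^ 2 * ∫ x in a..b, v x ^ 2 ≤ ∫ x in a..b, v' x ^ 2 := by
  have hpi := Real.pi_pos
  have hvc : Continuous v := continuous_iff_continuousAt.mpr fun x => (hv x).continuousAt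
  set U : Set ℝ := {x | v x ≠ 0} with hU
  have hUo : IsOpen U := isOpen_ne_fun hvc continuous_const
  have hUm : MeasurableSet U := hUo.measurableSet
  set A : Set ℝ := {x ∈ Icc a b | v x ≠ 0} with hA
  have hAfin : volume A ≠ ⊤ := ne_top_of_lt hm
  set μ₀ := (volume A).toReal with hμ₀
  have hμℓ : μ₀ < ℓ := by
    rwa [ENNReal.lt_ofReal_iff_toReal_lt hAfin] at hm
  have hμ0 : 0 ≤ μ₀ := ENNReal.toReal_nonneg
  set k := π / ℓ with hk
  have hkpos : 0 < k := by positivity
  set η := (ℓ - μ₀) / 2 with hη
  have hηpos : 0 < η := by rw [hη]; linarith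
  -- the arc length along `U`
  set s : ℝ → ℝ := fun x => ∫ t in a..x, U.indicator (fun _ => (1:ℝ)) t with hs
  have hint : ∀ x y : ℝ, IntervalIntegrable (U.indicator fun _ => (1:ℝ)) volume x y := by
    intro x y
    have h1 : ∀ x y : ℝ, IntegrableOn (U.indicator fun _ => (1:ℝ)) (Ioc x y) volume := by
      intro x y
      have h2 : IntegrableOn (fun _ : ℝ => (1:ℝ)) (Ioc x y) volume :=
        continuous_const.integrableOn_Ioc
      exact Integrable.indicator h2 hUm
    exact ⟨h1 x y, h1 y x⟩
  have hsc : Continuous s := intervalIntegral.continuous_primitive hint a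
  have hs0 : ∀ x ∈ Icc a b, 0 ≤ s x := fun x hx =>
    intervalIntegral.integral_nonneg hx.1 fun t _ => indicator_nonneg (fun _ _ => zero_le_one) t
  have hsμ : ∀ x ∈ Icc a b, s x ≤ μ₀ := by
    intro x hx
    have h1 : s x = (volume (U ∩ Ioc a x)).toReal := by
      simp only [hs]
      rw [intervalIntegral.integral_of_le hx.1, integral_indicator hUm,
        Measure.restrict_restrict hUm]
      simp [Measure.real]
    rw [h1]
    refine ENNReal.toReal_mono hAfin (measure_mono ?_)
    rintro t ⟨ht1, ht2⟩
    exact ⟨⟨ht2.1.le, ht2.2.trans hx.2⟩, ht1⟩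
  have hs1 : ∀ x ∈ U, HasDerivAt s 1 x := by
    intro x hx
    have h1 : ContinuousAt (U.indicator fun _ => (1:ℝ)) x := by
      have : (U.indicator fun _ => (1:ℝ)) =ᶠ[𝓝 x] fun _ => 1 := by
        filter_upwards [hUo.mem_nhds hx] with y hy using indicator_of_mem hy _
      exact continuousAt_const.congr this.symm
    have h2 := intervalIntegral.integral_hasDerivAt_right (hint a x)
      ((measurable_const.indicator hUm).stronglyMeasurable.stronglyMeasurableAtFilter) h1
    rwa [indicator_of_mem hx] at h2
  -- the angle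
  set ψ : ℝ → ℝ := fun x => k * (s x + η) with hψ
  have hψ0 : ∀ x ∈ Icc a b, 0 < ψ x := fun x hx => by
    have := hs0 x hx
    have : 0 < s x + η := by linarith
    positivity
  have hψπ : ∀ x ∈ Icc a b, ψ x < π := fun x hx => by
    have h1 := hsμ x hx
    have h2 : s x + η < ℓ := by rw [hη]; linarith
    calc ψ x = k * (s x + η) := rfl
      _ < k * ℓ := by gcongr
      _ = π := by rw [hk]; field_simp
  have hψc : Continuous ψ := continuous_const.mul (hsc.add continuous_const)
  have hsin : ∀ x ∈ Icc a b, 0 < Real.sin (ψ x) := fun x hx =>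
    Real.sin_pos_of_pos_of_lt_pi (hψ0 x hx) (hψπ x hx)
  set c : ℝ → ℝ := fun x => k * (Real.cos (ψ x) / Real.sin (ψ x)) with hc
  have hcc : ContinuousOn c (Icc a b) :=
    continuousOn_const.mul ((Real.continuous_cos.comp hψc).continuousOn.div
      (Real.continuous_sin.comp hψc).continuousOn fun x hx => (hsin x hx).ne')
  have hcd : ∀ x ∈ Ioo a b, x ∈ U → HasDerivAt c (-(k ^ 2 + c x ^ 2)) x := by
    intro x hx hxU
    have h0 := hsin x (Ioo_subset_Icc_self hx)
    have h1 : HasDerivAt ψ k x := by
      have := ((hs1 x hxU).add_const η).const_mul k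
      simpa using this
    have h2 := (h1.cos.div h1.sin h0.ne').const_mul k
    refine HasDerivAt.congr_deriv h2 ?_
    simp only [hc]
    field_simp
    ring
  set g : ℝ → ℝ := fun x => 2 * v x * v' x * c x - v x ^ 2 * (k ^ 2 + c x ^ 2) with hg
  have hgc : ContinuousOn g (Icc a b) :=
    (((continuousOn_const.mul hvc.continuousOn).mul hv'.continuousOn).mul hcc).sub
      ((hvc.continuousOn.pow 2).mul (continuousOn_const.add (hcc.pow 2)))
  have hΦd : ∀ x ∈ Ioo a b, HasDerivAt (fun x => v x * (v x * c x)) (U.indicator g x) x := by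
    intro x hx
    by_cases hxU : x ∈ U
    · rw [indicator_of_mem hxU]
      refine HasDerivAt.congr_deriv ((hv x).mul ((hv x).mul (hcd x hx hxU))) ?_
      simp only [hg]; ring
    · rw [indicator_of_notMem hxU]
      have h0 : v x = 0 := by simpa [hU] using hxU
      have hcx : ContinuousAt c x := hcc.continuousAt (Icc_mem_nhds hx.1 hx.2)
      have h1 := hasDerivAt_mul_of_zero (w := fun x => v x * c x) (hv x) h0
        (hvc.continuousAt.mul hcx)
      simpa [h0] using h1
  have hΦc : ContinuousOn (fun x => v x * (v x * c x)) (Icc a b) :=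
    hvc.continuousOn.mul (hvc.continuousOn.mul hcc)
  have hgi : IntervalIntegrable (U.indicator g) volume a b := by
    rw [intervalIntegrable_iff_integrableOn_Icc_of_le hab]
    exact ((hgc.integrableOn_compact isCompact_Icc).integrable).indicator hUm
  have hzero : ∫ x in a..b, U.indicator g x = 0 := by
    rw [intervalIntegral.integral_eq_sub_of_hasDerivAt_of_le hab hΦc hΦd hgi, ha, hb]
    simp
  have hmono : ∫ x in a..b, U.indicator g x ≤ ∫ x in a..b, (v' x ^ 2 - k ^ 2 * v x ^ 2) := by
    refine intervalIntegral.integral_mono_on hab hgi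
      ((hv'.pow 2).sub (continuous_const.mul (hvc.pow 2))).continuousOn.intervalIntegrable
      fun x hx => ?_
    by_cases hxU : x ∈ U
    · rw [indicator_of_mem hxU]
      simp only [hg]
      nlinarith [sq_nonneg (v' x - v x * c x)]
    · rw [indicator_of_notMem hxU]
      have h0 : v x = 0 := by simpa [hU] using hxU
      rw [h0]
      have := sq_nonneg (v' x)
      linarith
  rw [hzero] at hmono
  have i1 : IntervalIntegrable (fun x => v' x ^ 2) volume a b := (hv'.pow 2).intervalIntegrable _ _
  have i2 : IntervalIntegrable (fun x => k ^ 2 * v x ^ 2) volume a b :=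
    (continuous_const.mul (hvc.pow 2)).intervalIntegrable _ _
  rw [intervalIntegral.integral_sub i1 i2, intervalIntegral.integral_const_mul] at hmono
  linarith

end MP2c3e4e
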