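import Pool.Agent.Lib_MP_2c3e4e_an.B1

/-!
B2: Carleman's differential inequality for one function.
-/

open MeasureTheory Set Metric Filter Topology Complex
open scoped Real ENNReal

namespace MP2c3e4e

/-- The convex function of `m = |F|²` used in Carleman's inequality:
`h m = log m - 2 + (log m + 2)/m` for `m ≥ 1` and `0` for `m ≤ 1`. -/
noncomputable def hC (m : ℝ) : ℝ := if m ≤ 1 then 0 else Real.log m - 2 + (Real.log m + 2) / m

/-- `v ζ = h (|F ζ|²)`, a `C²` subharmonic function vanishing where `|F| ≤ 1`. -/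
noncomputable def vC (F : ℂ → ℂ) (ζ : ℂ) : ℝ := hC (normSq (F ζ))

/-- `φ t = ∫ v(t + iθ)² dθ`. -/
noncomputable def phiC (F : ℂ → ℂ) (θ₀ t : ℝ) : ℝ :=
  ∫ θ in θ₀..(θ₀ + 2 * π), vC F (t + θ * I) ^ 2

/-! ### the function `hC` -/

theorem glue {H H' : ℝ → ℝ} (hH : ∀ m : ℝ, 1 ≤ m → HasDerivAt H (H' m) m) (h0 : H 1 = 0)
    (h1 : H' 1 = 0) (m : ℝ) :
    HasDerivAt (fun m => if m ≤ 1 then 0 else H m) (if m ≤ 1 then 0 else H' m) m := by
  rcases lt_trichotomy m 1 with hm | hm | hm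
  · rw [if_pos hm.le]
    refine (hasDerivAt_const m (0:ℝ)).congr_of_eventuallyEq ?_
    filter_upwards [Iio_mem_nhds hm] with x hx
    rw [if_pos (le_of_lt hx)]
  · subst hm
    rw [if_pos le_rfl]
    have e1 : HasDerivWithinAt (fun m => if m ≤ 1 then 0 else H m) 0 (Iic 1) 1 := by
      refine (hasDerivWithinAt_const (1:ℝ) (Iic 1) (0:ℝ)).congr (fun x hx => ?_) ?_
      · exact if_pos hx
      · exact if_pos le_rfl
    have e2 : HasDerivWithinAt (fun m => if m ≤ 1 then 0 else H m) 0 (Ici 1) 1 := by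
      have h2 := (hH 1 le_rfl).hasDerivWithinAt (s := Ici 1)
      rw [h1] at h2
      refine h2.congr (fun x hx => ?_) ?_
      · rcases eq_or_lt_of_le (show (1:ℝ) ≤ x from hx) with h | h
        · rw [← h, if_pos le_rfl, h0]
        · rw [if_neg (not_le.mpr h)]
      · rw [if_pos le_rfl, h0]
    have e3 := e1.union e2
    rw [Iic_union_Ici] at e3
    exact e3.hasDerivAt (by simp)
  · rw [if_neg (not_le.mpr hm)]
    refine (hH m hm.le).congr_of_eventuallyEq ?_
    filter_upwards [Ioi_mem_nhds hm] with x hx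
    rw [if_neg (not_le.mpr hx)]

/-- first derivative of `hC` -/
noncomputable def hC1 (m : ℝ) : ℝ := if m ≤ 1 then 0 else (m - 1 - Real.log m) / m ^ 2

/-- second derivative of `hC` -/
noncomputable def hC2 (m : ℝ) : ℝ := if m ≤ 1 then 0 else (2 * Real.log m - (m - 1)) / m ^ 3

theorem hC_deriv (m : ℝ) : HasDerivAt hC (hC1 m) m := by
  have := glue (H := fun m => Real.log m - 2 + (Real.log m + 2) / m)
    (H' := fun m => (m - 1 - Real.log m) / m ^ 2) (fun m hm => ?_) (by simp) (by simp) m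
  · exact this
  · have hm0 : m ≠ 0 := by linarith
    have h1 := Real.hasDerivAt_log hm0
    have h2 := (h1.sub_const 2).add ((h1.add_const 2).div (hasDerivAt_id m) hm0)
    refine HasDerivAt.congr_deriv (f := fun m => Real.log m - 2 + (Real.log m + 2) / m) h2 ?_
    simp only [id]
    field_simp
    ring

theorem hC1_deriv (m : ℝ) : HasDerivAt hC1 (hC2 m) m := by
  have := glue (H := fun m => (m - 1 - Real.log m) / m ^ 2)
    (H' := fun m => (2 * Real.log m - (m - 1)) / m ^ 3) (fun m hm => ?_) (by simp) (by simp) m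
  · exact this
  · have hm0 : m ≠ 0 := by linarith
    have h1 := Real.hasDerivAt_log hm0
    have h2 := ((((hasDerivAt_id m).sub_const 1).sub h1).div (hasDerivAt_pow 2 m)
      (pow_ne_zero 2 hm0))
    refine HasDerivAt.congr_deriv (f := fun m => (m - 1 - Real.log m) / m ^ 2) h2 ?_
    simp only [id, Pi.sub_apply]
    field_simp
    ring

theorem hC_cont : Continuous hC :=
  continuous_iff_continuousAt.mpr fun m => (hC_deriv m).continuousAt

theorem hC1_cont : Continuous hC1 :=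
  continuous_iff_continuousAt.mpr fun m => (hC1_deriv m).continuousAt

theorem hC2_cont : Continuous hC2 := by
  have h1 : hC2 = fun m => if m ≤ 1 then (0:ℝ) else
      (2 * Real.log (max m 1) - (max m 1 - 1)) / (max m 1) ^ 3 := by
    ext m
    by_cases hm : m ≤ 1
    · rw [hC2, if_pos hm, if_pos hm]
    · rw [hC2, if_neg hm, if_neg hm, max_eq_left (le_of_lt (not_le.mp hm))]
  rw [h1]
  have hmax : Continuous fun m : ℝ => max m 1 := continuous_id.max continuous_const
  have hne : ∀ m : ℝ, max m 1 ≠ 0 := fun m => by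
    have := le_max_right m 1; linarith
  refine continuous_const.if_le ?_ continuous_id continuous_const ?_
  · refine ((continuous_const.mul (hmax.log hne)).sub (hmax.sub continuous_const)).div
      (hmax.pow 3) fun m => pow_ne_zero 3 (hne m)
  · intro m hm
    rw [hm]; simp

theorem hC_zero {m : ℝ} (hm : m ≤ 1) : hC m = 0 := if_pos hm

theorem hC_nonneg (m : ℝ) : 0 ≤ hC m := by
  by_cases hm : m ≤ 1
  · rw [hC_zero hm]
  · push Not at hm
    have hmono : MonotoneOn hC (Ici 1) := by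
      refine monotoneOn_of_deriv_nonneg (convex_Ici 1) hC_cont.continuousOn
        (fun x _ => (hC_deriv x).differentiableAt.differentiableWithinAt) fun x hx => ?_
      rw [interior_Ici] at hx
      rw [(hC_deriv x).deriv, hC1, if_neg (not_le.mpr hx)]
      have := Real.log_le_sub_one_of_pos (show (0:ℝ) < x from lt_trans one_pos hx)
      apply div_nonneg _ (by positivity)
      linarith
    have := hmono (mem_Ici.mpr le_rfl) (mem_Ici.mpr hm.le) hm.le
    rwa [hC_zero le_rfl] at this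

theorem hC_key (m : ℝ) : 0 ≤ m * hC2 m + hC1 m := by
  by_cases hm : m ≤ 1
  · rw [hC1, hC2, if_pos hm, if_pos hm]; simp
  · push Not at hm
    rw [hC1, hC2, if_neg (not_le.mpr hm), if_neg (not_le.mpr hm)]
    have h1 : m * ((2 * Real.log m - (m - 1)) / m ^ 3) + (m - 1 - Real.log m) / m ^ 2 =
        Real.log m / m ^ 2 := by
      have : m ≠ 0 := by linarith
      field_simp
      ring
    rw [h1]
    have := Real.log_nonneg hm.le
    positivity

/-! ### differentiation under the integral sign -/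

theorem deriv_under {G G' : ℝ → ℝ → ℝ} (hG : ∀ t θ, HasDerivAt (fun s => G s θ) (G' t θ) t)
    (hGc : ∀ t, Continuous (G t)) (hG'c : Continuous fun p : ℝ × ℝ => G' p.1 p.2)
    (a b t : ℝ) : HasDerivAt (fun s => ∫ θ in a..b, G s θ) (∫ θ in a..b, G' t θ) t := by
  obtain ⟨C, hC⟩ := ((isCompact_Icc (a := t - 1) (b := t + 1)).prod
    (isCompact_uIcc (a := a) (b := b))).exists_bound_of_continuousOn hG'c.continuousOn
  have hs : Icc (t - 1) (t + 1) ∈ 𝓝 t := Icc_mem_nhds (by linarith) (by linarith)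
  refine (intervalIntegral.hasDerivAt_integral_of_dominated_loc_of_deriv_le (bound := fun _ => C)
    hs (Eventually.of_forall fun s => (hGc s).aestronglyMeasurable)
    ((hGc t).intervalIntegrable a b) ?_ ?_ intervalIntegrable_const ?_).2
  · exact (hG'c.comp (continuous_const.prodMk continuous_id)).aestronglyMeasurable
  · exact ae_of_all _ fun θ hθ s hs' => hC (s, θ) ⟨hs', uIoc_subset_uIcc hθ⟩
  · exact ae_of_all _ fun θ _ s _ => hG s θ

/-! ### complex calculus -/

theorem deriv_t {F F' : ℂ → ℂ} (hF : ∀ z, HasDerivAt F (F' z) z) (t θ : ℝ) :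
    HasDerivAt (fun s : ℝ => F (s + θ * I)) (F' (t + θ * I)) t := by
  have h1 : HasDerivAt (fun s : ℝ => (s : ℂ) + θ * I) 1 t :=
    (Complex.ofRealCLM.hasDerivAt (x := t)).add_const _
  have h2 := HasDerivAt.scomp (𝕜 := ℝ) t (hF (t + θ * I)) h1
  rw [one_smul] at h2
  exact h2

theorem deriv_th {F F' : ℂ → ℂ} (hF : ∀ z, HasDerivAt F (F' z) z) (t θ : ℝ) :
    HasDerivAt (fun s : ℝ => F (t + s * I)) (F' (t + θ * I) * I) θ := by
  have h1 : HasDerivAt (fun s : ℝ => (t : ℂ) + s * I) (1 * I) θ :=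
    ((Complex.ofRealCLM.hasDerivAt (x := θ)).mul_const I).const_add _
  have h2 := HasDerivAt.scomp (𝕜 := ℝ) θ (hF (t + θ * I)) h1
  rw [one_mul, smul_eq_mul, mul_comm] at h2
  exact h2

theorem deriv_normSq {f : ℝ → ℂ} {f' : ℂ} {t : ℝ} (h : HasDerivAt f f' t) :
    HasDerivAt (fun s => normSq (f s)) (2 * (f' * (starRingEnd ℂ) (f t)).re) t := by
  have hre : HasDerivAt (fun s => (f s).re) f'.re t := Complex.reCLM.hasFDerivAt.comp_hasDerivAt t h
  have him : HasDerivAt (fun s => (f s).im) f'.im t := Complex.imCLM.hasFDerivAt.comp_hasDerivAt t h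
  have h1 := (hre.mul hre).add (him.mul him)
  refine HasDerivAt.congr_deriv (f := fun s => normSq (f s)) h1 ?_
  simp only [mul_re, conj_re, conj_im]
  ring

theorem deriv_re {f : ℝ → ℂ} {f' : ℂ} {t : ℝ} (h : HasDerivAt f f' t) :
    HasDerivAt (fun s => (f s).re) f'.re t := Complex.reCLM.hasFDerivAt.comp_hasDerivAt t h

theorem deriv_im {f : ℝ → ℂ} {f' : ℂ} {t : ℝ} (h : HasDerivAt f f' t) :
    HasDerivAt (fun s => (f s).im) f'.im t := Complex.imCLM.hasFDerivAt.comp_hasDerivAt t h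

theorem deriv_conj {f : ℝ → ℂ} {f' : ℂ} {t : ℝ} (h : HasDerivAt f f' t) :
    HasDerivAt (fun s => (starRingEnd ℂ) (f s)) ((starRingEnd ℂ) f') t :=
  (Complex.conjCLE : ℂ →L[ℝ] ℂ).hasFDerivAt.comp_hasDerivAt t h

/-- B2. Carleman's differential inequality for one function. -/
theorem carleman_one {F : ℂ → ℂ} (hF : Differentiable ℂ F)
    (hper : ∀ ζ, F (ζ + 2 * π * I) = F ζ) (θ₀ : ℝ) :
    ∃ φ₁ φ₂ : ℝ → ℝ, (∀ t, HasDerivAt (phiC F θ₀) (φ₁ t) t) ∧ (∀ t, HasDerivAt φ₁ (φ₂ t) t) ∧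
      Continuous φ₂ ∧
      ∀ t ℓ : ℝ, 0 < ℓ → ‖F (t + θ₀ * I)‖ ≤ 1 →
        volume {θ ∈ Icc θ₀ (θ₀ + 2 * π) | 1 < ‖F (t + θ * I)‖} < ENNReal.ofReal ℓ →
        φ₁ t ^ 2 / 2 + 2 * (π / ℓ) ^ 2 * phiC F θ₀ t ^ 2 ≤ φ₂ t * phiC F θ₀ t := by
  have hF1 : Differentiable ℂ (deriv F) := fun z =>
    ((hF.analyticAt z).deriv).differentiableAt
  have hF2 : Differentiable ℂ (deriv (deriv F)) := fun z =>
    ((hF1.analyticAt z).deriv).differentiableAt
  have d0 : ∀ z, HasDerivAt F (deriv F z) z := fun z => (hF z).hasDerivAt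
  have d1 : ∀ z, HasDerivAt (deriv F) (deriv (deriv F) z) z := fun z => (hF1 z).hasDerivAt
  set ζ : ℝ → ℝ → ℂ := fun t θ => (t : ℂ) + θ * I with hζ
  have hζc : Continuous fun p : ℝ × ℝ => ζ p.1 p.2 := by
    simp only [hζ]; fun_prop
  set m : ℝ → ℝ → ℝ := fun t θ => normSq (F (ζ t θ)) with hm
  set P : ℝ → ℝ → ℂ := fun t θ => deriv F (ζ t θ) * (starRingEnd ℂ) (F (ζ t θ)) with hP
  set S : ℝ → ℝ → ℂ := fun t θ => deriv (deriv F) (ζ t θ) * (starRingEnd ℂ) (F (ζ t θ)) with hS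
  set N : ℝ → ℝ → ℝ := fun t θ => normSq (deriv F (ζ t θ)) with hN
  have hFc : Continuous fun p : ℝ × ℝ => F (ζ p.1 p.2) := hF.continuous.comp hζc
  have hF1c : Continuous fun p : ℝ × ℝ => deriv F (ζ p.1 p.2) := hF1.continuous.comp hζc
  have hF2c : Continuous fun p : ℝ × ℝ => deriv (deriv F) (ζ p.1 p.2) := hF2.continuous.comp hζc
  have hmc : Continuous fun p : ℝ × ℝ => m p.1 p.2 := Complex.continuous_normSq.comp hFc
  have hPc : Continuous fun p : ℝ × ℝ => P p.1 p.2 :=
    hF1c.mul (Complex.continuous_conj.comp hFc)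
  have hSc : Continuous fun p : ℝ × ℝ => S p.1 p.2 :=
    hF2c.mul (Complex.continuous_conj.comp hFc)
  have hNc : Continuous fun p : ℝ × ℝ => N p.1 p.2 := Complex.continuous_normSq.comp hF1c
  -- derivatives
  have hmt : ∀ t θ, HasDerivAt (fun s => m s θ) (2 * (P t θ).re) t := fun t θ =>
    deriv_normSq (deriv_t d0 t θ)
  have hmθ : ∀ t θ, HasDerivAt (fun s => m t s) (-2 * (P t θ).im) θ := by
    intro t θ
    have h1 := deriv_normSq (deriv_th d0 t θ)
    refine HasDerivAt.congr_deriv h1 ?_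
    simp only [hP, mul_re, mul_im, conj_re, conj_im, I_re, I_im]
    ring
  have hPt : ∀ t θ, HasDerivAt (fun s => (P s θ).re) ((S t θ).re + N t θ) t := by
    intro t θ
    have h1 := deriv_re ((deriv_t d1 t θ).mul (deriv_conj (deriv_t d0 t θ)))
    refine HasDerivAt.congr_deriv h1 ?_
    simp only [hS, hN, normSq_apply, add_re, mul_re, conj_re, conj_im]
    ring
  have hPθ : ∀ t θ, HasDerivAt (fun s => (P t s).im) ((S t θ).re - N t θ) θ := by
    intro t θ
    have h1 := deriv_im ((deriv_th d1 t θ).mul (deriv_conj (deriv_th d0 t θ)))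
    refine HasDerivAt.congr_deriv h1 ?_
    simp only [hS, hN, normSq_apply, add_im, mul_re, mul_im, conj_re, conj_im, I_re, I_im]
    ring
  -- the functions of `m`
  set g1 : ℝ → ℝ := fun m => 2 * hC m * hC1 m with hg1
  set g2 : ℝ → ℝ := fun m => 2 * hC1 m ^ 2 + 2 * hC m * hC2 m with hg2
  have hg0d : ∀ x, HasDerivAt (fun x => hC x ^ 2) (g1 x) x := by
    intro x
    have := (hC_deriv x).pow 2
    refine HasDerivAt.congr_deriv this ?_
    simp only [hg1]; ring
  have hg1d : ∀ x, HasDerivAt g1 (g2 x) x := by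
    intro x
    have := ((hC_deriv x).const_mul 2).mul (hC1_deriv x)
    refine HasDerivAt.congr_deriv this ?_
    simp only [hg2]; ring
  have hg1c : Continuous g1 := (continuous_const.mul hC_cont).mul hC1_cont
  have hg2c : Continuous g2 := (continuous_const.mul (hC1_cont.pow 2)).add
    ((continuous_const.mul hC_cont).mul hC2_cont)
  have hφeq : phiC F θ₀ = fun t => ∫ θ in θ₀..(θ₀ + 2 * π), hC (m t θ) ^ 2 := rfl
  -- first derivative
  set A1 : ℝ → ℝ → ℝ := fun t θ => g1 (m t θ) * (2 * (P t θ).re) with hA1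
  have hA1c : Continuous fun p : ℝ × ℝ => A1 p.1 p.2 :=
    (hg1c.comp hmc).mul (continuous_const.mul (Complex.continuous_re.comp hPc))
  have hcm : ∀ t, Continuous fun θ => m t θ := fun t =>
    hmc.comp (continuous_const.prodMk continuous_id)
  have D1 : ∀ t, HasDerivAt (phiC F θ₀) (∫ θ in θ₀..(θ₀ + 2 * π), A1 t θ) t := by
    intro t
    rw [hφeq]
    refine deriv_under (G := fun t θ => hC (m t θ) ^ 2) (fun t θ => ?_)
      (fun t => (hC_cont.comp (hcm t)).pow 2) hA1c _ _ t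
    exact (hg0d (m t θ)).comp t (hmt t θ)
  -- second derivative
  set A2 : ℝ → ℝ → ℝ := fun t θ => g2 (m t θ) * (2 * (P t θ).re) * (2 * (P t θ).re) +
    g1 (m t θ) * (2 * ((S t θ).re + N t θ)) with hA2
  have hRe := Complex.continuous_re.comp hPc
  have hIm := Complex.continuous_im.comp hPc
  have hSre := Complex.continuous_re.comp hSc
  have hA2c : Continuous fun p : ℝ × ℝ => A2 p.1 p.2 :=
    (((hg2c.comp hmc).mul (continuous_const.mul hRe)).mul (continuous_const.mul hRe)).add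
      ((hg1c.comp hmc).mul (continuous_const.mul (hSre.add hNc)))
  have D2 : ∀ t, HasDerivAt (fun t => ∫ θ in θ₀..(θ₀ + 2 * π), A1 t θ)
      (∫ θ in θ₀..(θ₀ + 2 * π), A2 t θ) t := by
    intro t
    refine deriv_under (fun t θ => ?_)
      (fun t => hA1c.comp (continuous_const.prodMk continuous_id)) hA2c _ _ t
    exact ((hg1d (m t θ)).comp t (hmt t θ)).mul ((hPt t θ).const_mul 2)
  -- integration by parts in `θ`
  set Q : ℝ → ℝ → ℝ := fun t θ => 4 * N t θ * (m t θ * g2 (m t θ) + g1 (m t θ)) with hQ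
  have hQc : Continuous fun p : ℝ × ℝ => Q p.1 p.2 :=
    (continuous_const.mul hNc).mul ((hmc.mul (hg2c.comp hmc)).add (hg1c.comp hmc))
  set B2 : ℝ → ℝ → ℝ := fun t θ => g2 (m t θ) * (-2 * (P t θ).im) * (2 * (P t θ).im) +
    g1 (m t θ) * (2 * ((S t θ).re - N t θ)) with hB2
  have hB2c : Continuous fun p : ℝ × ℝ => B2 p.1 p.2 :=
    (((hg2c.comp hmc).mul (continuous_const.mul hIm)).mul (continuous_const.mul hIm)).add
      ((hg1c.comp hmc).mul (continuous_const.mul (hSre.sub hNc)))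
  have hmPN : ∀ t θ, (P t θ).re ^ 2 + (P t θ).im ^ 2 = m t θ * N t θ := by
    intro t θ
    simp only [hP, hm, hN, normSq_apply, mul_re, mul_im, conj_re, conj_im]
    ring
  have hAB : ∀ t θ, A2 t θ = Q t θ + B2 t θ := by
    intro t θ
    simp only [hA2, hQ, hB2]
    have := hmPN t θ
    linear_combination (4 * g2 (m t θ)) * this
  have hBint : ∀ t, ∫ θ in θ₀..(θ₀ + 2 * π), B2 t θ = 0 := by
    intro t
    have h1 : ∀ θ ∈ uIcc θ₀ (θ₀ + 2 * π), HasDerivAt
        (fun θ => g1 (m t θ) * (2 * (P t θ).im)) (B2 t θ) θ := fun θ _ =>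
      ((hg1d (m t θ)).comp θ (hmθ t θ)).mul ((hPθ t θ).const_mul 2)
    rw [intervalIntegral.integral_eq_sub_of_hasDerivAt h1
      ((hB2c.comp (continuous_const.prodMk continuous_id)).intervalIntegrable _ _)]
    have h2 : ζ t (θ₀ + 2 * π) = ζ t θ₀ + 2 * π * I := by
      simp only [hζ]; push_cast; ring
    have h3 : F (ζ t (θ₀ + 2 * π)) = F (ζ t θ₀) := by rw [h2, hper]
    have h4 : deriv F (ζ t (θ₀ + 2 * π)) = deriv F (ζ t θ₀) := by
      rw [h2, ← deriv_comp_add_const]
      congr 1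
      ext z; exact hper z
    simp only [hm, hP, h3, h4, sub_self]
  have hA2int : ∀ t, ∫ θ in θ₀..(θ₀ + 2 * π), A2 t θ = ∫ θ in θ₀..(θ₀ + 2 * π), Q t θ := by
    intro t
    simp_rw [hAB]
    rw [intervalIntegral.integral_add, hBint t, add_zero]
    · exact (hQc.comp (continuous_const.prodMk continuous_id)).intervalIntegrable _ _
    · exact (hB2c.comp (continuous_const.prodMk continuous_id)).intervalIntegrable _ _
  refine ⟨fun t => ∫ θ in θ₀..(θ₀ + 2 * π), A1 t θ, fun t => ∫ θ in θ₀..(θ₀ + 2 * π), Q t θ,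
    D1, fun t => by
      show HasDerivAt _ (∫ θ in θ₀..(θ₀ + 2 * π), Q t θ) t
      rw [← hA2int]; exact D2 t, ?_, ?_⟩
  · exact intervalIntegral.continuous_parametric_intervalIntegral_of_continuous' hQc _ _
  intro t ℓ hℓ hF0 hvol
  have hπ : θ₀ ≤ θ₀ + 2 * π := by have := Real.pi_pos; linarith
  -- the slices
  set v : ℝ → ℝ := fun θ => hC (m t θ) with hv
  set vt : ℝ → ℝ := fun θ => hC1 (m t θ) * (2 * (P t θ).re) with hvt
  set vθ : ℝ → ℝ := fun θ => hC1 (m t θ) * (-2 * (P t θ).im) with hvθ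
  have hsl : ∀ {E : Type} [TopologicalSpace E] {f : ℝ × ℝ → E}, Continuous f →
      Continuous fun θ => f (t, θ) := fun hf => hf.comp (continuous_const.prodMk continuous_id)
  have hvc : Continuous v := hC_cont.comp (hcm t)
  have hvtc : Continuous vt :=
    (hC1_cont.comp (hcm t)).mul (continuous_const.mul (hsl hRe))
  have hvθc : Continuous vθ :=
    (hC1_cont.comp (hcm t)).mul (continuous_const.mul (hsl hIm))
  have hφ : phiC F θ₀ t = ∫ θ in θ₀..(θ₀ + 2 * π), v θ ^ 2 := rfl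
  have hm0 : m t θ₀ ≤ 1 := by
    simp only [hm, hζ]
    rw [normSq_eq_norm_sq]
    have := norm_nonneg (F (t + θ₀ * I))
    nlinarith
  have hm2 : m t (θ₀ + 2 * π) = m t θ₀ := by
    have h2 : ζ t (θ₀ + 2 * π) = ζ t θ₀ + 2 * π * I := by
      simp only [hζ]; push_cast; ring
    simp only [hm]; rw [h2, hper]
  have hW := wirtinger (v := v) (v' := vθ) hπ hℓ
    (fun θ => (hC_deriv (m t θ)).comp θ (hmθ t θ)) hvθc (hC_zero hm0)
    (by show hC (m t (θ₀ + 2 * π)) = 0; rw [hm2]; exact hC_zero hm0)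
    (lt_of_le_of_lt (measure_mono ?_) hvol)
  · -- Cauchy-Schwarz
    have hCS : (∫ θ in θ₀..(θ₀ + 2 * π), v θ * vt θ) ^ 2 ≤
        (∫ θ in θ₀..(θ₀ + 2 * π), v θ ^ 2) * ∫ θ in θ₀..(θ₀ + 2 * π), vt θ ^ 2 := by
      set a := ∫ θ in θ₀..(θ₀ + 2 * π), v θ ^ 2 with ha
      set b := ∫ θ in θ₀..(θ₀ + 2 * π), v θ * vt θ with hb
      set c := ∫ θ in θ₀..(θ₀ + 2 * π), vt θ ^ 2 with hc
      have h1 : ∀ x : ℝ, 0 ≤ a * (x * x) + (2 * b) * x + c := by
        intro x
        have h2 : a * (x * x) + (2 * b) * x + c =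
            ∫ θ in θ₀..(θ₀ + 2 * π), (x * v θ + vt θ) ^ 2 := by
          have e1 : ∀ θ, (x * v θ + vt θ) ^ 2 =
              (x * x) * v θ ^ 2 + (2 * x) * (v θ * vt θ) + vt θ ^ 2 := fun θ => by ring
          simp_rw [e1]
          rw [intervalIntegral.integral_add, intervalIntegral.integral_add,
            intervalIntegral.integral_const_mul, intervalIntegral.integral_const_mul]
          · ring
          · exact (continuous_const.mul (hvc.pow 2)).intervalIntegrable _ _
          · exact (continuous_const.mul (hvc.mul hvtc)).intervalIntegrable _ _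
          · exact ((continuous_const.mul (hvc.pow 2)).add
              (continuous_const.mul (hvc.mul hvtc))).intervalIntegrable _ _
          · exact (hvtc.pow 2).intervalIntegrable _ _
        rw [h2]
        exact intervalIntegral.integral_nonneg hπ fun θ _ => sq_nonneg _
      have h3 := discrim_le_zero h1
      rw [discrim] at h3
      nlinarith
    have hφ1 : ∫ θ in θ₀..(θ₀ + 2 * π), A1 t θ = 2 * ∫ θ in θ₀..(θ₀ + 2 * π), v θ * vt θ := by
      rw [← intervalIntegral.integral_const_mul]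
      refine intervalIntegral.integral_congr fun θ _ => ?_
      simp only [hA1, hv, hvt, hg1]
      ring
    have hφ2 : 2 * ((∫ θ in θ₀..(θ₀ + 2 * π), vt θ ^ 2) + ∫ θ in θ₀..(θ₀ + 2 * π), vθ θ ^ 2) ≤
        ∫ θ in θ₀..(θ₀ + 2 * π), Q t θ := by
      have i1 : IntervalIntegrable (fun θ => vt θ ^ 2) volume θ₀ (θ₀ + 2 * π) :=
        (hvtc.pow 2).intervalIntegrable _ _
      have i2 : IntervalIntegrable (fun θ => vθ θ ^ 2) volume θ₀ (θ₀ + 2 * π) :=
        (hvθc.pow 2).intervalIntegrable _ _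
      rw [← intervalIntegral.integral_add i1 i2, ← intervalIntegral.integral_const_mul]
      refine intervalIntegral.integral_mono_on hπ ?_ ?_ fun θ _ => ?_
      · exact (continuous_const.mul ((hvtc.pow 2).add (hvθc.pow 2))).intervalIntegrable _ _
      · exact (hsl hQc).intervalIntegrable _ _
      · have h1 := hmPN t θ
        have h2 := hC_key (m t θ)
        have h3 := hC_nonneg (m t θ)
        have h4 : 0 ≤ N t θ := normSq_nonneg _
        have h5 : Q t θ = 2 * (vt θ ^ 2 + vθ θ ^ 2) +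
            8 * N t θ * (hC (m t θ) * (m t θ * hC2 (m t θ) + hC1 (m t θ))) := by
          simp only [hQ, hvt, hvθ, hg1, hg2]
          linear_combination (-8 * hC1 (m t θ) ^ 2) * h1
        rw [h5]
        have h6 := mul_nonneg h3 h2
        have := mul_nonneg (mul_nonneg (by norm_num : (0:ℝ) ≤ 8) h4) h6
        linarith
    have hφ0 : 0 ≤ ∫ θ in θ₀..(θ₀ + 2 * π), v θ ^ 2 :=
      intervalIntegral.integral_nonneg hπ fun θ _ => sq_nonneg _
    show (∫ θ in θ₀..(θ₀ + 2 * π), A1 t θ) ^ 2 / 2 + 2 * (π / ℓ) ^ 2 * phiC F θ₀ t ^ 2 ≤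
      (∫ θ in θ₀..(θ₀ + 2 * π), Q t θ) * phiC F θ₀ t
    rw [hφ, hφ1]
    set a := ∫ θ in θ₀..(θ₀ + 2 * π), v θ ^ 2 with ha
    set b := ∫ θ in θ₀..(θ₀ + 2 * π), v θ * vt θ with hb
    set c := ∫ θ in θ₀..(θ₀ + 2 * π), vt θ ^ 2 with hc
    set d := ∫ θ in θ₀..(θ₀ + 2 * π), vθ θ ^ 2 with hd
    set q := ∫ θ in θ₀..(θ₀ + 2 * π), Q t θ with hq
    have e1 : 2 * (c + d) * a ≤ q * a := mul_le_mul_of_nonneg_right hφ2 hφ0
    have e2 : (π / ℓ) ^ 2 * a * a ≤ d * a := mul_le_mul_of_nonneg_right hW hφ0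
    nlinarith
  · rintro θ ⟨hθ, hne⟩
    refine ⟨hθ, ?_⟩
    by_contra hcon
    push Not at hcon
    apply hne
    apply hC_zero
    simp only [hm, hζ]
    rw [normSq_eq_norm_sq]
    have := norm_nonneg (F (t + θ * I))
    nlinarith

end MP2c3e4e
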