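import Pool.Agent.Lib_MP_2c3e4e_an.A1
import Pool.Agent.Lib_MP_2c3e4e_an.B2

/-!
B3: Denjoy-Carleman-Ahlfors for two tracts.
-/

open MeasureTheory Set Metric Filter Topology Complex
open scoped Real ENNReal

namespace MP2c3e4e

theorem hC_pos {m : ℝ} (hm : 1 < m) : 0 < hC m := by
  have hmono : StrictMonoOn hC (Ici 1) := by
    refine strictMonoOn_of_deriv_pos (convex_Ici 1) hC_cont.continuousOn fun x hx => ?_
    rw [interior_Ici] at hx
    have hx' : (1:ℝ) < x := hx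
    rw [(hC_deriv x).deriv, hC1, if_neg (not_le.mpr hx')]
    have := Real.log_lt_sub_one_of_pos (show (0:ℝ) < x by linarith) (by linarith)
    apply div_pos _ (by positivity)
    linarith
  have := hmono (mem_Ici.mpr le_rfl) (mem_Ici.mpr hm.le) hm
  rwa [hC_zero le_rfl] at this

theorem log_sub_le_hC {m : ℝ} (hm : 1 ≤ m) : Real.log m - 2 ≤ hC m := by
  rcases eq_or_lt_of_le hm with h | h
  · rw [← h, hC_zero le_rfl]; simp
  · rw [hC, if_neg (not_le.mpr h)]
    have : 0 ≤ (Real.log m + 2) / m := by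
      have := Real.log_nonneg hm
      positivity
    linarith

theorem hC_le_log {m : ℝ} (hm : 1 ≤ m) : hC m ≤ Real.log m := by
  rcases eq_or_lt_of_le hm with h | h
  · rw [← h, hC_zero le_rfl]; simp
  · rw [hC, if_neg (not_le.mpr h)]
    have h1 := Real.log_le_sub_one_of_pos (show (0:ℝ) < m by linarith)
    have : (Real.log m + 2) / m ≤ 2 := by
      rw [div_le_iff₀ (by linarith)]; linarith
    linarith

theorem log_normSq (w : ℂ) : Real.log (normSq w) = 2 * Real.log ‖w‖ := by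
  rw [normSq_eq_norm_sq, Real.log_pow]; norm_num

theorem one_le_normSq {w : ℂ} (h : 1 ≤ ‖w‖) : 1 ≤ normSq w := by
  rw [normSq_eq_norm_sq]; nlinarith

theorem vC_nonneg (F : ℂ → ℂ) (z : ℂ) : 0 ≤ vC F z := hC_nonneg _

theorem vC_le (F : ℂ → ℂ) (z : ℂ) : vC F z ≤ 2 * Real.posLog ‖F z‖ := by
  rcases le_total 1 ‖F z‖ with h | h
  · rw [Real.posLog_eq_log (by rwa [abs_norm]), ← log_normSq]
    exact hC_le_log (one_le_normSq h)
  · rw [vC, hC_zero]
    · have := Real.posLog_nonneg (x := ‖F z‖); linarith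
    · rw [normSq_eq_norm_sq]
      have := norm_nonneg (F z)
      nlinarith

theorem posLog_le_vC (F : ℂ → ℂ) (z : ℂ) : Real.posLog ‖F z‖ ≤ vC F z / 2 + 1 := by
  rcases le_total 1 ‖F z‖ with h | h
  · rw [Real.posLog_eq_log (by rwa [abs_norm])]
    have h1 := log_sub_le_hC (one_le_normSq h)
    rw [log_normSq] at h1
    rw [vC]; linarith
  · have h1 := vC_nonneg F z
    have : Real.posLog ‖F z‖ = 0 := (Real.posLog_eq_zero_iff _).mpr (by rwa [abs_norm])
    rw [this]; linarith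

theorem vC_cont {F : ℂ → ℂ} (hF : Differentiable ℂ F) : Continuous (vC F) :=
  hC_cont.comp (Complex.continuous_normSq.comp hF.continuous)

theorem line_cont (t : ℝ) : Continuous fun θ : ℝ => ((t : ℂ) + θ * I) := by fun_prop

/-- a ball is contained in a rectangle -/
theorem ball_le {f : ℂ → ℝ} (hf : Continuous f) (h0 : ∀ z, 0 ≤ f z) (t θ : ℝ) :
    ∫ x in ball ((t : ℂ) + θ * I) 1, f x ≤
      ∫ s in (t - 1)..(t + 1), ∫ u in (θ - 1)..(θ + 1), f (s + u * I) := by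
  set R : Set ℂ := Complex.measurableEquivRealProd ⁻¹'
    (Icc (t - 1) (t + 1) ×ˢ Icc (θ - 1) (θ + 1)) with hR
  have hsub : ball ((t : ℂ) + θ * I) 1 ⊆ R := by
    intro z hz
    rw [mem_ball, dist_eq_norm] at hz
    have h1 := (abs_re_le_norm (z - (t + θ * I))).trans hz.le
    have h2 := (abs_im_le_norm (z - (t + θ * I))).trans hz.le
    simp only [sub_re, sub_im, add_re, add_im, ofReal_re, ofReal_im, mul_re, mul_im, I_re, I_im,
      mul_zero, mul_one, sub_zero, add_zero, zero_add] at h1 h2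
    rw [abs_le] at h1 h2
    rw [hR, mem_preimage, mem_prod, mem_Icc, mem_Icc]
    refine ⟨⟨?_, ?_⟩, ?_, ?_⟩ <;> simp [Complex.measurableEquivRealProd] <;> linarith
  have hRm : MeasurableSet R :=
    Complex.measurableEquivRealProd.measurable (measurableSet_Icc.prod measurableSet_Icc)
  have hcomp : IsCompact (Icc (t - 1) (t + 1) ×ˢ Icc (θ - 1) (θ + 1)) :=
    isCompact_Icc.prod isCompact_Icc
  have hfc : Continuous fun p : ℝ × ℝ => f ((p.1 : ℂ) + p.2 * I) :=
    hf.comp (by fun_prop)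
  have hint : IntegrableOn (fun p : ℝ × ℝ => f ((p.1 : ℂ) + p.2 * I))
      (Icc (t - 1) (t + 1) ×ˢ Icc (θ - 1) (θ + 1)) (volume.prod volume) :=
    hfc.continuousOn.integrableOn_compact hcomp
  have heq : ∀ x : ℂ, f x = (fun p : ℝ × ℝ => f ((p.1 : ℂ) + p.2 * I))
      (Complex.measurableEquivRealProd x) := by
    intro x
    simp [Complex.measurableEquivRealProd, re_add_im]
  have hintR : IntegrableOn f R := by
    have := (Complex.volume_preserving_equiv_real_prod.integrableOn_comp_preimage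
      Complex.measurableEquivRealProd.measurableEmbedding).mpr hint
    refine this.congr_fun (fun x _ => (heq x).symm) hRm
  calc ∫ x in ball ((t : ℂ) + θ * I) 1, f x ≤ ∫ x in R, f x :=
        setIntegral_mono_set hintR (ae_of_all _ h0) (hsub.eventuallyLE)
    _ = ∫ x in R, (fun p : ℝ × ℝ => f ((p.1 : ℂ) + p.2 * I))
          (Complex.measurableEquivRealProd x) := by simp_rw [← heq]
    _ = ∫ p in (Icc (t - 1) (t + 1) ×ˢ Icc (θ - 1) (θ + 1)), f ((p.1 : ℂ) + p.2 * I) :=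
        Complex.volume_preserving_equiv_real_prod.setIntegral_preimage_emb
          Complex.measurableEquivRealProd.measurableEmbedding
          (fun p : ℝ × ℝ => f ((p.1 : ℂ) + p.2 * I)) (Icc (t - 1) (t + 1) ×ˢ Icc (θ - 1) (θ + 1))
    _ = ∫ s in Icc (t - 1) (t + 1), ∫ u in Icc (θ - 1) (θ + 1), f (s + u * I) :=
        setIntegral_prod _ hint
    _ = _ := by
        rw [intervalIntegral.integral_of_le (by linarith), integral_Icc_eq_integral_Ioc]
        refine integral_congr_ae (ae_of_all _ fun s => ?_)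
        show ∫ u in Icc (θ - 1) (θ + 1), f (s + u * I) =
          ∫ u in (θ - 1)..(θ + 1), f (s + u * I)
        rw [intervalIntegral.integral_of_le (by linarith), integral_Icc_eq_integral_Ioc]

section one

variable {F : ℂ → ℂ} (hF : Differentiable ℂ F) (hper : ∀ ζ, F (ζ + 2 * π * I) = F ζ)

include hF

theorem v2_cont (t : ℝ) : Continuous fun θ : ℝ => vC F (t + θ * I) ^ 2 :=
  ((vC_cont hF).comp (line_cont t)).pow 2

include hper in
omit hF in
theorem periodic_line (t : ℝ) : Function.Periodic (fun θ : ℝ => F (t + θ * I)) (2 * π) := by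
  intro θ
  show F (t + ((θ + 2 * π : ℝ) : ℂ) * I) = F (t + θ * I)
  rw [← hper (t + θ * I)]
  congr 1
  push_cast; ring

include hper in
theorem phiC_pos {θ₀ t : ℝ} (h : ∃ θ : ℝ, 1 < ‖F (t + θ * I)‖) : 0 < phiC F θ₀ t := by
  obtain ⟨θ, hθ⟩ := h
  obtain ⟨θ', hθ', he⟩ := (periodic_line hper t).exists_mem_Ico (by positivity) θ θ₀
  have he' : F (t + θ * I) = F (t + θ' * I) := he
  rw [he'] at hθ
  have h2 : 0 < vC F (t + θ' * I) := by
    apply hC_pos
    rw [normSq_eq_norm_sq]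
    have := norm_nonneg (F (t + θ' * I))
    nlinarith
  refine intervalIntegral.integral_pos (by have := Real.pi_pos; linarith)
    (v2_cont hF t).continuousOn (fun x _ => sq_nonneg _) ⟨θ', ⟨hθ'.1, hθ'.2.le⟩, by positivity⟩

include hper in
/-- if `φ` is bounded then so is `F` -/
theorem bounded_of_phiC {θ₀ t₀ B : ℝ} (hB : ∀ t, t₀ ≤ t → phiC F θ₀ t ≤ B) :
    ∃ K : ℝ, ∀ t θ : ℝ, t₀ ≤ t → ‖F (t + θ * I)‖ ≤ K := by
  have hB0 : 0 ≤ B := by
    refine le_trans ?_ (hB t₀ le_rfl)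
    exact intervalIntegral.integral_nonneg (by have := Real.pi_pos; linarith) fun x _ => sq_nonneg _
  have hpi := Real.pi_pos
  have hpi3 := Real.pi_gt_three
  -- the far part
  have hfar : ∀ t θ : ℝ, t₀ + 1 ≤ t →
      Real.posLog ‖F (t + θ * I)‖ ≤ π⁻¹ * (2 * (5 / 2 * π + B / 4)) := by
    intro t θ ht
    have h1 := submean_area (H := F) (z := (t : ℂ) + θ * I) (r := 1) one_pos
      (fun z _ => hF.analyticAt z)
    rw [one_pow, mul_one] at h1
    refine h1.trans (mul_le_mul_of_nonneg_left ?_ (by positivity))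
    set f : ℂ → ℝ := fun z => vC F z / 2 + 1 with hf
    have hfc : Continuous f := ((vC_cont hF).div_const 2).add continuous_const
    have hf0 : ∀ z, 0 ≤ f z := fun z => by
      have := vC_nonneg F z
      simp only [hf]; linarith
    have hpc : Continuous fun z => Real.posLog ‖F z‖ := by
      have : Continuous Real.posLog := Real.continuous_posLog
      exact this.comp hF.continuous.norm
    have h2 : ∫ x in ball ((t : ℂ) + θ * I) 1, Real.posLog ‖F x‖ ≤
        ∫ x in ball ((t : ℂ) + θ * I) 1, f x := by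
      refine setIntegral_mono_on ?_ ?_ measurableSet_ball fun x _ => posLog_le_vC F x
      · exact (hpc.continuousOn.integrableOn_compact (isCompact_closedBall _ _)).mono_set
          ball_subset_closedBall
      · exact (hfc.continuousOn.integrableOn_compact (isCompact_closedBall _ _)).mono_set
          ball_subset_closedBall
    refine h2.trans ((ball_le hfc hf0 t θ).trans ?_)
    have hin : ∀ s ∈ Icc (t - 1) (t + 1), ∫ u in (θ - 1)..(θ + 1), f (s + u * I) ≤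
        5 / 2 * π + B / 4 := by
      intro s hs
      have hfl : Continuous fun u : ℝ => f (s + u * I) := hfc.comp (line_cont s)
      set g : ℝ → ℝ := fun u => 5 / 4 + vC F (s + u * I) ^ 2 / 4 with hg
      have hgc : Continuous g := continuous_const.add ((v2_cont hF s).div_const 4)
      have e1 : ∫ u in (θ - 1)..(θ + 1), f (s + u * I) ≤ ∫ u in (θ - 1)..(θ + 1), g u := by
        refine intervalIntegral.integral_mono_on (by linarith) (hfl.intervalIntegrable _ _)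
          (hgc.intervalIntegrable _ _) fun u _ => ?_
        simp only [hf, hg]
        nlinarith [sq_nonneg (vC F (s + u * I) - 1)]
      have e2 : ∫ u in (θ - 1)..(θ + 1), g u ≤ ∫ u in (θ - 1)..(θ - 1 + 2 * π), g u := by
        refine intervalIntegral.integral_mono_interval le_rfl (by linarith) (by linarith)
          (ae_of_all _ fun u => ?_) (hgc.intervalIntegrable _ _)
        show 0 ≤ 5 / 4 + vC F (s + u * I) ^ 2 / 4
        positivity
      have hgp : Function.Periodic g (2 * π) := by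
        intro u
        have h3 := periodic_line hper s u
        have h3' : F (s + ((u + 2 * π : ℝ) : ℂ) * I) = F (s + u * I) := h3
        simp only [hg, vC, h3']
      have e3 : ∫ u in (θ - 1)..(θ - 1 + 2 * π), g u = ∫ u in θ₀..(θ₀ + 2 * π), g u :=
        hgp.intervalIntegral_add_eq _ _
      have e4 : ∫ u in θ₀..(θ₀ + 2 * π), g u = 5 / 2 * π + phiC F θ₀ s / 4 := by
        simp only [hg]
        rw [intervalIntegral.integral_add (continuous_const.intervalIntegrable _ _)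
          (((v2_cont hF s).div_const 4).intervalIntegrable _ _), intervalIntegral.integral_const,
          intervalIntegral.integral_div, phiC, smul_eq_mul]
        ring
      have := hB s (by linarith [hs.1])
      linarith
    have hfp : Continuous (Function.uncurry fun (s u : ℝ) => f ((s : ℂ) + u * I)) :=
      hfc.comp (by fun_prop)
    have hcont : Continuous fun s : ℝ => ∫ u in (θ - 1)..(θ + 1), f (s + u * I) :=
      intervalIntegral.continuous_parametric_intervalIntegral_of_continuous' hfp _ _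
    calc ∫ s in (t - 1)..(t + 1), ∫ u in (θ - 1)..(θ + 1), f (s + u * I)
        ≤ ∫ s in (t - 1)..(t + 1), (5 / 2 * π + B / 4) :=
          intervalIntegral.integral_mono_on (by linarith) (hcont.intervalIntegrable _ _)
            (continuous_const.intervalIntegrable _ _) hin
      _ = 2 * (5 / 2 * π + B / 4) := by
          rw [intervalIntegral.integral_const, smul_eq_mul]; ring
  -- the near part
  obtain ⟨K₁, hK₁⟩ := ((isCompact_Icc (a := t₀) (b := t₀ + 1)).prod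
    (isCompact_Icc (a := (0:ℝ)) (b := 2 * π))).exists_bound_of_continuousOn
      (f := fun p : ℝ × ℝ => F ((p.1 : ℂ) + p.2 * I))
      (hF.continuous.comp (by fun_prop)).continuousOn
  set D := π⁻¹ * (2 * (5 / 2 * π + B / 4)) with hD
  refine ⟨max K₁ (Real.exp D), fun t θ ht => ?_⟩
  by_cases h : t ≤ t₀ + 1
  · obtain ⟨θ', hθ', he⟩ := (periodic_line hper t).exists_mem_Ico₀ (by positivity) θ
    have he' : F (t + θ * I) = F (t + θ' * I) := he
    rw [he']
    exact (hK₁ (t, θ') ⟨⟨ht, h⟩, hθ'.1, hθ'.2.le⟩).trans (le_max_left _ _)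
  · push Not at h
    refine le_trans ?_ (le_max_right _ _)
    have h1 := hfar t θ h.le
    rcases le_or_gt ‖F (t + θ * I)‖ 1 with h2 | h2
    · refine h2.trans (Real.one_le_exp ?_)
      rw [hD]; positivity
    · rw [Real.posLog_eq_log (by rw [abs_norm]; exact h2.le)] at h1
      rw [← Real.exp_log (show 0 < ‖F (t + θ * I)‖ by linarith)]
      exact Real.exp_le_exp.mpr h1

/-- upper bound for `φ` -/
theorem phiC_le {θ₀ t ρ C : ℝ} (h : ∀ θ : ℝ, Real.posLog ‖F (t + θ * I)‖ ≤ C * Real.exp (ρ * t)) :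
    phiC F θ₀ t ≤ 8 * π * C ^ 2 * Real.exp (2 * ρ * t) := by
  have h1 : ∀ θ : ℝ, vC F (t + θ * I) ^ 2 ≤ (2 * (C * Real.exp (ρ * t))) ^ 2 := fun θ =>
    pow_le_pow_left₀ (vC_nonneg _ _) ((vC_le F _).trans (by linarith [h θ])) 2
  have h2 : phiC F θ₀ t ≤ ∫ θ in θ₀..(θ₀ + 2 * π), (2 * (C * Real.exp (ρ * t))) ^ 2 :=
    intervalIntegral.integral_mono_on (by have := Real.pi_pos; linarith)
      ((v2_cont hF t).intervalIntegrable _ _) (continuous_const.intervalIntegrable _ _)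
      fun θ _ => h1 θ
  refine h2.trans (le_of_eq ?_)
  rw [intervalIntegral.integral_const, smul_eq_mul]
  have : Real.exp (2 * ρ * t) = Real.exp (ρ * t) ^ 2 := by
    rw [← Real.exp_nat_mul]; congr 1; push_cast; ring
  rw [this]; ring

end one

/-- one tract: from some point on, `φ > 0`, `φ' > 0` and `φ'' ≥ 2 q φ'` -/
theorem one_tract {F : ℂ → ℂ} (hF : Differentiable ℂ F) (hper : ∀ ζ, F (ζ + 2 * π * I) = F ζ)
    {θ₀ t₀ : ℝ} (hc : ∀ t : ℝ, t₀ ≤ t → ‖F (t + θ₀ * I)‖ ≤ 1)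
    (hpos : ∀ t : ℝ, t₀ ≤ t → ∃ θ : ℝ, 1 < ‖F (t + θ * I)‖)
    (hun : ∀ K : ℝ, ∃ t θ : ℝ, t₀ ≤ t ∧ K < ‖F (t + θ * I)‖) {η : ℝ} (hη : 0 < η) :
    ∃ (φ₁ φ₂ : ℝ → ℝ) (t₁ : ℝ), t₀ ≤ t₁ ∧ (∀ t, HasDerivAt (phiC F θ₀) (φ₁ t) t) ∧
      (∀ t, HasDerivAt φ₁ (φ₂ t) t) ∧ (∀ t, t₁ ≤ t → 0 < φ₁ t) ∧
      ∀ t, t₁ ≤ t → 2 * (π / ((volume {θ ∈ Icc θ₀ (θ₀ + 2 * π) |
        1 < ‖F (t + θ * I)‖}).toReal + η)) * φ₁ t ≤ φ₂ t := by
  obtain ⟨φ₁, φ₂, h1, h2, h3, h4⟩ := carleman_one hF hper θ₀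
  have hfin : ∀ t : ℝ, volume {θ ∈ Icc θ₀ (θ₀ + 2 * π) | 1 < ‖F (t + θ * I)‖} ≠ ⊤ := by
    intro t
    refine ne_top_of_le_ne_top ?_ (measure_mono (sep_subset _ _))
    rw [Real.volume_Icc]; exact ENNReal.ofReal_ne_top
  have hkey : ∀ t, t₀ ≤ t → φ₁ t ^ 2 / 2 + 2 * (π / ((volume {θ ∈ Icc θ₀ (θ₀ + 2 * π) |
      1 < ‖F (t + θ * I)‖}).toReal + η)) ^ 2 * phiC F θ₀ t ^ 2 ≤ φ₂ t * phiC F θ₀ t := by
    intro t ht
    refine h4 t _ (by positivity) (hc t ht) ?_
    rw [ENNReal.lt_ofReal_iff_toReal_lt (hfin t)]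
    linarith
  have hφpos : ∀ t, t₀ ≤ t → 0 < phiC F θ₀ t := fun t ht => phiC_pos hF hper (hpos t ht)
  have hφ2 : ∀ t, t₀ ≤ t → 0 ≤ φ₂ t := by
    intro t ht
    have e1 := hkey t ht
    have e2 := hφpos t ht
    by_contra hcon
    push Not at hcon
    have e3 : φ₂ t * phiC F θ₀ t < 0 := mul_neg_of_neg_of_pos hcon e2
    have e4 : 0 ≤ φ₁ t ^ 2 / 2 + 2 * (π / ((volume {θ ∈ Icc θ₀ (θ₀ + 2 * π) |
      1 < ‖F (t + θ * I)‖}).toReal + η)) ^ 2 * phiC F θ₀ t ^ 2 := by positivity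
    linarith
  have hmono : MonotoneOn φ₁ (Ici t₀) := by
    refine monotoneOn_of_deriv_nonneg (convex_Ici t₀)
      (fun t _ => (h2 t).continuousAt.continuousWithinAt)
      (fun t _ => (h2 t).differentiableAt.differentiableWithinAt) fun t ht => ?_
    rw [interior_Ici] at ht
    rw [(h2 t).deriv]
    exact hφ2 t (le_of_lt ht)
  obtain ⟨t₁, ht₁, hpos₁⟩ : ∃ t₁, t₀ ≤ t₁ ∧ 0 < φ₁ t₁ := by
    by_contra hcon
    push Not at hcon
    have hanti : AntitoneOn (phiC F θ₀) (Ici t₀) := by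
      refine antitoneOn_of_deriv_nonpos (convex_Ici t₀)
        (fun t _ => (h1 t).continuousAt.continuousWithinAt)
        (fun t _ => (h1 t).differentiableAt.differentiableWithinAt) fun t ht => ?_
      rw [interior_Ici] at ht
      rw [(h1 t).deriv]
      exact hcon t (le_of_lt ht)
    obtain ⟨K, hK⟩ := bounded_of_phiC hF hper (θ₀ := θ₀) (t₀ := t₀) (B := phiC F θ₀ t₀)
      (fun t ht => hanti (mem_Ici.mpr le_rfl) (mem_Ici.mpr ht) ht)
    obtain ⟨t, θ, ht, hlt⟩ := hun K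
    exact absurd (hK t θ ht) (not_le.mpr hlt)
  refine ⟨φ₁, φ₂, t₁, ht₁, h1, h2, fun t ht => ?_, fun t ht => ?_⟩
  · exact hpos₁.trans_le (hmono (mem_Ici.mpr ht₁) (mem_Ici.mpr (ht₁.trans ht)) ht)
  · have e1 := hkey t (ht₁.trans ht)
    have e2 := hφpos t (ht₁.trans ht)
    set q := π / ((volume {θ ∈ Icc θ₀ (θ₀ + 2 * π) | 1 < ‖F (t + θ * I)‖}).toReal + η) with hq
    have e3 : 2 * q * φ₁ t * phiC F θ₀ t ≤ φ₂ t * phiC F θ₀ t := by
      nlinarith [sq_nonneg (φ₁ t - 2 * q * phiC F θ₀ t)]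
    exact le_of_mul_le_mul_right e3 e2

/-- B3. Two periodic entire functions of small order which are large on almost disjoint sets of
total angle `≤ L₀` with `ρ L₀ < 2π` cannot exist (Denjoy-Carleman-Ahlfors). -/
theorem no_two_tracts {F₁ F₂ : ℂ → ℂ} (h₁ : Differentiable ℂ F₁) (h₂ : Differentiable ℂ F₂)
    (hp₁ : ∀ ζ, F₁ (ζ + 2 * π * I) = F₁ ζ) (hp₂ : ∀ ζ, F₂ (ζ + 2 * π * I) = F₂ ζ)
    {θ₀ t₀ ρ C L₀ : ℝ} (hρ : 0 < ρ) (hL : 0 < L₀) (hρL : ρ * L₀ < 2 * π)
    (hg₁ : ∀ ζ : ℂ, t₀ ≤ ζ.re → Real.posLog ‖F₁ ζ‖ ≤ C * Real.exp (ρ * ζ.re))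
    (hg₂ : ∀ ζ : ℂ, t₀ ≤ ζ.re → Real.posLog ‖F₂ ζ‖ ≤ C * Real.exp (ρ * ζ.re))
    (hc₁ : ∀ t : ℝ, t₀ ≤ t → ‖F₁ (t + θ₀ * I)‖ ≤ 1)
    (hc₂ : ∀ t : ℝ, t₀ ≤ t → ‖F₂ (t + θ₀ * I)‖ ≤ 1)
    (hm : ∀ t : ℝ, t₀ ≤ t →
      volume {θ ∈ Icc θ₀ (θ₀ + 2 * π) | 1 < ‖F₁ (t + θ * I)‖} +
      volume {θ ∈ Icc θ₀ (θ₀ + 2 * π) | 1 < ‖F₂ (t + θ * I)‖} ≤ ENNReal.ofReal L₀)
    (hpos₁ : ∀ t : ℝ, t₀ ≤ t → ∃ θ : ℝ, 1 < ‖F₁ (t + θ * I)‖)
    (hpos₂ : ∀ t : ℝ, t₀ ≤ t → ∃ θ : ℝ, 1 < ‖F₂ (t + θ * I)‖)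
    (hun₁ : ∀ K : ℝ, ∃ t θ : ℝ, t₀ ≤ t ∧ K < ‖F₁ (t + θ * I)‖)
    (hun₂ : ∀ K : ℝ, ∃ t θ : ℝ, t₀ ≤ t ∧ K < ‖F₂ (t + θ * I)‖) : False := by
  have hpi := Real.pi_pos
  obtain ⟨η, hη, hηL⟩ : ∃ η > 0, ρ * (L₀ + 2 * η) < 2 * π := by
    refine ⟨(2 * π - ρ * L₀) / (4 * ρ), div_pos (by linarith) (by positivity), ?_⟩
    have : ρ * (L₀ + 2 * ((2 * π - ρ * L₀) / (4 * ρ))) = ρ * L₀ + (2 * π - ρ * L₀) / 2 := by
      field_simp; ring
    rw [this]; linarith
  obtain ⟨p₁, p₂, t₁, ht₁, dp₁, dp₂, hp₁pos, hp₂ge⟩ := one_tract h₁ hp₁ hc₁ hpos₁ hun₁ hη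
  obtain ⟨r₁, r₂, t₂, ht₂, dr₁, dr₂, hr₁pos, hr₂ge⟩ := one_tract h₂ hp₂ hc₂ hpos₂ hun₂ hη
  set T := max t₁ t₂ with hT
  set a' := 8 * π / (L₀ + 2 * η) with ha'
  have ha'pos : 0 < a' := by positivity
  -- the product of the derivatives
  have hprod : ∀ t, T ≤ t → a' * (p₁ t * r₁ t) ≤ p₂ t * r₁ t + p₁ t * r₂ t := by
    intro t ht
    have e1 := hp₂ge t ((le_max_left _ _).trans ht)
    have e2 := hr₂ge t ((le_max_right _ _).trans ht)
    have e3 := hp₁pos t ((le_max_left _ _).trans ht)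
    have e4 := hr₁pos t ((le_max_right _ _).trans ht)
    set V₁ := volume {θ ∈ Icc θ₀ (θ₀ + 2 * π) | 1 < ‖F₁ (t + θ * I)‖} with hV₁
    set V₂ := volume {θ ∈ Icc θ₀ (θ₀ + 2 * π) | 1 < ‖F₂ (t + θ * I)‖} with hV₂
    have hfin₁ : V₁ ≠ ⊤ := by
      refine ne_top_of_le_ne_top ?_ (measure_mono (sep_subset _ _))
      rw [Real.volume_Icc]; exact ENNReal.ofReal_ne_top
    have hfin₂ : V₂ ≠ ⊤ := by
      refine ne_top_of_le_ne_top ?_ (measure_mono (sep_subset _ _))
      rw [Real.volume_Icc]; exact ENNReal.ofReal_ne_top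
    have hsum : V₁.toReal + V₂.toReal ≤ L₀ := by
      rw [← ENNReal.toReal_add hfin₁ hfin₂]
      exact ENNReal.toReal_le_of_le_ofReal hL.le (hm t (ht₁.trans ((le_max_left _ _).trans ht)))
    set l₁ := V₁.toReal + η with hl₁
    set l₂ := V₂.toReal + η with hl₂
    have hl₁pos : 0 < l₁ := by positivity
    have hl₂pos : 0 < l₂ := by positivity
    have hlsum : l₁ + l₂ ≤ L₀ + 2 * η := by rw [hl₁, hl₂]; linarith
    have hq : a' ≤ 2 * (π / l₁) + 2 * (π / l₂) := by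
      rw [ha']
      have e5 : 2 * (π / l₁) + 2 * (π / l₂) = 2 * π * (l₁ + l₂) / (l₁ * l₂) := by
        field_simp; ring
      rw [e5, div_le_div_iff₀ (by positivity) (by positivity)]
      have e6 : 4 * (l₁ * l₂) ≤ (l₁ + l₂) * (l₁ + l₂) := by nlinarith [sq_nonneg (l₁ - l₂)]
      have e7 : (l₁ + l₂) * (l₁ + l₂) ≤ (l₁ + l₂) * (L₀ + 2 * η) := by gcongr
      nlinarith
    have e8 : 2 * (π / l₁) * p₁ t * r₁ t ≤ p₂ t * r₁ t := by gcongr
    have e9 : 2 * (π / l₂) * r₁ t * p₁ t ≤ r₂ t * p₁ t := by gcongr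
    have e10 : a' * (p₁ t * r₁ t) ≤ (2 * (π / l₁) + 2 * (π / l₂)) * (p₁ t * r₁ t) := by
      gcongr
    nlinarith
  -- exponential growth of the product
  set c := p₁ T * r₁ T * Real.exp (-a' * T) with hcdef
  have hTp : 0 < p₁ T := hp₁pos T (le_max_left _ _)
  have hTr : 0 < r₁ T := hr₁pos T (le_max_right _ _)
  have hcpos : 0 < c := by positivity
  have hgrow : ∀ t, T ≤ t → c * Real.exp (a' * t) ≤ p₁ t * r₁ t := by
    have hΨ : ∀ t, HasDerivAt (fun t => p₁ t * r₁ t * Real.exp (-a' * t))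
        ((p₂ t * r₁ t + p₁ t * r₂ t) * Real.exp (-a' * t) +
          p₁ t * r₁ t * (Real.exp (-a' * t) * (-a'))) t := by
      intro t
      have e1 : HasDerivAt (fun t => Real.exp (-a' * t)) (Real.exp (-a' * t) * (-a')) t := by
        have := ((hasDerivAt_id t).const_mul (-a')).exp
        simpa using this
      exact ((dp₂ t).mul (dr₂ t)).mul e1
    have hmono : MonotoneOn (fun t => p₁ t * r₁ t * Real.exp (-a' * t)) (Ici T) := by
      refine monotoneOn_of_deriv_nonneg (convex_Ici T)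
        (fun t _ => (hΨ t).continuousAt.continuousWithinAt)
        (fun t _ => (hΨ t).differentiableAt.differentiableWithinAt) fun t ht => ?_
      rw [interior_Ici] at ht
      rw [(hΨ t).deriv]
      have e1 := hprod t (le_of_lt ht)
      have e2 := Real.exp_pos (-a' * t)
      have e3 : (p₂ t * r₁ t + p₁ t * r₂ t) * Real.exp (-a' * t) +
          p₁ t * r₁ t * (Real.exp (-a' * t) * (-a')) =
          ((p₂ t * r₁ t + p₁ t * r₂ t) - a' * (p₁ t * r₁ t)) * Real.exp (-a' * t) := by ring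
      rw [e3]
      exact mul_nonneg (by linarith) e2.le
    intro t ht
    have e1 := hmono (mem_Ici.mpr le_rfl) (mem_Ici.mpr ht) ht
    have e2 : c ≤ p₁ t * r₁ t * Real.exp (-a' * t) := e1
    calc c * Real.exp (a' * t) ≤ p₁ t * r₁ t * Real.exp (-a' * t) * Real.exp (a' * t) := by gcongr
      _ = p₁ t * r₁ t := by
        rw [mul_assoc, ← Real.exp_add]; simp
  -- lower bound of the sum of the derivatives
  set b := a' / 2 with hb
  have hsum : ∀ t, T ≤ t → 2 * √c * Real.exp (b * t) ≤ p₁ t + r₁ t := by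
    intro t ht
    have e1 := hgrow t ht
    have e3 := hp₁pos t ((le_max_left _ _).trans ht)
    have e4 := hr₁pos t ((le_max_right _ _).trans ht)
    have e5 : Real.exp (a' * t) = Real.exp (b * t) ^ 2 := by
      rw [← Real.exp_nat_mul]; congr 1; push_cast; rw [hb]; ring
    rw [e5] at e1
    refine abs_le_of_sq_le_sq' ?_ (by positivity) |>.2
    have e6 : (2 * √c * Real.exp (b * t)) ^ 2 = 4 * (c * Real.exp (b * t) ^ 2) := by
      rw [mul_pow, mul_pow, Real.sq_sqrt hcpos.le]; ring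
    rw [e6]
    nlinarith [sq_nonneg (p₁ t - r₁ t)]
  -- integrate
  set Φ : ℝ → ℝ := fun t => phiC F₁ θ₀ t + phiC F₂ θ₀ t - 2 * √c / b * Real.exp (b * t) with hΦ
  have hbpos : 0 < b := by positivity
  have hΦd : ∀ t, HasDerivAt Φ (p₁ t + r₁ t - 2 * √c * Real.exp (b * t)) t := by
    intro t
    have e1 : HasDerivAt (fun t => Real.exp (b * t)) (Real.exp (b * t) * b) t := by
      have := ((hasDerivAt_id t).const_mul b).exp
      simpa using this
    refine HasDerivAt.congr_deriv (((dp₁ t).add (dr₁ t)).sub (e1.const_mul (2 * √c / b))) ?_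
    field_simp
  have hΦmono : MonotoneOn Φ (Ici T) := by
    refine monotoneOn_of_deriv_nonneg (convex_Ici T)
      (fun t _ => (hΦd t).continuousAt.continuousWithinAt)
      (fun t _ => (hΦd t).differentiableAt.differentiableWithinAt) fun t ht => ?_
    rw [interior_Ici] at ht
    rw [(hΦd t).deriv]
    have := hsum t (le_of_lt ht)
    linarith
  have hup : ∀ t, T ≤ t → phiC F₁ θ₀ t + phiC F₂ θ₀ t ≤ 16 * π * C ^ 2 * Real.exp (2 * ρ * t) := by
    intro t ht
    have ht' : t₀ ≤ t := ht₁.trans ((le_max_left _ _).trans ht)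
    have e0 : ∀ θ : ℝ, ((t : ℂ) + θ * I).re = t := fun θ => by simp
    have e1 := phiC_le h₁ (θ₀ := θ₀) (t := t) (ρ := ρ) (C := C) fun θ => by
      have := hg₁ (t + θ * I) (by rw [e0]; exact ht')
      rwa [e0] at this
    have e2 := phiC_le h₂ (θ₀ := θ₀) (t := t) (ρ := ρ) (C := C) fun θ => by
      have := hg₂ (t + θ * I) (by rw [e0]; exact ht')
      rwa [e0] at this
    linarith
  -- contradiction
  have hb2 : 2 * ρ < b := by
    rw [hb, ha']
    rw [lt_div_iff₀ (by norm_num), lt_div_iff₀ (by positivity)]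
    nlinarith
  have hfinal : ∀ t, T ≤ t → 2 * √c / b * Real.exp (b * t) ≤
      16 * π * C ^ 2 * Real.exp (2 * ρ * t) - Φ T := by
    intro t ht
    have e1 := hΦmono (mem_Ici.mpr le_rfl) (mem_Ici.mpr ht) ht
    have e2 := hup t ht
    have e3 : Φ t = phiC F₁ θ₀ t + phiC F₂ θ₀ t - 2 * √c / b * Real.exp (b * t) := rfl
    linarith
  have hlim1 : Tendsto (fun t : ℝ => 2 * √c / b * Real.exp ((b - 2 * ρ) * t)) atTop atTop := by
    refine Tendsto.const_mul_atTop (by positivity) ?_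
    exact Real.tendsto_exp_atTop.comp (tendsto_id.const_mul_atTop (by linarith))
  obtain ⟨t, h1, h2, h3⟩ := ((hlim1.eventually_gt_atTop
    (16 * π * C ^ 2 + |Φ T| + 1)).and ((eventually_ge_atTop T).and
      (eventually_ge_atTop (0:ℝ)))).exists
  have e1 := hfinal t h2
  have e2 : Real.exp (b * t) = Real.exp ((b - 2 * ρ) * t) * Real.exp (2 * ρ * t) := by
    rw [← Real.exp_add]; congr 1; ring
  have e3 : 1 ≤ Real.exp (2 * ρ * t) := Real.one_le_exp (by positivity)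
  rw [e2, ← mul_assoc] at e1
  have e4 : (16 * π * C ^ 2 + |Φ T| + 1) * Real.exp (2 * ρ * t) <
      2 * √c / b * Real.exp ((b - 2 * ρ) * t) * Real.exp (2 * ρ * t) := by
    apply mul_lt_mul_of_pos_right h1 (by positivity)
  have e5 := neg_abs_le (Φ T)
  nlinarith [abs_nonneg (Φ T)]

end MP2c3e4e
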