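import Mathlib

/-!
Piece C for MP_2c3e4e_an (helper98): Phragmén-Lindelöf in a half strip.
-/

open MeasureTheory Set Metric Filter Topology Complex
open scoped Real ENNReal

namespace MP2c3e4e

theorem norm_le_exp_of_posLog {x y : ℝ} (hx : 0 ≤ x) (h : Real.posLog x ≤ y) :
    x ≤ Real.exp y := by
  rcases hx.eq_or_lt with rfl | hx
  · positivity
  · rw [← Real.log_le_iff_le_exp hx]
    exact (le_max_right _ _).trans h

/-- C. Phragmén-Lindelöf in a half strip for double exponential growth. -/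
theorem pl_strip {F : ℂ → ℂ} (hF : Differentiable ℂ F) {a b σ ρ C t₀ : ℝ} (hab : a < b)
    (hρ : 0 < ρ) (hρσ : ρ ≤ σ) (hσ : σ * (b - a) < π)
    (hbd : ∃ M : ℝ, ∀ ζ : ℂ, ζ.re ≤ t₀ → ‖F ζ‖ ≤ M)
    (h1 : ∀ ζ : ℂ, t₀ ≤ ζ.re → a ≤ ζ.im → ζ.im ≤ b →
      Real.posLog ‖F ζ‖ ≤ C * Real.exp (σ * ζ.re))
    (ha : ∀ ζ : ℂ, t₀ ≤ ζ.re → ζ.im = a → Real.posLog ‖F ζ‖ ≤ C * Real.exp (ρ * ζ.re))
    (hb : ∀ ζ : ℂ, t₀ ≤ ζ.re → ζ.im = b → Real.posLog ‖F ζ‖ ≤ C * Real.exp (ρ * ζ.re)) :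
    ∃ C' : ℝ, ∀ ζ : ℂ, t₀ ≤ ζ.re → a ≤ ζ.im → ζ.im ≤ b →
      Real.posLog ‖F ζ‖ ≤ C' * Real.exp (ρ * ζ.re) := by
  obtain ⟨M, hM⟩ := hbd
  have hba : 0 < b - a := by linarith
  have hσ0 : 0 < σ := hρ.trans_le hρσ
  set c0 : ℝ := (a + b) / 2 with hc0
  set κ : ℝ := Real.cos (ρ * ((b - a) / 2)) with hκ
  have hang : ρ * ((b - a) / 2) < π / 2 := by
    have : ρ * (b - a) ≤ σ * (b - a) := mul_le_mul_of_nonneg_right hρσ hba.le
    linarith
  have hang0 : 0 ≤ ρ * ((b - a) / 2) := by positivity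
  have hκpos : 0 < κ := Real.cos_pos_of_mem_Ioo ⟨by linarith, hang⟩
  set C₁ : ℝ := |C| with hC1
  have hCC : C ≤ C₁ := le_abs_self C
  have hC1n : 0 ≤ C₁ := abs_nonneg C
  set K : ℝ := C₁ / κ with hK
  have hKn : 0 ≤ K := by positivity
  have hKκ : K * κ = C₁ := div_mul_cancel₀ _ hκpos.ne'
  set M' : ℝ := max M 1 with hM'
  have hM'1 : 1 ≤ M' := le_max_right _ _
  -- the auxiliary exponent
  set E : ℂ → ℂ := fun ζ => Complex.exp (ρ * (ζ - c0 * I)) with hE
  have hEre : ∀ ζ : ℂ, (E ζ).re = Real.exp (ρ * ζ.re) * Real.cos (ρ * (ζ.im - c0)) := by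
    intro ζ
    simp only [hE, Complex.exp_re]
    simp
  have hcos : ∀ ζ : ℂ, a ≤ ζ.im → ζ.im ≤ b → κ ≤ Real.cos (ρ * (ζ.im - c0)) := by
    intro ζ h2 h3
    rw [hκ, ← Real.cos_abs (ρ * (ζ.im - c0))]
    apply Real.cos_le_cos_of_nonneg_of_le_pi (abs_nonneg _)
    · linarith [Real.pi_pos]
    · rw [abs_mul, abs_of_pos hρ]
      apply mul_le_mul_of_nonneg_left _ hρ.le
      rw [abs_le]
      constructor <;> simp only [hc0] <;> linarith
  have hElow : ∀ ζ : ℂ, a ≤ ζ.im → ζ.im ≤ b → Real.exp (ρ * ζ.re) * κ ≤ (E ζ).re := by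
    intro ζ h2 h3
    rw [hEre]
    exact mul_le_mul_of_nonneg_left (hcos ζ h2 h3) (Real.exp_pos _).le
  have hEup : ∀ ζ : ℂ, (E ζ).re ≤ Real.exp (ρ * ζ.re) := by
    intro ζ
    rw [hEre]
    exact mul_le_of_le_one_right (Real.exp_pos _).le (Real.cos_le_one _)
  set Ψ : ℂ → ℂ := fun ζ => F ζ * Complex.exp (-(K * E ζ)) with hΨ
  have hnorm : ∀ ζ, ‖Ψ ζ‖ = ‖F ζ‖ * Real.exp (-(K * (E ζ).re)) := by
    intro ζ
    simp only [hΨ]
    rw [norm_mul, Complex.norm_exp]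
    congr 2
    simp
  have hΨd : Differentiable ℂ Ψ := by
    simp only [hΨ, hE]
    fun_prop
  -- bound for small real part
  have hleft : ∀ ζ : ℂ, ζ.re ≤ t₀ → a ≤ ζ.im → ζ.im ≤ b → ‖Ψ ζ‖ ≤ M' := by
    intro ζ h2 h3 h4
    rw [hnorm]
    have h5 : 0 ≤ (E ζ).re := le_trans (by positivity) (hElow ζ h3 h4)
    have h6 : Real.exp (-(K * (E ζ).re)) ≤ 1 := by
      rw [Real.exp_le_one_iff]
      have := mul_nonneg hKn h5
      linarith
    calc ‖F ζ‖ * Real.exp (-(K * (E ζ).re)) ≤ M' * 1 := by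
          apply mul_le_mul _ h6 (Real.exp_pos _).le (by linarith)
          exact (hM ζ h2).trans (le_max_left _ _)
      _ = M' := mul_one _
  -- bound on the edges
  have hedge : ∀ ζ : ℂ, t₀ ≤ ζ.re → a ≤ ζ.im → ζ.im ≤ b →
      Real.posLog ‖F ζ‖ ≤ C * Real.exp (ρ * ζ.re) → ‖Ψ ζ‖ ≤ M' := by
    intro ζ h2 h3 h4 h5
    rw [hnorm]
    have h6 := norm_le_exp_of_posLog (norm_nonneg _) h5
    have h7 : ‖F ζ‖ * Real.exp (-(K * (E ζ).re)) ≤
        Real.exp (C * Real.exp (ρ * ζ.re)) * Real.exp (-(K * (E ζ).re)) :=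
      mul_le_mul_of_nonneg_right h6 (Real.exp_pos _).le
    refine h7.trans ?_
    rw [← Real.exp_add]
    refine le_trans ?_ hM'1
    rw [Real.exp_le_one_iff]
    have h8 := mul_le_mul_of_nonneg_left (hElow ζ h3 h4) hKn
    have h9 : K * (Real.exp (ρ * ζ.re) * κ) = C₁ * Real.exp (ρ * ζ.re) := by
      rw [← hKκ]; ring
    rw [h9] at h8
    have h10 : C * Real.exp (ρ * ζ.re) ≤ C₁ * Real.exp (ρ * ζ.re) :=
      mul_le_mul_of_nonneg_right hCC (Real.exp_pos _).le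
    linarith
  have hall : ∀ ζ : ℂ, a ≤ ζ.im → ζ.im ≤ b → ‖Ψ ζ‖ ≤ M' := by
    intro ζ h3 h4
    refine PhragmenLindelof.horizontal_strip (f := Ψ) (a := a) (b := b) (C := M')
      hΨd.diffContOnCl ?_ ?_ ?_ h3 h4
    · refine ⟨σ, ?_, C₁, ?_⟩
      · rw [lt_div_iff₀ hba]; exact hσ
      · refine Asymptotics.IsBigO.of_bound M' ?_
        have hmem : ∀ᶠ z in comap (_root_.abs ∘ re) atTop ⊓ 𝓟 (im ⁻¹' Ioo a b),
            z ∈ im ⁻¹' Ioo a b := mem_inf_of_right (mem_principal_self _)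
        filter_upwards [hmem] with z hz
        obtain ⟨hz1, hz2⟩ := hz
        have hone : 1 ≤ Real.exp (C₁ * Real.exp (σ * |z.re|)) := by
          rw [Real.one_le_exp_iff]; positivity
        rw [Real.norm_of_nonneg (Real.exp_pos _).le]
        rcases le_total z.re t₀ with h5 | h5
        · have h6 := hleft z h5 hz1.le hz2.le
          calc ‖Ψ z‖ ≤ M' * 1 := by rw [mul_one]; exact h6
            _ ≤ _ := mul_le_mul_of_nonneg_left hone (by linarith)
        · have h6 := norm_le_exp_of_posLog (norm_nonneg _) (h1 z h5 hz1.le hz2.le)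
          rw [hnorm]
          have h7 : 0 ≤ (E z).re := le_trans (by positivity) (hElow z hz1.le hz2.le)
          have h8 : Real.exp (-(K * (E z).re)) ≤ 1 := by
            rw [Real.exp_le_one_iff]
            have := mul_nonneg hKn h7
            linarith
          have h9 : C * Real.exp (σ * z.re) ≤ C₁ * Real.exp (σ * |z.re|) := by
            apply mul_le_mul hCC _ (Real.exp_pos _).le hC1n
            rw [Real.exp_le_exp]
            exact mul_le_mul_of_nonneg_left (le_abs_self _) hσ0.le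
          calc ‖F z‖ * Real.exp (-(K * (E z).re))
              ≤ Real.exp (C₁ * Real.exp (σ * |z.re|)) * 1 := by
                apply mul_le_mul _ h8 (Real.exp_pos _).le (Real.exp_pos _).le
                exact h6.trans (Real.exp_le_exp.2 h9)
            _ ≤ M' * Real.exp (C₁ * Real.exp (σ * |z.re|)) := by
                rw [mul_comm]
                exact mul_le_mul_of_nonneg_right hM'1 (Real.exp_pos _).le
    · intro z hz
      rcases le_total z.re t₀ with h5 | h5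
      · exact hleft z h5 hz.ge (by rw [hz]; exact hab.le)
      · exact hedge z h5 hz.ge (by rw [hz]; exact hab.le) (ha z h5 hz)
    · intro z hz
      rcases le_total z.re t₀ with h5 | h5
      · exact hleft z h5 (by rw [hz]; exact hab.le) hz.le
      · exact hedge z h5 (by rw [hz]; exact hab.le) hz.le (hb z h5 hz)
  refine ⟨Real.log M' * Real.exp (-(ρ * t₀)) + K, fun ζ h2 h3 h4 => ?_⟩
  have h5 := hall ζ h3 h4
  rw [hnorm] at h5
  have h6 : ‖F ζ‖ ≤ M' * Real.exp (K * Real.exp (ρ * ζ.re)) := by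
    have h7 : ‖F ζ‖ = ‖F ζ‖ * Real.exp (-(K * (E ζ).re)) * Real.exp (K * (E ζ).re) := by
      rw [mul_assoc, ← Real.exp_add]; simp
    rw [h7]
    apply mul_le_mul h5 _ (Real.exp_pos _).le (by linarith)
    rw [Real.exp_le_exp]
    exact mul_le_mul_of_nonneg_left (hEup ζ) hKn
  have hMlog : 0 ≤ Real.log M' := Real.log_nonneg hM'1
  have h8 : Real.posLog ‖F ζ‖ ≤ Real.log M' + K * Real.exp (ρ * ζ.re) := by
    rw [Real.posLog_apply]
    apply max_le
    · positivity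
    · rcases (norm_nonneg (F ζ)).eq_or_lt with h9 | h9
      · rw [← h9, Real.log_zero]; positivity
      · have h10 := Real.log_le_log h9 h6
        rwa [Real.log_mul (by positivity) (Real.exp_pos _).ne', Real.log_exp] at h10
  refine h8.trans ?_
  rw [add_mul]
  gcongr
  have h11 : 1 ≤ Real.exp (-(ρ * t₀)) * Real.exp (ρ * ζ.re) := by
    rw [← Real.exp_add, Real.one_le_exp_iff]
    have := mul_le_mul_of_nonneg_left h2 hρ.le
    linarith
  calc Real.log M' = Real.log M' * 1 := (mul_one _).symm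
    _ ≤ Real.log M' * (Real.exp (-(ρ * t₀)) * Real.exp (ρ * ζ.re)) :=
        mul_le_mul_of_nonneg_left h11 hMlog
    _ = _ := by ring

end MP2c3e4e
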