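import Mathlib

/-!
Piece D of MP_2c3e4e_an: a lower bound in sectors by Schwarz-Pick.
-/

open MeasureTheory Set Metric Filter Topology Complex
open scoped Real ENNReal

namespace MP2c3e4e

/-- the identity behind the Schwarz-Pick lemma -/
theorem pick_identity (u v : ℂ) :
    ‖1 - (starRingEnd ℂ) v * u‖ ^ 2 - ‖u - v‖ ^ 2 = (1 - ‖v‖ ^ 2) * (1 - ‖u‖ ^ 2) := by
  simp only [← Complex.normSq_eq_norm_sq, Complex.normSq_apply, Complex.sub_re, Complex.sub_im,
    Complex.mul_re, Complex.mul_im, Complex.conj_re, Complex.conj_im, Complex.one_re,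
    Complex.one_im]
  ring

/-- weak form of Schwarz-Pick -/
theorem pick_bound {g : ℂ → ℂ} (hg : DifferentiableOn ℂ g (ball 0 1))
    (hm : MapsTo g (ball 0 1) (ball 0 1)) :
    ∃ c : ℝ, 0 < c ∧ ∀ s ∈ ball (0 : ℂ) 1, c * (1 - ‖s‖ ^ 2) ≤ 1 - ‖g s‖ := by
  set v := g 0 with hv
  have hv1 : ‖v‖ < 1 := by simpa using hm (mem_ball_self one_pos)
  have hden : ∀ u : ℂ, ‖u‖ < 1 → 1 - ‖v‖ ≤ ‖1 - (starRingEnd ℂ) v * u‖ := by
    intro u hu
    have h1 : ‖(1 : ℂ)‖ - ‖(starRingEnd ℂ) v * u‖ ≤ ‖1 - (starRingEnd ℂ) v * u‖ :=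
      norm_sub_norm_le _ _
    rw [norm_one, norm_mul, RCLike.norm_conj] at h1
    have h2 : ‖v‖ * ‖u‖ ≤ ‖v‖ * 1 := mul_le_mul_of_nonneg_left hu.le (norm_nonneg _)
    linarith
  have hpos : 0 < 1 - ‖v‖ := by linarith
  have hne : ∀ u : ℂ, ‖u‖ < 1 → 1 - (starRingEnd ℂ) v * u ≠ 0 := by
    intro u hu h
    have := hden u hu
    rw [h, norm_zero] at this
    linarith
  set M : ℂ → ℂ := fun s => (g s - v) / (1 - (starRingEnd ℂ) v * g s) with hM
  have hg1 : ∀ s ∈ ball (0 : ℂ) 1, ‖g s‖ < 1 := fun s hs => by simpa using hm hs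
  have hMd : DifferentiableOn ℂ M (ball 0 1) := by
    refine DifferentiableOn.div (hg.sub_const _) ?_ fun s hs => hne _ (hg1 s hs)
    exact (differentiableOn_const _).sub ((differentiableOn_const _).mul hg)
  have hM0 : M 0 = 0 := by simp [hM, hv]
  have hMsq : ∀ s ∈ ball (0 : ℂ) 1, (1 - ‖M s‖ ^ 2) * ‖1 - (starRingEnd ℂ) v * g s‖ ^ 2 =
      (1 - ‖v‖ ^ 2) * (1 - ‖g s‖ ^ 2) := by
    intro s hs
    have h1 : ‖1 - (starRingEnd ℂ) v * g s‖ ≠ 0 := norm_ne_zero_iff.2 (hne _ (hg1 s hs))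
    rw [← pick_identity (g s) v, hM]
    simp only [norm_div]
    rw [div_pow, sub_mul, one_mul, div_mul_cancel₀ _ (pow_ne_zero 2 h1)]
  have hMm : MapsTo M (ball 0 1) (ball 0 1) := by
    intro s hs
    rw [mem_ball_zero_iff]
    have h1 := hMsq s hs
    have h2 : 0 < ‖1 - (starRingEnd ℂ) v * g s‖ := norm_pos_iff.2 (hne _ (hg1 s hs))
    have h3 : 0 < (1 - ‖v‖ ^ 2) * (1 - ‖g s‖ ^ 2) := by
      have h4 := hg1 s hs
      have h5 : 0 ≤ ‖g s‖ := norm_nonneg _
      have h6 : 0 ≤ ‖v‖ := norm_nonneg _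
      apply mul_pos <;> nlinarith
    rw [← h1] at h3
    have h7 : 0 < 1 - ‖M s‖ ^ 2 := by
      by_contra h
      push Not at h
      have : (1 - ‖M s‖ ^ 2) * ‖1 - (starRingEnd ℂ) v * g s‖ ^ 2 ≤ 0 :=
        mul_nonpos_of_nonpos_of_nonneg h (by positivity)
      linarith
    nlinarith [norm_nonneg (M s)]
  refine ⟨(1 - ‖v‖) ^ 2 / 2, by positivity, fun s hs => ?_⟩
  have hs1 : ‖s‖ < 1 := by simpa using hs
  have h1 : ‖M s‖ ≤ ‖s‖ := 
    Complex.norm_le_norm_of_mapsTo_ball hMd (hMm.mono_right ball_subset_closedBall) hM0 hs1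
  have h2 := hMsq s hs
  have h3 := hden _ (hg1 s hs)
  have h4 : 1 - ‖s‖ ^ 2 ≤ 1 - ‖M s‖ ^ 2 := by nlinarith [norm_nonneg (M s)]
  have h5 : 0 ≤ 1 - ‖s‖ ^ 2 := by nlinarith [norm_nonneg s]
  have h6 : (1 - ‖s‖ ^ 2) * (1 - ‖v‖) ^ 2 ≤ (1 - ‖v‖ ^ 2) * (1 - ‖g s‖ ^ 2) := by
    rw [← h2]
    refine mul_le_mul h4 ?_ (by positivity) (by linarith)
    exact pow_le_pow_left₀ hpos.le h3 2
  have h7 := hg1 s hs
  have h8 : 0 ≤ ‖g s‖ := norm_nonneg _
  have h9 : 0 ≤ ‖v‖ := norm_nonneg _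
  have h10 : (1 - ‖v‖ ^ 2) * (1 - ‖g s‖ ^ 2) ≤ 1 * (1 - ‖g s‖ ^ 2) :=
    mul_le_mul_of_nonneg_right (by nlinarith) (by nlinarith)
  nlinarith

/-- the map of the half plane onto the sector -/
noncomputable def Lam (ξ : ℂ) (m β : ℝ) (W : ℂ) : ℂ := ξ + exp (m * I - β * log W)

theorem Lam_eq (ξ : ℂ) (m β : ℝ) (W : ℂ) :
    Lam ξ m β W = ξ + (Real.exp (-(β * Real.log ‖W‖)) : ℝ) * exp ((m - β * W.arg : ℝ) * I) := by
  rw [Lam, Complex.ofReal_exp, ← Complex.exp_add]
  congr 2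
  rw [Complex.log]
  push_cast
  ring

theorem sector_lower {D : Set ℂ} {inv : ℂ → ℂ} (hinv : DifferentiableOn ℂ inv D)
    (hmaps : MapsTo inv D (ball 0 1)) {ξ : ℂ} {a b r₀ : ℝ} (hab : a < b) (hb : b - a ≤ 2 * π)
    (hr₀ : 0 < r₀)
    (hS : ∀ r θ : ℝ, 0 < r → r < r₀ → a < θ → θ < b → ξ + r * exp (θ * I) ∈ D)
    {ε : ℝ} (hε : 0 < ε) :
    ∃ c r₁ : ℝ, 0 < c ∧ 0 < r₁ ∧ ∀ r θ : ℝ, 0 < r → r < r₁ → a + ε < θ → θ < b - ε →
      c * r ^ (π / (b - a)) ≤ 1 - ‖inv (ξ + r * exp (θ * I))‖ := by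
  have hπ := Real.pi_pos
  set β : ℝ := (b - a) / π with hβ
  set m : ℝ := (a + b) / 2 with hm
  have hβ0 : 0 < β := div_pos (by linarith) hπ
  have hβ2 : β ≤ 2 := by rw [hβ, div_le_iff₀ hπ]; linarith
  have hβπ : β * π = b - a := by rw [hβ]; field_simp
  set R : ℝ := Real.exp (-(Real.log r₀ / β)) with hR
  have hR0 : 0 < R := Real.exp_pos _
  -- `Lam` maps the half plane `Re W > R` into `D`
  have hLD : ∀ W : ℂ, R < W.re → Lam ξ m β W ∈ D := by
    intro W hW
    have hWre : 0 < W.re := hR0.trans hW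
    have hWn : R < ‖W‖ := hW.trans_le (Complex.re_le_norm W)
    rw [Lam_eq]
    apply hS
    · exact Real.exp_pos _
    · have h1 : Real.log R < Real.log ‖W‖ := Real.log_lt_log hR0 hWn
      rw [hR, Real.log_exp] at h1
      have h2 : -(β * Real.log ‖W‖) < Real.log r₀ := by
        have h3 : β * (-(Real.log r₀ / β)) < β * Real.log ‖W‖ := mul_lt_mul_of_pos_left h1 hβ0
        have h4 : β * (-(Real.log r₀ / β)) = -Real.log r₀ := by field_simp
        linarith
      calc Real.exp (-(β * Real.log ‖W‖)) < Real.exp (Real.log r₀) := Real.exp_lt_exp.2 h2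
        _ = r₀ := Real.exp_log hr₀
    · have h1 := Complex.abs_arg_lt_pi_div_two_iff.2 (Or.inl hWre)
      rw [abs_lt] at h1
      have h2 : β * W.arg < β * (π / 2) := mul_lt_mul_of_pos_left h1.2 hβ0
      rw [hm]
      linarith
    · have h1 := Complex.abs_arg_lt_pi_div_two_iff.2 (Or.inl hWre)
      rw [abs_lt] at h1
      have h2 : β * (-(π / 2)) < β * W.arg := mul_lt_mul_of_pos_left h1.1 hβ0
      rw [hm]
      linarith
  have hLd : ∀ W : ℂ, 0 < W.re → DifferentiableAt ℂ (Lam ξ m β) W := by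
    intro W hW
    have h1 : DifferentiableAt ℂ log W := (Complex.hasDerivAt_log (Or.inl hW)).differentiableAt
    exact (((differentiableAt_const _).sub (h1.const_mul _)).cexp).const_add ξ
  -- the map of the disc
  have hre : ∀ s ∈ ball (0 : ℂ) 1, 0 < ((1 + s) / (1 - s)).re := by
    intro s hs
    have hs1 : ‖s‖ < 1 := by simpa using hs
    have h2 : normSq s < 1 := by
      rw [Complex.normSq_eq_norm_sq]; nlinarith [norm_nonneg s]
    have hne : 1 - s ≠ 0 := by
      intro h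
      have : s = 1 := (sub_eq_zero.1 h).symm
      rw [this, norm_one] at hs1
      exact lt_irrefl _ hs1
    have h3 : 0 < normSq (1 - s) := Complex.normSq_pos.2 hne
    rw [Complex.div_re, ← add_div]
    apply div_pos _ h3
    rw [Complex.normSq_apply] at h2
    simp only [Complex.add_re, Complex.one_re, Complex.sub_re, Complex.add_im, Complex.one_im,
      Complex.sub_im]
    nlinarith
  set g : ℂ → ℂ := fun s => inv (Lam ξ m β (R + (1 + s) / (1 - s))) with hg
  have hWre : ∀ s ∈ ball (0 : ℂ) 1, R < ((R : ℂ) + (1 + s) / (1 - s)).re := by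
    intro s hs
    have := hre s hs
    rw [Complex.add_re, Complex.ofReal_re]
    linarith
  have hgd : DifferentiableOn ℂ g (ball 0 1) := by
    refine hinv.comp (fun s hs => ?_) fun s hs => hLD _ (hWre s hs)
    have h1 : DifferentiableAt ℂ (fun s : ℂ => (R : ℂ) + (1 + s) / (1 - s)) s := by
      have hne : 1 - s ≠ 0 := by
        intro h
        have : s = 1 := (sub_eq_zero.1 h).symm
        have hs1 : ‖s‖ < 1 := by simpa using hs
        rw [this, norm_one] at hs1
        exact lt_irrefl _ hs1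
      exact (((differentiableAt_const _).add differentiableAt_id).div
        ((differentiableAt_const _).sub differentiableAt_id) hne).const_add _
    exact (DifferentiableAt.comp (g := Lam ξ m β) s (hLd _ (hR0.trans (hWre s hs)))
      h1).differentiableWithinAt
  have hgm : MapsTo g (ball 0 1) (ball 0 1) := fun s hs => hmaps (hLD _ (hWre s hs))
  obtain ⟨c₀, hc₀, hpick⟩ := pick_bound hgd hgm
  by_cases hεβ : ε < (b - a) / 2
  swap
  · refine ⟨1, 1, one_pos, one_pos, fun r θ _ _ h1 h2 => ?_⟩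
    exfalso
    linarith
  have hε1 : ε / β < π / 2 := by
    rw [div_lt_iff₀ hβ0]
    linarith
  have hε2 : 0 < ε / β := div_pos hε hβ0
  set κ : ℝ := Real.sin (ε / β) with hκ
  have hκ0 : 0 < κ := Real.sin_pos_of_pos_of_lt_pi hε2 (by linarith)
  set T : ℝ := 2 * R / κ + R + 1 with hT
  have hT0 : 0 < T := by positivity
  refine ⟨c₀ * (κ / 2), Real.exp (-(β * Real.log T)), by positivity, Real.exp_pos _,
    fun r θ hr hr1 h1 h2 => ?_⟩
  set t : ℝ := Real.exp (-(Real.log r / β)) with ht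
  have ht0 : 0 < t := Real.exp_pos _
  have htT : T < t := by
    have h3 : Real.log r < -(β * Real.log T) := by
      have := Real.log_lt_log hr hr1
      rwa [Real.log_exp] at this
    have h4 : Real.log T < -(Real.log r / β) := by
      rw [lt_neg, div_lt_iff₀ hβ0]
      linarith
    calc T = Real.exp (Real.log T) := (Real.exp_log hT0).symm
      _ < t := Real.exp_lt_exp.2 h4
  set W : ℂ := exp (((-(Real.log r / β) : ℝ) : ℂ) + ((-((θ - m) / β) : ℝ) : ℂ) * I) with hW
  have him1 : (θ - m) / β < π / 2 - ε / β := by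
    rw [lt_sub_iff_add_lt, ← add_div, div_lt_iff₀ hβ0, hm]
    linarith
  have him2 : -(π / 2 - ε / β) < (θ - m) / β := by
    rw [neg_lt, ← neg_div, lt_sub_iff_add_lt, ← add_div, div_lt_iff₀ hβ0, hm]
    linarith
  have hlog : log W = ((-(Real.log r / β) : ℝ) : ℂ) + ((-((θ - m) / β) : ℝ) : ℂ) * I := by
    rw [hW]
    apply Complex.log_exp
    · simp only [Complex.add_im, Complex.ofReal_im, Complex.mul_im, Complex.ofReal_re,
        Complex.I_im, Complex.I_re]
      linarith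
    · simp only [Complex.add_im, Complex.ofReal_im, Complex.mul_im, Complex.ofReal_re,
        Complex.I_im, Complex.I_re]
      linarith
  have hLW : Lam ξ m β W = ξ + r * exp (θ * I) := by
    rw [Lam, hlog]
    congr 1
    have h3 : (r : ℂ) = exp ((Real.log r : ℝ) : ℂ) := by
      rw [← Complex.ofReal_exp, Real.exp_log hr]
    rw [h3, ← Complex.exp_add]
    congr 1
    have hβc : (β : ℂ) ≠ 0 := by exact_mod_cast hβ0.ne'
    push_cast
    field_simp
    ring
  have hWn : ‖W‖ = t := by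
    rw [hW, Complex.norm_exp, ht]
    congr 1
    simp only [Complex.add_re, Complex.ofReal_im, Complex.mul_re, Complex.ofReal_re,
        Complex.I_im, Complex.I_re]
    ring
  have hWr : κ * t ≤ W.re := by
    rw [hW, Complex.exp_re]
    simp only [Complex.add_re, Complex.ofReal_im, Complex.mul_re, Complex.ofReal_re,
      Complex.I_im, Complex.I_re, Complex.add_im, Complex.mul_im]
    have h3 : κ ≤ Real.cos (0 + (-((θ - m) / β) * 1 + 0 * 0)) := by
      rw [show (0 + (-((θ - m) / β) * 1 + 0 * 0)) = -((θ - m) / β) by ring, Real.cos_neg,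
        ← Real.cos_abs, hκ, ← Real.cos_pi_div_two_sub]
      apply Real.cos_le_cos_of_nonneg_of_le_pi (abs_nonneg _) (by linarith)
      exact (abs_lt.2 ⟨by linarith, him1⟩).le
    have h4 : Real.exp (-(Real.log r / β) + (-((θ - m) / β) * 0 - 0 * 1)) = t := by
      rw [ht]; congr 1; ring
    rw [h4, mul_comm]
    exact mul_le_mul_of_nonneg_left h3 ht0.le
  set X : ℂ := W - R with hX
  have hXre : κ * t / 2 ≤ X.re := by
    rw [hX, Complex.sub_re, Complex.ofReal_re]
    have h3 : 2 * R / κ < t := by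
      have : 2 * R / κ < T := by rw [hT]; linarith
      linarith
    rw [div_lt_iff₀ hκ0] at h3
    linarith
  have hXpos : 0 < X.re := lt_of_lt_of_le (by positivity) hXre
  have hX1 : X + 1 ≠ 0 := by
    intro h
    have := congrArg Complex.re h
    rw [Complex.add_re, Complex.one_re, Complex.zero_re] at this
    linarith
  set s : ℂ := (X - 1) / (X + 1) with hs
  have hXn : ‖X + 1‖ ≤ 2 * t := by
    have h3 : X + 1 = W + ((1 - R : ℝ) : ℂ) := by rw [hX]; push_cast; ring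
    have h4 : ‖X + 1‖ ≤ ‖W‖ + ‖((1 - R : ℝ) : ℂ)‖ := by rw [h3]; exact norm_add_le _ _
    have h5 : ‖((1 - R : ℝ) : ℂ)‖ ≤ 1 + R := by
      rw [Complex.norm_real, Real.norm_eq_abs]
      exact abs_le.2 ⟨by linarith, by linarith⟩
    have h6 : 1 + R < t := by
      have h7 : 0 < 2 * R / κ := by positivity
      have : 1 + R < T := by rw [hT]; linarith
      linarith
    rw [hWn] at h4
    linarith
  have hXn0 : 0 < ‖X + 1‖ := norm_pos_iff.2 hX1
  have hs2 : 1 - ‖s‖ ^ 2 = 4 * X.re / ‖X + 1‖ ^ 2 := by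
    rw [hs, norm_div, div_pow, eq_div_iff (by positivity), sub_mul, one_mul,
      div_mul_cancel₀ _ (by positivity)]
    simp only [← Complex.normSq_eq_norm_sq, Complex.normSq_apply, Complex.add_re, Complex.add_im,
      Complex.sub_re, Complex.sub_im, Complex.one_re, Complex.one_im]
    ring
  have hs3 : κ / (2 * t) ≤ 1 - ‖s‖ ^ 2 := by
    rw [hs2, div_le_div_iff₀ (by positivity) (by positivity)]
    have h3 : ‖X + 1‖ ^ 2 ≤ (2 * t) ^ 2 := pow_le_pow_left₀ hXn0.le hXn 2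
    calc κ * ‖X + 1‖ ^ 2 ≤ κ * (2 * t) ^ 2 := mul_le_mul_of_nonneg_left h3 hκ0.le
      _ = 4 * (κ * t / 2) * (2 * t) := by ring
      _ ≤ 4 * X.re * (2 * t) := by
        apply mul_le_mul_of_nonneg_right _ (by positivity)
        linarith
  have hs1 : s ∈ ball (0 : ℂ) 1 := by
    rw [mem_ball_zero_iff]
    have h3 : 0 < 1 - ‖s‖ ^ 2 := lt_of_lt_of_le (by positivity) hs3
    nlinarith [norm_nonneg s]
  have hinvX : (1 + s) / (1 - s) = X := by
    rw [hs]
    have h3 : 1 + (X - 1) / (X + 1) = 2 * X / (X + 1) := by field_simp; ring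
    have h4 : 1 - (X - 1) / (X + 1) = 2 / (X + 1) := by field_simp; ring
    rw [h3, h4]
    field_simp
  have hgs : g s = inv (ξ + r * exp (θ * I)) := by
    rw [hg]
    simp only
    rw [hinvX, hX, add_sub_cancel, hLW]
  have hfin := hpick s hs1
  rw [hgs] at hfin
  refine le_trans ?_ hfin
  have hrt : r ^ (π / (b - a)) = 1 / t := by
    rw [ht, Real.exp_neg, one_div, inv_inv, Real.rpow_def_of_pos hr]
    congr 1
    rw [hβ]
    field_simp
  rw [hrt]
  calc c₀ * (κ / 2) * (1 / t) = c₀ * (κ / (2 * t)) := by field_simp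
    _ ≤ c₀ * (1 - ‖s‖ ^ 2) := mul_le_mul_of_nonneg_left hs3 hc₀.le

end MP2c3e4e
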