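import Mathlib

open MeasureTheory Set Metric
open scoped ENNReal Real

namespace MP2c3e4e

/-- A bounded plane domain `carrier` together with a conformal map `φ` of the unit disc onto it and
its inverse `inv` (so `carrier` is simply connected). -/
structure Dom where
  carrier : Set ℂ
  φ : ℂ → ℂ
  inv : ℂ → ℂ
  isOpen : IsOpen carrier
  bdd : Bornology.IsBounded carrier
  holo : DifferentiableOn ℂ φ (ball 0 1)
  holo_inv : DifferentiableOn ℂ inv carrier
  maps : MapsTo φ (ball 0 1) carrier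
  maps_inv : MapsTo inv carrier (ball 0 1)
  left_inv : ∀ s ∈ ball (0 : ℂ) 1, inv (φ s) = s
  right_inv : ∀ z ∈ carrier, φ (inv z) = z

/-- Arc length on the level curve `φ({|ζ| = r})`, written in the parameter `t ∈ (0, 2π]` of the
circle `|ζ| = r`. -/
noncomputable def Dom.arc (D : Dom) (r : ℝ) : Measure ℝ :=
  (volume.restrict (Ioc 0 (2 * π))).withDensity
    fun t => ‖(r : ℂ) * deriv D.φ (circleMap 0 r t)‖ₑ

/-- The norm of `E²(D)`: `sup_{0<r<1} (∫_{φ(|ζ|=r)} |f|² |dz|)^{1/2}`, with values in `[0,∞]`. -/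
noncomputable def Dom.smirnovNorm (D : Dom) (f : ℂ → ℂ) : ℝ≥0∞ :=
  ⨆ r ∈ Ioo (0 : ℝ) 1, eLpNorm (fun t => f (D.φ (circleMap 0 r t))) 2 (D.arc r)

lemma mem_ball_circle {r t : ℝ} (hr : r ∈ Ioo (0 : ℝ) 1) : circleMap 0 r t ∈ ball (0 : ℂ) 1 := by
  rw [mem_ball_zero_iff, norm_circleMap_zero, abs_of_pos hr.1]
  exact hr.2

lemma Dom.continuous_φ (D : Dom) {r : ℝ} (hr : r ∈ Ioo (0 : ℝ) 1) :
    Continuous fun t => D.φ (circleMap 0 r t) := by
  refine D.holo.continuousOn.comp_continuous (continuous_circleMap 0 r) fun t => ?_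
  exact mem_ball_circle hr

lemma Dom.continuous_comp (D : Dom) {f : ℂ → ℂ} (hf : DifferentiableOn ℂ f D.carrier) {r : ℝ}
    (hr : r ∈ Ioo (0 : ℝ) 1) : Continuous fun t => f (D.φ (circleMap 0 r t)) :=
  hf.continuousOn.comp_continuous (D.continuous_φ hr) fun _ => D.maps (mem_ball_circle hr)

lemma Dom.smirnovNorm_zero (D : Dom) : D.smirnovNorm 0 = 0 := by
  simp [Dom.smirnovNorm, eLpNorm_zero']

lemma Dom.le_smirnovNorm (D : Dom) (f : ℂ → ℂ) {r : ℝ} (hr : r ∈ Ioo (0 : ℝ) 1) :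
    eLpNorm (fun t => f (D.φ (circleMap 0 r t))) 2 (D.arc r) ≤ D.smirnovNorm f :=
  le_iSup₂_of_le r hr le_rfl

lemma Dom.smirnovNorm_le (D : Dom) (f : ℂ → ℂ) {c : ℝ≥0∞}
    (h : ∀ r ∈ Ioo (0 : ℝ) 1, eLpNorm (fun t => f (D.φ (circleMap 0 r t))) 2 (D.arc r) ≤ c) :
    D.smirnovNorm f ≤ c :=
  iSup₂_le h

lemma Dom.smirnovNorm_add_le (D : Dom) {f g : ℂ → ℂ}
    (hf : DifferentiableOn ℂ f D.carrier) (hg : DifferentiableOn ℂ g D.carrier) :
    D.smirnovNorm (f + g) ≤ D.smirnovNorm f + D.smirnovNorm g := by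
  refine D.smirnovNorm_le _ fun r hr => ?_
  have h1 := eLpNorm_add_le (μ := D.arc r) (p := 2) (D.continuous_comp hf hr).aestronglyMeasurable
    (D.continuous_comp hg hr).aestronglyMeasurable one_le_two
  exact h1.trans (add_le_add (D.le_smirnovNorm f hr) (D.le_smirnovNorm g hr))

lemma Dom.smirnovNorm_smul_le (D : Dom) (c : ℂ) (f : ℂ → ℂ) :
    D.smirnovNorm (c • f) ≤ ‖c‖ₑ * D.smirnovNorm f := by
  refine D.smirnovNorm_le _ fun r hr => ?_
  have h1 : eLpNorm (fun t => (c • f) (D.φ (circleMap 0 r t))) 2 (D.arc r) =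
      ‖c‖ₑ * eLpNorm (fun t => f (D.φ (circleMap 0 r t))) 2 (D.arc r) :=
    eLpNorm_const_smul c (fun t => f (D.φ (circleMap 0 r t))) 2 (D.arc r)
  rw [h1]
  exact mul_le_mul_right (D.le_smirnovNorm f hr) _

lemma Dom.smirnovNorm_neg (D : Dom) (f : ℂ → ℂ) :
    D.smirnovNorm (-f) = D.smirnovNorm f := by
  unfold Dom.smirnovNorm
  congr 1; funext r; congr 1; funext _
  exact eLpNorm_neg (fun t => f (D.φ (circleMap 0 r t))) 2 (D.arc r)

/-- The functions of the Smirnov space `E²(D)`, extended by zero outside of `D`. -/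
def smirnovSub (D : Dom) : Submodule ℂ (ℂ → ℂ) where
  carrier := {f | DifferentiableOn ℂ f D.carrier ∧ (∀ z, z ∉ D.carrier → f z = 0) ∧
    D.smirnovNorm f < ∞}
  add_mem' := by
    rintro f g ⟨h1, h2, h3⟩ ⟨k1, k2, k3⟩
    refine ⟨h1.add k1, fun z hz => by rw [Pi.add_apply, h2 z hz, k2 z hz, add_zero], ?_⟩
    exact (D.smirnovNorm_add_le h1 k1).trans_lt (ENNReal.add_lt_top.mpr ⟨h3, k3⟩)
  zero_mem' := ⟨differentiableOn_const 0, fun _ _ => rfl, by
    rw [D.smirnovNorm_zero]; exact ENNReal.zero_lt_top⟩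
  smul_mem' := by
    rintro c f ⟨h1, h2, h3⟩
    refine ⟨h1.const_smul c, fun z hz => by rw [Pi.smul_apply, h2 z hz, smul_zero], ?_⟩
    exact (D.smirnovNorm_smul_le c f).trans_lt (ENNReal.mul_lt_top enorm_lt_top h3)

/-- The Smirnov space `E²(D)`. -/
def E2 (D : Dom) : Type := smirnovSub D

variable {D : Dom}

instance : AddCommGroup (E2 D) := inferInstanceAs (AddCommGroup (smirnovSub D))
instance : Module ℂ (E2 D) := inferInstanceAs (Module ℂ (smirnovSub D))

/-- The underlying function. -/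
def E2.fn (f : E2 D) : ℂ → ℂ := (show smirnovSub D from f).1

lemma E2.diff (f : E2 D) : DifferentiableOn ℂ f.fn D.carrier :=
  (show smirnovSub D from f).2.1

lemma E2.off (f : E2 D) {z : ℂ} (hz : z ∉ D.carrier) : f.fn z = 0 :=
  (show smirnovSub D from f).2.2.1 z hz

lemma E2.fin (f : E2 D) : D.smirnovNorm f.fn < ∞ :=
  (show smirnovSub D from f).2.2.2

@[simp] lemma E2.fn_add (f g : E2 D) : (f + g).fn = f.fn + g.fn := rfl
@[simp] lemma E2.fn_sub (f g : E2 D) : (f - g).fn = f.fn - g.fn := rfl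
@[simp] lemma E2.fn_neg (f : E2 D) : (-f).fn = -f.fn := rfl
@[simp] lemma E2.fn_zero : (0 : E2 D).fn = 0 := rfl
@[simp] lemma E2.fn_smul (c : ℂ) (f : E2 D) : (c • f).fn = c • f.fn := rfl

lemma E2.ext_fn {f g : E2 D} (h : f.fn = g.fn) : f = g := Subtype.ext h

/-- The norm of `E²(D)`. -/
noncomputable instance : SeminormedAddCommGroup (E2 D) :=
  AddGroupSeminorm.toSeminormedAddCommGroup
    { toFun := fun f => (D.smirnovNorm f.fn).toReal
      map_zero' := by
        rw [E2.fn_zero, D.smirnovNorm_zero]; rfl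
      add_le' := by
        intro f g
        rw [← ENNReal.toReal_add f.fin.ne g.fin.ne]
        exact ENNReal.toReal_mono (ENNReal.add_ne_top.mpr ⟨f.fin.ne, g.fin.ne⟩)
          (D.smirnovNorm_add_le f.diff g.diff)
      neg' := by
        intro f
        rw [E2.fn_neg, D.smirnovNorm_neg] }

lemma E2.norm_def (f : E2 D) : ‖f‖ = (D.smirnovNorm f.fn).toReal := rfl

noncomputable instance : NormedSpace ℂ (E2 D) where
  norm_smul_le := by
    intro c f
    rw [E2.norm_def, E2.norm_def, E2.fn_smul, ← toReal_enorm, ← ENNReal.toReal_mul]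
    exact ENNReal.toReal_mono (ENNReal.mul_lt_top enorm_lt_top f.fin).ne
      (D.smirnovNorm_smul_le c f.fn)

/-- Multiplication of a function by a function bounded on `D`. -/
lemma Dom.smirnovNorm_mul_le (D : Dom) {g f : ℂ → ℂ} {K : ℝ}
    (hg : ∀ z ∈ D.carrier, ‖g z‖ ≤ K) :
    D.smirnovNorm (g * f) ≤ ENNReal.ofReal K * D.smirnovNorm f := by
  refine D.smirnovNorm_le _ fun r hr => ?_
  have h1 : eLpNorm (fun t => (g * f) (D.φ (circleMap 0 r t))) 2 (D.arc r) ≤
      ENNReal.ofReal K * eLpNorm (fun t => f (D.φ (circleMap 0 r t))) 2 (D.arc r) := by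
    refine eLpNorm_le_mul_eLpNorm_of_ae_le_mul (Filter.Eventually.of_forall fun t => ?_) 2
    rw [Pi.mul_apply, norm_mul]
    exact mul_le_mul_of_nonneg_right (hg _ (D.maps (mem_ball_circle hr))) (norm_nonneg _)
  exact h1.trans (mul_le_mul_right (D.le_smirnovNorm f hr) _)

lemma Dom.exists_bound (D : Dom) : ∃ K : ℝ, 0 ≤ K ∧ ∀ z ∈ D.carrier, ‖z‖ ≤ K := by
  obtain ⟨K, hK⟩ := D.bdd.exists_norm_le
  exact ⟨max K 0, le_max_right _ _, fun z hz => (hK z hz).trans (le_max_left _ _)⟩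

/-- The operator of multiplication by the independent variable on `E²(D)`. -/
noncomputable def mulZ (D : Dom) : E2 D →L[ℂ] E2 D :=
  LinearMap.mkContinuousOfExistsBound
    { toFun := fun f => (⟨fun z => z * f.fn z, by
        obtain ⟨K, -, hb⟩ := D.exists_bound
        refine ⟨differentiableOn_id.mul f.diff, fun z hz => ?_, ?_⟩
        · show z * f.fn z = 0
          rw [f.off hz, mul_zero]
        exact (D.smirnovNorm_mul_le hb).trans_lt (ENNReal.mul_lt_top ENNReal.ofReal_lt_top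
          f.fin)⟩ : smirnovSub D)
      map_add' := by
        intro f g
        apply E2.ext_fn
        funext z
        exact mul_add z (f.fn z) (g.fn z)
      map_smul' := by
        intro c f
        apply E2.ext_fn
        funext z
        exact mul_left_comm z c (f.fn z) }
    (by
      obtain ⟨K, hK, hb⟩ := D.exists_bound
      refine ⟨K, fun f => ?_⟩
      have h1 : D.smirnovNorm (fun z => z * f.fn z) ≤ ENNReal.ofReal K * D.smirnovNorm f.fn :=
        D.smirnovNorm_mul_le hb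
      have h2 := ENNReal.toReal_mono (ENNReal.mul_lt_top ENNReal.ofReal_lt_top f.fin).ne h1
      rw [ENNReal.toReal_mul, ENNReal.toReal_ofReal hK] at h2
      exact h2)

@[simp] lemma mulZ_fn (f : E2 D) (z : ℂ) : (mulZ D f).fn z = z * f.fn z := rfl

variable {A B C : Dom}

/-- The space `E²(R₀) = E²(A) ⊕ E²(B)`. -/
def EP (A B : Dom) : Type := E2 A × E2 B

noncomputable instance : SeminormedAddCommGroup (EP A B) :=
  inferInstanceAs (SeminormedAddCommGroup (E2 A × E2 B))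

noncomputable instance : NormedSpace ℂ (EP A B) :=
  inferInstanceAs (NormedSpace ℂ (E2 A × E2 B))

/-- The component on the sheet over `A`. -/
def EP.fst : EP A B → E2 A := Prod.fst

/-- The component on the sheet over `B`. -/
def EP.snd : EP A B → E2 B := Prod.snd

/-- The operator `M_{R₀}`, `(f, g) ↦ (z f, z g)`. -/
noncomputable def opM (A B : Dom) : EP A B →L[ℂ] EP A B :=
  (mulZ A).prodMap (mulZ B)

/-- `E` is a closed subspace invariant under `T`. -/
structure IsLat {X : Type} [SeminormedAddCommGroup X] [NormedSpace ℂ X] (T : X →L[ℂ] X)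
    (E : Submodule ℂ X) : Prop where
  closed : IsClosed (E : Set X)
  invariant : ∀ f ∈ E, T f ∈ E

/-- The cyclic subspace: the closed linear span of `T^n f`, `n ≥ 0`. -/
def cyclic {X : Type} [SeminormedAddCommGroup X] [NormedSpace ℂ X] (T : X →L[ℂ] X) (f : X) :
    Submodule ℂ X :=
  (Submodule.span ℂ (range fun n : ℕ => (T ^ n) f)).topologicalClosure

/-- Trace of `E` on the sheet over `A`. -/
def traceA (E : Submodule ℂ (EP A B)) : Set (E2 A) :=
  closure {g | ∃ f ∈ E, g = f.fst}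

/-- Trace of `E` on the sheet over `B`. -/
def traceB (E : Submodule ℂ (EP A B)) : Set (E2 B) :=
  closure {g | ∃ f ∈ E, g = f.snd}

/-- Trace of `E` on the two copies of `C` (used for `C = A ∩ B`). -/
def traceC (C : Dom) (E : Submodule ℂ (EP A B)) : Set (EP C C) :=
  closure {g | ∃ f ∈ E, EqOn g.fst.fn f.fst.fn C.carrier ∧ EqOn g.snd.fn f.snd.fn C.carrier}

/-- The standard subspace `St(E)`. -/
def standard (C : Dom) (E : Submodule ℂ (EP A B)) : Set (EP A B) :=
  {f | f.fst ∈ traceA E ∧ f.snd ∈ traceB E ∧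
    ∃ g ∈ traceC C E, EqOn g.fst.fn f.fst.fn C.carrier ∧ EqOn g.snd.fn f.snd.fn C.carrier}

/-- Regularity of the boundary of `D`, satisfied by all simply connected domains with piecewise
smooth boundary without outward cusps: the boundary is contained in a rectifiable curve, the
derivative of the conformal map is in `H¹` (that is, the boundary is rectifiable in the sense of
the theory of Smirnov spaces) and `D` has the uniform interior cone property. -/
structure Dom.Regular (D : Dom) : Prop where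
  curve : ∃ (L : NNReal) (γ : ℝ → ℂ), LipschitzOnWith L γ (Icc 0 1) ∧
    frontier D.carrier ⊆ γ '' Icc 0 1
  length : ∃ K : ℝ, ∀ r ∈ Ioo (0 : ℝ) 1, ∫ t in Ioc 0 (2 * π), ‖deriv D.φ (circleMap 0 r t)‖ ≤ K
  cone : ∃ c : ℝ, 0 < c ∧ ∀ z ∈ D.carrier, ∃ e : ℂ, ‖e‖ = 1 ∧ ∀ t ∈ Ioo 0 c,
    ball (z + t * e) (c * t) ⊆ D.carrier

/-- Near `ξ` the set `D` is asymptotically the sector with vertex `ξ` and directions between the
angles `a` and `b` (all angles in `[τ, τ + 2π]`). -/
def SectorAt (D : Set ℂ) (ξ : ℂ) (τ a b : ℝ) : Prop :=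
  ∀ ε : ℝ, 0 < ε → ∃ r₀ : ℝ, 0 < r₀ ∧ ∀ r ∈ Ioo 0 r₀, ∀ θ ∈ Icc τ (τ + 2 * π),
    (a + ε < θ → θ < b - ε → ξ + r * Complex.exp (θ * Complex.I) ∈ D) ∧
    (ξ + r * Complex.exp (θ * Complex.I) ∈ D → a - ε < θ ∧ θ < b + ε)

/-- `ξ` can be approached from outside `G` nontangentially. -/
def ExteriorCone (G : Set ℂ) (ξ : ℂ) : Prop :=
  ∃ e : ℂ, ∃ c : ℝ, 0 < c ∧ ∀ ε ∈ Ioo (0 : ℝ) c, ∀ z ∈ G, c * ε ≤ ‖z - (ξ + ε * e)‖

/-- `f` extends analytically from `D` to a neighbourhood of `ξ`. -/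
def AnalyticFrom (D : Set ℂ) (f : ℂ → ℂ) (ξ : ℂ) : Prop :=
  ∃ F : ℂ → ℂ, AnalyticAt ℂ F ξ ∧ ∀ᶠ z in nhds ξ, z ∈ D → f z = F z

end MP2c3e4e
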