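import Pool.Agent.Lib_MP_2c3e4e_an.F3

open MeasureTheory Set Metric Filter Topology
open scoped ENNReal Real

namespace MP2c3e4e

/-- growth of order `σ` at `ξ` in the directions of `S` -/
def GrowthAt (E : ℂ → ℂ) (ξ : ℂ) (S : Set ℝ) (σ : ℝ) : Prop :=
  ∃ C r₀ : ℝ, 0 < r₀ ∧ ∀ r ∈ Ioo 0 r₀, ∀ θ ∈ S,
    Real.posLog ‖E (ξ + r * Complex.exp (θ * Complex.I))‖ ≤ C * r ^ (-σ)

/-- two overlapping sectors -/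
structure Sec (τ a₁ b₁ a₂ b₂ : ℝ) : Prop where
  h1 : τ < a₁
  h2 : τ < a₂
  h3 : b₁ < τ + 2 * π
  h4 : b₂ < τ + 2 * π
  h5 : a₁ < b₁
  h6 : a₂ < b₂
  h7 : a₁ < b₂
  h8 : a₂ < b₁

end MP2c3e4e
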