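import Pool.Agent.Lib_MP_2c3e4e_an.H1a
import Pool.Agent.Lib_MP_2c3e4e_an.Defs3

open MeasureTheory Set Metric Filter Topology
open scoped ENNReal Real

namespace MP2c3e4e

/-- the plane configuration -/
structure Conf (A B : Dom) (ξ ξ' : ℂ) : Prop where
  regA : A.Regular
  regB : B.Regular
  corners : frontier A.carrier ∩ frontier B.carrier = {ξ, ξ'}
  outer : IsPreconnected (closure (A.carrier ∪ B.carrier))ᶜ

/-- the corner at `ξ` -/
structure Corner (A B : Dom) (ξ : ℂ) (τ a₁ b₁ a₂ b₂ : ℝ) : Prop where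
  sec : Sec τ a₁ b₁ a₂ b₂
  secA : SectorAt A.carrier ξ τ a₁ b₁
  secB : SectorAt B.carrier ξ τ a₂ b₂

/-- `g = ψ f` with `ψ` analytic on `A ∪ B`, and `g` is in both traces of the cyclic subspace of
`f`; `f` does not vanish identically on `A` or on `B` -/
structure Mult {A B : Dom} (f g : EP A B) (ψ : ℂ → ℂ) : Prop where
  diff : DifferentiableOn ℂ ψ (A.carrier ∪ B.carrier)
  eqA : ∀ z ∈ A.carrier, g.fst.fn z = ψ z * f.fst.fn z
  eqB : ∀ z ∈ B.carrier, g.snd.fn z = ψ z * f.snd.fn z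
  limA : ∃ P : ℕ → Polynomial ℂ, Tendsto (fun n => mulP (P n) f.fst) atTop (𝓝 g.fst)
  limB : ∃ P : ℕ → Polynomial ℂ, Tendsto (fun n => mulP (P n) f.snd) atTop (𝓝 g.snd)
  neA : ∃ z ∈ A.carrier, f.fst.fn z ≠ 0
  neB : ∃ z ∈ B.carrier, f.snd.fn z ≠ 0

/-- the resolvent function of `g = ψ f` and of a pair of functionals -/
structure Res {A B : Dom} (yA : E2 A →L[ℂ] ℂ) (yB : E2 B →L[ℂ] ℂ) (f g : EP A B) (ψ : ℂ → ℂ)
    (ξ ξ' : ℂ) (E : ℂ → ℂ) : Prop where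
  diff : DifferentiableOn ℂ E {ξ, ξ'}ᶜ
  inner : ∀ z ∈ A.carrier ∪ B.carrier, z ∉ frontier A.carrier → z ∉ frontier B.carrier →
    E z = RR yA yB g.fst g.snd z - ψ z * RR yA yB f.fst f.snd z
  outer : ∀ z, z ∉ closure (A.carrier ∪ B.carrier) → E z = RR yA yB g.fst g.snd z

end MP2c3e4e
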