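import Mathlib

open MeasureTheory Set Metric Filter Topology Complex
open scoped Real ENNReal

namespace MP2c3e4e

namespace E1aux

/-- The core: no real-linear bounded functional can be bounded below along a subsequence. -/
lemma core {X : Type*} [SeminormedAddCommGroup X] [NormedSpace ℂ X]
    (hpar : ∀ u v : X, ‖u + v‖ ^ 2 + ‖u - v‖ ^ 2 ≤ 2 * (‖u‖ ^ 2 + ‖v‖ ^ 2))
    (u : ℕ → X) {M : ℝ} (hM : ∀ n, ‖u n‖ ≤ M)
    (hu : ∀ v : ℕ → X, CauchySeq v → (∀ k, v k ∈ convexHull ℝ (u '' Ici k)) →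
      Tendsto (fun k => ‖v k‖) atTop (𝓝 0))
    (Y : X →ₗ[ℝ] ℝ) (B : ℝ) (hB : 0 < B) (hY : ∀ x, Y x ≤ B * ‖x‖) {c : ℝ} (hc : 0 < c)
    (hf : ∃ᶠ n in atTop, c ≤ Y (u n)) : False := by
  set T : ℕ → Set ℕ := fun k => {n | k ≤ n ∧ c ≤ Y (u n)} with hT
  have hTne : ∀ k, (T k).Nonempty := by
    intro k
    obtain ⟨n, hn, h⟩ := (frequently_atTop.1 hf) k
    exact ⟨n, hn, h⟩
  have hTmono : ∀ k l, k ≤ l → T l ⊆ T k := fun k l hkl n hn => ⟨hkl.trans hn.1, hn.2⟩
  set K : ℕ → Set X := fun k => convexHull ℝ (u '' T k) with hK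
  have hKmono : ∀ k l, k ≤ l → K l ⊆ K k := fun k l hkl =>
    convexHull_mono (image_mono (hTmono k l hkl))
  have hKsub : ∀ k, K k ⊆ convexHull ℝ (u '' Ici k) := fun k =>
    convexHull_mono (image_mono fun n hn => hn.1)
  have hKY : ∀ k, ∀ v ∈ K k, c ≤ Y v := by
    intro k v hv
    have hconv : Convex ℝ {v : X | c ≤ Y v} := convex_halfSpace_ge Y.isLinear c
    refine (convexHull_min ?_ hconv) hv
    rintro _ ⟨n, hn, rfl⟩
    exact hn.2
  have hKne : ∀ k, (K k).Nonempty := by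
    intro k
    obtain ⟨n, hn⟩ := hTne k
    exact ⟨u n, subset_convexHull ℝ _ ⟨n, hn, rfl⟩⟩
  set e : ℕ → ℝ := fun k => sInf ((fun v : X => ‖v‖ ^ 2) '' K k) with he
  have hbdd : ∀ k, BddBelow ((fun v : X => ‖v‖ ^ 2) '' K k) := by
    intro k
    refine ⟨0, ?_⟩
    rintro _ ⟨v, _, rfl⟩
    positivity
  have hne : ∀ k, ((fun v : X => ‖v‖ ^ 2) '' K k).Nonempty := fun k => (hKne k).image _
  have hele : ∀ k, ∀ v ∈ K k, e k ≤ ‖v‖ ^ 2 := fun k v hv =>
    csInf_le (hbdd k) ⟨v, hv, rfl⟩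
  have hemono : Monotone e := by
    intro k l hkl
    exact csInf_le_csInf (hbdd k) (hne l) (image_mono (hKmono k l hkl))
  have hM0 : 0 ≤ M := (norm_nonneg _).trans (hM 0)
  have heM : ∀ k, e k ≤ M ^ 2 := by
    intro k
    obtain ⟨n, hn⟩ := hTne k
    refine (hele k (u n) (subset_convexHull ℝ _ ⟨n, hn, rfl⟩)).trans ?_
    exact pow_le_pow_left₀ (norm_nonneg _) (hM n) 2
  have hebdd : BddAbove (range e) := ⟨M ^ 2, by rintro _ ⟨k, rfl⟩; exact heM k⟩
  have hlim := tendsto_atTop_ciSup hemono hebdd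
  set L : ℝ := ⨆ k, e k with hL
  have heL : ∀ k, e k ≤ L := fun k => le_ciSup hebdd k
  have hchoose : ∀ k : ℕ, ∃ v ∈ K k, ‖v‖ ^ 2 < e k + 1 / ((k : ℝ) + 1) := by
    intro k
    obtain ⟨_, ⟨v, hv, rfl⟩, h⟩ := exists_lt_of_csInf_lt (hne k)
      (lt_add_of_pos_right (e k) (by positivity : (0 : ℝ) < 1 / ((k : ℝ) + 1)))
    exact ⟨v, hv, h⟩
  choose v hv hve using hchoose
  have hdist : ∀ k l : ℕ, k ≤ l → ‖v k - v l‖ ^ 2 ≤
      2 * (L - e k) + 4 * (1 / ((k : ℝ) + 1)) := by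
    intro k l hkl
    have h1 := hpar (v k) (v l)
    have hmid : (1 / 2 : ℝ) • v k + (1 / 2 : ℝ) • v l ∈ K k := by
      refine (convex_convexHull ℝ _) (hv k) (hKmono k l hkl (hv l)) (by norm_num) (by norm_num)
        (by norm_num)
    have h2 := hele k _ hmid
    have h3 : ‖(1 / 2 : ℝ) • v k + (1 / 2 : ℝ) • v l‖ ^ 2 = ‖v k + v l‖ ^ 2 / 4 := by
      rw [← smul_add, norm_smul]
      norm_num
      ring
    rw [h3] at h2
    have h4 : (1 : ℝ) / ((l : ℝ) + 1) ≤ 1 / ((k : ℝ) + 1) := by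
      apply one_div_le_one_div_of_le (by positivity)
      have : (k : ℝ) ≤ l := by exact_mod_cast hkl
      linarith
    have h5 := hve k
    have h6 := hve l
    have h7 := heL l
    nlinarith
  have hcau : CauchySeq v := by
    have hb0 : Tendsto (fun k : ℕ => Real.sqrt (2 * (L - e k) + 4 * (1 / ((k : ℝ) + 1)))) atTop
        (𝓝 0) := by
      have h1 : Tendsto (fun k : ℕ => 2 * (L - e k) + 4 * (1 / ((k : ℝ) + 1))) atTop
          (𝓝 (2 * (L - L) + 4 * 0)) :=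
        ((tendsto_const_nhds.sub hlim).const_mul 2).add
          (tendsto_one_div_add_atTop_nhds_zero_nat.const_mul 4)
      have h2 := (Real.continuous_sqrt.tendsto _).comp h1
      have h3 : Real.sqrt (2 * (L - L) + 4 * 0) = 0 := by simp
      rw [h3] at h2
      exact h2
    refine cauchySeq_of_le_tendsto_0' _ (fun k l hkl => ?_) hb0
    rw [dist_eq_norm]
    exact Real.le_sqrt_of_sq_le (hdist k l hkl)
  have hz := hu v hcau fun k => hKsub k (hv k)
  have hcB : 0 < c / B := div_pos hc hB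
  have hlow : ∀ k, c / B ≤ ‖v k‖ := by
    intro k
    rw [div_le_iff₀ hB, mul_comm]
    exact (hKY k _ (hv k)).trans (hY _)
  have := ge_of_tendsto' hz hlow
  linarith

end E1aux

open E1aux

/-- E1. Bounded sequences all of whose Cauchy tail-convex combinations tend to zero are weakly
null, in a space with the parallelogram inequality. -/
theorem weak_null {X : Type*} [SeminormedAddCommGroup X] [NormedSpace ℂ X]
    (hpar : ∀ u v : X, ‖u + v‖ ^ 2 + ‖u - v‖ ^ 2 ≤ 2 * (‖u‖ ^ 2 + ‖v‖ ^ 2))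
    (u : ℕ → X) {M : ℝ} (hM : ∀ n, ‖u n‖ ≤ M)
    (hu : ∀ v : ℕ → X, CauchySeq v → (∀ k, v k ∈ convexHull ℝ (u '' Ici k)) →
      Tendsto (fun k => ‖v k‖) atTop (𝓝 0))
    (y : X →L[ℂ] ℂ) : Tendsto (fun n => y (u n)) atTop (𝓝 0) := by
  have hB : 0 < ‖y‖ + 1 := by positivity
  have hnorm : ∀ x, ‖y x‖ ≤ (‖y‖ + 1) * ‖x‖ := fun x =>
    (y.le_opNorm x).trans (mul_le_mul_of_nonneg_right (by linarith) (norm_nonneg _))
  by_contra hcon
  rw [Metric.tendsto_atTop] at hcon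
  push Not at hcon
  obtain ⟨ε, hε, hfr⟩ := hcon
  have hfreq : ∃ᶠ n in atTop, ε ≤ ‖y (u n)‖ := by
    rw [frequently_atTop]
    intro N
    obtain ⟨n, hn, h⟩ := hfr N
    exact ⟨n, hn, by simpa using h⟩
  set R : X →ₗ[ℝ] ℝ :=
    { toFun := fun x => (y x).re
      map_add' := fun a b => by simp
      map_smul' := fun r a => by
        rw [show r • a = ((r : ℂ)) • a from (RCLike.real_smul_eq_coe_smul (K := ℂ) r a)]
        simp } with hR
  set J : X →ₗ[ℝ] ℝ :=
    { toFun := fun x => (y x).im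
      map_add' := fun a b => by simp
      map_smul' := fun r a => by
        rw [show r • a = ((r : ℂ)) • a from (RCLike.real_smul_eq_coe_smul (K := ℂ) r a)]
        simp } with hJ
  have hRle : ∀ x, |R x| ≤ (‖y‖ + 1) * ‖x‖ := fun x => (abs_re_le_norm (y x)).trans (hnorm x)
  have hJle : ∀ x, |J x| ≤ (‖y‖ + 1) * ‖x‖ := fun x => (abs_im_le_norm (y x)).trans (hnorm x)
  have hc : 0 < ε / 2 := by linarith
  have hnot : ∀ Y : X →ₗ[ℝ] ℝ, (∀ x, |Y x| ≤ (‖y‖ + 1) * ‖x‖) →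
      ∀ᶠ n in atTop, |Y (u n)| < ε / 2 := by
    intro Y hY
    have h1 : ∀ᶠ n in atTop, Y (u n) < ε / 2 := by
      by_contra h
      rw [not_eventually] at h
      exact core hpar u hM hu Y _ hB (fun x => (le_abs_self _).trans (hY x)) hc
        (h.mono fun n hn => not_lt.1 hn)
    have h2 : ∀ᶠ n in atTop, (-Y) (u n) < ε / 2 := by
      by_contra h
      rw [not_eventually] at h
      refine core hpar u hM hu (-Y) _ hB (fun x => ?_) hc
        (h.mono fun n hn => not_lt.1 hn)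
      rw [LinearMap.neg_apply]
      exact (neg_le_abs _).trans (hY x)
    filter_upwards [h1, h2] with n h1 h2
    rw [LinearMap.neg_apply] at h2
    rw [abs_lt]
    constructor <;> linarith
  have hev := (hnot R hRle).and (hnot J hJle)
  obtain ⟨n, hn, hn1, hn2⟩ := (hfreq.and_eventually hev).exists
  have : ‖y (u n)‖ ≤ |(y (u n)).re| + |(y (u n)).im| := Complex.norm_le_abs_re_add_abs_im _
  change |(y (u n)).re| < ε / 2 at hn1
  change |(y (u n)).im| < ε / 2 at hn2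
  linarith

end MP2c3e4e
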