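import Mathlib

open MeasureTheory Set Metric Filter Topology Complex
open scoped Real ENNReal

namespace MP2c3e4e

namespace E2aux

/-- Points `s e^{it}` stay in the disc. -/
lemma mem_ball_mul {R : ℝ} {s : ℂ} (hs : ‖s‖ < R) (t : ℝ) : s * exp (t * I) ∈ ball (0 : ℂ) R := by
  rw [mem_ball_zero_iff, norm_mul, Complex.norm_exp_ofReal_mul_I, mul_one]
  exact hs

lemma cont_comp {F : ℂ → ℂ} (hF : ContinuousOn F (ball 0 1)) {s : ℂ} (hs : ‖s‖ < 1) :
    Continuous fun t : ℝ => F (s * exp (t * I)) := by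
  refine hF.comp_continuous (by fun_prop) fun t => mem_ball_mul hs t

/-- A parametric integral of an analytic function is analytic. -/
lemma diff_param {F : ℂ → ℂ} (hF : DifferentiableOn ℂ F (ball 0 1)) {h : ℝ → ℂ}
    (hm : Measurable h) (hb : ∀ t, ‖h t‖ ≤ 1) :
    DifferentiableOn ℂ (fun s : ℂ => ∫ t in Ioc 0 (2 * π), F (s * exp (t * I)) * h t)
      (ball 0 1) := by
  intro s₀ hs₀
  rw [mem_ball_zero_iff] at hs₀
  obtain ⟨R, hR1, hR2⟩ := exists_between hs₀
  have hR0 : 0 < R := lt_of_le_of_lt (norm_nonneg _) hR1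
  have hF' : DifferentiableOn ℂ (deriv F) (ball 0 1) := hF.deriv isOpen_ball
  have hcomp : IsCompact (closedBall (0 : ℂ) R) := isCompact_closedBall 0 R
  obtain ⟨C, hC⟩ := hcomp.exists_bound_of_continuousOn
    (hF'.continuousOn.mono (closedBall_subset_ball hR2))
  have hsub : ∀ s ∈ ball s₀ (R - ‖s₀‖), ‖s‖ < R := by
    intro s hs
    rw [mem_ball, dist_eq_norm] at hs
    have : ‖s‖ ≤ ‖s - s₀‖ + ‖s₀‖ := by
      simpa using norm_add_le (s - s₀) s₀
    linarith
  have hfin : (volume.restrict (Ioc 0 (2 * π))) univ < ⊤ := by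
    rw [Measure.restrict_apply_univ]
    exact measure_Ioc_lt_top
  have : IsFiniteMeasure (volume.restrict (Ioc (0 : ℝ) (2 * π))) := ⟨hfin⟩
  have key := hasDerivAt_integral_of_dominated_loc_of_deriv_le
    (μ := volume.restrict (Ioc (0 : ℝ) (2 * π)))
    (F := fun (s : ℂ) (t : ℝ) => F (s * exp (t * I)) * h t)
    (F' := fun (s : ℂ) (t : ℝ) => deriv F (s * exp (t * I)) * exp (t * I) * h t)
    (x₀ := s₀) (s := ball s₀ (R - ‖s₀‖)) (bound := fun _ => C)
    (ball_mem_nhds _ (by linarith)) ?_ ?_ ?_ ?_ (integrable_const C) ?_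
  · exact key.2.differentiableAt.differentiableWithinAt
  · filter_upwards [ball_mem_nhds s₀ (by linarith : (0 : ℝ) < R - ‖s₀‖)] with s hs
    exact ((cont_comp hF.continuousOn ((hsub s hs).trans hR2)).measurable.mul
      hm).aestronglyMeasurable
  · have hc := cont_comp hF.continuousOn hs₀
    obtain ⟨C2, hC2⟩ := hcomp.exists_bound_of_continuousOn
      (hF.continuousOn.mono (closedBall_subset_ball hR2))
    refine Integrable.mono' (integrable_const C2) (hc.measurable.mul hm).aestronglyMeasurable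
      (Eventually.of_forall fun t => ?_)
    rw [norm_mul]
    have h1 : ‖F (s₀ * exp (t * I))‖ ≤ C2 :=
      hC2 _ (ball_subset_closedBall (mem_ball_mul hR1 t))
    calc ‖F (s₀ * exp (t * I))‖ * ‖h t‖ ≤ ‖F (s₀ * exp (t * I))‖ * 1 :=
          mul_le_mul_of_nonneg_left (hb t) (norm_nonneg _)
      _ ≤ C2 := by rw [mul_one]; exact h1
  · exact (((cont_comp hF'.continuousOn hs₀).mul (by fun_prop :
      Continuous fun t : ℝ => exp (t * I))).measurable.mul hm).aestronglyMeasurable
  · refine Eventually.of_forall fun t s hs => ?_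
    rw [norm_mul, norm_mul, Complex.norm_exp_ofReal_mul_I, mul_one]
    have h1 : ‖deriv F (s * exp (t * I))‖ ≤ C :=
      hC _ (ball_subset_closedBall (mem_ball_mul (hsub s hs) t))
    calc ‖deriv F (s * exp (t * I))‖ * ‖h t‖ ≤ ‖deriv F (s * exp (t * I))‖ * 1 :=
          mul_le_mul_of_nonneg_left (hb t) (norm_nonneg _)
      _ ≤ C := by rw [mul_one]; exact h1
  · refine Eventually.of_forall fun t s hs => ?_
    have hmem : s * exp (t * I) ∈ ball (0 : ℂ) 1 := mem_ball_mul ((hsub s hs).trans hR2) t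
    have hd : HasDerivAt F (deriv F (s * exp (t * I))) (s * exp (t * I)) :=
      (hF.differentiableAt (isOpen_ball.mem_nhds hmem)).hasDerivAt
    have h2 : HasDerivAt (fun s : ℂ => s * exp (t * I)) (exp (t * I)) s := by
      simpa using (hasDerivAt_id s).mul_const (exp (t * I))
    exact (hd.comp s h2).mul_const (h t)

/-- Rotation invariance of the circle mean. -/
lemma rotate {F : ℂ → ℂ} (r α : ℝ) :
    ∫ t in Ioc 0 (2 * π), ‖F (r * exp (α * I) * exp (t * I))‖ =
      ∫ t in Ioc 0 (2 * π), ‖F (circleMap 0 r t)‖ := by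
  have hp : Function.Periodic (fun t : ℝ => ‖F (circleMap 0 r t)‖) (2 * π) := by
    intro t
    simp only [periodic_circleMap 0 r t]
  have h1 : ∀ t : ℝ, ‖F (r * exp (α * I) * exp (t * I))‖ = ‖F (circleMap 0 r (t + α))‖ := by
    intro t
    congr 2
    rw [circleMap, zero_add, mul_assoc, ← Complex.exp_add]
    push_cast
    ring_nf
  simp_rw [h1]
  rw [← intervalIntegral.integral_of_le (by positivity),
    ← intervalIntegral.integral_of_le (by positivity),
    intervalIntegral.integral_comp_add_right (fun t => ‖F (circleMap 0 r t)‖) α]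
  have := hp.intervalIntegral_add_eq α 0
  rw [zero_add] at this ⊢
  rw [← this, add_comm]

end E2aux

open E2aux

/-- E2. The mean of the modulus of an analytic function over circles is nondecreasing. -/
theorem mean_mono {F : ℂ → ℂ} (hF : DifferentiableOn ℂ F (ball 0 1)) {r₁ r₂ : ℝ} (h0 : 0 ≤ r₁)
    (h12 : r₁ ≤ r₂) (h1 : r₂ < 1) :
    ∫ t in Ioc 0 (2 * π), ‖F (circleMap 0 r₁ t)‖ ≤ ∫ t in Ioc 0 (2 * π), ‖F (circleMap 0 r₂ t)‖ := by
  rcases h12.eq_or_lt with rfl | h12'
  · exact le_rfl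
  have hr2 : 0 < r₂ := lt_of_le_of_lt h0 h12'
  have hr1 : ‖(r₁ : ℂ)‖ < 1 := by
    rw [Complex.norm_real, Real.norm_of_nonneg h0]; linarith
  set g : ℝ → ℂ := fun t => F (r₁ * exp (t * I)) with hg
  have hgc : Continuous g := cont_comp hF.continuousOn hr1
  set h : ℝ → ℂ := fun t => (starRingEnd ℂ) (g t) * ((‖g t‖ : ℂ))⁻¹ with hh
  have hm : Measurable h := by
    have h1 : Measurable fun t => (starRingEnd ℂ) (g t) :=
      (Complex.continuous_conj.comp hgc).measurable
    have h2 : Measurable fun t => ((‖g t‖ : ℂ))⁻¹ :=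
      (Complex.continuous_ofReal.comp hgc.norm).measurable.inv
    exact h1.mul h2
  have hb : ∀ t, ‖h t‖ ≤ 1 := by
    intro t
    rw [hh]
    simp only [norm_mul, RCLike.norm_conj, norm_inv, Complex.norm_real, norm_norm]
    exact mul_inv_le_one
  set Φ : ℂ → ℂ := fun s => ∫ t in Ioc 0 (2 * π), F (s * exp (t * I)) * h t with hΦ
  have hd : DifferentiableOn ℂ Φ (ball 0 1) := diff_param hF hm hb
  have hΦ1 : Φ r₁ = ((∫ t in Ioc 0 (2 * π), ‖F (circleMap 0 r₁ t)‖ : ℝ) : ℂ) := by
    rw [hΦ, ← integral_complex_ofReal]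
    refine integral_congr_ae (Eventually.of_forall fun t => ?_)
    simp only [circleMap, zero_add]
    change g t * ((starRingEnd ℂ) (g t) * ((‖g t‖ : ℂ))⁻¹) = (‖g t‖ : ℂ)
    rw [← mul_assoc, Complex.mul_conj, Complex.normSq_eq_norm_sq]
    push_cast
    rcases eq_or_ne (‖g t‖ : ℂ) 0 with h0 | h0
    · rw [h0]; simp
    · field_simp
  have hfr : ∀ z ∈ frontier (ball (0 : ℂ) r₂), ‖Φ z‖ ≤
      ∫ t in Ioc 0 (2 * π), ‖F (circleMap 0 r₂ t)‖ := by
    intro z hz
    rw [frontier_ball (0 : ℂ) hr2.ne', mem_sphere_zero_iff_norm] at hz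
    have hz1 : ‖z‖ < 1 := by rw [hz]; exact h1
    have hzeq : z = r₂ * exp (arg z * I) := by
      rw [← hz]; exact (Complex.norm_mul_exp_arg_mul_I z).symm
    have hzc := cont_comp hF.continuousOn hz1
    calc ‖Φ z‖ ≤ ∫ t in Ioc 0 (2 * π), ‖F (z * exp (t * I)) * h t‖ :=
          norm_integral_le_integral_norm _
      _ ≤ ∫ t in Ioc 0 (2 * π), ‖F (z * exp (t * I))‖ := by
          refine integral_mono_of_nonneg (Eventually.of_forall fun t => norm_nonneg _) ?_
            (Eventually.of_forall fun t => ?_)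
          · exact (hzc.norm.integrableOn_Ioc)
          · simp only [norm_mul]
            calc ‖F (z * exp (t * I))‖ * ‖h t‖ ≤ ‖F (z * exp (t * I))‖ * 1 :=
                  mul_le_mul_of_nonneg_left (hb t) (norm_nonneg _)
              _ = _ := mul_one _
      _ = ∫ t in Ioc 0 (2 * π), ‖F (circleMap 0 r₂ t)‖ := by
          rw [hzeq]; exact rotate r₂ (arg z)
  have hdc : DiffContOnCl ℂ Φ (ball 0 r₂) := by
    refine DifferentiableOn.diffContOnCl ?_
    rw [closure_ball (0 : ℂ) hr2.ne']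
    exact hd.mono (closedBall_subset_ball h1)
  have hmem : (r₁ : ℂ) ∈ closure (ball (0 : ℂ) r₂) := by
    refine subset_closure ?_
    rw [mem_ball_zero_iff, Complex.norm_real, Real.norm_of_nonneg h0]
    exact h12'
  have := Complex.norm_le_of_forall_mem_frontier_norm_le isBounded_ball hdc hfr hmem
  rw [hΦ1, Complex.norm_real, Real.norm_of_nonneg
    (integral_nonneg fun t => norm_nonneg _)] at this
  exact this

end MP2c3e4e
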