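import Pool.Agent.Lib_MP_2c3e4e_an.Defs

open MeasureTheory Set Metric Filter Topology
open scoped ENNReal Real

namespace MP2c3e4e

lemma cauchy_bound {F : ℂ → ℂ} (hF : DifferentiableOn ℂ F (ball 0 1)) {r : ℝ} (hr0 : 0 < r)
    (hr1 : r < 1) {s : ℂ} (hs : ‖s‖ < r) :
    ‖F s‖ * (r - ‖s‖) ≤ (2 * π)⁻¹ * ∫ t in Ioc 0 (2 * π), r * ‖F (circleMap 0 r t)‖ := by
  have hfc : DiffContOnCl ℂ F (ball 0 r) :=
    hF.diffContOnCl_ball (closedBall_subset_ball hr1)
  have hcau := hfc.two_pi_i_inv_smul_circleIntegral_sub_inv_smul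
    (mem_ball_zero_iff.mpr hs)
  have hcont : Continuous fun t => F (circleMap 0 r t) :=
    hF.continuousOn.comp_continuous (continuous_circleMap 0 r) fun t => mem_ball_circle ⟨hr0, hr1⟩
  have hbd : ‖F s‖ ≤ (2 * π)⁻¹ * ((r - ‖s‖)⁻¹ *
      ∫ t in Ioc 0 (2 * π), r * ‖F (circleMap 0 r t)‖) := by
    conv_lhs => rw [← hcau, norm_smul]
    have e5 : ‖(2 * (π : ℂ) * Complex.I)⁻¹‖ = (2 * π)⁻¹ := by
      rw [norm_inv, norm_mul, norm_mul, Complex.norm_I, mul_one, Complex.norm_real,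
        Real.norm_eq_abs, abs_of_pos Real.pi_pos]
      simp
    rw [e5]
    refine mul_le_mul_of_nonneg_left ?_ (by positivity)
    rw [circleIntegral, intervalIntegral.integral_of_le (by positivity)]
    refine (norm_integral_le_integral_norm _).trans ?_
    rw [← integral_const_mul]
    refine setIntegral_mono_on ?_ ?_ measurableSet_Ioc fun t _ => ?_
    · refine (Continuous.integrableOn_Icc ?_).mono_set Ioc_subset_Icc_self
      have hd : Continuous fun t => deriv (circleMap 0 r) t := by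
        simp only [deriv_circleMap]
        exact (continuous_circleMap 0 r).mul continuous_const
      refine (hd.smul (Continuous.smul (Continuous.inv₀
        ((continuous_circleMap 0 r).sub continuous_const) fun t => ?_) hcont)).norm
      intro h0
      have h1 : circleMap 0 r t = s := sub_eq_zero.mp h0
      have h2 : ‖circleMap 0 r t‖ = r := by
        rw [norm_circleMap_zero, abs_of_pos hr0]
      rw [h1] at h2
      linarith
    · exact (Continuous.integrableOn_Icc (continuous_const.mul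
        (continuous_const.mul hcont.norm))).mono_set Ioc_subset_Icc_self
    · rw [norm_smul, norm_smul, deriv_circleMap, norm_mul, norm_circleMap_zero, Complex.norm_I,
        mul_one, abs_of_pos hr0, norm_inv]
      have h3 : r - ‖s‖ ≤ ‖circleMap 0 r t - s‖ := by
        have h2 : ‖circleMap 0 r t‖ = r := by
          rw [norm_circleMap_zero, abs_of_pos hr0]
        have h5 := norm_sub_norm_le (circleMap 0 r t) s
        rwa [h2] at h5
      have h6 : ‖circleMap 0 r t - s‖⁻¹ ≤ (r - ‖s‖)⁻¹ :=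
        inv_anti₀ (by linarith) h3
      calc r * (‖circleMap 0 r t - s‖⁻¹ * ‖F (circleMap 0 r t)‖)
          ≤ r * ((r - ‖s‖)⁻¹ * ‖F (circleMap 0 r t)‖) := by gcongr
        _ = (r - ‖s‖)⁻¹ * (r * ‖F (circleMap 0 r t)‖) := by ring
  have h8 : 0 < r - ‖s‖ := by linarith
  calc ‖F s‖ * (r - ‖s‖) ≤ _ := mul_le_mul_of_nonneg_right hbd h8.le
    _ = _ := by field_simp

variable {D : Dom}

/-- the analytic function `(h ∘ φ)² φ'` -/
noncomputable def sqF (D : Dom) (h : ℂ → ℂ) (s : ℂ) : ℂ := h (D.φ s) ^ 2 * deriv D.φ s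

lemma diff_derivφ (D : Dom) : DifferentiableOn ℂ (deriv D.φ) (ball 0 1) :=
  D.holo.deriv isOpen_ball

lemma diff_comp (D : Dom) {h : ℂ → ℂ} (hh : DifferentiableOn ℂ h D.carrier) :
    DifferentiableOn ℂ (fun s => h (D.φ s)) (ball 0 1) :=
  hh.comp D.holo D.maps

lemma diff_sqF (D : Dom) {h : ℂ → ℂ} (hh : DifferentiableOn ℂ h D.carrier) :
    DifferentiableOn ℂ (sqF D h) (ball 0 1) :=
  ((diff_comp D hh).pow 2).mul (diff_derivφ D)

lemma cont_circle {F : ℂ → ℂ} (hF : DifferentiableOn ℂ F (ball 0 1)) {r : ℝ}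
    (hr : r ∈ Ioo (0 : ℝ) 1) : Continuous fun t => F (circleMap 0 r t) :=
  hF.continuousOn.comp_continuous (continuous_circleMap 0 r) fun _ => mem_ball_circle hr

lemma cont_arc (D : Dom) {r : ℝ} (hr : r ∈ Ioo (0 : ℝ) 1) :
    Continuous fun t => ‖(r : ℂ) * deriv D.φ (circleMap 0 r t)‖ₑ :=
  (continuous_const.mul (cont_circle (diff_derivφ D) hr)).enorm

lemma eLpNorm_sq (D : Dom) {h : ℂ → ℂ} (hh : DifferentiableOn ℂ h D.carrier) {r : ℝ}
    (hr : r ∈ Ioo (0 : ℝ) 1) :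
    eLpNorm (fun t => h (D.φ (circleMap 0 r t))) 2 (D.arc r) ^ 2 =
      ENNReal.ofReal (∫ t in Ioc 0 (2 * π), r * ‖sqF D h (circleMap 0 r t)‖) := by
  have h1 := eLpNorm_nnreal_pow_eq_lintegral (f := fun t => h (D.φ (circleMap 0 r t)))
    (μ := D.arc r) (p := 2) two_ne_zero
  have h2 : eLpNorm (fun t => h (D.φ (circleMap 0 r t))) 2 (D.arc r) ^ 2 =
      ∫⁻ t, ‖h (D.φ (circleMap 0 r t))‖ₑ ^ 2 ∂(D.arc r) := by
    have e1 : (((2 : NNReal) : ℝ≥0∞)) = 2 := rfl
    rw [e1] at h1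
    have e2 : ∀ x : ℝ≥0∞, x ^ ((2 : NNReal) : ℝ) = x ^ 2 := fun x => by
      rw [NNReal.coe_ofNat]; exact ENNReal.rpow_ofNat x 2
    simp only [e2] at h1
    exact h1
  rw [h2, Dom.arc, lintegral_withDensity_eq_lintegral_mul _ (cont_arc D hr).measurable
    ((D.continuous_comp hh hr).enorm.measurable.pow_const 2)]
  rw [ofReal_integral_eq_lintegral_ofReal]
  · refine lintegral_congr fun t => ?_
    rw [Pi.mul_apply, sqF, ← enorm_pow, ← enorm_mul, ← ofReal_norm]
    congr 1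
    rw [norm_mul, norm_mul, norm_mul, Complex.norm_real, Real.norm_eq_abs, abs_of_pos hr.1]
    ring
  · exact (Continuous.integrableOn_Icc (continuous_const.mul
      (cont_circle (diff_sqF D hh) hr).norm)).mono_set Ioc_subset_Icc_self
  · exact Eventually.of_forall fun t => mul_nonneg hr.1.le (norm_nonneg _)

lemma E2.energy (h : E2 D) {r : ℝ} (hr : r ∈ Ioo (0 : ℝ) 1) :
    ∫ t in Ioc 0 (2 * π), r * ‖sqF D h.fn (circleMap 0 r t)‖ ≤ ‖h‖ ^ 2 := by
  have h1 := eLpNorm_sq D h.diff hr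
  have h2 := pow_le_pow_left' (D.le_smirnovNorm h.fn hr) 2
  rw [h1] at h2
  have h3 := ENNReal.toReal_mono (ENNReal.pow_lt_top h.fin).ne h2
  rw [ENNReal.toReal_ofReal (integral_nonneg fun t => mul_nonneg hr.1.le (norm_nonneg _)),
    ENNReal.toReal_pow] at h3
  exact h3

lemma E2.sqF_bound (h : E2 D) {s : ℂ} (hs : s ∈ ball (0 : ℂ) 1) :
    ‖sqF D h.fn s‖ * (1 - ‖s‖) ≤ (2 * π)⁻¹ * ‖h‖ ^ 2 := by
  rw [mem_ball_zero_iff] at hs
  have h1 : ∀ᶠ r : ℝ in 𝓝[<] 1, ‖sqF D h.fn s‖ * (r - ‖s‖) ≤ (2 * π)⁻¹ * ‖h‖ ^ 2 := by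
    have h2 : Ioo ‖s‖ 1 ∈ 𝓝[<] (1 : ℝ) := Ioo_mem_nhdsLT hs
    filter_upwards [h2] with r hr
    have hr0 : 0 < r := (norm_nonneg s).trans_lt hr.1
    refine (cauchy_bound (diff_sqF D h.diff) hr0 hr.2 hr.1).trans ?_
    exact mul_le_mul_of_nonneg_left (h.energy ⟨hr0, hr.2⟩) (by positivity)
  have h3 : Tendsto (fun r : ℝ => ‖sqF D h.fn s‖ * (r - ‖s‖)) (𝓝[<] 1)
      (𝓝 (‖sqF D h.fn s‖ * (1 - ‖s‖))) :=
    (Continuous.tendsto (by fun_prop) 1).mono_left nhdsWithin_le_nhds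
  exact le_of_tendsto h3 h1

/-- derivative of the inverse -/
lemma deriv_inv_mul (D : Dom) {s : ℂ} (hs : s ∈ ball (0 : ℂ) 1) :
    deriv D.inv (D.φ s) * deriv D.φ s = 1 := by
  have h1 : HasDerivAt D.φ (deriv D.φ s) s :=
    ((D.holo s hs).differentiableAt (isOpen_ball.mem_nhds hs)).hasDerivAt
  have h2 : HasDerivAt D.inv (deriv D.inv (D.φ s)) (D.φ s) :=
    ((D.holo_inv _ (D.maps hs)).differentiableAt (D.isOpen.mem_nhds (D.maps hs))).hasDerivAt
  have h3 := h2.comp s h1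
  have h4 : HasDerivAt (D.inv ∘ D.φ) 1 s := by
    refine (hasDerivAt_id s).congr_of_eventuallyEq ?_
    filter_upwards [isOpen_ball.mem_nhds hs] with t ht
    exact D.left_inv t ht
  exact h3.unique h4

lemma deriv_φ_ne_zero (D : Dom) {s : ℂ} (hs : s ∈ ball (0 : ℂ) 1) : deriv D.φ s ≠ 0 := by
  intro h
  have := deriv_inv_mul D hs
  rw [h, mul_zero] at this
  exact zero_ne_one this

/-- `|φ'| ≥ dist / 2` -/
lemma deriv_φ_lower (D : Dom) {s : ℂ} (hs : s ∈ ball (0 : ℂ) 1) {d : ℝ} (hd : 0 < d)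
    (hball : ball (D.φ s) d ⊆ D.carrier) : d / 2 ≤ ‖deriv D.φ s‖ := by
  have h1 : MapsTo D.inv (ball (D.φ s) d) (ball (D.inv (D.φ s)) 2) := by
    intro z hz
    have h2 := D.maps_inv (hball hz)
    rw [D.left_inv s hs]
    rw [mem_ball_zero_iff] at h2 hs
    rw [mem_ball, dist_eq_norm]
    calc ‖D.inv z - s‖ ≤ ‖D.inv z‖ + ‖s‖ := norm_sub_le _ _
      _ < 2 := by linarith
  have h2 := Complex.norm_deriv_le_div_of_mapsTo_ball (D.holo_inv.mono hball)
    (h1.mono_right ball_subset_closedBall) hd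
  have h3 := deriv_inv_mul D hs
  have h4 : ‖deriv D.inv (D.φ s)‖ * ‖deriv D.φ s‖ = 1 := by rw [← norm_mul, h3, norm_one]
  have h5 : 1 ≤ 2 / d * ‖deriv D.φ s‖ := by
    rw [← h4]; gcongr
  rw [div_mul_eq_mul_div, le_div_iff₀ hd] at h5
  linarith

/-- distance to the complement -/
noncomputable def Dom.dist (D : Dom) (z : ℂ) : ℝ := infDist z D.carrierᶜ

lemma Dom.compl_nonempty (D : Dom) : (D.carrierᶜ).Nonempty := by
  obtain ⟨K, hK, hb⟩ := D.exists_bound
  refine ⟨((K + 1 : ℝ) : ℂ), fun h => ?_⟩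
  have := hb _ h
  rw [Complex.norm_real, Real.norm_eq_abs, abs_of_pos (by linarith)] at this
  linarith

lemma Dom.dist_nonneg (D : Dom) (z : ℂ) : 0 ≤ D.dist z := infDist_nonneg

lemma Dom.dist_pos (D : Dom) {z : ℂ} (hz : z ∈ D.carrier) : 0 < D.dist z := by
  have h1 : IsClosed D.carrierᶜ := D.isOpen.isClosed_compl
  exact (h1.notMem_iff_infDist_pos D.compl_nonempty).mp (by simpa using hz)

lemma Dom.ball_subset (D : Dom) (z : ℂ) : ball z (D.dist z) ⊆ D.carrier := by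
  intro x hx
  by_contra h
  have : infDist z D.carrierᶜ ≤ Dist.dist z x := infDist_le_dist_of_mem h
  rw [mem_ball, _root_.dist_comm] at hx
  exact absurd hx (not_lt.mpr this)

lemma Dom.dist_le_of_compl (D : Dom) {z w : ℂ} (hw : w ∉ D.carrier) : D.dist z ≤ ‖z - w‖ := by
  rw [← dist_eq_norm]; exact infDist_le_dist_of_mem hw

lemma Dom.dist_lip (D : Dom) (z w : ℂ) : D.dist z ≤ D.dist w + ‖z - w‖ := by
  rw [← dist_eq_norm]; exact infDist_le_infDist_add_dist

/-- Harnack type inequality for `1 - |inv|`, from the Schwarz lemma. -/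
lemma Dom.harnack (D : Dom) {z w : ℂ} {d : ℝ} (hd : 0 < d) (hball : ball z d ⊆ D.carrier)
    (hw : ‖w - z‖ ≤ d / 2) : 1 - ‖D.inv w‖ ≤ 12 * (1 - ‖D.inv z‖) := by
  set a := D.inv z with ha
  set g : ℂ → ℂ := fun s => D.inv (z + d * s) with hg
  have hin : ∀ s ∈ ball (0 : ℂ) 1, z + d * s ∈ ball z d := by
    intro s hs
    rw [mem_ball_zero_iff] at hs
    rw [mem_ball, dist_eq_norm, add_sub_cancel_left, norm_mul, Complex.norm_real,
      Real.norm_eq_abs, abs_of_pos hd]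
    nlinarith
  have hgd : DifferentiableOn ℂ g (ball 0 1) := by
    refine D.holo_inv.comp (by fun_prop) fun s hs => hball (hin s hs)
  have hg1 : ∀ s ∈ ball (0 : ℂ) 1, ‖g s‖ < 1 := fun s hs =>
    mem_ball_zero_iff.mp (D.maps_inv (hball (hin s hs)))
  have hg0 : g 0 = a := by rw [hg]; simp [ha]
  have ha1 : ‖a‖ < 1 := by rw [← hg0]; exact hg1 0 (mem_ball_self one_pos)
  have hane : ∀ u : ℂ, ‖u‖ < 1 → 1 - (starRingEnd ℂ) a * u ≠ 0 := by
    intro u hu h
    have h1 : ‖(1 : ℂ)‖ - ‖(starRingEnd ℂ) a * u‖ ≤ ‖1 - (starRingEnd ℂ) a * u‖ :=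
      norm_sub_norm_le _ _
    rw [h, norm_zero, norm_one, norm_mul, RCLike.norm_conj] at h1
    have h2 : ‖a‖ * ‖u‖ ≤ ‖a‖ * 1 := mul_le_mul_of_nonneg_left hu.le (norm_nonneg _)
    linarith
  -- identity
  have hid : ∀ u : ℂ, ‖1 - (starRingEnd ℂ) a * u‖ ^ 2 - ‖u - a‖ ^ 2 =
      (1 - ‖a‖ ^ 2) * (1 - ‖u‖ ^ 2) := by
    intro u
    simp only [← Complex.normSq_eq_norm_sq, Complex.normSq_apply, Complex.sub_re, Complex.sub_im,
      Complex.mul_re, Complex.mul_im, Complex.conj_re, Complex.conj_im, Complex.one_re,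
      Complex.one_im]
    ring
  set M : ℂ → ℂ := fun s => (g s - a) / (1 - (starRingEnd ℂ) a * g s) with hM
  have hMd : DifferentiableOn ℂ M (ball 0 1) := by
    refine DifferentiableOn.div (hgd.sub_const _) ?_ fun s hs => hane _ (hg1 s hs)
    exact (differentiableOn_const _).sub ((differentiableOn_const _).mul hgd)
  have hM0 : M 0 = 0 := by simp only [hM]; rw [hg0, sub_self, zero_div]
  have hMle : ∀ s ∈ ball (0 : ℂ) 1, ‖g s - a‖ < ‖1 - (starRingEnd ℂ) a * g s‖ := by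
    intro s hs
    have h1 := hid (g s)
    have h2 : 0 < (1 - ‖a‖ ^ 2) * (1 - ‖g s‖ ^ 2) := by
      have h4 := hg1 s hs
      have h5 : 0 ≤ ‖g s‖ := norm_nonneg _
      have h6 : 0 ≤ ‖a‖ := norm_nonneg _
      have h7 : 0 < 1 - ‖a‖ ^ 2 := by nlinarith
      have h8 : 0 < 1 - ‖g s‖ ^ 2 := by nlinarith
      positivity
    exact lt_of_pow_lt_pow_left₀ 2 (norm_nonneg _) (by linarith)
  have hMm : MapsTo M (ball 0 1) (ball (M 0) 1) := by
    intro s hs
    rw [hM0, mem_ball_zero_iff, hM]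
    simp only [norm_div]
    rw [div_lt_one (norm_pos_iff.mpr (hane _ (hg1 s hs)))]
    exact hMle s hs
  -- the point
  set s : ℂ := (w - z) / d with hs
  have hdc : (d : ℂ) ≠ 0 := by exact_mod_cast hd.ne'
  have hsn : ‖s‖ ≤ 1 / 2 := by
    rw [hs, norm_div, Complex.norm_real, Real.norm_eq_abs, abs_of_pos hd, div_le_iff₀ hd]
    linarith
  have hsb : s ∈ ball (0 : ℂ) 1 := by rw [mem_ball_zero_iff]; linarith
  have hgs : g s = D.inv w := by
    rw [hg, hs]; simp only; congr 1; field_simp; ring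
  have h1 : ‖M s‖ ≤ ‖s‖ := by
    have h2 := Complex.dist_le_dist_of_mapsTo_ball hMd
      (hMm.mono_right ball_subset_closedBall) hsb
    rw [hM0] at h2
    simpa [dist_zero_right] using h2
  have h2 : ‖g s - a‖ ≤ 1 / 2 * ‖1 - (starRingEnd ℂ) a * g s‖ := by
    have h3 : ‖M s‖ ≤ 1 / 2 := h1.trans hsn
    rw [hM] at h3
    simp only [norm_div] at h3
    rwa [div_le_iff₀ (norm_pos_iff.mpr (hane _ (hg1 s hsb)))] at h3
  -- conclusion
  set x := ‖a‖ with hx
  set y := ‖g s‖ with hy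
  have hx0 : 0 ≤ x := norm_nonneg _
  have hy0 : 0 ≤ y := norm_nonneg _
  have hy1 : y < 1 := hg1 s hsb
  have h3 := hid (g s)
  rw [← hy] at h3
  set W := ‖1 - (starRingEnd ℂ) a * g s‖ with hW
  have hW0 : 0 ≤ W := norm_nonneg _
  have h4 : W ^ 2 ≤ 4 / 3 * ((1 - x ^ 2) * (1 - y ^ 2)) := by
    have h5 : ‖g s - a‖ ^ 2 ≤ (1 / 2 * W) ^ 2 := pow_le_pow_left₀ (norm_nonneg _) h2 2
    nlinarith
  have h6 : 1 - y ≤ W := by
    have h7 : ‖(1 : ℂ)‖ - ‖(starRingEnd ℂ) a * g s‖ ≤ W := norm_sub_norm_le _ _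
    rw [norm_one, norm_mul, RCLike.norm_conj, ← hx, ← hy] at h7
    nlinarith
  rw [← hgs]
  have h8 : (1 - y) ^ 2 ≤ 4 / 3 * ((1 - x ^ 2) * (1 - y ^ 2)) :=
    (pow_le_pow_left₀ (by linarith) h6 2).trans h4
  have h9 : 0 < 1 - y := by linarith
  have h10 : (1 - y) * (1 - y) ≤ (1 - y) * (4 / 3 * ((1 - x ^ 2) * (1 + y))) := by
    calc (1 - y) * (1 - y) = (1 - y) ^ 2 := by ring
      _ ≤ 4 / 3 * ((1 - x ^ 2) * (1 - y ^ 2)) := h8
      _ = _ := by ring
  have h11 := le_of_mul_le_mul_left h10 h9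
  have h12 : (1 - x ^ 2) * (1 + y) ≤ 4 * (1 - x) := by
    have : 0 ≤ 1 - x := by linarith
    nlinarith [mul_nonneg this hy0, mul_nonneg this hx0]
  nlinarith

/-- `1 - |s|` is bounded below by a power of the distance to the boundary. -/
lemma Dom.Regular.one_sub_lower (hD : D.Regular) : ∃ c M : ℝ, 0 < c ∧ 0 < M ∧
    ∀ z ∈ D.carrier, c * D.dist z ^ M ≤ 1 - ‖D.inv z‖ := by
  obtain ⟨c₀, hc₀, hcone₀⟩ := hD.cone
  -- normalise the constant
  set c : ℝ := min c₀ 1 with hc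
  have hc0 : 0 < c := lt_min hc₀ one_pos
  have hc1 : c ≤ 1 := min_le_right _ _
  have hcone : ∀ z ∈ D.carrier, ∃ e : ℂ, ‖e‖ = 1 ∧ ∀ t ∈ Ioo 0 c,
      ball (z + t * e) (c * t) ⊆ D.carrier := by
    intro z hz
    obtain ⟨e, he, h⟩ := hcone₀ z hz
    refine ⟨e, he, fun t ht => (ball_subset_ball ?_).trans
      (h t ⟨ht.1, ht.2.trans_le (min_le_left _ _)⟩)⟩
    exact mul_le_mul_of_nonneg_right (min_le_left _ _) ht.1.le
  -- lower bound on compact subsets
  obtain ⟨K, hK0, hKb⟩ := D.exists_bound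
  have hcomp : ∀ δ : ℝ, 0 < δ → ∃ m : ℝ, 0 < m ∧ ∀ z ∈ D.carrier, δ ≤ D.dist z →
      m ≤ 1 - ‖D.inv z‖ := by
    intro δ hδ
    set S : Set ℂ := {z | δ ≤ D.dist z} ∩ closedBall 0 K with hS
    have hScl : IsClosed {z | δ ≤ D.dist z} :=
      isClosed_le continuous_const (continuous_infDist_pt _)
    have hSc : IsCompact S := (isCompact_closedBall (0 : ℂ) K).inter_left hScl
    have hSsub : S ⊆ D.carrier := by
      rintro z ⟨hz, -⟩
      exact D.ball_subset z (mem_ball_self (hδ.trans_le hz))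
    rcases S.eq_empty_or_nonempty with he | hne
    · refine ⟨1, one_pos, fun z hz hd => ?_⟩
      have : z ∈ S := ⟨hd, mem_closedBall_zero_iff.mpr (hKb z hz)⟩
      rw [he] at this
      exact absurd this (notMem_empty z)
    · have hcont : ContinuousOn (fun z => ‖D.inv z‖) S :=
        (D.holo_inv.continuousOn.mono hSsub).norm
      obtain ⟨x, hx, hmax⟩ := hSc.exists_isMaxOn hne hcont
      refine ⟨1 - ‖D.inv x‖, ?_, fun z hz hd => ?_⟩
      · have := mem_ball_zero_iff.mp (D.maps_inv (hSsub hx)); linarith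
      · have h1 : ‖D.inv z‖ ≤ ‖D.inv x‖ :=
          hmax ⟨hd, mem_closedBall_zero_iff.mpr (hKb z hz)⟩
        linarith
  obtain ⟨m, hm, hmb⟩ := hcomp (c ^ 2 / 4) (by positivity)
  -- exponent
  set q : ℝ := 1 + c / 2 with hq
  have hq1 : 1 < q := by rw [hq]; linarith
  have hlq : 0 < Real.log q := Real.log_pos hq1
  set M : ℝ := Real.log 12 / Real.log q with hM
  have hM0 : 0 < M := div_pos (Real.log_pos (by norm_num)) hlq
  have hqM : q ^ M = 12 := by
    rw [Real.rpow_def_of_pos (by linarith), hM, mul_div_cancel₀ _ hlq.ne',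
      Real.exp_log (by norm_num)]
  set m' : ℝ := m / 12 with hm'
  have hm'0 : 0 < m' := by positivity
  have key : ∀ z ∈ D.carrier, ∀ e : ℂ, ‖e‖ = 1 →
      (∀ t ∈ Ioo 0 c, ball (z + t * e) (c * t) ⊆ D.carrier) → ∀ n : ℕ, ∀ t : ℝ, 0 < t →
      t ≤ c / 2 → c / 4 ≤ t * q ^ n → m' * t ^ M ≤ 1 - ‖D.inv (z + t * e)‖ := by
    intro z hz e he hcz n
    induction n with
    | zero =>
      intro t ht0 ht1 ht2
      rw [pow_zero, mul_one] at ht2
      have htc : t < c := by linarith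
      have h1 : c ^ 2 / 4 ≤ D.dist (z + t * e) := by
        have h2 : c * t ≤ D.dist (z + t * e) := by
          refine le_infDist D.compl_nonempty |>.mpr fun w hw => ?_
          by_contra hlt
          rw [not_le, dist_comm] at hlt
          exact hw (hcz t ⟨ht0, htc⟩ (mem_ball.mpr hlt))
        nlinarith
      have h3 := hmb _ (hcz t ⟨ht0, htc⟩ (mem_ball_self (by positivity))) h1
      have h4 : t ^ M ≤ 1 := Real.rpow_le_one ht0.le (by linarith) hM0.le
      have h5 : 0 ≤ t ^ M := Real.rpow_nonneg ht0.le _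
      nlinarith
    | succ n ih =>
      intro t ht0 ht1 ht2
      by_cases h4 : c / 4 ≤ t
      · have htc : t < c := by linarith
        have h1 : c ^ 2 / 4 ≤ D.dist (z + t * e) := by
          have h2 : c * t ≤ D.dist (z + t * e) := by
            refine le_infDist D.compl_nonempty |>.mpr fun w hw => ?_
            by_contra hlt
            rw [not_le, dist_comm] at hlt
            exact hw (hcz t ⟨ht0, htc⟩ (mem_ball.mpr hlt))
          nlinarith
        have h3 := hmb _ (hcz t ⟨ht0, htc⟩ (mem_ball_self (by positivity))) h1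
        have h4 : t ^ M ≤ 1 := Real.rpow_le_one ht0.le (by linarith) hM0.le
        have h5 : 0 ≤ t ^ M := Real.rpow_nonneg ht0.le _
        nlinarith
      · rw [not_le] at h4
        have hq2 : q ≤ 3 / 2 := by rw [hq]; linarith
        have h5 := ih (t * q) (by positivity) (by nlinarith) (by
          rw [mul_assoc, ← pow_succ']; exact ht2)
        have h6 : 1 - ‖D.inv (z + ((t * q : ℝ) : ℂ) * e)‖ ≤ 12 * (1 - ‖D.inv (z + t * e)‖) := by
          refine D.harnack (d := c * t) (by positivity) (hcz t ⟨ht0, by linarith⟩) ?_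
          have e1 : z + ((t * q : ℝ) : ℂ) * e - (z + t * e) = ((c * t / 2 : ℝ) : ℂ) * e := by
            rw [hq]; push_cast; ring
          rw [e1, norm_mul, he, mul_one, Complex.norm_real, Real.norm_eq_abs,
            abs_of_nonneg (by positivity)]
        rw [Real.mul_rpow ht0.le (by linarith), hqM] at h5
        linarith
  refine ⟨min (m' / 12 * (1 / 2) ^ M) (m / (K + K + 1) ^ M), M, ?_, hM0, fun z hz => ?_⟩
  · have : 0 < K + K + 1 := by linarith
    positivity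
  have hd := D.dist_pos hz
  obtain ⟨e, he, hcz⟩ := hcone z hz
  by_cases hdc : D.dist z ≤ c
  · set t : ℝ := D.dist z / 2 with ht
    have ht0 : 0 < t := by positivity
    obtain ⟨n, hn⟩ := pow_unbounded_of_one_lt (c / 4 / t) hq1
    have h1 := key z hz e he hcz n t ht0 (by rw [ht]; linarith) (by
      rw [div_lt_iff₀ ht0] at hn; linarith)
    have h2 : 1 - ‖D.inv (z + t * e)‖ ≤ 12 * (1 - ‖D.inv z‖) := by
      refine D.harnack hd (D.ball_subset z) ?_
      rw [add_sub_cancel_left, norm_mul, he, mul_one, Complex.norm_real, Real.norm_eq_abs,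
        abs_of_pos ht0]
    have h3 : t ^ M = (1 / 2) ^ M * D.dist z ^ M := by
      rw [ht, ← Real.mul_rpow (by norm_num) hd.le]; congr 1; ring
    rw [h3] at h1
    have h4 : 0 ≤ D.dist z ^ M := Real.rpow_nonneg hd.le _
    calc min (m' / 12 * (1 / 2) ^ M) (m / (K + K + 1) ^ M) * D.dist z ^ M
        ≤ (m' / 12 * (1 / 2) ^ M) * D.dist z ^ M := by gcongr; exact min_le_left _ _
      _ ≤ 1 - ‖D.inv z‖ := by linarith
  · rw [not_le] at hdc
    have h1 : m ≤ 1 - ‖D.inv z‖ := hmb z hz (by nlinarith)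
    have h2 : D.dist z ≤ K + K + 1 := by
      have h3 : ((K + 1 : ℝ) : ℂ) ∉ D.carrier := by
        intro h
        have := hKb _ h
        rw [Complex.norm_real, Real.norm_eq_abs, abs_of_pos (by linarith)] at this
        linarith
      refine (D.dist_le_of_compl h3).trans ((norm_sub_le _ _).trans ?_)
      rw [Complex.norm_real, Real.norm_eq_abs, abs_of_pos (by linarith)]
      have := hKb z hz
      linarith
    have h5 : 0 < K + K + 1 := by linarith
    have h4 : D.dist z ^ M ≤ (K + K + 1) ^ M := Real.rpow_le_rpow hd.le h2 hM0.le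
    calc min (m' / 12 * (1 / 2) ^ M) (m / (K + K + 1) ^ M) * D.dist z ^ M
        ≤ m / (K + K + 1) ^ M * (K + K + 1) ^ M := by
          gcongr
          exact min_le_right _ _
      _ = m := by
          have : (K + K + 1) ^ M ≠ 0 := (Real.rpow_pos_of_pos h5 _).ne'
          field_simp
      _ ≤ _ := h1

end MP2c3e4e
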