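import Pool.Agent.Lib_MP_2c3e4e_an.F1

open MeasureTheory Set Metric Filter Topology
open scoped ENNReal Real

namespace MP2c3e4e

variable {D : Dom}

lemma smirnovNorm_congr {F G : ℂ → ℂ} (h : EqOn F G D.carrier) :
    D.smirnovNorm F = D.smirnovNorm G := by
  unfold Dom.smirnovNorm
  refine iSup_congr fun r => iSup_congr fun hr => ?_
  congr 1
  funext t
  exact h (D.maps (mem_ball_circle hr))

/-- finite norm and analytic -/
structure Good (D : Dom) (F : ℂ → ℂ) : Prop where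
  diff : DifferentiableOn ℂ F D.carrier
  fin : D.smirnovNorm F < ∞

open Classical in
/-- the element of `E²(D)` given by an analytic function of finite norm -/
noncomputable def mkE (F : ℂ → ℂ) (hF : Good D F) : E2 D :=
  (⟨D.carrier.indicator F, hF.diff.congr fun z hz => indicator_of_mem hz F, fun z hz =>
      indicator_of_notMem hz F, by
    rw [smirnovNorm_congr (D := D) (G := F) fun z hz => indicator_of_mem hz F]
    exact hF.fin⟩ : smirnovSub D)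

lemma mkE_fn (F : ℂ → ℂ) (hF : Good D F) : (mkE F hF).fn = D.carrier.indicator F := rfl

lemma mkE_fn_mem (F : ℂ → ℂ) (hF : Good D F) {z : ℂ} (hz : z ∈ D.carrier) :
    (mkE F hF).fn z = F z := by rw [mkE_fn, indicator_of_mem hz]

lemma norm_mkE (F : ℂ → ℂ) (hF : Good D F) : ‖mkE F hF‖ = (D.smirnovNorm F).toReal := by
  rw [E2.norm_def, mkE_fn]
  rw [smirnovNorm_congr (D := D) (G := F) fun z hz => indicator_of_mem hz F]

lemma E2.good (f : E2 D) : Good D f.fn := ⟨f.diff, f.fin⟩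

lemma ext_on {f g : E2 D} (h : EqOn f.fn g.fn D.carrier) : f = g := by
  apply E2.ext_fn
  funext z
  by_cases hz : z ∈ D.carrier
  · exact h hz
  · rw [f.off hz, g.off hz]

/-- comparison of norms -/
lemma smirnovNorm_le_add {F g : ℂ → ℂ} {a b : ℝ} (ha : 0 ≤ a) (hb : 0 ≤ b)
    (hg : DifferentiableOn ℂ g D.carrier)
    (h : ∀ z ∈ D.carrier, ‖F z‖ ≤ a * ‖g z‖ + b) :
    D.smirnovNorm F ≤ ENNReal.ofReal a * D.smirnovNorm g +
      ENNReal.ofReal b * D.smirnovNorm (fun _ => 1) := by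
  refine D.smirnovNorm_le _ fun r hr => ?_
  have h1 : eLpNorm (fun t => F (D.φ (circleMap 0 r t))) 2 (D.arc r) ≤
      eLpNorm (fun t => a * ‖g (D.φ (circleMap 0 r t))‖ + b * ‖(1 : ℂ)‖) 2 (D.arc r) := by
    refine eLpNorm_mono_real fun t => ?_
    rw [norm_one, mul_one]
    exact h _ (D.maps (mem_ball_circle hr))
  have hc : Continuous fun t => g (D.φ (circleMap 0 r t)) := D.continuous_comp hg hr
  have h2 : eLpNorm (fun t => a * ‖g (D.φ (circleMap 0 r t))‖ + b * ‖(1 : ℂ)‖) 2 (D.arc r) ≤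
      eLpNorm (fun t => a * ‖g (D.φ (circleMap 0 r t))‖) 2 (D.arc r) +
      eLpNorm (fun _ : ℝ => b * ‖(1 : ℂ)‖) 2 (D.arc r) :=
    eLpNorm_add_le (continuous_const.mul hc.norm).aestronglyMeasurable
      aestronglyMeasurable_const one_le_two
  have h3 : eLpNorm (fun t => a * ‖g (D.φ (circleMap 0 r t))‖) 2 (D.arc r) ≤
      ENNReal.ofReal a * D.smirnovNorm g := by
    refine le_trans ?_ (mul_le_mul_right (D.le_smirnovNorm g hr) _)
    refine eLpNorm_le_mul_eLpNorm_of_ae_le_mul (Eventually.of_forall fun t => ?_) 2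
    rw [norm_mul, norm_norm, Real.norm_eq_abs, abs_of_nonneg ha]
  have h4 : eLpNorm (fun _ : ℝ => b * ‖(1 : ℂ)‖) 2 (D.arc r) ≤
      ENNReal.ofReal b * D.smirnovNorm (fun _ => 1) := by
    refine le_trans ?_ (mul_le_mul_right (D.le_smirnovNorm (fun _ => 1) hr) _)
    refine eLpNorm_le_mul_eLpNorm_of_ae_le_mul (Eventually.of_forall fun t => ?_) 2
    rw [norm_mul, norm_norm, Real.norm_eq_abs, abs_of_nonneg hb]
  exact h1.trans (h2.trans (add_le_add h3 h4))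

lemma Dom.Regular.one_fin (hD : D.Regular) : D.smirnovNorm (fun _ => 1) < ∞ := by
  obtain ⟨K, hK⟩ := hD.length
  have hK0 : 0 ≤ K := le_trans (integral_nonneg fun t => norm_nonneg _)
    (hK (1/2) ⟨by norm_num, by norm_num⟩)
  have h1 : D.smirnovNorm (fun _ => 1) ≤ (ENNReal.ofReal K) ^ (1 / 2 : ℝ) := by
    refine D.smirnovNorm_le _ fun r hr => ?_
    have h2 : D.arc r univ ≤ ENNReal.ofReal K := by
      rw [Dom.arc, withDensity_apply _ MeasurableSet.univ, Measure.restrict_univ]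
      have h3 : ∫⁻ t in Ioc 0 (2 * π), ‖(r : ℂ) * deriv D.φ (circleMap 0 r t)‖ₑ ≤
          ∫⁻ t in Ioc 0 (2 * π), ‖deriv D.φ (circleMap 0 r t)‖ₑ := by
        refine lintegral_mono fun t => ?_
        rw [enorm_mul]
        refine mul_le_of_le_one_left' ?_
        rw [← ofReal_norm, Complex.norm_real, Real.norm_eq_abs, abs_of_pos hr.1]
        exact ENNReal.ofReal_le_one.mpr hr.2.le
      refine h3.trans ?_
      have h4 := hK r hr
      have h5 : Continuous fun t => deriv D.φ (circleMap 0 r t) := cont_circle (diff_derivφ D) hr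
      rw [← ofReal_integral_norm_eq_lintegral_enorm]
      · exact ENNReal.ofReal_le_ofReal h4
      · exact (h5.integrableOn_Icc).mono_set Ioc_subset_Icc_self
    have h6 : eLpNorm (fun _ : ℝ => (1 : ℂ)) 2 (D.arc r) ≤ (D.arc r univ) ^ (1 / 2 : ℝ) := by
      by_cases h0 : D.arc r = 0
      · rw [h0]; simp
      · rw [eLpNorm_const _ two_ne_zero h0]
        simp
    exact h6.trans (ENNReal.rpow_le_rpow h2 (by norm_num))
  exact h1.trans_lt (ENNReal.rpow_lt_top_of_nonneg (by norm_num) ENNReal.ofReal_ne_top)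

lemma Good.of_bound (hD : D.Regular) {F g : ℂ → ℂ} {a b : ℝ} (ha : 0 ≤ a) (hb : 0 ≤ b)
    (hF : DifferentiableOn ℂ F D.carrier) (hg : Good D g)
    (h : ∀ z ∈ D.carrier, ‖F z‖ ≤ a * ‖g z‖ + b) : Good D F :=
  ⟨hF, (smirnovNorm_le_add ha hb hg.diff h).trans_lt (ENNReal.add_lt_top.mpr
    ⟨ENNReal.mul_lt_top ENNReal.ofReal_lt_top hg.fin,
     ENNReal.mul_lt_top ENNReal.ofReal_lt_top hD.one_fin⟩)⟩

lemma norm_mkE_le (hD : D.Regular) {F : ℂ → ℂ} (g : E2 D) {a b : ℝ} (ha : 0 ≤ a) (hb : 0 ≤ b)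
    (hF : Good D F) (h : ∀ z ∈ D.carrier, ‖F z‖ ≤ a * ‖g.fn z‖ + b) :
    ‖mkE F hF‖ ≤ a * ‖g‖ + b * (D.smirnovNorm (fun _ => 1)).toReal := by
  rw [norm_mkE]
  have h1 := ENNReal.toReal_mono (ENNReal.add_lt_top.mpr
    ⟨ENNReal.mul_lt_top ENNReal.ofReal_lt_top g.fin,
     ENNReal.mul_lt_top ENNReal.ofReal_lt_top hD.one_fin⟩).ne (smirnovNorm_le_add ha hb g.diff h)
  rw [ENNReal.toReal_add (ENNReal.mul_lt_top ENNReal.ofReal_lt_top g.fin).ne
    (ENNReal.mul_lt_top ENNReal.ofReal_lt_top hD.one_fin).ne, ENNReal.toReal_mul,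
    ENNReal.toReal_mul, ENNReal.toReal_ofReal ha, ENNReal.toReal_ofReal hb] at h1
  exact h1

lemma Good.mul {F k : ℂ → ℂ} (hF : Good D F) (hk : DifferentiableOn ℂ k D.carrier) {K : ℝ}
    (hK : ∀ z ∈ D.carrier, ‖k z‖ ≤ K) : Good D (k * F) :=
  ⟨hk.mul hF.diff, (D.smirnovNorm_mul_le hK).trans_lt
    (ENNReal.mul_lt_top ENNReal.ofReal_lt_top hF.fin)⟩

lemma norm_mul_le {k : ℂ → ℂ} (f : E2 D) {K : ℝ} (hK0 : 0 ≤ K)
    (hK : ∀ z ∈ D.carrier, ‖k z‖ ≤ K) (hg : Good D (k * f.fn)) :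
    ‖mkE (k * f.fn) hg‖ ≤ K * ‖f‖ := by
  rw [norm_mkE]
  have h1 := ENNReal.toReal_mono (ENNReal.mul_lt_top ENNReal.ofReal_lt_top f.fin).ne
    (D.smirnovNorm_mul_le hK (f := f.fn))
  rw [ENNReal.toReal_mul, ENNReal.toReal_ofReal hK0] at h1
  exact h1

/-- Evaluation bound, power of the distance. -/
theorem Dom.Regular.eval (hD : D.Regular) : ∃ K N : ℝ, 0 < K ∧ 0 < N ∧
    ∀ (h : E2 D) (z : ℂ), z ∈ D.carrier → ‖h.fn z‖ * D.dist z ^ N ≤ K * ‖h‖ := by
  obtain ⟨c, M, hc, hM, hlow⟩ := hD.one_sub_lower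
  refine ⟨Real.sqrt (1 / (π * c)), (1 + M) / 2, by positivity, by positivity, fun h z hz => ?_⟩
  have hd := D.dist_pos hz
  set d := D.dist z with hdd
  have hs := D.maps_inv hz
  have h1 := h.sqF_bound hs
  have h2 : d / 2 ≤ ‖deriv D.φ (D.inv z)‖ :=
    deriv_φ_lower D hs hd (by rw [D.right_inv z hz]; exact D.ball_subset z)
  have h3 := hlow z hz
  rw [sqF, D.right_inv z hz, norm_mul, norm_pow] at h1
  have h4 : ‖h.fn z‖ ^ 2 * (d / 2) * (c * d ^ M) ≤ (2 * π)⁻¹ * ‖h‖ ^ 2 := by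
    refine le_trans ?_ h1
    have : 0 ≤ c * d ^ M := by positivity
    gcongr
  have h5 : (‖h.fn z‖ * d ^ ((1 + M) / 2)) ^ 2 ≤ (Real.sqrt (1 / (π * c)) * ‖h‖) ^ 2 := by
    rw [mul_pow, mul_pow, Real.sq_sqrt (by positivity), ← Real.rpow_natCast (d ^ ((1 + M) / 2)) 2,
      ← Real.rpow_mul hd.le]
    have e1 : (1 + M) / 2 * ((2 : ℕ) : ℝ) = 1 + M := by push_cast; ring
    rw [e1, Real.rpow_add hd, Real.rpow_one]
    have e2 : ‖h.fn z‖ ^ 2 * (d * d ^ M) = (2 / c) * (‖h.fn z‖ ^ 2 * (d / 2) * (c * d ^ M)) := by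
      field_simp
    rw [e2]
    calc (2 / c) * (‖h.fn z‖ ^ 2 * (d / 2) * (c * d ^ M)) ≤ (2 / c) * ((2 * π)⁻¹ * ‖h‖ ^ 2) := by
          gcongr
      _ = 1 / (π * c) * ‖h‖ ^ 2 := by field_simp
  exact le_of_sq_le_sq h5 (by positivity)

end MP2c3e4e
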