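import Pool.Agent.Lib_MP_2c3e4e_an.F2

open MeasureTheory Set Metric Filter Topology
open scoped ENNReal Real

namespace MP2c3e4e

variable {D : Dom}

/-- comparison of norms, two functions -/
lemma smirnovNorm_le_add2 {F g k : ℂ → ℂ} {a b : ℝ} (ha : 0 ≤ a) (hb : 0 ≤ b)
    (hg : DifferentiableOn ℂ g D.carrier) (hk : DifferentiableOn ℂ k D.carrier)
    (h : ∀ z ∈ D.carrier, ‖F z‖ ≤ a * ‖g z‖ + b * ‖k z‖) :
    D.smirnovNorm F ≤ ENNReal.ofReal a * D.smirnovNorm g +
      ENNReal.ofReal b * D.smirnovNorm k := by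
  refine D.smirnovNorm_le _ fun r hr => ?_
  have h1 : eLpNorm (fun t => F (D.φ (circleMap 0 r t))) 2 (D.arc r) ≤
      eLpNorm (fun t => a * ‖g (D.φ (circleMap 0 r t))‖ + b * ‖k (D.φ (circleMap 0 r t))‖) 2
        (D.arc r) := by
    refine eLpNorm_mono_real fun t => ?_
    exact h _ (D.maps (mem_ball_circle hr))
  have hc : Continuous fun t => g (D.φ (circleMap 0 r t)) := D.continuous_comp hg hr
  have hc' : Continuous fun t => k (D.φ (circleMap 0 r t)) := D.continuous_comp hk hr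
  have h2 : eLpNorm (fun t => a * ‖g (D.φ (circleMap 0 r t))‖ + b * ‖k (D.φ (circleMap 0 r t))‖) 2
      (D.arc r) ≤ eLpNorm (fun t => a * ‖g (D.φ (circleMap 0 r t))‖) 2 (D.arc r) +
      eLpNorm (fun t => b * ‖k (D.φ (circleMap 0 r t))‖) 2 (D.arc r) :=
    eLpNorm_add_le (continuous_const.mul hc.norm).aestronglyMeasurable
      (continuous_const.mul hc'.norm).aestronglyMeasurable one_le_two
  have h3 : ∀ (c : ℝ) (q : ℂ → ℂ), 0 ≤ c →
      eLpNorm (fun t => c * ‖q (D.φ (circleMap 0 r t))‖) 2 (D.arc r) ≤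
      ENNReal.ofReal c * D.smirnovNorm q := by
    intro c q hc0
    refine le_trans ?_ (mul_le_mul_right (D.le_smirnovNorm q hr) _)
    refine eLpNorm_le_mul_eLpNorm_of_ae_le_mul (Eventually.of_forall fun t => ?_) 2
    rw [norm_mul, norm_norm, Real.norm_eq_abs, abs_of_nonneg hc0]
  exact h1.trans (h2.trans (add_le_add (h3 a g ha) (h3 b k hb)))

/-- extensionality off a finite set -/
lemma ext_off {f g : E2 D} {S : Set ℂ} (hS : S.Finite) (h : ∀ z ∈ D.carrier, z ∉ S → f.fn z = g.fn z) :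
    f = g := by
  apply ext_on
  intro z hz
  have hf : Tendsto f.fn (𝓝[≠] z) (𝓝 (f.fn z)) :=
    ((f.diff.continuousOn.continuousAt (D.isOpen.mem_nhds hz)).tendsto).mono_left
      nhdsWithin_le_nhds
  have hg : Tendsto g.fn (𝓝[≠] z) (𝓝 (g.fn z)) :=
    ((g.diff.continuousOn.continuousAt (D.isOpen.mem_nhds hz)).tendsto).mono_left
      nhdsWithin_le_nhds
  refine tendsto_nhds_unique_of_eventuallyEq hf hg ?_
  have h1 : ∀ᶠ w in 𝓝[≠] z, w ∉ S := by
    have h2 : (S \ {z})ᶜ ∈ 𝓝 z :=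
      (hS.subset sdiff_subset).isClosed.isOpen_compl.mem_nhds (by simp)
    filter_upwards [nhdsWithin_le_nhds h2, self_mem_nhdsWithin] with w hw hwz hwS
    exact hw ⟨hwS, hwz⟩
  filter_upwards [h1, nhdsWithin_le_nhds (D.isOpen.mem_nhds hz)] with w hw hwD
  exact h w hwD hw

open Classical in
/-- element of `E²(D)` given by a function (zero if the function is not admissible) -/
noncomputable def toE (D : Dom) (F : ℂ → ℂ) : E2 D := if hF : Good D F then mkE F hF else 0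

lemma toE_fn {F : ℂ → ℂ} (hF : Good D F) {z : ℂ} (hz : z ∈ D.carrier) : (toE D F).fn z = F z := by
  rw [toE, dif_pos hF]; exact mkE_fn_mem F hF hz

lemma norm_toE {F : ℂ → ℂ} (hF : Good D F) : ‖toE D F‖ = (D.smirnovNorm F).toReal := by
  rw [toE, dif_pos hF]; exact norm_mkE F hF

lemma norm_toE_le2 {F : ℂ → ℂ} (hF : Good D F) {a b : ℝ} (ha : 0 ≤ a) (hb : 0 ≤ b) (g k : E2 D)
    (h : ∀ z ∈ D.carrier, ‖F z‖ ≤ a * ‖g.fn z‖ + b * ‖k.fn z‖) :
    ‖toE D F‖ ≤ a * ‖g‖ + b * ‖k‖ := by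
  rw [norm_toE hF]
  have h1 := ENNReal.toReal_mono (ENNReal.add_lt_top.mpr
    ⟨ENNReal.mul_lt_top ENNReal.ofReal_lt_top g.fin,
     ENNReal.mul_lt_top ENNReal.ofReal_lt_top k.fin⟩).ne
     (smirnovNorm_le_add2 ha hb g.diff k.diff h)
  rw [ENNReal.toReal_add (ENNReal.mul_lt_top ENNReal.ofReal_lt_top g.fin).ne
    (ENNReal.mul_lt_top ENNReal.ofReal_lt_top k.fin).ne, ENNReal.toReal_mul,
    ENNReal.toReal_mul, ENNReal.toReal_ofReal ha, ENNReal.toReal_ofReal hb] at h1
  exact h1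

lemma norm_toE_le1 {F : ℂ → ℂ} (hF : Good D F) {a : ℝ} (ha : 0 ≤ a) (g : E2 D)
    (h : ∀ z ∈ D.carrier, ‖F z‖ ≤ a * ‖g.fn z‖) :
    ‖toE D F‖ ≤ a * ‖g‖ := by
  have := norm_toE_le2 hF ha le_rfl g 0 (fun z hz => by
    rw [zero_mul, add_zero]; exact h z hz)
  simpa using this

lemma Good.of_bound2 {F g k : ℂ → ℂ} {a b : ℝ} (ha : 0 ≤ a) (hb : 0 ≤ b)
    (hF : DifferentiableOn ℂ F D.carrier) (hg : Good D g) (hk : Good D k)
    (h : ∀ z ∈ D.carrier, ‖F z‖ ≤ a * ‖g z‖ + b * ‖k z‖) : Good D F :=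
  ⟨hF, (smirnovNorm_le_add2 ha hb hg.diff hk.diff h).trans_lt (ENNReal.add_lt_top.mpr
    ⟨ENNReal.mul_lt_top ENNReal.ofReal_lt_top hg.fin,
     ENNReal.mul_lt_top ENNReal.ofReal_lt_top hk.fin⟩)⟩

/-- the constant function -/
noncomputable def oneE (D : Dom) : E2 D := toE D (fun _ => 1)

lemma Dom.Regular.good_one (hD : D.Regular) : Good D (fun _ => 1) :=
  ⟨differentiableOn_const 1, hD.one_fin⟩

lemma oneE_fn (hD : D.Regular) {z : ℂ} (hz : z ∈ D.carrier) : (oneE D).fn z = 1 :=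
  toE_fn hD.good_one hz

/-! ### Division -/

/-- distance to the frontier, truncated -/
noncomputable def fd (S : Set ℂ) (z : ℂ) : ℝ := min 1 (infDist z S)

lemma fd_nonneg (S : Set ℂ) (z : ℂ) : 0 ≤ fd S z := le_min zero_le_one infDist_nonneg
lemma fd_le_one (S : Set ℂ) (z : ℂ) : fd S z ≤ 1 := min_le_left _ _
lemma fd_le (S : Set ℂ) (z : ℂ) : fd S z ≤ infDist z S := min_le_right _ _

lemma Dom.carrier_ne_univ (D : Dom) : D.carrier ≠ univ := by
  intro h
  have := D.compl_nonempty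
  rw [h, compl_univ] at this
  exact Set.not_nonempty_empty this

lemma Dom.nonempty (D : Dom) : D.carrier.Nonempty := ⟨D.φ 0, D.maps (mem_ball_self one_pos)⟩

lemma infDist_frontier_le (D : Dom) {z : ℂ} (hz : z ∈ D.carrier) :
    infDist z (frontier D.carrier) ≤ D.dist z := by
  obtain ⟨y, hy, h⟩ := exists_mem_frontier_infDist_compl_eq_dist hz D.carrier_ne_univ
  rw [Dom.dist, h]
  exact infDist_le_dist_of_mem hy

lemma infDist_frontier_le' (D : Dom) {z : ℂ} (hz : z ∉ D.carrier) :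
    infDist z (frontier D.carrier) ≤ infDist z D.carrier := by
  have h1 : D.carrierᶜ ≠ univ := by
    intro h
    rw [compl_univ_iff] at h
    exact (Set.not_nonempty_iff_eq_empty.mpr h) D.nonempty
  obtain ⟨y, hy, h⟩ := exists_mem_frontier_infDist_compl_eq_dist (s := D.carrierᶜ) hz h1
  rw [compl_compl] at h
  rw [frontier_compl] at hy
  rw [h]
  exact infDist_le_dist_of_mem hy

lemma frontier_nonempty (D : Dom) : (frontier D.carrier).Nonempty := by
  obtain ⟨z, hz⟩ := D.nonempty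
  obtain ⟨y, hy, -⟩ := exists_mem_frontier_infDist_compl_eq_dist hz D.carrier_ne_univ
  exact ⟨y, hy⟩

lemma fd_pos (D : Dom) {z : ℂ} (hz : z ∉ frontier D.carrier) : 0 < fd (frontier D.carrier) z :=
  lt_min one_pos ((isClosed_frontier.notMem_iff_infDist_pos (frontier_nonempty D)).mp hz)

lemma notMem_closure (D : Dom) {z : ℂ} (hz : z ∉ frontier D.carrier) (h : z ∉ D.carrier) :
    z ∉ closure D.carrier := by
  intro hc
  apply hz
  rw [D.isOpen.frontier_eq]
  exact ⟨hc, h⟩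

/-- the quotient `(h - h(z₀))/(z - z₀)` -/
noncomputable def remE (h : E2 D) (z₀ : ℂ) : E2 D := toE D (dslope h.fn z₀)

lemma dslope_out (h : E2 D) {z₀ z : ℂ} (hz₀ : z₀ ∉ D.carrier) (hz : z ∈ D.carrier) :
    dslope h.fn z₀ z = h.fn z / (z - z₀) := by
  have hne : z ≠ z₀ := fun e => hz₀ (e ▸ hz)
  rw [dslope_of_ne _ hne, slope_def_field, h.off hz₀, sub_zero]

/-- Bounds for the division operator. -/
theorem Dom.Regular.rem (hD : D.Regular) : ∃ K N : ℝ, 0 < K ∧ 0 < N ∧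
    ∀ (h : E2 D) (z₀ : ℂ), z₀ ∉ frontier D.carrier → Good D (dslope h.fn z₀) ∧
      ‖remE h z₀‖ * fd (frontier D.carrier) z₀ ^ N ≤ K * ‖h‖ := by
  obtain ⟨K₀, N₀, hK₀, hN₀, hev⟩ := hD.eval
  set n₁ : ℝ := ‖oneE D‖ with hn₁
  have hn₁0 : 0 ≤ n₁ := norm_nonneg _
  refine ⟨2 + 4 * K₀ * 2 ^ N₀ * n₁, N₀ + 1, by positivity, by positivity, fun h z₀ hz₀ => ?_⟩
  set d := fd (frontier D.carrier) z₀ with hd
  have hd0 : 0 < d := fd_pos D hz₀
  have hd1 : d ≤ 1 := fd_le_one _ _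
  have hdN : d ^ N₀ ≤ 1 := Real.rpow_le_one hd0.le hd1 hN₀.le
  have hdN0 : 0 < d ^ N₀ := Real.rpow_pos_of_pos hd0 _
  have hh : 0 ≤ ‖h‖ := norm_nonneg _
  by_cases hin : z₀ ∈ D.carrier
  · have hdist : d ≤ D.dist z₀ := (fd_le _ _).trans (infDist_frontier_le D hin)
    have hsub : ball z₀ (d / 2) ⊆ D.carrier :=
      (ball_subset_ball (by linarith)).trans (D.ball_subset z₀)
    set S : ℝ := K₀ * ‖h‖ * (2 / d) ^ N₀ with hS
    have hS0 : 0 ≤ S := by positivity
    have hevb : ∀ z ∈ ball z₀ (d / 2), ‖h.fn z‖ ≤ S := by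
      intro z hz
      have h1 := hev h z (hsub hz)
      have h2 : d / 2 ≤ D.dist z := by
        have := D.dist_lip z₀ z
        rw [mem_ball, dist_comm, dist_eq_norm] at hz
        linarith
      have h3 : (d / 2) ^ N₀ ≤ D.dist z ^ N₀ := Real.rpow_le_rpow (by positivity) h2 hN₀.le
      have h4 : 0 < (d / 2) ^ N₀ := by positivity
      have h5 : ‖h.fn z‖ * (d / 2) ^ N₀ ≤ K₀ * ‖h‖ :=
        (mul_le_mul_of_nonneg_left h3 (norm_nonneg _)).trans h1
      have h6 : (2 / d) ^ N₀ = ((d / 2) ^ N₀)⁻¹ := by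
        rw [← Real.inv_rpow (by positivity), inv_div]
      rw [hS, h6, ← div_eq_mul_inv, le_div_iff₀ h4]
      exact h5
    have hdiff : DifferentiableOn ℂ (dslope h.fn z₀) D.carrier :=
      (Complex.differentiableOn_dslope (D.isOpen.mem_nhds hin)).mpr h.diff
    have hbd : ∀ z ∈ D.carrier, ‖dslope h.fn z₀ z‖ ≤ 2 / d * ‖h.fn z‖ + 4 / d * S * ‖(oneE D).fn z‖ := by
      intro z hz
      rw [oneE_fn hD hz, norm_one, mul_one]
      by_cases hzb : z ∈ ball z₀ (d / 2)
      · have h1 : MapsTo h.fn (ball z₀ (d / 2)) (closedBall (h.fn z₀) (2 * S)) := by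
          intro w hw
          rw [mem_closedBall_iff_norm]
          refine (norm_sub_le _ _).trans ?_
          have := hevb w hw
          have := hevb z₀ (mem_ball_self (by positivity))
          linarith
        have h2 := Complex.norm_dslope_le_div_of_mapsTo_ball (h.diff.mono hsub) h1 hzb
        have h3 : 2 * S / (d / 2) = 4 / d * S := by field_simp; ring
        rw [h3] at h2
        have : 0 ≤ 2 / d * ‖h.fn z‖ := by positivity
        linarith
      · have h1 : d / 2 ≤ ‖z - z₀‖ := by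
          rw [mem_ball, not_lt, dist_eq_norm] at hzb; exact hzb
        have hne : z ≠ z₀ := by
          rintro rfl; rw [sub_self, norm_zero] at h1; linarith
        rw [dslope_of_ne _ hne, slope_def_field, norm_div]
        have h2 : ‖h.fn z - h.fn z₀‖ ≤ ‖h.fn z‖ + S :=
          (norm_sub_le _ _).trans (by
            have := hevb z₀ (mem_ball_self (by positivity)); linarith)
        calc ‖h.fn z - h.fn z₀‖ / ‖z - z₀‖ ≤ (‖h.fn z‖ + S) / (d / 2) := by
              gcongr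
          _ = 2 / d * ‖h.fn z‖ + 2 / d * S := by field_simp
          _ ≤ _ := by
              have : 2 / d * S ≤ 4 / d * S := by gcongr; norm_num
              linarith
    have hgood : Good D (dslope h.fn z₀) :=
      Good.of_bound2 (by positivity) (by positivity) hdiff h.good (oneE D).good hbd
    refine ⟨hgood, ?_⟩
    have h1 := norm_toE_le2 hgood (by positivity) (by positivity) h (oneE D) hbd
    have h2 : (2 / d) ^ N₀ = 2 ^ N₀ / d ^ N₀ := Real.div_rpow (by norm_num) hd0.le _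
    have h3 : d ^ (N₀ + 1) = d ^ N₀ * d := by rw [Real.rpow_add hd0, Real.rpow_one]
    rw [remE, h3]
    calc ‖toE D (dslope h.fn z₀)‖ * (d ^ N₀ * d)
        ≤ (2 / d * ‖h‖ + 4 / d * S * n₁) * (d ^ N₀ * d) := by gcongr
      _ = 2 * ‖h‖ * d ^ N₀ + 4 * K₀ * 2 ^ N₀ * n₁ * ‖h‖ := by
          rw [hS, h2]; field_simp
      _ ≤ 2 * ‖h‖ * 1 + 4 * K₀ * 2 ^ N₀ * n₁ * ‖h‖ := by gcongr
      _ = _ := by ring
  · have hdist : d ≤ infDist z₀ D.carrier := (fd_le _ _).trans (infDist_frontier_le' D hin)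
    have hlow : ∀ z ∈ D.carrier, d ≤ ‖z - z₀‖ := by
      intro z hz
      have := infDist_le_dist_of_mem (x := z₀) hz
      rw [dist_comm, dist_eq_norm] at this
      linarith
    have hdiff : DifferentiableOn ℂ (dslope h.fn z₀) D.carrier := by
      have h1 : DifferentiableOn ℂ (fun z => h.fn z / (z - z₀)) D.carrier := by
        refine h.diff.div (by fun_prop) fun z hz => ?_
        have := hlow z hz
        intro h0
        rw [h0, norm_zero] at this
        linarith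
      exact h1.congr fun z hz => dslope_out h hin hz
    have hbd : ∀ z ∈ D.carrier, ‖dslope h.fn z₀ z‖ ≤ 1 / d * ‖h.fn z‖ := by
      intro z hz
      rw [dslope_out h hin hz, norm_div]
      have := hlow z hz
      calc ‖h.fn z‖ / ‖z - z₀‖ ≤ ‖h.fn z‖ / d := by gcongr
        _ = _ := by ring
    have hgood : Good D (dslope h.fn z₀) :=
      Good.of_bound2 (a := 1 / d) (b := 0) (by positivity) le_rfl hdiff h.good h.good
        (fun z hz => by rw [zero_mul, add_zero]; exact hbd z hz)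
    refine ⟨hgood, ?_⟩
    have h1 := norm_toE_le1 hgood (by positivity) h hbd
    have h3 : d ^ (N₀ + 1) = d ^ N₀ * d := by rw [Real.rpow_add hd0, Real.rpow_one]
    rw [remE, h3]
    calc ‖toE D (dslope h.fn z₀)‖ * (d ^ N₀ * d) ≤ (1 / d * ‖h‖) * (d ^ N₀ * d) := by gcongr
      _ = ‖h‖ * d ^ N₀ := by field_simp
      _ ≤ ‖h‖ * 1 := by gcongr
      _ ≤ _ := by
          have : 0 ≤ 4 * K₀ * 2 ^ N₀ * n₁ * ‖h‖ := by positivity
          nlinarith

end MP2c3e4e
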