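import Pool.Agent.Lib_MP_2c3e4e_an.F3

/-!
# G1: analyticity of the divided difference functional
-/

open MeasureTheory Set Metric Filter Topology
open scoped ENNReal Real

namespace MP2c3e4e

variable {D : Dom}

/-- Local bound of divided differences. -/
theorem dslope_local_bound {G : Set ℂ} (hG : IsOpen G) {w : ℂ → ℂ} (hw : DifferentiableOn ℂ w G)
    {z₀ : ℂ} (hz₀ : z₀ ∈ G) : ∃ ρ C : ℝ, 0 < ρ ∧ 0 ≤ C ∧ closedBall z₀ ρ ⊆ G ∧
      ∀ z₁ ∈ closedBall z₀ ρ, ∀ z : ℂ, ‖dslope w z₁ z‖ ≤ C * ‖w z‖ + C := by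
  obtain ⟨R, hR, hRG⟩ := Metric.nhds_basis_closedBall.mem_iff.mp (hG.mem_nhds hz₀)
  have hcomp : IsCompact (closedBall z₀ R) := isCompact_closedBall _ _
  obtain ⟨M, hM⟩ := hcomp.exists_bound_of_continuousOn
    ((hw.deriv hG).continuousOn.mono hRG)
  obtain ⟨M', hM'⟩ := hcomp.exists_bound_of_continuousOn (hw.continuousOn.mono hRG)
  have hz₀b : z₀ ∈ closedBall z₀ R := mem_closedBall_self hR.le
  have hM0 : 0 ≤ M := (norm_nonneg _).trans (hM z₀ hz₀b)
  have hM'0 : 0 ≤ M' := (norm_nonneg _).trans (hM' z₀ hz₀b)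
  refine ⟨R / 2, M + (1 + M') * (2 / R), by positivity, by positivity,
    (closedBall_subset_closedBall (by linarith)).trans hRG, fun z₁ hz₁ z => ?_⟩
  have hz₁R : z₁ ∈ closedBall z₀ R := closedBall_subset_closedBall (by linarith) hz₁
  have hp : 0 ≤ (M + (1 + M') * (2 / R)) * ‖w z‖ := by positivity
  by_cases hz : z ∈ closedBall z₀ R
  · have hb : ‖dslope w z₁ z‖ ≤ M := by
      by_cases hne : z = z₁
      · rw [hne, dslope_same]; exact hM _ hz₁R
      · rw [dslope_of_ne _ hne, slope_def_field, norm_div]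
        have h1 := Convex.norm_image_sub_le_of_norm_deriv_le (f := w) (C := M)
          (s := closedBall z₀ R) (x := z₁) (y := z)
          (fun x hx => (hw x (hRG hx)).differentiableAt (hG.mem_nhds (hRG hx)))
          hM (convex_closedBall z₀ R) hz₁R hz
        rw [div_le_iff₀ (norm_pos_iff.mpr (sub_ne_zero.mpr hne))]
        exact h1
    have h2 : 0 ≤ (1 + M') * (2 / R) := by positivity
    linarith
  · have h1 : R / 2 ≤ ‖z - z₁‖ := by
      rw [mem_closedBall, dist_eq_norm, not_le] at hz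
      rw [mem_closedBall, dist_eq_norm] at hz₁
      have h2 : ‖z - z₀‖ ≤ ‖z - z₁‖ + ‖z₁ - z₀‖ := by
        have := norm_add_le (z - z₁) (z₁ - z₀)
        rwa [sub_add_sub_cancel] at this
      linarith
    have hne : z ≠ z₁ := by
      rintro rfl
      rw [sub_self, norm_zero] at h1
      linarith
    rw [dslope_of_ne _ hne, slope_def_field, norm_div]
    have h2 : ‖w z - w z₁‖ ≤ ‖w z‖ + M' := (norm_sub_le _ _).trans (by
      have := hM' z₁ hz₁R; linarith)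
    have hw0 := norm_nonneg (w z)
    calc ‖w z - w z₁‖ / ‖z - z₁‖ ≤ (‖w z‖ + M') / (R / 2) := by gcongr
      _ = ‖w z‖ * (2 / R) + M' * (2 / R) := by field_simp
      _ ≤ (M + (1 + M') * (2 / R)) * ‖w z‖ + (M + (1 + M') * (2 / R)) := by
          have e : (M + (1 + M') * (2 / R)) * ‖w z‖ + (M + (1 + M') * (2 / R)) -
              (‖w z‖ * (2 / R) + M' * (2 / R)) = (M + M' * (2 / R)) * ‖w z‖ + M + (2 / R) := by
            ring
          have : 0 ≤ (M + M' * (2 / R)) * ‖w z‖ + M + (2 / R) := by positivity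
          linarith

/-- Divided differences of a multiplier, times `f`, are admissible, with a local bound. -/
theorem dslope_good {G : Set ℂ} (hG : IsOpen G) (hDG : D.carrier ⊆ G) {w : ℂ → ℂ}
    (hw : DifferentiableOn ℂ w G) (f : E2 D) (hg : Good D (fun z => w z * f.fn z))
    {z₀ : ℂ} (hz₀ : z₀ ∈ G) : ∃ ρ C : ℝ, 0 < ρ ∧ 0 ≤ C ∧ closedBall z₀ ρ ⊆ G ∧
      ∀ z₁ ∈ closedBall z₀ ρ, Good D (fun z => dslope w z₁ z * f.fn z) ∧
        ‖toE D (fun z => dslope w z₁ z * f.fn z)‖ ≤ C := by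
  obtain ⟨ρ, C, hρ, hC, hsub, hb⟩ := dslope_local_bound hG hw hz₀
  refine ⟨ρ, C * ‖toE D (fun z => w z * f.fn z)‖ + C * ‖f‖, hρ, by positivity, hsub,
    fun z₁ hz₁ => ?_⟩
  have hdiff : DifferentiableOn ℂ (fun z => dslope w z₁ z * f.fn z) D.carrier := by
    refine DifferentiableOn.mul ?_ f.diff
    exact ((Complex.differentiableOn_dslope (hG.mem_nhds (hsub hz₁))).mpr hw).mono hDG
  have hbd : ∀ z ∈ D.carrier, ‖dslope w z₁ z * f.fn z‖ ≤
      C * ‖w z * f.fn z‖ + C * ‖f.fn z‖ := by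
    intro z _
    rw [norm_mul, norm_mul, ← mul_assoc, ← add_mul]
    exact mul_le_mul_of_nonneg_right (hb z₁ hz₁ z) (norm_nonneg _)
  have hgood : Good D (fun z => dslope w z₁ z * f.fn z) :=
    Good.of_bound2 hC hC hdiff hg f.good hbd
  refine ⟨hgood, norm_toE_le2 hgood hC hC _ f fun z hz => ?_⟩
  rw [toE_fn hg hz]
  exact hbd z hz

/-- The difference of two divided differences. -/
theorem dslope_sub {G : Set ℂ} (hG : IsOpen G) (hDG : D.carrier ⊆ G) {w : ℂ → ℂ}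
    (hw : DifferentiableOn ℂ w G) (f : E2 D) (hg : Good D (fun z => w z * f.fn z))
    {z₀ z₁ : ℂ} (hz₀ : z₀ ∈ G) (hz₁ : z₁ ∈ G) :
    toE D (fun z => dslope w z₁ z * f.fn z) = toE D (fun z => dslope w z₀ z * f.fn z) +
      (z₁ - z₀) • toE D (fun z => dslope (dslope w z₀) z₁ z * f.fn z) := by
  by_cases hne : z₁ = z₀
  · rw [hne, sub_self, zero_smul, add_zero]
  have hgood : ∀ (v : ℂ → ℂ), DifferentiableOn ℂ v G → Good D (fun z => v z * f.fn z) →
      ∀ x ∈ G, Good D (fun z => dslope v x z * f.fn z) := by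
    intro v hv hvg x hx
    obtain ⟨ρ, C, hρ, hC, hsub, hb⟩ := dslope_good hG hDG hv f hvg hx
    exact (hb x (mem_closedBall_self hρ.le)).1
  have h0 := hgood w hw hg z₀ hz₀
  have h1 := hgood w hw hg z₁ hz₁
  have hu : DifferentiableOn ℂ (dslope w z₀) G :=
    (Complex.differentiableOn_dslope (hG.mem_nhds hz₀)).mpr hw
  have h2 := hgood _ hu h0 z₁ hz₁
  refine ext_off (S := {z₀, z₁}) (by simp) fun z hz hzS => ?_
  have hz0 : z ≠ z₀ := fun e => hzS (by simp [e])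
  have hz1 : z ≠ z₁ := fun e => hzS (by simp [e])
  rw [E2.fn_add, Pi.add_apply, E2.fn_smul, Pi.smul_apply, toE_fn h0 hz, toE_fn h1 hz,
    toE_fn h2 hz, dslope_of_ne _ hz0, dslope_of_ne _ hz1, dslope_of_ne _ hz1, slope_def_field,
    slope_def_field, slope_def_field, dslope_of_ne _ hz0, dslope_of_ne _ hne, slope_def_field,
    slope_def_field, smul_eq_mul]
  have e0 : z - z₀ ≠ 0 := sub_ne_zero.mpr hz0
  have e1 : z - z₁ ≠ 0 := sub_ne_zero.mpr hz1
  have e2 : z₁ - z₀ ≠ 0 := sub_ne_zero.mpr hne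
  field_simp
  ring

/-- G1. The element `(ψ(z) - ψ(z₀))/(z - z₀) · f(z)` of `E²(D)`. -/
noncomputable def TE (ψ : ℂ → ℂ) (f : E2 D) (z₀ : ℂ) : E2 D :=
  toE D (fun z => dslope ψ z₀ z * f.fn z)

theorem TE_analytic {G : Set ℂ} (hG : IsOpen G) (hDG : D.carrier ⊆ G) {ψ : ℂ → ℂ}
    (hψ : DifferentiableOn ℂ ψ G) (f : E2 D) (hg : Good D (fun z => ψ z * f.fn z))
    (y : E2 D →L[ℂ] ℂ) :
    DifferentiableOn ℂ (fun z₀ => y (TE ψ f z₀)) G ∧
      ∀ z₀ ∈ G, Good D (fun z => dslope ψ z₀ z * f.fn z) := by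
  have hgood : ∀ z₀ ∈ G, Good D (fun z => dslope ψ z₀ z * f.fn z) := by
    intro x hx
    obtain ⟨ρ, C, hρ, hC, hsub, hb⟩ := dslope_good hG hDG hψ f hg hx
    exact (hb x (mem_closedBall_self hρ.le)).1
  refine ⟨fun z₀ hz₀ => ?_, hgood⟩
  have hu : DifferentiableOn ℂ (dslope ψ z₀) G :=
    (Complex.differentiableOn_dslope (hG.mem_nhds hz₀)).mpr hψ
  have hug : Good D (fun z => dslope ψ z₀ z * f.fn z) := hgood z₀ hz₀
  have hv : DifferentiableOn ℂ (dslope (dslope ψ z₀) z₀) G :=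
    (Complex.differentiableOn_dslope (hG.mem_nhds hz₀)).mpr hu
  have hvg : Good D (fun z => dslope (dslope ψ z₀) z₀ z * f.fn z) := by
    obtain ⟨ρ, C, hρ, hC, hsub, hb⟩ := dslope_good hG hDG hu f hug hz₀
    exact (hb z₀ (mem_closedBall_self hρ.le)).1
  obtain ⟨ρ, C, hρ, hC, hsub, hb⟩ := dslope_good hG hDG hv f hvg hz₀
  have key : HasDerivAt (fun z₀ => y (TE ψ f z₀))
      (y (toE D (fun z => dslope (dslope ψ z₀) z₀ z * f.fn z))) z₀ := by
    rw [hasDerivAt_iff_tendsto_slope]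
    have h1 : ∀ᶠ z₁ in 𝓝[≠] z₀, slope (fun z₀ => y (TE ψ f z₀)) z₀ z₁ =
        y (toE D (fun z => dslope (dslope ψ z₀) z₀ z * f.fn z)) +
        (z₁ - z₀) * y (toE D (fun z => dslope (dslope (dslope ψ z₀) z₀) z₁ z * f.fn z)) := by
      filter_upwards [self_mem_nhdsWithin, nhdsWithin_le_nhds (hG.mem_nhds hz₀)] with z₁ hne hz₁
      have e2 : z₁ - z₀ ≠ 0 := sub_ne_zero.mpr hne
      rw [slope_def_field, TE, TE, dslope_sub hG hDG hψ f hg hz₀ hz₁,
        dslope_sub hG hDG hu f hug hz₀ hz₁]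
      simp only [map_add, map_smul, smul_eq_mul]
      field_simp
      ring
    refine Tendsto.congr' (h1.mono fun _ h => h.symm) ?_
    have h2 : Tendsto (fun z₁ => (z₁ - z₀) *
        y (toE D (fun z => dslope (dslope (dslope ψ z₀) z₀) z₁ z * f.fn z))) (𝓝[≠] z₀) (𝓝 0) := by
      have h3 : Tendsto (fun z₁ : ℂ => ‖z₁ - z₀‖ * (‖y‖ * C)) (𝓝[≠] z₀) (𝓝 0) := by
        have h4 : Continuous fun z₁ : ℂ => ‖z₁ - z₀‖ * (‖y‖ * C) := by fun_prop
        have h5 := (h4.tendsto z₀).mono_left (nhdsWithin_le_nhds (s := {z₀}ᶜ))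
        simpa using h5
      refine squeeze_zero_norm' ?_ h3
      filter_upwards [nhdsWithin_le_nhds (closedBall_mem_nhds z₀ hρ)] with z₁ hz₁
      rw [norm_mul]
      refine mul_le_mul_of_nonneg_left ?_ (norm_nonneg _)
      exact (y.le_opNorm _).trans (mul_le_mul_of_nonneg_left (hb z₁ hz₁).2 (norm_nonneg _))
    simpa using tendsto_const_nhds.add h2
  exact key.differentiableAt.differentiableWithinAt

end MP2c3e4e
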