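import Pool.Agent.Lib_MP_2c3e4e_an.F3

/-!
# G2: analyticity of the resolvent outside of the closure
-/

open MeasureTheory Set Metric Filter Topology
open scoped ENNReal Real

namespace MP2c3e4e

variable {D : Dom}

theorem notMem_frontier_of_closure {z₀ : ℂ} (h : z₀ ∉ closure D.carrier) :
    z₀ ∉ frontier D.carrier := fun hf => h (frontier_subset_closure hf)

theorem notMem_of_closure {z₀ : ℂ} (h : z₀ ∉ closure D.carrier) : z₀ ∉ D.carrier :=
  fun hf => h (subset_closure hf)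

theorem remE_fn_out (hD : D.Regular) (h : E2 D) {z₀ z : ℂ} (hz₀ : z₀ ∉ closure D.carrier)
    (hz : z ∈ D.carrier) : (remE h z₀).fn z = h.fn z / (z - z₀) := by
  obtain ⟨K, N, hK, hN, hrem⟩ := hD.rem
  rw [remE, toE_fn (hrem h z₀ (notMem_frontier_of_closure hz₀)).1 hz,
    dslope_out h (notMem_of_closure hz₀) hz]

/-- The resolvent identity. -/
theorem remE_identity (hD : D.Regular) (h : E2 D) {z₀ z₁ : ℂ} (hz₀ : z₀ ∉ closure D.carrier)
    (hz₁ : z₁ ∉ closure D.carrier) :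
    remE h z₁ = remE h z₀ + (z₁ - z₀) • remE (remE h z₀) z₁ := by
  refine ext_on fun z hz => ?_
  rw [E2.fn_add, Pi.add_apply, E2.fn_smul, Pi.smul_apply, remE_fn_out hD _ hz₁ hz,
    remE_fn_out hD _ hz₀ hz, remE_fn_out hD _ hz₁ hz, remE_fn_out hD _ hz₀ hz, smul_eq_mul]
  have e0 : z - z₀ ≠ 0 := sub_ne_zero.mpr fun e => notMem_of_closure hz₀ (e ▸ hz)
  have e1 : z - z₁ ≠ 0 := sub_ne_zero.mpr fun e => notMem_of_closure hz₁ (e ▸ hz)
  field_simp
  ring

/-- Local bound of the resolvent. -/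
theorem remE_bound (hD : D.Regular) {z₀ : ℂ} (hz₀ : z₀ ∉ closure D.carrier) :
    ∃ ρ C : ℝ, 0 < ρ ∧ 0 ≤ C ∧ closedBall z₀ ρ ⊆ (closure D.carrier)ᶜ ∧
      ∀ z₁ ∈ closedBall z₀ ρ, ∀ h : E2 D, ‖remE h z₁‖ ≤ C * ‖h‖ := by
  have hopen : IsOpen (closure D.carrier)ᶜ := isClosed_closure.isOpen_compl
  obtain ⟨R, hR, hRG⟩ := Metric.nhds_basis_closedBall.mem_iff.mp (hopen.mem_nhds hz₀)
  obtain ⟨K, N, hK, hN, hrem⟩ := hD.rem
  have hsub : closedBall z₀ (R / 2) ⊆ (closure D.carrier)ᶜ :=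
    (closedBall_subset_closedBall (by linarith)).trans hRG
  refine ⟨R / 2, 2 / R, by positivity, by positivity, hsub, fun z₁ hz₁ h => ?_⟩
  have hz₁c : z₁ ∉ closure D.carrier := hsub hz₁
  refine norm_toE_le1 (hrem h z₁ (notMem_frontier_of_closure hz₁c)).1 (by positivity) h
    fun z hz => ?_
  rw [dslope_out h (notMem_of_closure hz₁c) hz, norm_div]
  have h1 : R / 2 ≤ ‖z - z₁‖ := by
    have h3 : z ∉ closedBall z₀ R := fun hc => hRG hc (subset_closure hz)
    rw [mem_closedBall, dist_eq_norm, not_le] at h3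
    rw [mem_closedBall, dist_eq_norm] at hz₁
    have h2 : ‖z - z₀‖ ≤ ‖z - z₁‖ + ‖z₁ - z₀‖ := by
      have := norm_add_le (z - z₁) (z₁ - z₀)
      rwa [sub_add_sub_cancel] at this
    linarith
  calc ‖h.fn z‖ / ‖z - z₁‖ ≤ ‖h.fn z‖ / (R / 2) := by gcongr
    _ = 2 / R * ‖h.fn z‖ := by field_simp

/-- G2. Analyticity of the resolvent outside of the closure. -/
theorem rem_analytic (hD : D.Regular) (h : E2 D) (y : E2 D →L[ℂ] ℂ) :
    DifferentiableOn ℂ (fun z₀ => y (remE h z₀)) (closure D.carrier)ᶜ := by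
  intro z₀ hz₀
  obtain ⟨ρ, C, hρ, hC, hsub, hb⟩ := remE_bound hD hz₀
  have key : HasDerivAt (fun z₀ => y (remE h z₀)) (y (remE (remE h z₀) z₀)) z₀ := by
    rw [hasDerivAt_iff_tendsto_slope]
    have h1 : ∀ᶠ z₁ in 𝓝[≠] z₀, slope (fun z₀ => y (remE h z₀)) z₀ z₁ =
        y (remE (remE h z₀) z₀) +
        (z₁ - z₀) * y (remE (remE (remE h z₀) z₀) z₁) := by
      filter_upwards [self_mem_nhdsWithin, nhdsWithin_le_nhds (closedBall_mem_nhds z₀ hρ)]
        with z₁ hne hz₁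
      have e2 : z₁ - z₀ ≠ 0 := sub_ne_zero.mpr hne
      have hz₁' : z₁ ∉ closure D.carrier := hsub hz₁
      have h2 := remE_identity hD h hz₀ hz₁'
      have h3 := remE_identity hD (remE h z₀) hz₀ hz₁'
      rw [slope_def_field, h2, h3]
      simp only [map_add, map_smul, smul_eq_mul]
      field_simp
      ring
    refine Tendsto.congr' (h1.mono fun _ h => h.symm) ?_
    have h2 : Tendsto (fun z₁ => (z₁ - z₀) *
        y (remE (remE (remE h z₀) z₀) z₁)) (𝓝[≠] z₀) (𝓝 0) := by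
      have h3 : Tendsto (fun z₁ : ℂ => ‖z₁ - z₀‖ * (‖y‖ * (C * ‖remE (remE h z₀) z₀‖)))
          (𝓝[≠] z₀) (𝓝 0) := by
        have h4 : Continuous fun z₁ : ℂ => ‖z₁ - z₀‖ * (‖y‖ * (C * ‖remE (remE h z₀) z₀‖)) := by
          fun_prop
        have h5 := (h4.tendsto z₀).mono_left (nhdsWithin_le_nhds (s := {z₀}ᶜ))
        simpa using h5
      refine squeeze_zero_norm' ?_ h3
      filter_upwards [nhdsWithin_le_nhds (closedBall_mem_nhds z₀ hρ)] with z₁ hz₁
      rw [norm_mul]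
      refine mul_le_mul_of_nonneg_left ?_ (norm_nonneg _)
      exact (y.le_opNorm _).trans (mul_le_mul_of_nonneg_left (hb z₁ hz₁ _) (norm_nonneg _))
    simpa using tendsto_const_nhds.add h2
  exact key.differentiableAt.differentiableWithinAt

end MP2c3e4e
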