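import Pool.Agent.Lib_MP_2c3e4e_an.F3
import Pool.Agent.Lib_MP_2c3e4e_an.A4

/-!
# G3: quotients of functions of the Smirnov space are of bounded type
-/

open MeasureTheory Set Metric Filter Topology
open scoped ENNReal Real

namespace MP2c3e4e

variable {D : Dom}

/-- Jensen: the circle averages of `log |F|` are bounded below. -/
lemma jensen_lower {F : ℂ → ℂ} (hF : DifferentiableOn ℂ F (ball 0 1)) :
    ∃ C : ℝ, ∀ r : ℝ, 1 / 2 ≤ r → r < 1 →
      -C ≤ Real.circleAverage (fun x => Real.log ‖F x‖) 0 r := by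
  have hA : AnalyticOnNhd ℂ F (ball 0 1) := hF.analyticOnNhd isOpen_ball
  have h0 : AnalyticAt ℂ F 0 := hA 0 (mem_ball_self one_pos)
  refine ⟨-(((meromorphicOrderAt F 0).untop₀ : ℝ) * Real.log (1 / 2) +
    Real.log ‖meromorphicTrailingCoeffAt F 0‖), fun r hr hr1 => ?_⟩
  have hr0 : 0 < r := by linarith
  have habs : |r| = r := abs_of_pos hr0
  have hsub : closedBall (0 : ℂ) |r| ⊆ ball 0 1 := by
    rw [habs]; exact closedBall_subset_ball hr1
  have hcb : AnalyticOnNhd ℂ F (closedBall 0 |r|) := hA.mono hsub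
  have hJ := MeromorphicOn.circleAverage_log_norm (c := 0) (R := r) (f := F) hr0.ne'
    hcb.meromorphicOn
  have hd := MeromorphicOn.AnalyticOnNhd.divisor_nonneg (𝕜 := ℂ) (f := F)
    (U := closedBall 0 |r|) hcb
  have h3 : 0 ≤ ∑ᶠ u, MeromorphicOn.divisor F (closedBall 0 |r|) u *
      Real.log (r * ‖(0 : ℂ) - u‖⁻¹) := by
    apply finsum_nonneg
    intro u
    by_cases hu : u ∈ closedBall (0 : ℂ) |r|
    · refine mul_nonneg ?_ ?_
      · exact_mod_cast hd u
      · rcases eq_or_ne u 0 with rfl | huz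
        · simp
        · apply Real.log_nonneg
          have hp : 0 < ‖(0 : ℂ) - u‖ := norm_pos_iff.2 (sub_ne_zero.2 huz.symm)
          rw [← div_eq_mul_inv, one_le_div hp]
          rw [habs, mem_closedBall, dist_comm, dist_eq_norm] at hu
          exact hu
    · have : MeromorphicOn.divisor F (closedBall 0 |r|) u = 0 :=
        Function.locallyFinsuppWithin.apply_eq_zero_of_notMem _ hu
      simp [this]
  have h4 : MeromorphicOn.divisor F (closedBall 0 |r|) 0 = (meromorphicOrderAt F 0).untop₀ :=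
    MeromorphicOn.divisor_apply hcb.meromorphicOn (mem_closedBall_self (abs_nonneg r))
  have h5 : (0 : ℝ) ≤ ((meromorphicOrderAt F 0).untop₀ : ℝ) := by
    rw [← h4]; exact_mod_cast hd 0
  have h6 : Real.log (1 / 2) ≤ Real.log r := Real.log_le_log (by norm_num) hr
  have h7 := mul_le_mul_of_nonneg_left h6 h5
  rw [hJ, h4]
  linarith

lemma avg_eq (f : ℂ → ℝ) (r : ℝ) : Real.circleAverage f 0 r =
    (2 * π)⁻¹ * ∫ t in Ioc 0 (2 * π), f (circleMap 0 r t) := by
  rw [Real.circleAverage_def, intervalIntegral.integral_of_le (by positivity), smul_eq_mul]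

lemma cint {F : ℂ → ℝ} (hF : ContinuousOn F (ball 0 1)) {r : ℝ}
    (hr : r ∈ Ioo (0 : ℝ) 1) : CircleIntegrable F 0 r :=
  (hF.mono fun x hx => by
    rw [mem_sphere_zero_iff_norm] at hx
    rw [mem_ball_zero_iff, hx]; exact hr.2).circleIntegrable hr.1.le

/-- Circle averages of `log⁺ |h ∘ φ|`. -/
lemma avg_posLog (hD : D.Regular) : ∃ K : ℝ, ∀ (h : E2 D) (r : ℝ), 1 / 2 ≤ r → r < 1 →
    Real.circleAverage (fun x => Real.posLog ‖h.fn (D.φ x)‖) 0 r ≤ K + ‖h‖ ^ 2 := by
  obtain ⟨K, hK⟩ := hD.length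
  refine ⟨|K| + |Real.log ‖deriv D.φ 0‖|, fun h r hr hr1 => ?_⟩
  have hr0 : 0 < r := by linarith
  have hrI : r ∈ Ioo (0 : ℝ) 1 := ⟨hr0, hr1⟩
  have habs : |r| = r := abs_of_pos hr0
  have hc1 : ContinuousOn (fun x => ‖sqF D h.fn x‖) (ball 0 1) := (diff_sqF D h.diff).continuousOn.norm
  have hc2 : ContinuousOn (fun x => ‖deriv D.φ x‖) (ball 0 1) := (diff_derivφ D).continuousOn.norm
  have hc3 : ContinuousOn (fun x => Real.log ‖deriv D.φ x‖) (ball 0 1) :=
    hc2.log fun x hx => norm_ne_zero_iff.mpr (deriv_φ_ne_zero D hx)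
  have hc4 : ContinuousOn (fun x => Real.posLog ‖h.fn (D.φ x)‖) (ball 0 1) :=
    Real.continuous_posLog.comp_continuousOn (diff_comp D h.diff).continuousOn.norm
  have hpt : ∀ x ∈ ball (0 : ℂ) 1, Real.posLog ‖h.fn (D.φ x)‖ ≤
      ‖sqF D h.fn x‖ + ‖deriv D.φ x‖ - (1 / 2) * Real.log ‖deriv D.φ x‖ := by
    intro x hx
    set a := ‖h.fn (D.φ x)‖ with ha
    set b := ‖deriv D.φ x‖ with hb
    have hb0 : 0 < b := norm_pos_iff.mpr (deriv_φ_ne_zero D hx)
    have hs : ‖sqF D h.fn x‖ = a ^ 2 * b := by rw [sqF, norm_mul, norm_pow]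
    rw [hs]
    have ha0 : 0 ≤ a := norm_nonneg _
    have hb1 : Real.log b ≤ b := (Real.log_le_sub_one_of_pos hb0).trans (by linarith)
    have hab : 0 ≤ a ^ 2 * b := by positivity
    refine max_le ?_ ?_
    · have : 0 ≤ b := hb0.le
      linarith
    · rcases ha0.eq_or_lt with h0 | h0
      · rw [← h0, Real.log_zero]; nlinarith
      · have e1 : Real.log (a ^ 2 * b) = 2 * Real.log a + Real.log b := by
          rw [Real.log_mul (by positivity) hb0.ne', Real.log_pow]; push_cast; ring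
        have e2 : Real.log (a ^ 2 * b) ≤ a ^ 2 * b :=
          (Real.log_le_sub_one_of_pos (by positivity)).trans (by linarith)
        nlinarith
  have hsph : ∀ x ∈ sphere (0 : ℂ) |r|, x ∈ ball (0 : ℂ) 1 := by
    intro x hx
    rw [mem_sphere_zero_iff_norm, habs] at hx
    rw [mem_ball_zero_iff, hx]; exact hr1
  have hI1 := cint hc1 hrI
  have hI2 := cint hc2 hrI
  have hI3 := cint hc3 hrI
  have hI4 := cint hc4 hrI
  have e1 : Real.circleAverage (fun x => Real.posLog ‖h.fn (D.φ x)‖) 0 r ≤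
      Real.circleAverage (fun x => ‖sqF D h.fn x‖ + ‖deriv D.φ x‖ -
        (1 / 2) * Real.log ‖deriv D.φ x‖) 0 r := by
    apply Real.circleAverage_mono hI4
    · exact cint ((hc1.add hc2).sub (continuousOn_const.mul hc3)) hrI
    · intro x hx
      exact hpt x (hsph x hx)
  have e2 : Real.circleAverage (fun x => ‖sqF D h.fn x‖ + ‖deriv D.φ x‖ -
        (1 / 2) * Real.log ‖deriv D.φ x‖) 0 r =
      Real.circleAverage (fun x => ‖sqF D h.fn x‖) 0 r +
      Real.circleAverage (fun x => ‖deriv D.φ x‖) 0 r -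
      (1 / 2) * Real.circleAverage (fun x => Real.log ‖deriv D.φ x‖) 0 r := by
    have i1 : CircleIntegrable (fun x => ‖sqF D h.fn x‖ + ‖deriv D.φ x‖) 0 r :=
      cint (hc1.add hc2) hrI
    have i2 : CircleIntegrable (fun x => (1 / 2) * Real.log ‖deriv D.φ x‖) 0 r :=
      cint (continuousOn_const.mul hc3) hrI
    have a1 := Real.circleAverage_sub i1 i2
    have a2 := Real.circleAverage_add hI1 hI2
    have a3 := Real.circleAverage_fun_smul (a := (1 / 2 : ℝ))
      (f := fun x => Real.log ‖deriv D.φ x‖) (c := 0) (R := r)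
    simp only [smul_eq_mul] at a3
    have a1' : Real.circleAverage (fun x => ‖sqF D h.fn x‖ + ‖deriv D.φ x‖ -
        (1 / 2) * Real.log ‖deriv D.φ x‖) 0 r =
        Real.circleAverage (fun x => ‖sqF D h.fn x‖ + ‖deriv D.φ x‖) 0 r -
        Real.circleAverage (fun x => (1 / 2) * Real.log ‖deriv D.φ x‖) 0 r := a1
    have a2' : Real.circleAverage (fun x => ‖sqF D h.fn x‖ + ‖deriv D.φ x‖) 0 r =
        Real.circleAverage (fun x => ‖sqF D h.fn x‖) 0 r +
        Real.circleAverage (fun x => ‖deriv D.φ x‖) 0 r := a2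
    rw [a1', a2', a3]
  have hpi : 3 < π := Real.pi_gt_three
  have hpi0 : 0 < (2 * π)⁻¹ := by positivity
  have hpi1 : (2 * π)⁻¹ ≤ 1 / 2 := by
    rw [inv_eq_one_div]
    apply one_div_le_one_div_of_le (by norm_num)
    linarith
  have e3 : Real.circleAverage (fun x => ‖sqF D h.fn x‖) 0 r ≤ ‖h‖ ^ 2 := by
    rw [avg_eq]
    have h1 := h.energy hrI
    rw [integral_const_mul] at h1
    set I := ∫ t in Ioc 0 (2 * π), ‖sqF D h.fn (circleMap 0 r t)‖ with hI
    have hI0 : 0 ≤ I := integral_nonneg fun t => norm_nonneg _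
    have h2 : (1 / 2) * I ≤ ‖h‖ ^ 2 := (mul_le_mul_of_nonneg_right hr hI0).trans h1
    exact (mul_le_mul_of_nonneg_right hpi1 hI0).trans h2
  have e4 : Real.circleAverage (fun x => ‖deriv D.φ x‖) 0 r ≤ |K| := by
    rw [avg_eq]
    have h1 := hK r hrI
    set I := ∫ t in Ioc 0 (2 * π), ‖deriv D.φ (circleMap 0 r t)‖ with hI
    have hI0 : 0 ≤ I := integral_nonneg fun t => norm_nonneg _
    have h2 := mul_le_mul_of_nonneg_right hpi1 hI0
    have h3 := le_abs_self K
    linarith
  have e5 : Real.circleAverage (fun x => Real.log ‖deriv D.φ x‖) 0 r =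
      Real.log ‖deriv D.φ 0‖ := by
    refine AnalyticOnNhd.circleAverage_log_norm_of_ne_zero ?_ ?_
    · refine ((diff_derivφ D).analyticOnNhd isOpen_ball).mono ?_
      rw [habs]; exact closedBall_subset_ball hr1
    · intro u hu
      rw [habs] at hu
      exact deriv_φ_ne_zero D (closedBall_subset_ball hr1 hu)
  have e6 := neg_abs_le (Real.log ‖deriv D.φ 0‖)
  have e7 := abs_nonneg (Real.log ‖deriv D.φ 0‖)
  rw [e2, e5] at e1
  linarith

/-- G3. Quotients `ψ = h/f` of functions of `E²(D)` are of bounded type, uniformly in `h`. -/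
theorem psi_bound (hD : D.Regular) (f : E2 D) (hf : ∃ z ∈ D.carrier, f.fn z ≠ 0) (R : ℝ) :
    ∃ K : ℝ, 0 < K ∧ ∀ (h : E2 D) (ψ : ℂ → ℂ), ‖h‖ ≤ R → DifferentiableOn ℂ ψ D.carrier →
      (∀ z ∈ D.carrier, ψ z * f.fn z = h.fn z) →
      ∀ z ∈ D.carrier, Real.posLog ‖ψ z‖ ≤ K / (1 - ‖D.inv z‖) := by
  obtain ⟨K4, hK4, hbt⟩ := bounded_type
  obtain ⟨K1, hK1⟩ := avg_posLog hD
  have hFd := diff_comp D f.diff
  obtain ⟨C, hC⟩ := jensen_lower hFd
  set F : ℂ → ℂ := fun s => f.fn (D.φ s) with hFdef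
  have hFA : AnalyticOnNhd ℂ F (ball 0 1) := hFd.analyticOnNhd isOpen_ball
  -- the function F has finite order everywhere
  have hord : ∀ u ∈ ball (0 : ℂ) 1, meromorphicOrderAt F u ≠ ⊤ := by
    intro u hu htop
    obtain ⟨z, hz, hfz⟩ := hf
    have h1 : ∀ᶠ x in 𝓝[≠] u, F x = 0 := meromorphicOrderAt_eq_top_iff.mp htop
    have h2 : EqOn F 0 (ball 0 1) :=
      hFA.eqOn_zero_of_preconnected_of_frequently_eq_zero
        (convex_ball (0 : ℂ) 1).isPreconnected hu h1.frequently
    have h3 := h2 (D.maps_inv hz)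
    simp only [hFdef, D.right_inv z hz, Pi.zero_apply] at h3
    exact hfz h3
  set C2 : ℝ := (K1 + R ^ 2) + ((K1 + ‖f‖ ^ 2) + C) with hC2
  refine ⟨max (K4 * C2) 1, lt_max_of_lt_right one_pos, fun h ψ hh hψ heq z hz => ?_⟩
  have hHd : DifferentiableOn ℂ (fun s => ψ (D.φ s)) (ball 0 1) := diff_comp D hψ
  have key : ∀ r : ℝ, 1 / 2 ≤ r → r < 1 →
      Real.circleAverage (fun x => Real.posLog ‖ψ (D.φ x)‖) 0 r ≤ C2 := by
    intro r hr hr1
    have hr0 : 0 < r := by linarith
    have habs : |r| = r := abs_of_pos hr0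
    have hsub : sphere (0 : ℂ) |r| ⊆ ball 0 1 := by
      rw [habs]; exact sphere_subset_closedBall.trans (closedBall_subset_ball hr1)
    have hFm : MeromorphicOn F (sphere 0 |r|) := (hFA.mono hsub).meromorphicOn
    have hGm : MeromorphicOn (fun s => h.fn (D.φ s)) (sphere 0 |r|) :=
      (((diff_comp D h.diff).analyticOnNhd isOpen_ball).mono hsub).meromorphicOn
    have hHm : MeromorphicOn (fun s => ψ (D.φ s)) (sphere 0 |r|) :=
      ((hHd.analyticOnNhd isOpen_ball).mono hsub).meromorphicOn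
    have hne : ∀ᶠ x in codiscreteWithin (sphere (0 : ℂ) |r|), F x ≠ 0 :=
      MeromorphicAt.MeromorphicOn.codiscreteWithin_setOfPred_ne_zero hFm fun u hu => hord u (hsub hu)
    classical
    have c1 : Real.circleAverage (fun x => Real.posLog ‖ψ (D.φ x)‖) 0 r =
        Real.circleAverage (fun x => if F x = 0 then 0 else Real.posLog ‖ψ (D.φ x)‖) 0 r := by
      apply Real.circleAverage_congr_codiscreteWithin _ hr0.ne'
      filter_upwards [hne] with x hx
      rw [if_neg hx]
    have iH : CircleIntegrable (fun x => Real.posLog ‖ψ (D.φ x)‖) 0 r :=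
      hHm.circleIntegrable_posLog_norm
    have iH' : CircleIntegrable (fun x => if F x = 0 then 0 else Real.posLog ‖ψ (D.φ x)‖) 0 r := by
      refine iH.congr_codiscreteWithin ?_
      filter_upwards [hne] with x hx
      rw [if_neg hx]
    have iG : CircleIntegrable (fun x => Real.posLog ‖h.fn (D.φ x)‖) 0 r :=
      hGm.circleIntegrable_posLog_norm
    have iF : CircleIntegrable (fun x => Real.posLog ‖F x‖) 0 r :=
      hFm.circleIntegrable_posLog_norm
    have iL : CircleIntegrable (fun x => Real.log ‖F x‖) 0 r :=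
      hFm.circleIntegrable_log_norm
    have c2 : Real.circleAverage (fun x => if F x = 0 then 0 else Real.posLog ‖ψ (D.φ x)‖) 0 r ≤
        Real.circleAverage (fun x => Real.posLog ‖h.fn (D.φ x)‖ +
          (Real.posLog ‖F x‖ - Real.log ‖F x‖)) 0 r := by
      apply Real.circleAverage_mono iH'
      · exact iG.add (iF.sub iL)
      · intro x hx
        have hx1 : x ∈ ball (0 : ℂ) 1 := hsub hx
        have e0 : Real.posLog ‖F x‖ - Real.log ‖F x‖ = Real.posLog ‖F x‖⁻¹ := by
          have := Real.posLog_sub_posLog_inv (x := ‖F x‖)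
          linarith
        show (if F x = 0 then 0 else Real.posLog ‖ψ (D.φ x)‖) ≤ Real.posLog ‖h.fn (D.φ x)‖ +
          (Real.posLog ‖F x‖ - Real.log ‖F x‖)
        rw [e0]
        split_ifs with h0
        · exact add_nonneg Real.posLog_nonneg Real.posLog_nonneg
        · have e1 : ψ (D.φ x) = h.fn (D.φ x) * (F x)⁻¹ := by
            rw [← heq _ (D.maps hx1), mul_assoc, mul_inv_cancel₀ h0, mul_one]
          rw [e1, norm_mul, norm_inv]
          exact Real.posLog_mul
    have c3 : Real.circleAverage (fun x => Real.posLog ‖h.fn (D.φ x)‖ +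
          (Real.posLog ‖F x‖ - Real.log ‖F x‖)) 0 r =
        Real.circleAverage (fun x => Real.posLog ‖h.fn (D.φ x)‖) 0 r +
        (Real.circleAverage (fun x => Real.posLog ‖F x‖) 0 r -
          Real.circleAverage (fun x => Real.log ‖F x‖) 0 r) := by
      have a1 := Real.circleAverage_add iG (iF.sub iL)
      have a2 := Real.circleAverage_sub iF iL
      rw [← a2]
      exact a1
    have d1 := hK1 h r hr hr1
    have d2 := hK1 f r hr hr1
    have d3 := hC r hr hr1
    have d4 : ‖h‖ ^ 2 ≤ R ^ 2 := pow_le_pow_left₀ (norm_nonneg _) hh 2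
    rw [c1]
    refine c2.trans ?_
    rw [c3]
    have d5 : Real.circleAverage (fun x => Real.posLog ‖F x‖) 0 r ≤ K1 + ‖f‖ ^ 2 := d2
    linarith
  have h1 := hbt _ C2 hHd key (D.inv z) (D.maps_inv hz)
  have h2 : ψ (D.φ (D.inv z)) = ψ z := by rw [D.right_inv z hz]
  simp only [h2] at h1
  refine h1.trans ?_
  have h3 : 0 ≤ 1 - ‖D.inv z‖ := by
    have := mem_ball_zero_iff.mp (D.maps_inv hz)
    linarith
  exact div_le_div_of_nonneg_right (le_max_left _ _) h3

end MP2c3e4e
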