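import Pool.Agent.Lib_MP_2c3e4e_an.F3
import Pool.Agent.Lib_MP_2c3e4e_an.E1
import Pool.Agent.Lib_MP_2c3e4e_an.E2

open MeasureTheory Set Metric Filter Topology
open scoped ENNReal Real

namespace MP2c3e4e

variable {D : Dom}

namespace G4aux

/-- the energy on a level curve -/
noncomputable def En (h : E2 D) (r : ℝ) : ℝ :=
  ∫ t in Ioc 0 (2 * π), r * ‖sqF D h.fn (circleMap 0 r t)‖

lemma En_mono (h : E2 D) {r₁ r₂ : ℝ} (h0 : 0 < r₁) (h12 : r₁ ≤ r₂) (h1 : r₂ < 1) :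
    En h r₁ ≤ En h r₂ := by
  have h2 := mean_mono (diff_sqF D h.diff) h0.le h12 h1
  rw [En, En, integral_const_mul, integral_const_mul]
  have h3 : 0 ≤ ∫ t in Ioc 0 (2 * π), ‖sqF D h.fn (circleMap 0 r₁ t)‖ :=
    integral_nonneg fun t => norm_nonneg _
  calc r₁ * ∫ t in Ioc 0 (2 * π), ‖sqF D h.fn (circleMap 0 r₁ t)‖
      ≤ r₂ * ∫ t in Ioc 0 (2 * π), ‖sqF D h.fn (circleMap 0 r₁ t)‖ :=
        mul_le_mul_of_nonneg_right h12 h3
    _ ≤ _ := mul_le_mul_of_nonneg_left h2 (h0.le.trans h12)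

lemma En_nonneg (h : E2 D) {r : ℝ} (h0 : 0 < r) : 0 ≤ En h r :=
  integral_nonneg fun _ => mul_nonneg h0.le (norm_nonneg _)

lemma norm_sq_le (h : E2 D) {C : ℝ} (hC : 0 ≤ C) (hb : ∀ r ∈ Ioo (0 : ℝ) 1, En h r ≤ C) :
    ‖h‖ ^ 2 ≤ C := by
  have h1 : D.smirnovNorm h.fn ≤ ENNReal.ofReal (√C) := by
    refine D.smirnovNorm_le _ fun r hr => ?_
    have h2 := eLpNorm_sq D h.diff hr
    have h3 : (ENNReal.ofReal (√C)) ^ 2 = ENNReal.ofReal C := by
      rw [← ENNReal.ofReal_pow (Real.sqrt_nonneg _), Real.sq_sqrt hC]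
    have h4 : eLpNorm (fun t => h.fn (D.φ (circleMap 0 r t))) 2 (D.arc r) ^ 2 ≤
        (ENNReal.ofReal (√C)) ^ 2 := by
      rw [h2, h3]
      exact ENNReal.ofReal_le_ofReal (hb r hr)
    exact (ENNReal.pow_le_pow_left_iff two_ne_zero).1 h4
  have h2 : ‖h‖ ≤ √C := by
    rw [E2.norm_def]
    have := ENNReal.toReal_mono ENNReal.ofReal_ne_top h1
    rwa [ENNReal.toReal_ofReal (Real.sqrt_nonneg _)] at this
  calc ‖h‖ ^ 2 ≤ (√C) ^ 2 := by gcongr
    _ = C := Real.sq_sqrt hC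

lemma En_par (u v : E2 D) {r : ℝ} (hr : r ∈ Ioo (0 : ℝ) 1) :
    En (u + v) r + En (u - v) r = 2 * (En u r + En v r) := by
  have hi : ∀ w : E2 D, Integrable (fun t => r * ‖sqF D w.fn (circleMap 0 r t)‖)
      (volume.restrict (Ioc 0 (2 * π))) := fun w =>
    (Continuous.integrableOn_Icc (continuous_const.mul
      (cont_circle (diff_sqF D w.diff) hr).norm)).mono_set Ioc_subset_Icc_self
  rw [En, En, En, En, ← integral_add (hi _) (hi _), ← integral_add (hi _) (hi _),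
    ← integral_const_mul]
  refine integral_congr_ae (Eventually.of_forall fun t => ?_)
  simp only [sqF, E2.fn_add, E2.fn_sub, Pi.add_apply, Pi.sub_apply, norm_mul, norm_pow]
  set a := u.fn (D.φ (circleMap 0 r t))
  set b := v.fn (D.φ (circleMap 0 r t))
  have hp := parallelogram_law_with_norm ℝ a b
  have : ‖a + b‖ ^ 2 + ‖a - b‖ ^ 2 = 2 * (‖a‖ ^ 2 + ‖b‖ ^ 2) := by
    nlinarith [hp]
  calc r * (‖a + b‖ ^ 2 * ‖deriv D.φ (circleMap 0 r t)‖) +
      r * (‖a - b‖ ^ 2 * ‖deriv D.φ (circleMap 0 r t)‖)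
      = r * ‖deriv D.φ (circleMap 0 r t)‖ * (‖a + b‖ ^ 2 + ‖a - b‖ ^ 2) := by ring
    _ = _ := by rw [this]; ring

lemma par (u v : E2 D) : ‖u + v‖ ^ 2 + ‖u - v‖ ^ 2 ≤ 2 * (‖u‖ ^ 2 + ‖v‖ ^ 2) := by
  set C : ℝ := 2 * (‖u‖ ^ 2 + ‖v‖ ^ 2) with hC
  have key : ∀ r ∈ Ioo (0 : ℝ) 1, ∀ r' ∈ Ioo (0 : ℝ) 1, En (u + v) r + En (u - v) r' ≤ C := by
    intro r hr r' hr'
    have hm : max r r' ∈ Ioo (0 : ℝ) 1 := ⟨hr.1.trans_le (le_max_left _ _), max_lt hr.2 hr'.2⟩
    have h1 := En_mono (u + v) hr.1 (le_max_left r r') hm.2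
    have h2 := En_mono (u - v) hr'.1 (le_max_right r r') hm.2
    have h3 := En_par u v hm
    have h4 : En u (max r r') ≤ ‖u‖ ^ 2 := u.energy hm
    have h5 : En v (max r r') ≤ ‖v‖ ^ 2 := v.energy hm
    rw [hC]; linarith
  have key2 : ∀ r ∈ Ioo (0 : ℝ) 1, ‖u - v‖ ^ 2 ≤ C - En (u + v) r := by
    intro r hr
    refine norm_sq_le _ ?_ fun r' hr' => by have := key r hr r' hr'; linarith
    have h1 := key r hr r hr
    have h2 := En_nonneg (u - v) hr.1
    linarith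
  have h0 := key2 (1 / 2) ⟨by norm_num, by norm_num⟩
  have h1 := En_nonneg (u + v) (r := 1 / 2) (by norm_num)
  have h3 : ‖u + v‖ ^ 2 ≤ C - ‖u - v‖ ^ 2 :=
    norm_sq_le _ (by linarith) fun r hr => by have := key2 r hr; linarith
  linarith

lemma ofReal_norm_eq (f : E2 D) : ENNReal.ofReal ‖f‖ = D.smirnovNorm f.fn := by
  rw [E2.norm_def, ENNReal.ofReal_toReal f.fin.ne]

/-- a Cauchy sequence converging pointwise to zero converges to zero in norm -/
lemma norm_tendsto_zero {v : ℕ → E2 D} (hv : CauchySeq v)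
    (hp : ∀ z ∈ D.carrier, Tendsto (fun k => (v k).fn z) atTop (𝓝 0)) :
    Tendsto (fun k => ‖v k‖) atTop (𝓝 0) := by
  rw [Metric.tendsto_atTop]
  intro ε hε
  obtain ⟨N, hN⟩ := Metric.cauchySeq_iff.1 hv (ε / 2) (by positivity)
  refine ⟨N, fun k hk => ?_⟩
  have h1 : D.smirnovNorm (v k).fn ≤ ENNReal.ofReal (ε / 2) := by
    refine D.smirnovNorm_le _ fun r hr => ?_
    have hf := Lp.eLpNorm_lim_le_liminf_eLpNorm (μ := D.arc r) (p := 2)
      (f := fun l t => (v k - v l).fn (D.φ (circleMap 0 r t)))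
      (fun l => (D.continuous_comp (v k - v l).diff hr).aestronglyMeasurable)
      (fun t => (v k).fn (D.φ (circleMap 0 r t)))
      (Eventually.of_forall fun t => by
        have h2 := hp _ (D.maps (mem_ball_circle (t := t) hr))
        have h3 : Tendsto (fun l => (v k).fn (D.φ (circleMap 0 r t)) -
            (v l).fn (D.φ (circleMap 0 r t))) atTop
            (𝓝 ((v k).fn (D.φ (circleMap 0 r t)) - 0)) := tendsto_const_nhds.sub h2
        rw [sub_zero] at h3
        exact h3)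
    refine hf.trans ?_
    refine liminf_le_of_frequently_le' (Eventually.frequently ?_)
    filter_upwards [eventually_ge_atTop N] with l hl
    refine (D.le_smirnovNorm (v k - v l).fn hr).trans ?_
    rw [← ofReal_norm_eq]
    apply ENNReal.ofReal_le_ofReal
    have := hN k hk l hl
    rw [dist_eq_norm] at this
    exact this.le
  have h2 : ‖v k‖ ≤ ε / 2 := by
    rw [E2.norm_def]
    have := ENNReal.toReal_mono ENNReal.ofReal_ne_top h1
    rwa [ENNReal.toReal_ofReal (by positivity)] at this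
  rw [Real.dist_eq, sub_zero, abs_of_nonneg (norm_nonneg _)]
  linarith

/-- evaluation at a point as a real linear map -/
noncomputable def evl (D : Dom) (z : ℂ) : E2 D →ₗ[ℝ] ℂ where
  toFun f := f.fn z
  map_add' f g := rfl
  map_smul' r f := by
    rw [show r • f = ((r : ℂ)) • f from (RCLike.real_smul_eq_coe_smul (K := ℂ) r f)]
    exact (RCLike.real_smul_eq_coe_smul (K := ℂ) r (f.fn z)).symm

/-- tail convex combinations of a pointwise null sequence are pointwise null -/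
lemma convex_null {u v : ℕ → E2 D} {z : ℂ} (hu : Tendsto (fun k => (u k).fn z) atTop (𝓝 0))
    (hv : ∀ k, v k ∈ convexHull ℝ (u '' Ici k)) : Tendsto (fun k => (v k).fn z) atTop (𝓝 0) := by
  rw [Metric.tendsto_atTop] at hu ⊢
  intro ε hε
  obtain ⟨N, hN⟩ := hu ε hε
  refine ⟨N, fun k hk => ?_⟩
  have h1 : convexHull ℝ (u '' Ici k) ⊆ (evl D z) ⁻¹' (ball 0 ε) := by
    refine convexHull_min ?_ ((convex_ball (0 : ℂ) ε).linear_preimage (evl D z))
    rintro _ ⟨n, hn, rfl⟩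
    exact hN n (hk.trans hn)
  exact h1 (hv k)

end G4aux

open G4aux

/-- G4. Weak convergence to zero of `ε h/(z - ξ - ε e)` for nontangential exterior approach. -/
theorem weak_cone (h : E2 D) (y : E2 D →L[ℂ] ℂ) {ξ e : ℂ} {c : ℝ} (hc : 0 < c)
    (hcone : ∀ ε ∈ Ioo (0 : ℝ) c, ∀ z ∈ D.carrier, c * ε ≤ ‖z - (ξ + ε * e)‖) :
    Tendsto (fun n : ℕ => (1 / ((n : ℂ) + 1)) * y (remE h (ξ + (1 / ((n : ℂ) + 1)) * e))) atTop
      (𝓝 0) := by
  obtain ⟨N, hN⟩ := exists_nat_one_div_lt hc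
  set ε : ℕ → ℝ := fun n => 1 / (((n + N : ℕ) : ℝ) + 1) with hε
  have hε0 : ∀ n, 0 < ε n := fun n => by positivity
  have hεc : ∀ n, ε n < c := by
    intro n
    refine lt_of_le_of_lt ?_ hN
    rw [hε]
    apply one_div_le_one_div_of_le (by positivity)
    push_cast
    have : (0 : ℝ) ≤ n := n.cast_nonneg
    linarith
  have hεlim : Tendsto ε atTop (𝓝 0) := by
    have h1 : Tendsto (fun n : ℕ => 1 / ((n : ℝ) + 1)) atTop (𝓝 0) :=
      tendsto_one_div_add_atTop_nhds_zero_nat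
    exact h1.comp (tendsto_add_atTop_nat N)
  have hlow : ∀ n, ∀ z ∈ D.carrier, c * ε n ≤ ‖z - (ξ + ε n * e)‖ := fun n z hz =>
    hcone (ε n) ⟨hε0 n, hεc n⟩ z hz
  have hnot : ∀ n, ξ + ε n * e ∉ D.carrier := by
    intro n hn
    have h1 := hlow n _ hn
    rw [sub_self, norm_zero] at h1
    have := mul_pos hc (hε0 n)
    linarith
  have hcl : Tendsto (fun n => ξ + (ε n : ℂ) * e) atTop (𝓝 ξ) := by
    have h1 : Tendsto (fun n => (ε n : ℂ)) atTop (𝓝 ((0 : ℝ) : ℂ)) :=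
      (Complex.continuous_ofReal.tendsto 0).comp hεlim
    have h2 := (tendsto_const_nhds (x := ξ) (f := (atTop : Filter ℕ))).add
      (h1.mul (tendsto_const_nhds (x := e)))
    simpa using h2
  have hξ : ξ ∉ D.carrier := by
    intro hξ
    obtain ⟨n, hn⟩ := (hcl.eventually (D.isOpen.mem_nhds hξ)).exists
    exact hnot n hn
  set F : ℕ → ℂ → ℂ := fun n => dslope h.fn (ξ + ε n * e) with hF
  have hFz : ∀ n, ∀ z ∈ D.carrier, F n z = h.fn z / (z - (ξ + ε n * e)) := fun n z hz =>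
    dslope_out h (hnot n) hz
  have hdiff : ∀ n, DifferentiableOn ℂ (F n) D.carrier := by
    intro n
    have h1 : DifferentiableOn ℂ (fun z => h.fn z / (z - (ξ + ε n * e))) D.carrier := by
      refine h.diff.div (by fun_prop) fun z hz => ?_
      have h2 := hlow n z hz
      have h3 := mul_pos hc (hε0 n)
      intro h0
      rw [h0, norm_zero] at h2
      linarith
    exact h1.congr fun z hz => hFz n z hz
  have hbd : ∀ n, ∀ z ∈ D.carrier, ‖F n z‖ ≤ 1 / (c * ε n) * ‖h.fn z‖ := by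
    intro n z hz
    have h3 := mul_pos hc (hε0 n)
    rw [hFz n z hz, norm_div, div_eq_mul_one_div, mul_comm]
    gcongr
    exact hlow n z hz
  have hgood : ∀ n, Good D (F n) := by
    intro n
    have h3 := mul_pos hc (hε0 n)
    exact Good.of_bound2 (a := 1 / (c * ε n)) (b := 0) (by positivity) le_rfl (hdiff n) h.good
      h.good (fun z hz => by rw [zero_mul, add_zero]; exact hbd n z hz)
  set u : ℕ → E2 D := fun n => (ε n : ℂ) • remE h (ξ + ε n * e) with hu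
  have hufn : ∀ n, ∀ z ∈ D.carrier, (u n).fn z = ε n * (h.fn z / (z - (ξ + ε n * e))) := by
    intro n z hz
    rw [hu]
    simp only [E2.fn_smul, Pi.smul_apply, smul_eq_mul, remE]
    rw [toE_fn (hgood n) hz]
    rw [hFz n z hz]
  have hM : ∀ n, ‖u n‖ ≤ ‖h‖ / c := by
    intro n
    have h3 := mul_pos hc (hε0 n)
    have h1 := norm_toE_le1 (hgood n) (a := 1 / (c * ε n)) (by positivity) h (hbd n)
    rw [hu]
    simp only
    rw [norm_smul, Complex.norm_real, Real.norm_eq_abs, abs_of_pos (hε0 n)]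
    calc ε n * ‖remE h (ξ + ε n * e)‖ ≤ ε n * (1 / (c * ε n) * ‖h‖) :=
          mul_le_mul_of_nonneg_left h1 (hε0 n).le
      _ = ‖h‖ / c := by
          have := (hε0 n).ne'
          field_simp
  have hpt : ∀ z ∈ D.carrier, Tendsto (fun n => (u n).fn z) atTop (𝓝 0) := by
    intro z hz
    have hne : z - ξ ≠ 0 := by
      intro h0
      exact hξ (by rw [← sub_eq_zero.1 h0]; exact hz)
    have h1 : Tendsto (fun n => (ε n : ℂ)) atTop (𝓝 ((0 : ℝ) : ℂ)) :=
      (Complex.continuous_ofReal.tendsto 0).comp hεlim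
    have h2 : Tendsto (fun n => h.fn z / (z - (ξ + ε n * e))) atTop (𝓝 (h.fn z / (z - ξ))) :=
      tendsto_const_nhds.div (tendsto_const_nhds.sub hcl) hne
    have h3 := h1.mul h2
    rw [Complex.ofReal_zero, zero_mul] at h3
    exact h3.congr fun n => (hufn n z hz).symm
  have hmain := weak_null (X := E2 D) par u hM (fun v hv hvk =>
    norm_tendsto_zero hv fun z hz => convex_null (hpt z hz) hvk) y
  rw [← tendsto_add_atTop_iff_nat N]
  refine hmain.congr fun n => ?_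
  rw [hu]
  simp only [map_smul, smul_eq_mul]
  have h1 : ((ε n : ℝ) : ℂ) = 1 / (((n + N : ℕ) : ℂ) + 1) := by
    rw [hε]; push_cast; rfl
  rw [h1]

end MP2c3e4e
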