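import Mathlib

/-!
G5: Vitali's theorem for uniformly bounded sequences converging on a dense set.
-/

open MeasureTheory Set Metric Filter Topology
open scoped ENNReal Real

namespace MP2c3e4e

/-- Local equi-Lipschitz bound for uniformly bounded analytic functions. -/
lemma equi_lip {H : ℕ → ℂ → ℂ} {c : ℂ} {ρ K : ℝ}
    (hH : ∀ n, DifferentiableOn ℂ (H n) (ball c ρ)) (hK : ∀ n, ∀ z ∈ ball c ρ, ‖H n z‖ ≤ K)
    {z : ℂ} (hz : z ∈ ball c ρ) :
    ∃ r L : ℝ, 0 < r ∧ 0 < L ∧ ball z r ⊆ ball c ρ ∧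
      ∀ n, ∀ x ∈ ball z r, ∀ y ∈ ball z r, ‖H n y - H n x‖ ≤ L * ‖y - x‖ := by
  obtain ⟨R, hR, hRsub⟩ := Metric.isOpen_iff.1 isOpen_ball z hz
  have hK0 : 0 ≤ K := (norm_nonneg _).trans (hK 0 z hz)
  refine ⟨R / 2, K / (R / 4) + 1, by positivity, by positivity,
    (ball_subset_ball (by linarith)).trans hRsub, fun n x hx y hy => ?_⟩
  have hsub : ∀ x ∈ ball z (R / 2), closedBall x (R / 4) ⊆ ball c ρ := by
    intro x hx w hw
    apply hRsub
    rw [mem_ball] at hx ⊢
    rw [mem_closedBall] at hw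
    have := dist_triangle w x z
    linarith
  refine Convex.norm_image_sub_le_of_norm_deriv_le (s := ball z (R / 2)) (f := H n) ?_ ?_
    (convex_ball _ _) hx hy
  · intro x hx
    refine (hH n).differentiableAt (isOpen_ball.mem_nhds (hsub x hx ?_))
    exact mem_closedBall_self (by positivity)
  · intro x hx
    have h1 : ‖deriv (H n) x‖ ≤ K / (R / 4) := by
      refine Complex.norm_deriv_le_of_forall_mem_sphere_norm_le (by positivity) ?_ ?_
      · refine DifferentiableOn.diffContOnCl ((hH n).mono ?_)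
        exact closure_ball_subset_closedBall.trans (hsub x hx)
      · intro w hw
        exact hK n w (hsub x hx (sphere_subset_closedBall hw))
    linarith

/-- G5. Vitali's theorem for uniformly bounded sequences converging on a dense set. -/
theorem vitali {H : ℕ → ℂ → ℂ} {c : ℂ} {ρ K : ℝ} (hρ : 0 < ρ)
    (hH : ∀ n, DifferentiableOn ℂ (H n) (ball c ρ)) (hK : ∀ n, ∀ z ∈ ball c ρ, ‖H n z‖ ≤ K)
    {S : Set ℂ} (hS : ball c ρ ⊆ closure S) (e : ℂ → ℂ)
    (he : ∀ z ∈ S ∩ ball c ρ, Tendsto (fun n => H n z) atTop (𝓝 (e z))) :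
    ∃ H₀ : ℂ → ℂ, DifferentiableOn ℂ H₀ (ball c ρ) ∧ ∀ z ∈ S ∩ ball c ρ, H₀ z = e z := by
  have _ := hρ
  -- pointwise convergence everywhere
  have hconv : ∀ z ∈ ball c ρ, ∃ l, Tendsto (fun n => H n z) atTop (𝓝 l) := by
    intro z hz
    obtain ⟨r, L, hr, hL, hsub, hlip⟩ := equi_lip hH hK hz
    apply cauchySeq_tendsto_of_complete
    rw [Metric.cauchySeq_iff]
    intro ε hε
    obtain ⟨s, hsS, hs⟩ := Metric.mem_closure_iff.1 (hS hz) (min r (ε / (4 * L))) (by positivity)
    have hsr : s ∈ ball z r := by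
      rw [mem_ball, dist_comm]; exact hs.trans_le (min_le_left _ _)
    have hse : dist z s < ε / (4 * L) := hs.trans_le (min_le_right _ _)
    have hcs : CauchySeq fun n => H n s := (he s ⟨hsS, hsub hsr⟩).cauchySeq
    obtain ⟨N, hN⟩ := Metric.cauchySeq_iff.1 hcs (ε / 2) (by positivity)
    refine ⟨N, fun m hm n hn => ?_⟩
    have h1 := hlip m s hsr z (mem_ball_self hr)
    have h2 := hlip n s hsr z (mem_ball_self hr)
    have h3 := hN m hm n hn
    rw [← dist_eq_norm, ← dist_eq_norm] at h1 h2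
    have h4 : L * dist z s < ε / 4 := by
      have := mul_lt_mul_of_pos_left hse hL
      have h5 : L * (ε / (4 * L)) = ε / 4 := by field_simp
      linarith
    have h6 := dist_triangle4 (H m z) (H m s) (H n s) (H n z)
    rw [dist_comm (H n s) (H n z)] at h6
    linarith
  choose! H₀ hH₀ using hconv
  refine ⟨H₀, ?_, fun z hz => tendsto_nhds_unique (hH₀ z hz.2) (he z hz)⟩
  have hloc : TendstoLocallyUniformlyOn H H₀ atTop (ball c ρ) := by
    rw [Metric.tendstoLocallyUniformlyOn_iff]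
    intro ε hε z hz
    obtain ⟨r, L, hr, hL, hsub, hlip⟩ := equi_lip hH hK hz
    have hd : 0 < min r (ε / (4 * L)) := by positivity
    refine ⟨ball z (min r (ε / (4 * L))), mem_nhdsWithin_of_mem_nhds (ball_mem_nhds z hd), ?_⟩
    have h1 : ∀ᶠ n in atTop, dist (H n z) (H₀ z) < ε / 4 :=
      Metric.tendsto_nhds.1 (hH₀ z hz) _ (by positivity)
    filter_upwards [h1] with n hn y hy
    have hyr : y ∈ ball z r := ball_subset_ball (min_le_left _ _) hy
    have hye : dist y z < ε / (4 * L) := (mem_ball.1 hy).trans_le (min_le_right _ _)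
    have h4 : L * dist y z < ε / 4 := by
      have := mul_lt_mul_of_pos_left hye hL
      have h5 : L * (ε / (4 * L)) = ε / 4 := by field_simp
      linarith
    have h2 : ∀ m, dist (H m y) (H m z) ≤ L * dist y z := by
      intro m
      have := hlip m z (mem_ball_self hr) y hyr
      rwa [← dist_eq_norm, ← dist_eq_norm] at this
    have h3 : dist (H₀ y) (H₀ z) ≤ L * dist y z :=
      le_of_tendsto ((hH₀ y (hsub hyr)).dist (hH₀ z hz)) (Eventually.of_forall h2)
    have h6 := dist_triangle4 (H₀ y) (H₀ z) (H n z) (H n y)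
    rw [dist_comm (H₀ z) (H n z), dist_comm (H n z) (H n y)] at h6
    have := h2 n
    linarith
  exact hloc.differentiableOn (Eventually.of_forall hH) isOpen_ball

end MP2c3e4e
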