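import Mathlib

/-!
G6: growth of entire functions that are small along a sequence.
-/

open MeasureTheory Set Metric Filter Topology
open scoped ENNReal Real

namespace MP2c3e4e

/-- An entire function bounded by `C r ^ κ` on arbitrarily large circles `‖w‖ = r` is a
polynomial. -/
lemma poly_of_bound {F : ℂ → ℂ} (hF : Differentiable ℂ F) (κ : ℕ) (C : ℝ)
    (hb : ∀ r₀ : ℝ, ∃ r : ℝ, r₀ ≤ r ∧ ∀ w, ‖w‖ = r → ‖F w‖ ≤ C * r ^ κ) :
    ∃ P : Polynomial ℂ, ∀ z, F z = P.eval z := by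
  have hzero : ∀ m, κ < m → iteratedDeriv m F 0 = 0 := by
    intro m hm
    by_contra hne
    have hpos : 0 < ‖iteratedDeriv m F 0‖ := norm_pos_iff.2 hne
    set A : ℝ := m.factorial * |C| / ‖iteratedDeriv m F 0‖ with hA
    have hA0 : 0 ≤ A := by positivity
    obtain ⟨r, hr, hrb⟩ := hb (A + 1)
    have hr1 : 1 ≤ r := by linarith
    have hr0 : 0 < r := by linarith
    have h1 := Complex.norm_iteratedDeriv_le_of_forall_mem_sphere_norm_le (F := ℂ) (c := 0)
      (f := F) (C := |C| * r ^ κ) m hr0 hF.diffContOnCl (by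
        intro z hz
        have hz' : ‖z‖ = r := by simpa using hz
        refine (hrb z hz').trans ?_
        exact mul_le_mul_of_nonneg_right (le_abs_self C) (by positivity))
    obtain ⟨d, rfl⟩ := Nat.exists_eq_add_of_lt hm
    have h2 : (κ + d + 1).factorial * (|C| * r ^ κ) / r ^ (κ + d + 1)
        ≤ (κ + d + 1).factorial * |C| / r := by
      rw [div_le_div_iff₀ (by positivity) hr0]
      have h3 : r ^ (κ + d + 1) = r ^ κ * r * r ^ d := by ring
      rw [h3]
      have h4 : (1 : ℝ) ≤ r ^ d := one_le_pow₀ hr1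
      have h5 : 0 ≤ ((κ + d + 1).factorial : ℝ) * |C| * (r ^ κ * r) := by positivity
      nlinarith
    have h3 : (κ + d + 1).factorial * |C| / r < ‖iteratedDeriv (κ + d + 1) F 0‖ := by
      rw [div_lt_iff₀ hr0]
      have : A < r := by linarith
      rw [hA, div_lt_iff₀ hpos] at this
      linarith
    exact absurd (h1.trans h2) (not_le.2 h3)
  refine ⟨∑ n ∈ Finset.range (κ + 1),
    Polynomial.C ((n.factorial : ℂ)⁻¹ * iteratedDeriv n F 0) * Polynomial.X ^ n, fun z => ?_⟩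
  have h := Complex.taylorSeries_eq_of_entire' (f := F) 0 z hF
  rw [tsum_eq_sum (s := Finset.range (κ + 1))] at h
  · rw [← h, Polynomial.eval_finsetSum]
    refine Finset.sum_congr rfl fun n _ => ?_
    simp
  · intro m hm
    have : κ < m := by simpa using hm
    rw [hzero m this]; simp

/-- G6. Growth of entire functions that are small along a sequence. -/
theorem transcendental {F : ℂ → ℂ} (hF : Differentiable ℂ F) (h0 : F 0 = 0)
    (hne : ∃ w, F w ≠ 0) (w : ℕ → ℂ) (hw : Tendsto (fun n => ‖w n‖) atTop atTop)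
    (hFw : Tendsto (fun n => ‖F (w n)‖ / ‖w n‖) atTop (𝓝 0)) (κ : ℕ) (C : ℝ) :
    ∃ r₀ : ℝ, ∀ r : ℝ, r₀ ≤ r → ∃ w, ‖w‖ = r ∧ C * r ^ κ < ‖F w‖ := by
  by_contra hcon
  push Not at hcon
  obtain ⟨P, hP⟩ := poly_of_bound hF κ C hcon
  have hX : Polynomial.X ∣ P := by
    rw [Polynomial.X_dvd_iff, Polynomial.coeff_zero_eq_eval_zero, ← hP, h0]
  obtain ⟨Q, rfl⟩ := hX
  have hev : ∀ᶠ n in atTop, ‖F (w n)‖ / ‖w n‖ = ‖Q.eval (w n)‖ := by
    filter_upwards [hw.eventually_gt_atTop 0] with n hn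
    rw [hP, Polynomial.eval_mul, Polynomial.eval_X, norm_mul]
    field_simp
  have hQ : Tendsto (fun n => ‖Q.eval (w n)‖) atTop (𝓝 0) := hFw.congr' hev
  by_cases hdeg : 0 < Q.degree
  · have h1 := Q.tendsto_norm_atTop hdeg hw
    exact not_tendsto_nhds_of_tendsto_atTop h1 0 hQ
  · have hQc := Polynomial.eq_C_of_degree_le_zero (not_lt.1 hdeg)
    have h2 : ∀ n, ‖Q.eval (w n)‖ = ‖Q.coeff 0‖ := by
      intro n; rw [hQc]; simp
    simp only [h2] at hQ
    have h3 : ‖Q.coeff 0‖ = 0 := tendsto_nhds_unique tendsto_const_nhds hQ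
    have h4 : Q = 0 := by rw [hQc, norm_eq_zero.1 h3]; simp
    obtain ⟨v, hv⟩ := hne
    apply hv
    rw [hP, h4]; simp

end MP2c3e4e
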