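import Pool.Agent.Lib_MP_2c3e4e_an.F3

/-!
# G7: limits of polynomial multiples
-/

open MeasureTheory Set Metric Filter Topology
open scoped ENNReal Real

namespace MP2c3e4e

variable {D : Dom}

/-- Point evaluations are bounded, uniformly on compact subsets. -/
theorem eval_compact {K : Set ℂ} (hK : IsCompact K) (hKD : K ⊆ D.carrier) :
    ∃ C : ℝ, 0 ≤ C ∧ ∀ k : E2 D, ∀ z ∈ K, ‖k.fn z‖ ≤ C * ‖k‖ := by
  rcases K.eq_empty_or_nonempty with rfl | hne
  · exact ⟨0, le_rfl, fun k z hz => absurd hz (notMem_empty z)⟩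
  have hcont : ContinuousOn (fun z => ‖deriv D.φ (D.inv z)‖ * (1 - ‖D.inv z‖)) K := by
    have h1 : ContinuousOn D.inv K := D.holo_inv.continuousOn.mono hKD
    have h2 : ContinuousOn (fun z => deriv D.φ (D.inv z)) K :=
      (diff_derivφ D).continuousOn.comp h1 fun z hz => D.maps_inv (hKD hz)
    exact h2.norm.mul (continuousOn_const.sub h1.norm)
  obtain ⟨x, hx, hmin⟩ := hK.exists_isMinOn hne hcont
  set c : ℝ := ‖deriv D.φ (D.inv x)‖ * (1 - ‖D.inv x‖) with hc
  have hpos : ∀ z ∈ K, 0 < ‖deriv D.φ (D.inv z)‖ * (1 - ‖D.inv z‖) := by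
    intro z hz
    have h1 := D.maps_inv (hKD hz)
    have h2 := mem_ball_zero_iff.mp h1
    exact mul_pos (norm_pos_iff.mpr (deriv_φ_ne_zero D h1)) (by linarith)
  have hc0 : 0 < c := hpos x hx
  refine ⟨Real.sqrt (1 / (2 * π * c)), Real.sqrt_nonneg _, fun k z hz => ?_⟩
  have h1 := k.sqF_bound (D.maps_inv (hKD hz))
  rw [sqF, D.right_inv z (hKD hz), norm_mul, norm_pow, mul_assoc] at h1
  have h2 : c ≤ ‖deriv D.φ (D.inv z)‖ * (1 - ‖D.inv z‖) := hmin hz
  have h3 : ‖k.fn z‖ ^ 2 * c ≤ (2 * π)⁻¹ * ‖k‖ ^ 2 :=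
    (mul_le_mul_of_nonneg_left h2 (by positivity)).trans h1
  have h4 : ‖k.fn z‖ ^ 2 ≤ (Real.sqrt (1 / (2 * π * c)) * ‖k‖) ^ 2 := by
    rw [mul_pow, Real.sq_sqrt (by positivity)]
    rw [← le_div_iff₀ hc0] at h3
    refine h3.trans (le_of_eq ?_)
    field_simp
  exact le_of_sq_le_sq h4 (by positivity)

theorem Dom.preconnected (D : Dom) : IsPreconnected D.carrier := by
  have h1 : D.φ '' ball 0 1 = D.carrier := by
    refine Subset.antisymm (image_subset_iff.mpr D.maps) fun z hz => ?_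
    exact ⟨D.inv z, D.maps_inv hz, D.right_inv z hz⟩
  rw [← h1]
  exact (convex_ball (0 : ℂ) 1).isPreconnected.image _ D.holo.continuousOn

/-- The zeros of a nonzero element are isolated. -/
theorem exists_circle (f : E2 D) (hf : ∃ z ∈ D.carrier, f.fn z ≠ 0) {z₀ : ℂ}
    (hz₀ : z₀ ∈ D.carrier) : ∃ ρ : ℝ, 0 < ρ ∧ closedBall z₀ ρ ⊆ D.carrier ∧
      ∀ z ∈ sphere z₀ ρ, f.fn z ≠ 0 := by
  have han : AnalyticOnNhd ℂ f.fn D.carrier := f.diff.analyticOnNhd D.isOpen
  have h1 : ∀ᶠ z in 𝓝[≠] z₀, f.fn z ≠ 0 := by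
    rcases (han z₀ hz₀).eventually_eq_zero_or_eventually_ne_zero with h | h
    · exfalso
      obtain ⟨z, hz, hne⟩ := hf
      exact hne (han.eqOn_zero_of_preconnected_of_eventuallyEq_zero D.preconnected hz₀ h hz)
    · exact h
  rw [eventually_nhdsWithin_iff] at h1
  obtain ⟨ρ, hρ, hsub⟩ := Metric.nhds_basis_closedBall.mem_iff.mp
    (Filter.inter_mem h1 (D.isOpen.mem_nhds hz₀))
  refine ⟨ρ, hρ, fun z hz => (hsub hz).2, fun z hz => (hsub (sphere_subset_closedBall hz)).1 ?_⟩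
  rintro rfl
  rw [mem_sphere, dist_self] at hz
  exact hρ.ne hz

/-- G7. Limits in `E²(D)` of polynomial multiples of `f` are multiples `ψ f` with `ψ` analytic. -/
theorem exists_psi (f g : E2 D) (hf : ∃ z ∈ D.carrier, f.fn z ≠ 0) (P : ℕ → Polynomial ℂ)
    (h : ℕ → E2 D) (hP : ∀ n, ∀ z ∈ D.carrier, (h n).fn z = (P n).eval z * f.fn z)
    (hlim : Tendsto h atTop (𝓝 g)) :
    ∃ ψ : ℂ → ℂ, DifferentiableOn ℂ ψ D.carrier ∧ (∀ z ∈ D.carrier, g.fn z = ψ z * f.fn z) ∧
      ∀ z ∈ D.carrier, Tendsto (fun n => (P n).eval z) atTop (𝓝 (ψ z)) := by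
  have hloc : ∀ z₀ ∈ D.carrier, ∃ ρ : ℝ, 0 < ρ ∧ closedBall z₀ ρ ⊆ D.carrier ∧
      UniformCauchySeqOn (fun n z => (P n).eval z) atTop (closedBall z₀ ρ) := by
    intro z₀ hz₀
    obtain ⟨ρ, hρ, hsub, hne⟩ := exists_circle f hf hz₀
    obtain ⟨C, hC, hCb⟩ := eval_compact (D := D) (isCompact_closedBall z₀ ρ) hsub
    have hsph : IsCompact (sphere z₀ ρ) := isCompact_sphere _ _
    have hsne : (sphere z₀ ρ).Nonempty := by
      refine ⟨z₀ + ρ, ?_⟩
      rw [mem_sphere, dist_eq_norm, add_sub_cancel_left, Complex.norm_real, Real.norm_eq_abs,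
        abs_of_pos hρ]
    obtain ⟨x, hx, hmin⟩ := hsph.exists_isMinOn hsne
      ((f.diff.continuousOn.mono (sphere_subset_closedBall.trans hsub)).norm)
    have hc0 : 0 < ‖f.fn x‖ := norm_pos_iff.mpr (hne x hx)
    have hcau : CauchySeq h := hlim.cauchySeq
    refine ⟨ρ, hρ, hsub, ?_⟩
    rw [Metric.uniformCauchySeqOn_iff]
    intro ε hε
    obtain ⟨N, hN⟩ := Metric.cauchySeq_iff.mp hcau (ε / 2 * ‖f.fn x‖ / (C + 1)) (by positivity)
    refine ⟨N, fun m hm n hn z hz => ?_⟩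
    rw [dist_eq_norm]
    have h1 : ‖(P m).eval z - (P n).eval z‖ ≤ ε / 2 := by
      have hcl : z ∈ closure (ball z₀ ρ) := by rw [closure_ball z₀ hρ.ne']; exact hz
      refine Complex.norm_le_of_forall_mem_frontier_norm_le (f := fun z => (P m).eval z -
        (P n).eval z) (U := ball z₀ ρ) isBounded_ball ?_ ?_ hcl
      · exact Differentiable.diffContOnCl ((P m).differentiable.sub (P n).differentiable)
      · intro w hw
        rw [frontier_ball z₀ hρ.ne'] at hw
        have hwD : w ∈ D.carrier := hsub (sphere_subset_closedBall hw)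
        have h2 := hCb (h m - h n) w (sphere_subset_closedBall hw)
        rw [E2.fn_sub, Pi.sub_apply, hP m w hwD, hP n w hwD, ← sub_mul, norm_mul] at h2
        have h3 : ‖h m - h n‖ < ε / 2 * ‖f.fn x‖ / (C + 1) := by
          rw [← dist_eq_norm]; exact hN m hm n hn
        have h4 : ‖f.fn x‖ ≤ ‖f.fn w‖ := hmin hw
        have h5 : C * ‖h m - h n‖ ≤ ε / 2 * ‖f.fn x‖ := by
          calc C * ‖h m - h n‖ ≤ (C + 1) * (ε / 2 * ‖f.fn x‖ / (C + 1)) := by
                have : 0 ≤ ‖h m - h n‖ := norm_nonneg _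
                gcongr
                linarith
            _ = ε / 2 * ‖f.fn x‖ := by field_simp
        have h6 : ‖(P m).eval w - (P n).eval w‖ * ‖f.fn x‖ ≤ ε / 2 * ‖f.fn x‖ :=
          (mul_le_mul_of_nonneg_left h4 (norm_nonneg _)).trans (h2.trans h5)
        exact le_of_mul_le_mul_right h6 hc0
    exact h1.trans_lt (by linarith)
  have hpt : ∀ z ∈ D.carrier, ∃ a : ℂ, Tendsto (fun n => (P n).eval z) atTop (𝓝 a) := by
    intro z hz
    obtain ⟨ρ, hρ, -, hu⟩ := hloc z hz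
    exact cauchySeq_tendsto_of_complete (hu.cauchySeq (mem_closedBall_self hρ.le))
  choose! ψ hψ using hpt
  refine ⟨ψ, ?_, ?_, hψ⟩
  · have hTL : TendstoLocallyUniformlyOn (fun n z => (P n).eval z) ψ atTop D.carrier := by
      refine tendstoLocallyUniformlyOn_of_forall_exists_nhds fun z₀ hz₀ => ?_
      obtain ⟨ρ, hρ, hsub, hu⟩ := hloc z₀ hz₀
      exact ⟨closedBall z₀ ρ, nhdsWithin_le_nhds (closedBall_mem_nhds z₀ hρ),
        hu.tendstoUniformlyOn_of_tendsto fun z hz => hψ z (hsub hz)⟩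
    exact hTL.differentiableOn (Eventually.of_forall fun n =>
      (P n).differentiable.differentiableOn) D.isOpen
  · intro z hz
    obtain ⟨C, hC, hCb⟩ := eval_compact (D := D) (isCompact_singleton (x := z))
      (singleton_subset_iff.mpr hz)
    have h1 : Tendsto (fun n => (h n).fn z) atTop (𝓝 (g.fn z)) := by
      rw [tendsto_iff_norm_sub_tendsto_zero]
      have h2 : Tendsto (fun n => C * ‖h n - g‖) atTop (𝓝 0) := by
        have := (tendsto_iff_norm_sub_tendsto_zero.mp hlim).const_mul C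
        simpa using this
      refine squeeze_zero (fun n => norm_nonneg _) (fun n => ?_) h2
      have := hCb (h n - g) z (mem_singleton z)
      rwa [E2.fn_sub, Pi.sub_apply] at this
    have h2 : Tendsto (fun n => (h n).fn z) atTop (𝓝 (ψ z * f.fn z)) :=
      ((hψ z hz).mul_const _).congr fun n => (hP n z hz).symm
    exact tendsto_nhds_unique h1 h2

end MP2c3e4e
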