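import Pool.Agent.Lib_MP_2c3e4e_an.F3

open MeasureTheory Set Metric Filter Topology
open scoped ENNReal Real

namespace MP2c3e4e

variable {A B D : Dom}

lemma norm_le_of_bound (w u : E2 D) {a : ℝ} (ha : 0 ≤ a)
    (h : ∀ z ∈ D.carrier, ‖w.fn z‖ ≤ a * ‖u.fn z‖) : ‖w‖ ≤ a * ‖u‖ := by
  have h1 := norm_toE_le1 w.good ha u h
  have h2 : toE D w.fn = w := ext_on fun z hz => toE_fn w.good hz
  rwa [h2] at h1

/-- multiplication by a polynomial -/
noncomputable def mulP (P : Polynomial ℂ) (h : E2 D) : E2 D := Polynomial.aeval (mulZ D) P h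

lemma mulP_add (P Q : Polynomial ℂ) (h : E2 D) : mulP (P + Q) h = mulP P h + mulP Q h := by
  rw [mulP, map_add]; rfl

lemma mulP_sub_right (P : Polynomial ℂ) (h k : E2 D) : mulP P (h - k) = mulP P h - mulP P k := by
  rw [mulP, map_sub]; rfl

lemma mulP_C_mul_X_pow (c : ℂ) (n : ℕ) (h : E2 D) :
    mulP (Polynomial.C c * Polynomial.X ^ n) h = c • ((mulZ D) ^ n) h := by
  rw [mulP, map_mul, Polynomial.aeval_C, map_pow, Polynomial.aeval_X, ← Algebra.smul_def]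
  rfl

lemma mulZ_pow_fn (n : ℕ) (h : E2 D) (z : ℂ) : (((mulZ D) ^ n) h).fn z = z ^ n * h.fn z := by
  induction n with
  | zero => simp
  | succ n ih =>
    rw [pow_succ']
    have : ((mulZ D * (mulZ D) ^ n) h) = mulZ D (((mulZ D) ^ n) h) := rfl
    rw [this, mulZ_fn, ih, pow_succ']
    ring

lemma mulP_fn (P : Polynomial ℂ) (h : E2 D) (z : ℂ) : (mulP P h).fn z = P.eval z * h.fn z := by
  induction P using Polynomial.induction_on' with
  | add P Q hP hQ =>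
    rw [mulP_add, E2.fn_add, Pi.add_apply, hP, hQ, Polynomial.eval_add, add_mul]
  | monomial n c =>
    rw [← Polynomial.C_mul_X_pow_eq_monomial, mulP_C_mul_X_pow, E2.fn_smul, Pi.smul_apply,
      mulZ_pow_fn]
    simp [mul_assoc]

lemma remE_fn (hD : D.Regular) (h : E2 D) {z₀ z : ℂ} (hz₀ : z₀ ∉ frontier D.carrier)
    (hz : z ∈ D.carrier) : (remE h z₀).fn z = dslope h.fn z₀ z := by
  obtain ⟨K, N, -, -, h1⟩ := hD.rem
  exact toE_fn (h1 h z₀ hz₀).1 hz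

lemma remE_fn_ne (hD : D.Regular) (h : E2 D) {z₀ z : ℂ} (hz₀ : z₀ ∉ frontier D.carrier)
    (hz : z ∈ D.carrier) (hne : z ≠ z₀) : (remE h z₀).fn z = (h.fn z - h.fn z₀) / (z - z₀) := by
  rw [remE_fn hD h hz₀ hz, dslope_of_ne _ hne, slope_def_field]

lemma remE_sub (hD : D.Regular) (h k : E2 D) {z₀ : ℂ} (hz₀ : z₀ ∉ frontier D.carrier) :
    remE (h - k) z₀ = remE h z₀ - remE k z₀ := by
  refine ext_off (finite_singleton z₀) fun z hz hne => ?_
  rw [E2.fn_sub, Pi.sub_apply, remE_fn_ne hD _ hz₀ hz hne, remE_fn_ne hD _ hz₀ hz hne,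
    remE_fn_ne hD _ hz₀ hz hne, E2.fn_sub, Pi.sub_apply, Pi.sub_apply]
  ring

lemma remE_mulP (hD : D.Regular) (P : Polynomial ℂ) (h : E2 D) {z₀ : ℂ}
    (hz₀ : z₀ ∉ frontier D.carrier) :
    remE (mulP P h) z₀ = P.eval z₀ • remE h z₀ +
      mulP (P /ₘ (Polynomial.X - Polynomial.C z₀)) h := by
  refine ext_off (finite_singleton z₀) fun z hz hne => ?_
  have hne' : z - z₀ ≠ 0 := sub_ne_zero.mpr hne
  have h1 : P.eval z = P.eval z₀ +
      (z - z₀) * (P /ₘ (Polynomial.X - Polynomial.C z₀)).eval z := by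
    have h2 := Polynomial.modByMonic_add_div P (Polynomial.X - Polynomial.C z₀)
    rw [Polynomial.modByMonic_X_sub_C_eq_C_eval] at h2
    conv_lhs => rw [← h2]
    simp
  rw [E2.fn_add, Pi.add_apply, E2.fn_smul, Pi.smul_apply, remE_fn_ne hD _ hz₀ hz hne,
    remE_fn_ne hD _ hz₀ hz hne, mulP_fn, mulP_fn, mulP_fn, h1, smul_eq_mul]
  field_simp
  ring

/-- the resolvent function of a pair of functionals -/
noncomputable def RR (yA : E2 A →L[ℂ] ℂ) (yB : E2 B →L[ℂ] ℂ) (u : E2 A) (v : E2 B) (z : ℂ) : ℂ :=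
  yA (remE u z) + yB (remE v z)

/-- the pair of functionals annihilates the polynomial multiples of `(u, v)` -/
def Ann (yA : E2 A →L[ℂ] ℂ) (yB : E2 B →L[ℂ] ℂ) (u : E2 A) (v : E2 B) : Prop :=
  ∀ P : Polynomial ℂ, yA (mulP P u) + yB (mulP P v) = 0

lemma Ann.RR_mulP (hA : A.Regular) (hB : B.Regular) {yA : E2 A →L[ℂ] ℂ} {yB : E2 B →L[ℂ] ℂ}
    {u : E2 A} {v : E2 B} (h : Ann yA yB u v) (P : Polynomial ℂ) {z : ℂ}
    (hzA : z ∉ frontier A.carrier) (hzB : z ∉ frontier B.carrier) :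
    RR yA yB (mulP P u) (mulP P v) z = P.eval z * RR yA yB u v z := by
  rw [RR, remE_mulP hA P u hzA, remE_mulP hB P v hzB, map_add, map_add, map_smul, map_smul,
    smul_eq_mul, smul_eq_mul, RR]
  have := h (P /ₘ (Polynomial.X - Polynomial.C z))
  linear_combination this

lemma RR_sub (hA : A.Regular) (hB : B.Regular) (yA : E2 A →L[ℂ] ℂ) (yB : E2 B →L[ℂ] ℂ)
    (u u' : E2 A) (v v' : E2 B) {z : ℂ}
    (hzA : z ∉ frontier A.carrier) (hzB : z ∉ frontier B.carrier) :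
    RR yA yB (u - u') (v - v') z = RR yA yB u v z - RR yA yB u' v' z := by
  rw [RR, RR, RR, remE_sub hA _ _ hzA, remE_sub hB _ _ hzB, map_sub, map_sub]
  ring

/-- far away -/
lemma remE_far (hD : D.Regular) {K : ℝ} (hK : 0 ≤ K) (hb : ∀ z ∈ D.carrier, ‖z‖ ≤ K) (h : E2 D)
    {z₀ : ℂ} (hz₀ : K < ‖z₀‖) (n : ℕ) :
    ‖remE h z₀ - mulP (∑ k ∈ Finset.range n,
      Polynomial.C (-(z₀ ^ (k + 1))⁻¹) * Polynomial.X ^ k) h‖ ≤
      (K / ‖z₀‖) ^ n / (‖z₀‖ - K) * ‖h‖ := by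
  have hz0 : 0 < ‖z₀‖ := hK.trans_lt hz₀
  have hz0' : z₀ ≠ 0 := norm_pos_iff.mp hz0
  have hout : z₀ ∉ D.carrier := fun hz => by have := hb _ hz; linarith
  have hfr : z₀ ∉ frontier D.carrier := by
    intro hf
    have h1 : closure D.carrier ⊆ closedBall 0 K := by
      refine closure_minimal (fun z hz => ?_) isClosed_closedBall
      rw [mem_closedBall_zero_iff]; exact hb z hz
    have := mem_closedBall_zero_iff.mp (h1 hf.1)
    linarith
  refine norm_le_of_bound _ _ (by have : 0 < ‖z₀‖ - K := by linarith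
                                  positivity) fun z hz => ?_
  have hne : z ≠ z₀ := fun e => hout (e ▸ hz)
  have hne' : z - z₀ ≠ 0 := sub_ne_zero.mpr hne
  have key : (z - z₀)⁻¹ - (∑ k ∈ Finset.range n,
      Polynomial.C (-(z₀ ^ (k + 1))⁻¹) * Polynomial.X ^ k).eval z = (z / z₀) ^ n / (z - z₀) := by
    rw [Polynomial.eval_finsetSum]
    have h2 : ∀ k ∈ Finset.range n, (Polynomial.C (-(z₀ ^ (k + 1))⁻¹) *
        Polynomial.X ^ k : Polynomial ℂ).eval z = -z₀⁻¹ * (z / z₀) ^ k := by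
      intro k _
      rw [Polynomial.eval_mul, Polynomial.eval_C, Polynomial.eval_pow, Polynomial.eval_X, div_pow,
        pow_succ]
      field_simp
    rw [Finset.sum_congr rfl h2, ← Finset.mul_sum]
    have h3 : z / z₀ ≠ 1 := by
      intro e
      rw [div_eq_one_iff_eq hz0'] at e
      exact hne e
    have h4 : z / z₀ - 1 ≠ 0 := sub_ne_zero.mpr h3
    rw [geom_sum_eq h3]
    have h5 : z / z₀ - 1 = (z - z₀) / z₀ := by field_simp
    rw [h5]
    field_simp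
    ring
  rw [E2.fn_sub, Pi.sub_apply, mulP_fn, remE_fn_ne hD _ hfr hz hne, h.off hout, sub_zero,
    div_eq_mul_inv, mul_comm, ← sub_mul, key, norm_mul, norm_div, norm_pow, norm_div]
  have h6 : ‖z₀‖ - K ≤ ‖z - z₀‖ := by
    have h7 := norm_sub_norm_le z₀ z
    rw [norm_sub_rev] at h7
    have := hb z hz
    linarith
  have h8 : 0 < ‖z₀‖ - K := by linarith
  gcongr
  exact hb z hz

lemma Ann.far (hA : A.Regular) (hB : B.Regular) {yA : E2 A →L[ℂ] ℂ} {yB : E2 B →L[ℂ] ℂ}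
    {u : E2 A} {v : E2 B} (h : Ann yA yB u v) : ∃ K : ℝ, ∀ z : ℂ, K < ‖z‖ → RR yA yB u v z = 0 := by
  obtain ⟨K₁, hK₁, hb₁⟩ := A.exists_bound
  obtain ⟨K₂, hK₂, hb₂⟩ := B.exists_bound
  refine ⟨max K₁ K₂, fun z hz => ?_⟩
  have hz1 : K₁ < ‖z‖ := (le_max_left _ _).trans_lt hz
  have hz2 : K₂ < ‖z‖ := (le_max_right _ _).trans_lt hz
  set P : ℕ → Polynomial ℂ := fun n => ∑ k ∈ Finset.range n,
      Polynomial.C (-(z ^ (k + 1))⁻¹) * Polynomial.X ^ k with hP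
  have lim : ∀ (D : Dom) (hD : D.Regular) (K : ℝ) (_ : 0 ≤ K) (_ : ∀ z ∈ D.carrier, ‖z‖ ≤ K)
      (_ : K < ‖z‖) (w : E2 D), Tendsto (fun n => mulP (P n) w) atTop (𝓝 (remE w z)) := by
    intro D hD K hK hb hz w
    rw [tendsto_iff_norm_sub_tendsto_zero]
    have h1 : Tendsto (fun n => (K / ‖z‖) ^ n / (‖z‖ - K) * ‖w‖) atTop (𝓝 0) := by
      have h2 : Tendsto (fun n => (K / ‖z‖) ^ n) atTop (𝓝 0) :=
        tendsto_pow_atTop_nhds_zero_of_lt_one (by positivity)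
          (by rw [div_lt_one (hK.trans_lt hz)]; exact hz)
      simpa using (h2.div_const (‖z‖ - K)).mul_const ‖w‖
    refine squeeze_zero (fun n => norm_nonneg _) (fun n => ?_) h1
    rw [norm_sub_rev]
    exact remE_far hD hK hb w hz n
  have l1 := ((yA.continuous.tendsto _).comp (lim A hA K₁ hK₁ hb₁ hz1 u)).add
    ((yB.continuous.tendsto _).comp (lim B hB K₂ hK₂ hb₂ hz2 v))
  have l2 : Tendsto (fun _ : ℕ => (0 : ℂ)) atTop (𝓝 (yA (remE u z) + yB (remE v z))) := by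
    refine l1.congr fun n => ?_
    exact h (P n)
  exact (tendsto_nhds_unique l2 tendsto_const_nhds)

/-- asymptotics at infinity -/
lemma RR_tendsto (hA : A.Regular) (hB : B.Regular) (yA : E2 A →L[ℂ] ℂ) (yB : E2 B →L[ℂ] ℂ)
    (u : E2 A) (v : E2 B) :
    Tendsto (fun z => z * RR yA yB u v z) (cocompact ℂ) (𝓝 (-(yA u + yB v))) := by
  have lim : ∀ (D : Dom) (hD : D.Regular) (w : E2 D),
      Tendsto (fun z : ℂ => z • remE w z) (cocompact ℂ) (𝓝 (-w)) := by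
    intro D hD w
    obtain ⟨K, hK, hb⟩ := D.exists_bound
    rw [tendsto_iff_norm_sub_tendsto_zero]
    have hT : Tendsto (fun z : ℂ => K / (‖z‖ - K) * ‖w‖) (cocompact ℂ) (𝓝 0) := by
      have h1 : Tendsto (fun z : ℂ => ‖z‖ - K) (cocompact ℂ) atTop :=
        tendsto_atTop_add_const_right _ _ (tendsto_norm_cocompact_atTop (E := ℂ))
      simpa using (tendsto_const_nhds.div_atTop h1 (a := K)).mul_const ‖w‖
    refine squeeze_zero' (Eventually.of_forall fun z => norm_nonneg _) ?_ hT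
    have h2 : ∀ᶠ z : ℂ in cocompact ℂ, K < ‖z‖ :=
      (tendsto_norm_cocompact_atTop (E := ℂ)).eventually (eventually_gt_atTop K)
    filter_upwards [h2] with z hz
    have hz0 : 0 < ‖z‖ := hK.trans_lt hz
    have h1 := remE_far hD hK hb w hz 1
    have h3 : z • remE w z - -w = z • (remE w z - mulP (∑ k ∈ Finset.range 1,
      Polynomial.C (-(z ^ (k + 1))⁻¹) * Polynomial.X ^ k) w) := by
      rw [smul_sub]
      congr 1
      rw [Finset.sum_range_one, mulP_C_mul_X_pow, smul_smul]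
      have : z ≠ 0 := norm_pos_iff.mp hz0
      rw [pow_one, mul_neg, mul_inv_cancel₀ this, neg_one_smul]
      rfl
    rw [h3, norm_smul]
    calc ‖z‖ * _ ≤ ‖z‖ * ((K / ‖z‖) ^ 1 / (‖z‖ - K) * ‖w‖) := by gcongr
      _ = K / (‖z‖ - K) * ‖w‖ := by rw [pow_one]; field_simp
  have l1 := ((yA.continuous.tendsto _).comp (lim A hA u)).add
    ((yB.continuous.tendsto _).comp (lim B hB v))
  rw [map_neg, map_neg, ← neg_add] at l1
  refine l1.congr fun z => ?_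
  simp only [Function.comp_apply, map_smul, smul_eq_mul, RR]
  ring

/-- bound for the resolvent function -/
lemma RR_bound (hA : A.Regular) (hB : B.Regular) (yA : E2 A →L[ℂ] ℂ) (yB : E2 B →L[ℂ] ℂ) :
    ∃ K N : ℝ, 0 < K ∧ 0 < N ∧ ∀ (u : E2 A) (v : E2 B) (z : ℂ),
      z ∉ frontier A.carrier → z ∉ frontier B.carrier →
      ‖yA (remE u z)‖ ≤ K * ‖u‖ * fd (frontier A.carrier ∪ frontier B.carrier) z ^ (-N) ∧
      ‖yB (remE v z)‖ ≤ K * ‖v‖ * fd (frontier A.carrier ∪ frontier B.carrier) z ^ (-N) := by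
  obtain ⟨K₁, N₁, hK₁, hN₁, h₁⟩ := hA.rem
  obtain ⟨K₂, N₂, hK₂, hN₂, h₂⟩ := hB.rem
  refine ⟨(‖yA‖ + 1) * K₁ + (‖yB‖ + 1) * K₂, max N₁ N₂, by positivity,
    hN₁.trans_le (le_max_left _ _), fun u v z hzA hzB => ?_⟩
  set Γ := frontier A.carrier ∪ frontier B.carrier with hΓ
  have hΓc : IsClosed Γ := isClosed_frontier.union isClosed_frontier
  have hΓn : Γ.Nonempty := (frontier_nonempty A).inl
  have hzΓ : z ∉ Γ := by rintro (h | h) <;> contradiction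
  have hd0 : 0 < fd Γ z := lt_min one_pos ((hΓc.notMem_iff_infDist_pos hΓn).mp hzΓ)
  have gen : ∀ (D : Dom) (y : E2 D →L[ℂ] ℂ) (w : E2 D) (K₀ N₀ : ℝ) (_ : 0 < K₀) (_ : 0 < N₀)
      (_ : frontier D.carrier ⊆ Γ) (_ : N₀ ≤ max N₁ N₂)
      (_ : ‖remE w z‖ * fd (frontier D.carrier) z ^ N₀ ≤ K₀ * ‖w‖),
      ‖y (remE w z)‖ ≤ (‖y‖ + 1) * K₀ * ‖w‖ * fd Γ z ^ (-(max N₁ N₂)) := by
    intro D y w K₀ N₀ hK₀ hN₀ hsub hle hb
    have h3 : fd Γ z ≤ fd (frontier D.carrier) z :=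
      min_le_min le_rfl (infDist_le_infDist_of_subset hsub (frontier_nonempty D))
    have h4 : fd Γ z ^ (max N₁ N₂) ≤ fd (frontier D.carrier) z ^ N₀ :=
      (Real.rpow_le_rpow_of_exponent_ge hd0 (fd_le_one _ _) hle).trans
        (Real.rpow_le_rpow hd0.le h3 hN₀.le)
    have h5 : ‖remE w z‖ * fd Γ z ^ (max N₁ N₂) ≤ K₀ * ‖w‖ :=
      (mul_le_mul_of_nonneg_left h4 (norm_nonneg _)).trans hb
    have h6 : 0 < fd Γ z ^ (max N₁ N₂) := Real.rpow_pos_of_pos hd0 _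
    rw [Real.rpow_neg hd0.le, ← div_eq_mul_inv, le_div_iff₀ h6]
    calc ‖y (remE w z)‖ * fd Γ z ^ (max N₁ N₂) ≤ (‖y‖ * ‖remE w z‖) * fd Γ z ^ (max N₁ N₂) := by
          gcongr; exact y.le_opNorm _
      _ = ‖y‖ * (‖remE w z‖ * fd Γ z ^ (max N₁ N₂)) := by ring
      _ ≤ ‖y‖ * (K₀ * ‖w‖) := by gcongr
      _ ≤ (‖y‖ + 1) * (K₀ * ‖w‖) := by gcongr; linarith
      _ = _ := by ring
  have g1 := gen A yA u K₁ N₁ hK₁ hN₁ subset_union_left (le_max_left _ _) (h₁ u z hzA).2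
  have g2 := gen B yB v K₂ N₂ hK₂ hN₂ subset_union_right (le_max_right _ _) (h₂ v z hzB).2
  have hp : 0 ≤ fd Γ z ^ (-(max N₁ N₂)) := Real.rpow_nonneg hd0.le _
  constructor
  · refine g1.trans ?_
    gcongr
    have : 0 ≤ (‖yB‖ + 1) * K₂ := by positivity
    linarith
  · refine g2.trans ?_
    gcongr
    have : 0 ≤ (‖yA‖ + 1) * K₁ := by positivity
    linarith

end MP2c3e4e
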