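import Pool.Agent.Lib_MP_2c3e4e_an.F3
import Pool.Agent.Lib_MP_2c3e4e_an.A3

/-!
# H4: removable singularity from a logarithmic average and a nontangential limit
-/

open MeasureTheory Set Metric Filter Topology
open scoped ENNReal Real

namespace MP2c3e4e

lemma posLog_mul_rpow_le {K d N : ℝ} (hd : 0 < d) (hd1 : d ≤ 1) (hN : 0 ≤ N) :
    Real.posLog (K * d ^ (-N)) ≤ Real.posLog K + N * Real.log (1 / d) := by
  refine Real.posLog_mul.trans ?_
  have h1 : 1 ≤ d ^ (-N) := Real.one_le_rpow_of_pos_of_le_one_of_nonpos hd hd1 (by linarith)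
  rw [Real.posLog_eq_log (h1.trans (le_abs_self _)), Real.log_rpow hd, one_div, Real.log_inv]
  linarith

lemma le_exp_posLog (x : ℝ) : x ≤ Real.exp (Real.posLog x) := by
  rcases le_or_gt x 0 with hx | hx
  · exact hx.trans (Real.exp_pos _).le
  · calc x = Real.exp (Real.log x) := (Real.exp_log hx).symm
      _ ≤ _ := Real.exp_le_exp.2 (by rw [Real.posLog_apply]; exact le_max_right _ _)

/-- polynomial growth at the isolated singularity -/
lemma cone_growth {E : ℂ → ℂ} {ξ : ℂ} {ρ : ℝ} (hρ : 0 < ρ)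
    (hE : DifferentiableOn ℂ E (ball ξ ρ \ {ξ})) {Γ : Set ℂ} {C₁ : ℝ} (hC : 0 < C₁)
    (hΓ : ∀ t : ℝ, 0 < t → t ≤ 1 → volume {x : ℂ | infDist x Γ < t} ≤ ENNReal.ofReal (C₁ * t))
    {K N : ℝ} (hN : 0 ≤ N)
    (hb : ∀ z ∈ ball ξ ρ, 0 < infDist z Γ → ‖E z‖ ≤ K * fd Γ z ^ (-N)) :
    ∃ (M : ℕ) (C : ℝ), ∀ᶠ z in 𝓝[≠] ξ, ‖(z - ξ) ^ M * E z‖ ≤ C := by
  obtain ⟨K', -, hK'⟩ := logavg C₁ hC
  have hopen : IsOpen (ball ξ ρ \ {ξ}) := isOpen_ball.sdiff isClosed_singleton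
  have hEa : AnalyticOnNhd ℂ E (ball ξ ρ \ {ξ}) := hE.analyticOnNhd hopen
  refine ⟨⌈2 * N⌉₊, Real.exp (Real.posLog K + N * K') * 2 ^ ⌈2 * N⌉₊, ?_⟩
  have hev : ∀ᶠ z in 𝓝[≠] ξ, z ∈ ball ξ (min 1 (ρ / 2)) :=
    mem_nhdsWithin_of_mem_nhds (ball_mem_nhds ξ (by positivity))
  filter_upwards [hev, self_mem_nhdsWithin] with z hz hzne
  have hzne' : z ≠ ξ := hzne
  have hd0 : 0 < ‖z - ξ‖ := norm_pos_iff.2 (sub_ne_zero.2 hzne')
  have hd1 : ‖z - ξ‖ < 1 := by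
    rw [← dist_eq_norm]; exact lt_of_lt_of_le (mem_ball.1 hz) (min_le_left _ _)
  have hd2 : ‖z - ξ‖ < ρ / 2 := by
    rw [← dist_eq_norm]; exact lt_of_lt_of_le (mem_ball.1 hz) (min_le_right _ _)
  set r : ℝ := ‖z - ξ‖ / 2 with hr
  have hr0 : 0 < r := by positivity
  have hr1 : r ≤ 1 := by rw [hr]; linarith
  have hsub : closedBall z r ⊆ ball ξ ρ \ {ξ} := by
    intro x hx
    rw [mem_closedBall, dist_eq_norm] at hx
    refine ⟨?_, ?_⟩
    · rw [mem_ball, dist_eq_norm]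
      calc ‖x - ξ‖ = ‖(x - z) + (z - ξ)‖ := by congr 1; ring
        _ ≤ ‖x - z‖ + ‖z - ξ‖ := norm_add_le _ _
        _ < ρ := by linarith
    · intro h
      rw [mem_singleton_iff] at h
      rw [h, norm_sub_rev] at hx
      linarith
  have h1 := hK' E Γ z r (Real.posLog K) N hr0 hr1 Real.posLog_nonneg hN
    (hEa.mono hsub) (fun t ht ht1 => (measure_mono fun x hx => hx.2).trans (hΓ t ht ht1))
    (fun x hx hx0 => by
      have h2 := hb x (hsub (ball_subset_closedBall hx)).1 hx0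
      have h3 : 0 < fd Γ x := lt_min one_pos hx0
      exact (Real.posLog_le_posLog (norm_nonneg _) h2).trans
        (posLog_mul_rpow_le h3 (fd_le_one _ _) hN))
  have h4 : ‖E z‖ ≤ Real.exp (Real.posLog K + N * K') * (1 / r) ^ ⌈2 * N⌉₊ := by
    refine (le_exp_posLog _).trans ((Real.exp_le_exp.2 h1).trans ?_)
    have e1 : Real.posLog K + N * (2 * Real.log (1 / r) + K') =
        (Real.posLog K + N * K') + Real.log (1 / r) * (2 * N) := by ring
    rw [e1, Real.exp_add, ← Real.rpow_def_of_pos (by positivity), ← Real.rpow_natCast]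
    gcongr
    · rw [le_div_iff₀ hr0]; linarith
    · exact Nat.le_ceil _
  rw [norm_mul, norm_pow]
  have h5 : ‖z - ξ‖ = 2 * r := by rw [hr]; ring
  calc ‖z - ξ‖ ^ ⌈2 * N⌉₊ * ‖E z‖
      ≤ ‖z - ξ‖ ^ ⌈2 * N⌉₊ * (Real.exp (Real.posLog K + N * K') * (1 / r) ^ ⌈2 * N⌉₊) := by
        gcongr
    _ = Real.exp (Real.posLog K + N * K') * 2 ^ ⌈2 * N⌉₊ * (r * (1 / r)) ^ ⌈2 * N⌉₊ := by
        rw [h5, mul_pow, mul_pow]; ring
    _ = _ := by rw [mul_one_div_cancel hr0.ne', one_pow, mul_one]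

lemma meromorphicAt_of_growth {E : ℂ → ℂ} {ξ : ℂ}
    (hE : ∀ᶠ z in 𝓝[≠] ξ, DifferentiableAt ℂ E z) {M : ℕ} {C : ℝ}
    (hb : ∀ᶠ z in 𝓝[≠] ξ, ‖(z - ξ) ^ M * E z‖ ≤ C) : MeromorphicAt E ξ := by
  refine ⟨M + 1, ?_⟩
  refine Complex.analyticAt_of_differentiable_on_punctured_nhds_of_continuousAt ?_ ?_
  · filter_upwards [hE] with z hz
    exact ((differentiableAt_id.sub_const ξ).pow (M + 1)).smul hz
  · have h0 : (ξ - ξ) ^ (M + 1) • E ξ = 0 := by simp
    rw [ContinuousAt, h0]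
    have h1 : ∀ᶠ z in 𝓝 ξ, ‖(z - ξ) ^ (M + 1) • E z‖ ≤ ‖z - ξ‖ * C := by
      rw [eventually_nhdsWithin_iff] at hb
      filter_upwards [hb] with z hz
      by_cases hzξ : z = ξ
      · subst hzξ; simp
      · have h2 := hz hzξ
        rw [smul_eq_mul, pow_succ', mul_assoc, norm_mul]
        gcongr
    refine squeeze_zero_norm' h1 ?_
    have h3 : Tendsto (fun z : ℂ => ‖z - ξ‖ * C) (𝓝 ξ) (𝓝 (‖ξ - ξ‖ * C)) :=
      ((continuous_id.sub continuous_const).norm.mul continuous_const).tendsto ξ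
    simpa using h3

/-- H4. Removable singularity from a bound off a small set and a nontangential limit. -/
theorem removable_cone {E : ℂ → ℂ} {ξ : ℂ} {ρ : ℝ} (hρ : 0 < ρ)
    (hE : DifferentiableOn ℂ E (ball ξ ρ \ {ξ})) {Γ : Set ℂ} {C₁ : ℝ} (hC : 0 < C₁)
    (hΓ : ∀ t : ℝ, 0 < t → t ≤ 1 → volume {x : ℂ | infDist x Γ < t} ≤ ENNReal.ofReal (C₁ * t))
    {K N : ℝ} (hN : 0 ≤ N)
    (hb : ∀ z ∈ ball ξ ρ, 0 < infDist z Γ → ‖E z‖ ≤ K * fd Γ z ^ (-N))
    {e : ℂ} (hlim : Tendsto (fun n : ℕ => (1 / ((n : ℂ) + 1)) * E (ξ + (1 / ((n : ℂ) + 1)) * e))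
      atTop (𝓝 0)) (he : e ≠ 0) :
    ∃ E' : ℂ → ℂ, DifferentiableOn ℂ E' (ball ξ ρ) ∧ EqOn E' E (ball ξ ρ \ {ξ}) := by
  classical
  have hopen : IsOpen (ball ξ ρ \ {ξ}) := isOpen_ball.sdiff isClosed_singleton
  have hEd : ∀ᶠ z in 𝓝[≠] ξ, DifferentiableAt ℂ E z := by
    have h1 : ball ξ ρ \ {ξ} ∈ 𝓝[≠] ξ := by
      rw [sdiff_eq, inter_comm]
      exact inter_mem_nhdsWithin _ (ball_mem_nhds ξ hρ)
    filter_upwards [h1] with z hz using hE.differentiableAt (hopen.mem_nhds hz)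
  obtain ⟨M, C, hM⟩ := cone_growth hρ hE hC hΓ hN hb
  have hmer : MeromorphicAt E ξ := meromorphicAt_of_growth hEd hM
  -- the sequence
  set t : ℕ → ℂ := fun n => 1 / ((n : ℂ) + 1) with ht
  have ht0 : Tendsto t atTop (𝓝 0) := tendsto_one_div_add_atTop_nhds_zero_nat (𝕜 := ℂ)
  have htne : ∀ n, t n ≠ 0 := fun n => by
    rw [ht]; simp only [one_div]; exact inv_ne_zero (by exact_mod_cast Nat.succ_ne_zero n)
  have htn1 : ∀ n, ‖t n‖ ≤ 1 := fun n => by
    have h2 : ((n : ℂ) + 1) = ((n + 1 : ℕ) : ℂ) := by push_cast; ring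
    rw [ht]; simp only [h2, norm_div, norm_one, Complex.norm_natCast]
    rw [div_le_one (by positivity)]
    exact_mod_cast Nat.succ_le_succ (Nat.zero_le n)
  have hseq : Tendsto (fun n => ξ + t n * e) atTop (𝓝[≠] ξ) := by
    refine tendsto_nhdsWithin_iff.2 ⟨?_, ?_⟩
    · have h2 : Tendsto (fun n => ξ + t n * e) atTop (𝓝 (ξ + 0 * e)) :=
        tendsto_const_nhds.add (ht0.mul_const e)
      simpa using h2
    · refine Eventually.of_forall fun n => ?_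
      simp only [mem_compl_iff, mem_singleton_iff]
      intro h
      have : t n * e = 0 := by linear_combination h
      rcases mul_eq_zero.1 this with h' | h'
      · exact htne n h'
      · exact he h'
  -- the order is nonnegative
  have hord : 0 ≤ meromorphicOrderAt E ξ := by
    by_contra hneg
    push Not at hneg
    have htop : meromorphicOrderAt E ξ ≠ ⊤ := ne_top_of_lt hneg
    obtain ⟨g, hg, hg0, hgE⟩ := (meromorphicOrderAt_ne_top_iff hmer).1 htop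
    set k : ℤ := (meromorphicOrderAt E ξ).untop₀ with hk
    have hk0 : k < 0 := by
      have h3 : ((k : ℤ) : WithTop ℤ) = meromorphicOrderAt E ξ := WithTop.coe_untop₀_of_ne_top htop
      rw [← h3] at hneg
      exact_mod_cast hneg
    have h4 : Tendsto (fun n => g (ξ + t n * e)) atTop (𝓝 (g ξ)) :=
      (hg.continuousAt.tendsto.comp (hseq.mono_right nhdsWithin_le_nhds))
    have h5 : Tendsto (fun n => ‖e ^ k‖ * ‖g (ξ + t n * e)‖) atTop (𝓝 (‖e ^ k‖ * ‖g ξ‖)) :=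
      h4.norm.const_mul _
    have h6 : ∀ᶠ n in atTop, ‖e ^ k‖ * ‖g (ξ + t n * e)‖ ≤
        ‖t n * E (ξ + t n * e)‖ := by
      filter_upwards [hseq.eventually hgE] with n hn
      rw [hn, smul_eq_mul]
      have e1 : ξ + t n * e - ξ = t n * e := by ring
      have e2 : t n * ((t n * e) ^ k * g (ξ + t n * e)) =
          (t n) ^ (k + 1) * (e ^ k * g (ξ + t n * e)) := by
        rw [mul_zpow, zpow_add_one₀ (htne n)]; ring
      rw [e1, e2, norm_mul, norm_mul]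
      have e3 : 1 ≤ ‖(t n) ^ (k + 1)‖ := by
        rw [norm_zpow]
        exact one_le_zpow_of_nonpos₀ (norm_pos_iff.2 (htne n)) (htn1 n) (by lia)
      calc ‖e ^ k‖ * ‖g (ξ + t n * e)‖ = 1 * (‖e ^ k‖ * ‖g (ξ + t n * e)‖) := by rw [one_mul]
        _ ≤ _ := by gcongr
    have h7 : Tendsto (fun n => ‖t n * E (ξ + t n * e)‖) atTop (𝓝 0) := by
      have h10 := hlim.norm
      rwa [norm_zero] at h10
    have h8 := le_of_tendsto_of_tendsto h5 h7 h6
    have h9 : 0 < ‖e ^ k‖ * ‖g ξ‖ :=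
      mul_pos (norm_pos_iff.2 (zpow_ne_zero _ he)) (norm_pos_iff.2 hg0)
    linarith
  obtain ⟨c, hc⟩ := tendsto_nhds_of_meromorphicOrderAt_nonneg hmer hord
  refine ⟨Function.update E ξ c, ?_, ?_⟩
  · refine (Complex.differentiableOn_compl_singleton_and_continuousAt_iff
      (ball_mem_nhds ξ hρ)).1 ⟨?_, continuousAt_update_same.2 hc⟩
    refine hE.congr fun z hz => ?_
    exact Function.update_of_ne hz.2 _ _
  · intro z hz
    exact Function.update_of_ne hz.2 _ _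

end MP2c3e4e
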