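import Pool.Agent.Lib_MP_2c3e4e_an.Defs

open MeasureTheory Set Metric Filter Topology
open scoped ENNReal Real

namespace MP2c3e4e

/-- Polar coordinates relative to a nearby point. -/
lemma k1_polar {ε : ℝ} (hε : 0 < ε) :
    ∃ c : ℝ, 0 < c ∧ c ≤ 1 / 2 ∧ ∀ (ξ w : ℂ) (r θ : ℝ), 0 < r →
      ‖(ξ + r * Complex.exp (θ * Complex.I)) - w‖ < c * r →
      ∃ r' θ' : ℝ, 0 < r' ∧ r' < 2 * r ∧ |θ' - θ| < ε ∧
        w = ξ + r' * Complex.exp (θ' * Complex.I) := by
  have hcont : ContinuousAt Complex.arg 1 := Complex.continuousAt_arg (by simp)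
  have h1 := Metric.continuousAt_iff.mp hcont ε hε
  obtain ⟨δ, hδ, hδ2⟩ := h1
  refine ⟨min δ (1 / 2), lt_min hδ (by norm_num), min_le_right _ _, ?_⟩
  intro ξ w r θ hr hw
  have hr0 : (r : ℂ) ≠ 0 := by exact_mod_cast hr.ne'
  set q : ℂ := (w - ξ) / (r * Complex.exp (θ * Complex.I)) with hq
  have he : (r : ℂ) * Complex.exp (θ * Complex.I) ≠ 0 := mul_ne_zero hr0 (Complex.exp_ne_zero _)
  have hne : ‖(r : ℂ) * Complex.exp (θ * Complex.I)‖ = r := by
    rw [norm_mul, Complex.norm_exp_ofReal_mul_I, mul_one, Complex.norm_real, Real.norm_eq_abs,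
      abs_of_pos hr]
  have hq1 : ‖q - 1‖ < min δ (1 / 2) := by
    have h2 : q - 1 = (w - (ξ + r * Complex.exp (θ * Complex.I))) /
        (r * Complex.exp (θ * Complex.I)) := by
      rw [hq]
      field_simp
      ring
    rw [h2, norm_div, hne, div_lt_iff₀ hr, norm_sub_rev]
    exact hw
  have hq2 : ‖q‖ ≤ 1 + ‖q - 1‖ := by
    have := norm_add_le (1 : ℂ) (q - 1)
    simpa using this
  have hq3 : 1 - ‖q - 1‖ ≤ ‖q‖ := by
    have := norm_sub_norm_le (1 : ℂ) (1 - q)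
    rw [norm_sub_rev 1 q] at this
    simpa using this
  have hlt : ‖q - 1‖ < 1 / 2 := hq1.trans_le (min_le_right _ _)
  refine ⟨r * ‖q‖, θ + q.arg, mul_pos hr (by linarith), by nlinarith, ?_, ?_⟩
  · have h3 := hδ2 (x := q) (by rw [dist_eq_norm]; exact hq1.trans_le (min_le_left _ _))
    rw [Real.dist_eq, Complex.arg_one, sub_zero] at h3
    simpa using h3
  · have h4 : w - ξ = (r * Complex.exp (θ * Complex.I)) * q := by
      rw [hq]; field_simp
    have h5 : q = ‖q‖ * Complex.exp (q.arg * Complex.I) := (Complex.norm_mul_exp_arg_mul_I q).symm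
    have h6 : Complex.exp (((θ + q.arg : ℝ) : ℂ) * Complex.I) =
        Complex.exp (θ * Complex.I) * Complex.exp (q.arg * Complex.I) := by
      rw [← Complex.exp_add]
      congr 1
      push_cast
      ring
    rw [h6]
    have h7 : w = ξ + (r * Complex.exp (θ * Complex.I)) * q := by
      rw [← h4]; ring
    rw [h7]
    conv_lhs => rw [h5]
    push_cast
    ring

lemma k1_exp_sub (θ : ℝ) :
    Complex.exp (((θ - 2 * π : ℝ) : ℂ) * Complex.I) = Complex.exp (θ * Complex.I) := by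
  have : (((θ - 2 * π : ℝ) : ℂ) * Complex.I) = θ * Complex.I - 2 * π * Complex.I := by
    push_cast; ring
  rw [this]
  exact Complex.exp_periodic.sub_eq _

lemma k1_exp_add (θ : ℝ) :
    Complex.exp (((θ + 2 * π : ℝ) : ℂ) * Complex.I) = Complex.exp (θ * Complex.I) := by
  have : (((θ + 2 * π : ℝ) : ℂ) * Complex.I) = θ * Complex.I + 2 * π * Complex.I := by
    push_cast; ring
  rw [this]
  exact Complex.exp_periodic _

/-- K1. Near the corner the frontier is far from points with other directions. -/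
theorem frontier_far {S : Set ℂ} (hS : IsOpen S) {ξ : ℂ} {τ a b : ℝ} (hτa : τ < a) (hab : a < b)
    (hbτ : b < τ + 2 * π) (hsec : SectorAt S ξ τ a b) {ε : ℝ} (hε : 0 < ε) :
    ∃ c r₁ : ℝ, 0 < c ∧ 0 < r₁ ∧ ∀ r ∈ Ioo 0 r₁, ∀ θ ∈ Icc τ (τ + 2 * π),
      2 * ε ≤ |θ - a| → 2 * ε ≤ |θ - b| →
      ∀ w ∈ frontier S, c * r ≤ ‖(ξ + r * Complex.exp (θ * Complex.I)) - w‖ := by
  obtain ⟨e, he, he1, he2, he3⟩ : ∃ e : ℝ, 0 < e ∧ e ≤ ε ∧ 2 * e ≤ a - τ ∧
      2 * e ≤ τ + 2 * π - b := by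
    refine ⟨min ε (min ((a - τ) / 2) ((τ + 2 * π - b) / 2)), ?_, min_le_left _ _, ?_, ?_⟩
    · refine lt_min hε (lt_min ?_ ?_) <;> linarith
    · have := (min_le_right ε (min ((a - τ) / 2) ((τ + 2 * π - b) / 2))).trans (min_le_left _ _)
      linarith
    · have := (min_le_right ε (min ((a - τ) / 2) ((τ + 2 * π - b) / 2))).trans (min_le_right _ _)
      linarith
  obtain ⟨r₀, hr₀, hsec⟩ := hsec e he
  obtain ⟨c, hc, hc1, hpol⟩ := k1_polar he
  refine ⟨c, r₀ / 2, hc, by linarith, ?_⟩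
  intro r hr θ hθ ha hb w hw
  by_contra hlt
  push Not at hlt
  have hab' : (a + 2 * e ≤ θ ∧ θ ≤ b - 2 * e) ∨ θ ≤ a - 2 * e ∨ b + 2 * e ≤ θ := by
    rcases le_abs.mp (show 2 * e ≤ |θ - a| by linarith) with h | h
    · rcases le_abs.mp (show 2 * e ≤ |θ - b| by linarith) with h' | h'
      · right; right; linarith
      · left; constructor <;> linarith
    · right; left; linarith
  rcases hab' with h | h
  · -- inside
    obtain ⟨r', θ', h1, h2, h3, h4⟩ := hpol ξ w r θ hr.1 hlt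
    rw [abs_lt] at h3
    have hwS : w ∈ S := by
      rw [h4]
      refine (hsec r' ⟨h1, by linarith [hr.2]⟩ θ' ⟨?_, ?_⟩).1 ?_ ?_ <;> linarith [h.1, h.2]
    rw [hS.frontier_eq] at hw
    exact hw.2 hwS
  · -- outside
    have hcl : w ∈ closure S := frontier_subset_closure hw
    have hopen : IsOpen {w : ℂ | ‖(ξ + r * Complex.exp (θ * Complex.I)) - w‖ < c * r} :=
      isOpen_lt (by fun_prop) (by fun_prop)
    obtain ⟨v, hv, hvS⟩ := mem_closure_iff.mp hcl _ hopen hlt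
    obtain ⟨r', θ', h1, h2, h3, h4⟩ := hpol ξ v r θ hr.1 hv
    rw [abs_lt] at h3
    have hr' : r' ∈ Ioo 0 r₀ := ⟨h1, by linarith [hr.2]⟩
    rcases lt_or_ge θ' τ with hlow | hlow
    · have h5 := (hsec r' hr' (θ' + 2 * π) ⟨by linarith [Real.pi_pos, hθ.1], by linarith⟩).2
      rw [k1_exp_add, ← h4] at h5
      have := (h5 hvS).2
      linarith [hθ.1]
    rcases lt_or_ge (τ + 2 * π) θ' with hup | hup
    · have h5 := (hsec r' hr' (θ' - 2 * π) ⟨by linarith, by linarith [hθ.2, Real.pi_pos]⟩).2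
      rw [k1_exp_sub, ← h4] at h5
      have := (h5 hvS).1
      linarith [hθ.2]
    · have h5 := (hsec r' hr' θ' ⟨hlow, hup⟩).2
      rw [← h4] at h5
      have h6 := h5 hvS
      rcases h with h | h <;> linarith [h6.1, h6.2]

end MP2c3e4e
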