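import Pool.Agent.Lib_MP_2c3e4e_an.Defs3
import Pool.Agent.Lib_MP_2c3e4e_an.C

/-!
Piece P1 for MP_2c3e4e_an (helper30): Phragmén-Lindelöf in an angle.
-/

open MeasureTheory Set Metric Filter Topology
open scoped ENNReal Real

namespace MP2c3e4e

theorem exp_neg_polar (ζ : ℂ) : Complex.exp (-ζ) =
    ((Real.exp (-ζ.re) : ℝ) : ℂ) * Complex.exp (((-ζ.im : ℝ) : ℂ) * Complex.I) := by
  rw [Complex.ofReal_exp, ← Complex.exp_add]
  congr 1
  conv_lhs => rw [← Complex.re_add_im ζ]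
  push_cast
  ring

theorem rpow_exp_neg (t σ : ℝ) : (Real.exp (-t)) ^ (-σ) = Real.exp (σ * t) := by
  rw [← Real.exp_mul]
  congr 1
  ring

/-- P1. Phragmen-Lindelof in an angle. -/
theorem growth_strip {E : ℂ → ℂ} {ξ : ℂ} (hE : DifferentiableOn ℂ E {ξ}ᶜ)
    (hinf : Tendsto E (cocompact ℂ) (𝓝 0)) {θ₁ θ₂ σ ρ : ℝ} (h12 : θ₁ < θ₂) (hρ : 0 < ρ)
    (hρσ : ρ ≤ σ) (hσ : σ * (θ₂ - θ₁) < π) (h : GrowthAt E ξ (Icc θ₁ θ₂) σ)
    (h1 : GrowthAt E ξ {θ₁} ρ) (h2 : GrowthAt E ξ {θ₂} ρ) : GrowthAt E ξ (Icc θ₁ θ₂) ρ := by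
  obtain ⟨C0, r0, hr0, h⟩ := h
  obtain ⟨C1, r1, hr1, h1⟩ := h1
  obtain ⟨C2, r2, hr2, h2⟩ := h2
  set F : ℂ → ℂ := fun ζ => E (ξ + Complex.exp (-ζ)) with hF
  have hFd : Differentiable ℂ F := by
    intro ζ
    have h0 : ξ + Complex.exp (-ζ) ∈ ({ξ}ᶜ : Set ℂ) := by
      simp [Complex.exp_ne_zero]
    have h3 : DifferentiableAt ℂ E (ξ + Complex.exp (-ζ)) :=
      (hE _ h0).differentiableAt (isOpen_compl_singleton.mem_nhds h0)
    exact h3.comp ζ (by fun_prop)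
  have hFe : ∀ ζ : ℂ, F ζ = E (ξ + ((Real.exp (-ζ.re) : ℝ) : ℂ) *
      Complex.exp (((-ζ.im : ℝ) : ℂ) * Complex.I)) := by
    intro ζ
    simp only [hF]
    rw [exp_neg_polar]
  set r3 : ℝ := min r0 (min r1 r2) with hr3
  have hr3p : 0 < r3 := lt_min hr0 (lt_min hr1 hr2)
  set t0 : ℝ := -Real.log r3 + 1 with ht0
  have hlt : ∀ t : ℝ, t0 ≤ t → Real.exp (-t) < r3 := by
    intro t ht
    rw [← Real.lt_log_iff_exp_lt hr3p]
    linarith
  set C : ℝ := max C0 (max C1 C2) with hC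
  have hbd : ∃ M : ℝ, ∀ ζ : ℂ, ζ.re ≤ t0 → ‖F ζ‖ ≤ M := by
    have hev : ∀ᶠ z in cocompact ℂ, ‖E z‖ < 1 := by
      have := (tendsto_norm.comp hinf)
      rw [norm_zero] at this
      exact this.eventually (gt_mem_nhds one_pos)
    obtain ⟨K, hK, hKs⟩ := mem_cocompact.mp hev
    have hKc : IsCompact (K \ ball ξ (Real.exp (-t0))) := hK.diff isOpen_ball
    have hcont : ContinuousOn E (K \ ball ξ (Real.exp (-t0))) := by
      refine hE.continuousOn.mono ?_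
      intro z hz
      rw [mem_compl_iff, mem_singleton_iff]
      rintro rfl
      exact hz.2 (mem_ball_self (Real.exp_pos _))
    obtain ⟨M, hM⟩ := hKc.exists_bound_of_continuousOn hcont
    refine ⟨max M 1, fun ζ hζ => ?_⟩
    by_cases hz : ξ + Complex.exp (-ζ) ∈ K
    · refine (hM _ ⟨hz, ?_⟩).trans (le_max_left _ _)
      rw [mem_ball, dist_eq_norm, add_sub_cancel_left, Complex.norm_exp, not_lt]
      exact Real.exp_le_exp.mpr (by simpa using hζ)
    · exact (le_of_lt (hKs hz)).trans (le_max_right _ _)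
  have hexp0 : ∀ x : ℝ, 0 ≤ Real.exp x := fun x => (Real.exp_pos x).le
  obtain ⟨C', hC'⟩ := pl_strip (F := F) hFd (a := -θ₂) (b := -θ₁) (σ := σ) (ρ := ρ) (C := C)
    (t₀ := t0) (by linarith) hρ hρσ (by rw [show -θ₁ - -θ₂ = θ₂ - θ₁ by ring]; exact hσ) hbd
    (by
      intro ζ h3 h4 h5
      rw [hFe]
      refine (h _ ⟨Real.exp_pos _, (hlt _ h3).trans_le (min_le_left _ _)⟩ _
        ⟨by linarith, by linarith⟩).trans ?_
      rw [rpow_exp_neg]
      exact mul_le_mul_of_nonneg_right (le_max_left _ _) (hexp0 _))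
    (by
      intro ζ h3 h4
      rw [hFe]
      refine (h2 _ ⟨Real.exp_pos _, (hlt _ h3).trans_le
        ((min_le_right _ _).trans (min_le_right _ _))⟩ _ (by simp [h4])).trans ?_
      rw [rpow_exp_neg]
      exact mul_le_mul_of_nonneg_right ((le_max_right _ _).trans (le_max_right _ _)) (hexp0 _))
    (by
      intro ζ h3 h4
      rw [hFe]
      refine (h1 _ ⟨Real.exp_pos _, (hlt _ h3).trans_le
        ((min_le_right _ _).trans (min_le_left _ _))⟩ _ (by simp [h4])).trans ?_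
      rw [rpow_exp_neg]
      exact mul_le_mul_of_nonneg_right ((le_max_left _ _).trans (le_max_right _ _)) (hexp0 _))
  refine ⟨C', Real.exp (-t0), Real.exp_pos _, ?_⟩
  intro r hr θ hθ
  have hlog : t0 ≤ -Real.log r := by
    have := (Real.log_lt_iff_lt_exp hr.1).mpr hr.2
    linarith
  have key := hC' ⟨-Real.log r, -θ⟩ hlog (by simpa using hθ.2) (by simpa using hθ.1)
  rw [hFe] at key
  simp only [neg_neg, Real.exp_log hr.1] at key
  refine key.trans (le_of_eq ?_)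
  rw [← rpow_exp_neg, neg_neg, Real.exp_log hr.1]

end MP2c3e4e
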