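import Pool.Agent.Lib_MP_2c3e4e_an.P1

open MeasureTheory Set Metric Filter Topology
open scoped ENNReal Real

namespace MP2c3e4e

theorem GrowthAt.mono_set {E : ℂ → ℂ} {ξ : ℂ} {S T : Set ℝ} {σ : ℝ} (hST : S ⊆ T)
    (h : GrowthAt E ξ T σ) : GrowthAt E ξ S σ := by
  obtain ⟨C, r₀, h0, h⟩ := h
  exact ⟨C, r₀, h0, fun r hr θ hθ => h r hr θ (hST hθ)⟩

theorem GrowthAt.empty (E : ℂ → ℂ) (ξ : ℂ) (σ : ℝ) : GrowthAt E ξ ∅ σ :=
  ⟨0, 1, one_pos, fun _ _ _ h => absurd h (notMem_empty _)⟩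

theorem GrowthAt.union {E : ℂ → ℂ} {ξ : ℂ} {S T : Set ℝ} {σ : ℝ} (hS : GrowthAt E ξ S σ)
    (hT : GrowthAt E ξ T σ) : GrowthAt E ξ (S ∪ T) σ := by
  obtain ⟨C₁, r₁, h1, hS⟩ := hS
  obtain ⟨C₂, r₂, h2, hT⟩ := hT
  refine ⟨max C₁ C₂, min r₁ r₂, lt_min h1 h2, fun r hr θ hθ => ?_⟩
  have hr0 : 0 ≤ r ^ (-σ) := Real.rpow_nonneg hr.1.le _
  rcases hθ with hθ | hθ
  · exact (hS r ⟨hr.1, hr.2.trans_le (min_le_left _ _)⟩ θ hθ).trans
      (mul_le_mul_of_nonneg_right (le_max_left _ _) hr0)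
  · exact (hT r ⟨hr.1, hr.2.trans_le (min_le_right _ _)⟩ θ hθ).trans
      (mul_le_mul_of_nonneg_right (le_max_right _ _) hr0)

theorem GrowthAt.mono_exp {E : ℂ → ℂ} {ξ : ℂ} {S : Set ℝ} {σ σ' : ℝ} (hσ : σ ≤ σ')
    (hS : GrowthAt E ξ S σ) : GrowthAt E ξ S σ' := by
  obtain ⟨C, r₁, h1, hS⟩ := hS
  refine ⟨max C 0, min r₁ 1, lt_min h1 one_pos, fun r hr θ hθ => ?_⟩
  have hr1 : r < 1 := hr.2.trans_le (min_le_right _ _)
  have h3 : r ^ (-σ) ≤ r ^ (-σ') :=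
    Real.rpow_le_rpow_of_exponent_ge hr.1 hr1.le (by linarith)
  calc _ ≤ C * r ^ (-σ) := hS r ⟨hr.1, hr.2.trans_le (min_le_left _ _)⟩ θ hθ
    _ ≤ max C 0 * r ^ (-σ) :=
      mul_le_mul_of_nonneg_right (le_max_left _ _) (Real.rpow_nonneg hr.1.le _)
    _ ≤ max C 0 * r ^ (-σ') := mul_le_mul_of_nonneg_left h3 (le_max_right _ _)

theorem exp_periodic (θ : ℝ) (k : ℤ) :
    Complex.exp (((θ + k * (2 * π) : ℝ) : ℂ) * Complex.I) = Complex.exp (θ * Complex.I) := by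
  have h := Complex.exp_periodic.int_mul k ((θ : ℂ) * Complex.I)
  rw [← h]
  congr 1
  push_cast
  ring

theorem GrowthAt.shift {E : ℂ → ℂ} {ξ : ℂ} {θ σ : ℝ} (k : ℤ)
    (h : GrowthAt E ξ {θ} σ) : GrowthAt E ξ {θ + k * (2 * π)} σ := by
  obtain ⟨C, r₀, h0, h⟩ := h
  refine ⟨C, r₀, h0, fun r hr t ht => ?_⟩
  rw [mem_singleton_iff] at ht
  subst ht
  rw [exp_periodic]
  exact h r hr θ rfl

theorem GrowthAt.univ_of_Icc {E : ℂ → ℂ} {ξ : ℂ} {τ σ : ℝ}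
    (h : GrowthAt E ξ (Icc τ (τ + 2 * π)) σ) : GrowthAt E ξ univ σ := by
  obtain ⟨C, r₀, h0, h⟩ := h
  refine ⟨C, r₀, h0, fun r hr t _ => ?_⟩
  have h1 := toIcoMod_mem_Ico Real.two_pi_pos τ t
  have h2 := h r hr _ (Ico_subset_Icc_self h1)
  have h3 : t = toIcoMod Real.two_pi_pos τ t + (toIcoDiv Real.two_pi_pos τ t) * (2 * π) := by
    have := toIcoMod_add_toIcoDiv_zsmul Real.two_pi_pos τ t
    rw [zsmul_eq_mul] at this
    exact this.symm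
  rw [h3, exp_periodic]
  exact h2

theorem growth_strip' {E : ℂ → ℂ} {ξ : ℂ} (hE : DifferentiableOn ℂ E {ξ}ᶜ)
    (hinf : Tendsto E (cocompact ℂ) (𝓝 0)) {θ₁ θ₂ M ρ : ℝ} (h12 : θ₁ < θ₂) (hρ : 0 < ρ)
    (hM : M * (θ₂ - θ₁) < π) (h : GrowthAt E ξ univ M)
    (h1 : GrowthAt E ξ {θ₁} ρ) (h2 : GrowthAt E ξ {θ₂} ρ) : GrowthAt E ξ (Icc θ₁ θ₂) ρ := by
  rcases le_total M ρ with hc | hc
  · exact (h.mono_exp hc).mono_set (subset_univ _)
  · exact growth_strip hE hinf h12 hρ hc hM (h.mono_set (subset_univ _)) h1 h2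

theorem exists_avoid {x y : ℝ} (h : x < y) (F : Set ℝ) (hF : F.Finite) :
    ∃ t ∈ Ioo x y, t ∉ F := by
  obtain ⟨t, ht⟩ := ((Ioo_infinite h).sdiff hF).nonempty
  exact ⟨t, ht.1, ht.2⟩

/-- compactness -/
theorem growth_compact {E : ℂ → ℂ} {ξ : ℂ} (hE : DifferentiableOn ℂ E {ξ}ᶜ)
    (hinf : Tendsto E (cocompact ℂ) (𝓝 0)) {τ M σ : ℝ} (hσ : 0 < σ)
    (hM : GrowthAt E ξ univ M)
    (h : ∀ x ∈ Icc τ (τ + 2 * π), ∃ t₁ t₂ : ℝ, t₁ < x ∧ x < t₂ ∧ M * (t₂ - t₁) < π ∧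
      GrowthAt E ξ {t₁} σ ∧ GrowthAt E ξ {t₂} σ) : GrowthAt E ξ univ σ := by
  apply GrowthAt.univ_of_Icc (τ := τ)
  refine isCompact_Icc.induction_on (p := fun S => GrowthAt E ξ S σ) (GrowthAt.empty E ξ σ)
    (fun s t hst ht => ht.mono_set hst) (fun s t hs ht => hs.union ht) fun x hx => ?_
  obtain ⟨t₁, t₂, h1, h2, h3, h4, h5⟩ := h x hx
  exact ⟨Icc t₁ t₂, mem_nhdsWithin_of_mem_nhds (Icc_mem_nhds h1 h2),
    growth_strip' hE hinf (h1.trans h2) hσ h3 hM h4 h5⟩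

/-- P2. The order at `ξ` is at most `π / (opening of the larger sector)`. -/
theorem growth_all {E : ℂ → ℂ} {ξ : ℂ} (hE : DifferentiableOn ℂ E {ξ}ᶜ)
    (hinf : Tendsto E (cocompact ℂ) (𝓝 0)) {τ a₁ b₁ a₂ b₂ : ℝ} (hs : Sec τ a₁ b₁ a₂ b₂)
    (hle : b₂ - a₂ ≤ b₁ - a₁) (hap : ∃ M : ℝ, 0 < M ∧ GrowthAt E ξ univ M)
    (hA : ∀ θ ∈ Ioo a₁ b₁, θ ≠ a₂ → θ ≠ b₂ → ∀ σ, π / (b₁ - a₁) < σ → GrowthAt E ξ {θ} σ)
    (hB : ∀ θ ∈ Ioo a₂ b₂, θ ≠ a₁ → θ ≠ b₁ → ∀ σ, π / (b₂ - a₂) < σ → GrowthAt E ξ {θ} σ)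
    (hext : ∀ θ ∈ Icc τ (τ + 2 * π), θ ∉ Icc a₁ b₁ → θ ∉ Icc a₂ b₂ → ∀ σ, 0 < σ →
      GrowthAt E ξ {θ} σ) :
    ∀ σ, π / (b₁ - a₁) < σ → GrowthAt E ξ univ σ := by
  obtain ⟨s1, s2, s3, s4, s5, s6, s7, s8⟩ := hs
  have hπ := Real.pi_pos
  obtain ⟨M, hM0, hM⟩ := hap
  set a := min a₁ a₂ with ha
  set b := max b₁ b₂ with hb
  have haa₁ : a ≤ a₁ := min_le_left _ _
  have haa₂ : a ≤ a₂ := min_le_right _ _
  have hbb₁ : b₁ ≤ b := le_max_left _ _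
  have hbb₂ : b₂ ≤ b := le_max_right _ _
  have hτa : τ < a := lt_min s1 s2
  have hbτ : b < τ + 2 * π := max_lt s3 s4
  have hab : a < b := (haa₁.trans_lt s5).trans_le hbb₁
  -- exterior points
  have hextl : ∀ θ ∈ Ioo (b - 2 * π) a, ∀ σ, 0 < σ → GrowthAt E ξ {θ} σ := by
    intro θ hθ σ hσ
    rcases le_or_gt τ θ with h | h
    · exact hext θ ⟨h, by linarith [hθ.2]⟩ (fun hc => by linarith [hθ.2, hc.1])
        (fun hc => by linarith [hθ.2, hc.1]) σ hσ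
    · have h1 : GrowthAt E ξ {θ + 2 * π} σ :=
        hext _ ⟨by linarith [hθ.1], by linarith⟩ (fun hc => by linarith [hθ.1, hc.2])
          (fun hc => by linarith [hθ.1, hc.2]) σ hσ
      have h2 := h1.shift (-1)
      have h3 : θ + 2 * π + ((-1 : ℤ) : ℝ) * (2 * π) = θ := by push_cast; ring
      rwa [h3] at h2
  have hextr : ∀ θ ∈ Ioo b (a + 2 * π), ∀ σ, 0 < σ → GrowthAt E ξ {θ} σ := by
    intro θ hθ σ hσ
    have h1 := (hextl (θ - 2 * π) ⟨by linarith [hθ.1], by linarith [hθ.2]⟩ σ hσ).shift 1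
    have h3 : θ - 2 * π + ((1 : ℤ) : ℝ) * (2 * π) = θ := by push_cast; ring
    rwa [h3] at h1
  -- step 1
  have step1 : ∀ σ, π / (b₂ - a₂) < σ → GrowthAt E ξ univ σ := by
    intro σ hσ
    have hβ : 0 < b₂ - a₂ := by linarith
    have hα : 0 < b₁ - a₁ := by linarith
    have hσ0 : 0 < σ := lt_trans (by positivity) hσ
    have hσα : π / (b₁ - a₁) < σ :=
      lt_of_le_of_lt (div_le_div_of_nonneg_left hπ.le hβ hle) hσ
    have hgood : ∀ θ ∈ Ioo (b - 2 * π) (a + 2 * π), θ ∉ ({a₁, b₁, a₂, b₂} : Set ℝ) →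
        GrowthAt E ξ {θ} σ := by
      intro θ hθ hF
      simp only [mem_insert_iff, mem_singleton_iff, not_or] at hF
      obtain ⟨f1, f2, f3, f4⟩ := hF
      by_cases hl : θ < a
      · exact hextl θ ⟨hθ.1, hl⟩ σ hσ0
      by_cases hr : b < θ
      · exact hextr θ ⟨hr, hθ.2⟩ σ hσ0
      by_cases h1 : θ ∈ Ioo a₁ b₁
      · exact hA θ h1 f3 f4 σ hσα
      by_cases h2 : θ ∈ Ioo a₂ b₂
      · exact hB θ h2 f1 f2 σ hσ
      refine hext θ ⟨by linarith, by linarith⟩ (fun hc => h1 ⟨lt_of_le_of_ne hc.1 (Ne.symm f1),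
        lt_of_le_of_ne hc.2 f2⟩) (fun hc => h2 ⟨lt_of_le_of_ne hc.1 (Ne.symm f3),
        lt_of_le_of_ne hc.2 f4⟩) σ hσ0
    have hfin : ({a₁, b₁, a₂, b₂} : Set ℝ).Finite := by simp
    refine growth_compact hE hinf (τ := τ) hσ0 hM fun x hx => ?_
    have hδ : 0 < π / (4 * M) := by positivity
    obtain ⟨t₁, ht₁, hF₁⟩ := exists_avoid (x := max (x - π / (4 * M)) (b - 2 * π)) (y := x)
      (max_lt (by linarith) (by linarith [hx.1])) _ hfin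
    obtain ⟨t₂, ht₂, hF₂⟩ := exists_avoid (x := x) (y := min (x + π / (4 * M)) (a + 2 * π))
      (lt_min (by linarith) (by linarith [hx.2])) _ hfin
    have e1 := (le_max_left _ _).trans_lt ht₁.1
    have e2 := (le_max_right _ _).trans_lt ht₁.1
    have e3 := ht₂.2.trans_le (min_le_left _ _)
    have e4 := ht₂.2.trans_le (min_le_right _ _)
    refine ⟨t₁, t₂, ht₁.2, ht₂.1, ?_, hgood t₁ ⟨e2, by linarith [ht₁.2, hx.2]⟩ hF₁,
      hgood t₂ ⟨by linarith [ht₂.1, hx.1], e4⟩ hF₂⟩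
    have h5 : t₂ - t₁ < 2 * (π / (4 * M)) := by linarith
    calc M * (t₂ - t₁) < M * (2 * (π / (4 * M))) := by gcongr
      _ = π / 2 := by field_simp; ring
      _ < π := by linarith
  -- step 2
  intro σ hσ
  have hβ : 0 < b₂ - a₂ := by linarith
  have hα : 0 < b₁ - a₁ := by linarith
  have hσ0 : 0 < σ := lt_trans (by positivity) hσ
  set γ := min b₁ b₂ - max a₁ a₂ with hγ
  have hγ0 : 0 < γ := by
    have : max a₁ a₂ < min b₁ b₂ := max_lt (lt_min s5 s7) (lt_min s8 s6)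
    linarith
  have hγβ : γ ≤ b₂ - a₂ := by
    have h1 : min b₁ b₂ ≤ b₂ := min_le_right _ _
    have h2 : a₂ ≤ max a₁ a₂ := le_max_right _ _
    linarith
  have hR : b - b₁ ≤ b₂ - a₂ - γ := by
    have h2 : a₂ ≤ max a₁ a₂ := le_max_right _ _
    rcases le_total b₁ b₂ with h | h
    · rw [hb, max_eq_right h, hγ, min_eq_left h]; linarith
    · rw [hb, max_eq_left h]; linarith
  have hL : a₁ - a ≤ b₂ - a₂ - γ := by
    have h2 : min b₁ b₂ ≤ b₂ := min_le_right _ _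
    rcases le_total a₁ a₂ with h | h
    · rw [ha, min_eq_left h]; linarith
    · rw [ha, min_eq_right h, hγ, max_eq_left h]; linarith
  set D := b₂ - a₂ - γ / 2 with hD
  have hD0 : 0 < D := by linarith
  have hσ1 : π / (b₂ - a₂) < π / D := div_lt_div_of_pos_left hπ hD0 (by linarith)
  have hM1 := step1 (π / D) hσ1
  have hfin : ({a₂, b₂} : Set ℝ).Finite := by simp
  have hgood : ∀ θ ∈ Ioo a₁ b₁, θ ∉ ({a₂, b₂} : Set ℝ) → GrowthAt E ξ {θ} σ := by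
    intro θ hθ hF
    simp only [mem_insert_iff, mem_singleton_iff, not_or] at hF
    exact hA θ hθ hF.1 hF.2 σ hσ
  have hwidth : ∀ w : ℝ, w < D → π / D * w < π := by
    intro w hw
    calc π / D * w < π / D * D := by gcongr
      _ = π := by field_simp
  set δ := γ / 8 with hδ
  have hδ0 : 0 < δ := by positivity
  refine growth_compact hE hinf (τ := τ) hσ0 hM1 fun x hx => ?_
  by_cases c1 : x < a
  · obtain ⟨t₁, ht₁⟩ := exists_between (a₁ := max (x - δ) (b - 2 * π)) (a₂ := x)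
      (max_lt (by linarith) (by linarith [hx.1]))
    obtain ⟨t₂, ht₂⟩ := exists_between (a₁ := x) (a₂ := min (x + δ) a)
      (lt_min (by linarith) c1)
    have e1 := (le_max_left _ _).trans_lt ht₁.1
    have e2 := (le_max_right _ _).trans_lt ht₁.1
    have e3 := ht₂.2.trans_le (min_le_left _ _)
    have e4 := ht₂.2.trans_le (min_le_right _ _)
    exact ⟨t₁, t₂, ht₁.2, ht₂.1, hwidth _ (by linarith),
      hextl t₁ ⟨e2, by linarith [ht₁.2]⟩ σ hσ0, hextl t₂ ⟨by linarith [ht₂.1, hx.1], e4⟩ σ hσ0⟩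
  by_cases c2 : b < x
  · obtain ⟨t₁, ht₁⟩ := exists_between (a₁ := max (x - δ) b) (a₂ := x)
      (max_lt (by linarith) c2)
    obtain ⟨t₂, ht₂⟩ := exists_between (a₁ := x) (a₂ := min (x + δ) (a + 2 * π))
      (lt_min (by linarith) (by linarith [hx.2]))
    have e1 := (le_max_left _ _).trans_lt ht₁.1
    have e2 := (le_max_right _ _).trans_lt ht₁.1
    have e3 := ht₂.2.trans_le (min_le_left _ _)
    have e4 := ht₂.2.trans_le (min_le_right _ _)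
    exact ⟨t₁, t₂, ht₁.2, ht₂.1, hwidth _ (by linarith),
      hextr t₁ ⟨e2, by linarith [ht₁.2, hx.2]⟩ σ hσ0, hextr t₂ ⟨by linarith [ht₂.1], e4⟩ σ hσ0⟩
  by_cases c3 : x ≤ a₁
  · obtain ⟨t₁, ht₁⟩ := exists_between (a₁ := max (a - δ) (b - 2 * π)) (a₂ := a)
      (max_lt (by linarith) (by linarith))
    obtain ⟨t₂, ht₂, hF₂⟩ := exists_avoid (x := a₁) (y := min (a₁ + δ) b₁)
      (lt_min (by linarith) s5) _ hfin
    have e1 := (le_max_left _ _).trans_lt ht₁.1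
    have e2 := (le_max_right _ _).trans_lt ht₁.1
    have e3 := ht₂.2.trans_le (min_le_left _ _)
    have e4 := ht₂.2.trans_le (min_le_right _ _)
    exact ⟨t₁, t₂, by linarith [ht₁.2], by linarith [ht₂.1], hwidth _ (by linarith),
      hextl t₁ ⟨e2, ht₁.2⟩ σ hσ0, hgood t₂ ⟨ht₂.1, e4⟩ hF₂⟩
  by_cases c4 : b₁ ≤ x
  · obtain ⟨t₁, ht₁, hF₁⟩ := exists_avoid (x := max (b₁ - δ) a₁) (y := b₁)
      (max_lt (by linarith) s5) _ hfin
    obtain ⟨t₂, ht₂⟩ := exists_between (a₁ := b) (a₂ := min (b + δ) (a + 2 * π))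
      (lt_min (by linarith) (by linarith))
    have e1 := (le_max_left _ _).trans_lt ht₁.1
    have e2 := (le_max_right _ _).trans_lt ht₁.1
    have e3 := ht₂.2.trans_le (min_le_left _ _)
    have e4 := ht₂.2.trans_le (min_le_right _ _)
    exact ⟨t₁, t₂, by linarith [ht₁.2], by linarith [ht₂.1], hwidth _ (by linarith),
      hgood t₁ ⟨e2, ht₁.2⟩ hF₁, hextr t₂ ⟨ht₂.1, e4⟩ σ hσ0⟩
  · push Not at c3 c4
    obtain ⟨t₁, ht₁, hF₁⟩ := exists_avoid (x := max (x - δ) a₁) (y := x)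
      (max_lt (by linarith) c3) _ hfin
    obtain ⟨t₂, ht₂, hF₂⟩ := exists_avoid (x := x) (y := min (x + δ) b₁)
      (lt_min (by linarith) c4) _ hfin
    have e1 := (le_max_left _ _).trans_lt ht₁.1
    have e2 := (le_max_right _ _).trans_lt ht₁.1
    have e3 := ht₂.2.trans_le (min_le_left _ _)
    have e4 := ht₂.2.trans_le (min_le_right _ _)
    exact ⟨t₁, t₂, ht₁.2, ht₂.1, hwidth _ (by linarith),
      hgood t₁ ⟨e2, by linarith [ht₁.2]⟩ hF₁, hgood t₂ ⟨by linarith [ht₂.1], e4⟩ hF₂⟩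

end MP2c3e4e
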