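import Pool.Agent.Lib_MP_2c3e4e_an.Defs3
import Pool.Agent.Lib_MP_2c3e4e_an.B3

open MeasureTheory Set Metric Filter Topology
open scoped ENNReal Real

namespace MP2c3e4e

namespace P3aux

/-- the function in logarithmic coordinates -/
noncomputable def FF (E : ℂ → ℂ) (ξ : ℂ) (κ : ℕ) (C : ℝ) (ζ : ℂ) : ℂ :=
  E (ξ + Complex.exp (-ζ)) * Complex.exp (-(κ * ζ)) / C

lemma FF_diff {E : ℂ → ℂ} {ξ : ℂ} (hE : DifferentiableOn ℂ E {ξ}ᶜ) (κ : ℕ) (C : ℝ) :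
    Differentiable ℂ (FF E ξ κ C) := by
  intro ζ
  have h1 : ξ + Complex.exp (-ζ) ∈ ({ξ}ᶜ : Set ℂ) := by
    intro h
    rw [mem_singleton_iff] at h
    have h2 : Complex.exp (-ζ) = 0 := by
      have := congrArg (fun z => z - ξ) h
      simp at this
    exact Complex.exp_ne_zero _ h2
  have h2 : DifferentiableAt ℂ E (ξ + Complex.exp (-ζ)) :=
    (hE _ h1).differentiableAt (isOpen_compl_singleton.mem_nhds h1)
  have h3 : DifferentiableAt ℂ (fun ζ : ℂ => ξ + Complex.exp (-ζ)) ζ := by fun_prop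
  have h4 : DifferentiableAt ℂ (fun ζ : ℂ => E (ξ + Complex.exp (-ζ))) ζ :=
    DifferentiableAt.comp (g := E) ζ h2 h3
  have h5 : DifferentiableAt ℂ (fun ζ : ℂ => Complex.exp (-(κ * ζ))) ζ := by fun_prop
  exact (h4.mul h5).div_const _

lemma FF_per (E : ℂ → ℂ) (ξ : ℂ) (κ : ℕ) (C : ℝ) (ζ : ℂ) :
    FF E ξ κ C (ζ + 2 * π * Complex.I) = FF E ξ κ C ζ := by
  have h1 : Complex.exp (-(ζ + 2 * π * Complex.I)) = Complex.exp (-ζ) := by
    rw [neg_add, Complex.exp_add, Complex.exp_neg (2 * π * Complex.I), Complex.exp_two_pi_mul_I,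
      inv_one, mul_one]
  have h2 : Complex.exp (-(κ * (ζ + 2 * π * Complex.I))) = Complex.exp (-(κ * ζ)) := by
    rw [mul_add, neg_add, Complex.exp_add, Complex.exp_neg ((κ : ℂ) * (2 * π * Complex.I)),
      Complex.exp_nat_mul, Complex.exp_two_pi_mul_I, one_pow, inv_one, mul_one]
  simp only [FF, h1, h2]

lemma FF_norm (E : ℂ → ℂ) (ξ : ℂ) (κ : ℕ) {C : ℝ} (hC : 0 < C) (t θ : ℝ) :
    ‖FF E ξ κ C (t + θ * Complex.I)‖ =
      ‖E (ξ + (Real.exp (-t) : ℝ) * Complex.exp ((-θ : ℝ) * Complex.I))‖ *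
        Real.exp (-t) ^ κ / C := by
  have h1 : Complex.exp (-(t + θ * Complex.I)) =
      (Real.exp (-t) : ℝ) * Complex.exp ((-θ : ℝ) * Complex.I) := by
    rw [Complex.ofReal_exp, ← Complex.exp_add]
    congr 1; push_cast; ring
  have h2 : ‖Complex.exp (-(κ * (t + θ * Complex.I)))‖ = Real.exp (-t) ^ κ := by
    rw [Complex.norm_exp, ← Real.exp_nat_mul]
    congr 1
    simp
  rw [FF, norm_div, norm_mul, h1, h2, Complex.norm_real, Real.norm_eq_abs, abs_of_pos hC]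

lemma FF_le_one {E : ℂ → ℂ} {ξ : ℂ} {κ : ℕ} {C B N t θ : ℝ} (hC : 0 < C) (hB : B ≤ C)
    (hN : N ≤ κ) (ht : 0 ≤ t)
    (h : ‖E (ξ + (Real.exp (-t) : ℝ) * Complex.exp ((-θ : ℝ) * Complex.I))‖ ≤
      B * Real.exp (-t) ^ (-N)) :
    ‖FF E ξ κ C (t + θ * Complex.I)‖ ≤ 1 := by
  rw [FF_norm E ξ κ hC, div_le_one hC]
  set r := Real.exp (-t) with hr
  have hr0 : 0 < r := Real.exp_pos _
  have hr1 : r ≤ 1 := by rw [hr, Real.exp_le_one_iff]; linarith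
  have h1 : r ^ (-N) ≤ r ^ (-(κ : ℝ)) :=
    Real.rpow_le_rpow_of_exponent_ge hr0 hr1 (by linarith)
  have h2 : r ^ (-(κ : ℝ)) * r ^ κ = 1 := by
    rw [Real.rpow_neg hr0.le, Real.rpow_natCast, inv_mul_cancel₀ (by positivity)]
  have h3 : 0 ≤ r ^ (-N) := by positivity
  calc ‖E (ξ + (r : ℝ) * Complex.exp ((-θ : ℝ) * Complex.I))‖ * r ^ κ
      ≤ (B * r ^ (-N)) * r ^ κ := by gcongr
    _ ≤ (C * r ^ (-(κ : ℝ))) * r ^ κ := by gcongr
    _ = C * (r ^ (-(κ : ℝ)) * r ^ κ) := by ring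
    _ = C := by rw [h2, mul_one]

lemma one_lt_FF {E : ℂ → ℂ} {ξ : ℂ} {κ : ℕ} {C t θ : ℝ} (hC : 0 < C)
    (h : C * Real.exp (-t) ^ (-(κ : ℝ)) <
      ‖E (ξ + (Real.exp (-t) : ℝ) * Complex.exp (θ * Complex.I))‖) :
    1 < ‖FF E ξ κ C (t + ((-θ : ℝ) : ℂ) * Complex.I)‖ := by
  rw [FF_norm E ξ κ hC, one_lt_div hC, neg_neg]
  set r := Real.exp (-t) with hr
  have hr0 : 0 < r := Real.exp_pos _
  have h2 : r ^ (-(κ : ℝ)) * r ^ κ = 1 := by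
    rw [Real.rpow_neg hr0.le, Real.rpow_natCast, inv_mul_cancel₀ (by positivity)]
  calc C = (C * r ^ (-(κ : ℝ))) * r ^ κ := by rw [mul_assoc, h2, mul_one]
    _ < _ := by gcongr

lemma exp_lt_FF {E : ℂ → ℂ} {ξ : ℂ} {κ : ℕ} {C t θ : ℝ} (hC : 0 < C)
    (h : C * Real.exp (-t) ^ (-((κ + 1 : ℕ) : ℝ)) <
      ‖E (ξ + (Real.exp (-t) : ℝ) * Complex.exp (θ * Complex.I))‖) :
    Real.exp t < ‖FF E ξ κ C (t + ((-θ : ℝ) : ℂ) * Complex.I)‖ := by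
  rw [FF_norm E ξ κ hC, lt_div_iff₀ hC, neg_neg]
  have he : Real.exp t = (Real.exp (-t))⁻¹ := by rw [Real.exp_neg, inv_inv]
  rw [he]
  set r := Real.exp (-t) with hr
  have hr0 : 0 < r := Real.exp_pos _
  have h2 : r ^ (-((κ + 1 : ℕ) : ℝ)) * r ^ κ = r⁻¹ := by
    rw [Real.rpow_neg hr0.le, Real.rpow_natCast, pow_succ]
    field_simp
  calc r⁻¹ * C = (C * r ^ (-((κ + 1 : ℕ) : ℝ))) * r ^ κ := by rw [mul_assoc, h2, mul_comm]
    _ < _ := by gcongr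

lemma FF_growth {E : ℂ → ℂ} {ξ : ℂ} {κ : ℕ} {C B ρ t θ : ℝ} (hC : 1 ≤ C) (ht : 0 ≤ t)
    (h : Real.posLog ‖E (ξ + (Real.exp (-t) : ℝ) * Complex.exp ((-θ : ℝ) * Complex.I))‖ ≤
      B * Real.exp (-t) ^ (-ρ)) :
    Real.posLog ‖FF E ξ κ C (t + θ * Complex.I)‖ ≤ B * Real.exp (ρ * t) := by
  have hC0 : 0 < C := by linarith
  rw [FF_norm E ξ κ hC0]
  have h1 : Real.exp (-t) ^ (-ρ) = Real.exp (ρ * t) := by
    rw [← Real.exp_mul]; congr 1; ring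
  rw [← h1]
  refine le_trans ?_ h
  set r := Real.exp (-t) with hr
  have hr0 : 0 < r := Real.exp_pos _
  have hr1 : r ≤ 1 := by rw [hr, Real.exp_le_one_iff]; linarith
  have h2 : r ^ κ ≤ 1 := pow_le_one₀ hr0.le hr1
  apply Real.posLog_le_posLog (by positivity)
  rw [mul_div_assoc]
  refine mul_le_of_le_one_right (norm_nonneg _) ?_
  rw [div_le_one hC0]
  linarith

/-- the measure estimate -/
lemma meas_bound {f₁ f₂ : ℝ → ℝ} (c₁ : Continuous f₁) (c₂ : Continuous f₂) {S : Set ℝ}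
    {p₁ p₂ p₃ p₄ u v δ L : ℝ} (hδ : 0 ≤ δ) (huv : u ≤ v)
    (hmin : ∀ x ∈ S, δ ≤ |x - p₁| → δ ≤ |x - p₂| → δ ≤ |x - p₃| → δ ≤ |x - p₄| →
      min (f₁ x) (f₂ x) ≤ 1)
    (hext : ∀ x ∈ S, δ ≤ |x - p₁| → δ ≤ |x - p₂| → δ ≤ |x - p₃| → δ ≤ |x - p₄| →
      x ∉ Icc u v → f₁ x ≤ 1 ∧ f₂ x ≤ 1) (hL : v - u + 16 * δ ≤ L) :
    volume {x ∈ S | 1 < f₁ x} + volume {x ∈ S | 1 < f₂ x} ≤ ENNReal.ofReal L := by
  classical
  set Bad : Set ℝ := (ball p₁ δ ∪ ball p₂ δ) ∪ (ball p₃ δ ∪ ball p₄ δ) with hBad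
  have hBadm : MeasurableSet Bad := ((measurableSet_ball.union measurableSet_ball).union
    (measurableSet_ball.union measurableSet_ball))
  have hBadv : volume Bad ≤ ENNReal.ofReal (8 * δ) := by
    have h1 : ∀ p : ℝ, volume (ball p δ) = ENNReal.ofReal (2 * δ) := fun p => Real.volume_ball p δ
    calc volume Bad ≤ volume (ball p₁ δ ∪ ball p₂ δ) + volume (ball p₃ δ ∪ ball p₄ δ) :=
          measure_union_le _ _
      _ ≤ (volume (ball p₁ δ) + volume (ball p₂ δ)) + (volume (ball p₃ δ) + volume (ball p₄ δ)) :=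
          add_le_add (measure_union_le _ _) (measure_union_le _ _)
      _ = ENNReal.ofReal (8 * δ) := by
          rw [h1, h1, h1, h1, ← ENNReal.ofReal_add (by positivity) (by positivity),
            ← ENNReal.ofReal_add (by positivity) (by positivity)]
          congr 1; ring
  have hout : ∀ x, x ∉ Bad → δ ≤ |x - p₁| ∧ δ ≤ |x - p₂| ∧ δ ≤ |x - p₃| ∧ δ ≤ |x - p₄| := by
    intro x hx
    simp only [hBad, mem_union, mem_ball, Real.dist_eq, not_or, not_lt] at hx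
    exact ⟨hx.1.1, hx.1.2, hx.2.1, hx.2.2⟩
  set G₁ : Set ℝ := {x | 1 < f₁ x ∧ ¬ 1 < f₂ x} ∩ Icc u v with hG₁
  set G₂ : Set ℝ := {x | 1 < f₂ x ∧ ¬ 1 < f₁ x} ∩ Icc u v with hG₂
  have m₁ : MeasurableSet {x | 1 < f₁ x} := (isOpen_lt continuous_const c₁).measurableSet
  have m₂ : MeasurableSet {x | 1 < f₂ x} := (isOpen_lt continuous_const c₂).measurableSet
  have hG₁m : MeasurableSet G₁ := (m₁.inter m₂.compl).inter measurableSet_Icc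
  have hG₂m : MeasurableSet G₂ := (m₂.inter m₁.compl).inter measurableSet_Icc
  have s₁ : {x ∈ S | 1 < f₁ x} ⊆ G₁ ∪ Bad := by
    rintro x ⟨hx, h1⟩
    by_cases hb : x ∈ Bad
    · exact Or.inr hb
    · left
      obtain ⟨q₁, q₂, q₃, q₄⟩ := hout x hb
      have h2 : ¬ 1 < f₂ x := by
        intro h2
        have := hmin x hx q₁ q₂ q₃ q₄
        rcases min_le_iff.1 this with h | h <;> linarith
      refine ⟨⟨h1, h2⟩, ?_⟩
      by_contra hu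
      have := (hext x hx q₁ q₂ q₃ q₄ hu).1
      linarith
  have s₂ : {x ∈ S | 1 < f₂ x} ⊆ G₂ ∪ Bad := by
    rintro x ⟨hx, h1⟩
    by_cases hb : x ∈ Bad
    · exact Or.inr hb
    · left
      obtain ⟨q₁, q₂, q₃, q₄⟩ := hout x hb
      have h2 : ¬ 1 < f₁ x := by
        intro h2
        have := hmin x hx q₁ q₂ q₃ q₄
        rcases min_le_iff.1 this with h | h <;> linarith
      refine ⟨⟨h1, h2⟩, ?_⟩
      by_contra hu
      have := (hext x hx q₁ q₂ q₃ q₄ hu).2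
      linarith
  have hdisj : Disjoint G₁ G₂ := by
    rw [Set.disjoint_left]
    rintro x ⟨⟨h1, h2⟩, -⟩ ⟨⟨h3, -⟩, -⟩
    exact h2 h3
  have hG : volume G₁ + volume G₂ ≤ ENNReal.ofReal (v - u) := by
    rw [← measure_union hdisj hG₂m, ← Real.volume_Icc]
    exact measure_mono (union_subset inter_subset_right inter_subset_right)
  calc volume {x ∈ S | 1 < f₁ x} + volume {x ∈ S | 1 < f₂ x}
      ≤ (volume G₁ + volume Bad) + (volume G₂ + volume Bad) :=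
        add_le_add ((measure_mono s₁).trans (measure_union_le _ _))
          ((measure_mono s₂).trans (measure_union_le _ _))
    _ = (volume G₁ + volume G₂) + (volume Bad + volume Bad) := by ring
    _ ≤ ENNReal.ofReal (v - u) + (ENNReal.ofReal (8 * δ) + ENNReal.ofReal (8 * δ)) := by gcongr
    _ = ENNReal.ofReal (v - u + 16 * δ) := by
        rw [← ENNReal.ofReal_add (by positivity) (by positivity),
          ← ENNReal.ofReal_add (by linarith) (by positivity)]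
        congr 1; ring
    _ ≤ _ := ENNReal.ofReal_le_ofReal hL

end P3aux

open P3aux

/-- P3. Two functions cannot be large on almost disjoint sectors. -/
theorem no_pair {E₁ E₂ : ℂ → ℂ} {ξ : ℂ} (h₁ : DifferentiableOn ℂ E₁ {ξ}ᶜ)
    (h₂ : DifferentiableOn ℂ E₂ {ξ}ᶜ) (hi₁ : Tendsto E₁ (cocompact ℂ) (𝓝 0))
    (hi₂ : Tendsto E₂ (cocompact ℂ) (𝓝 0)) {τ a₁ b₁ a₂ b₂ : ℝ} (hs : Sec τ a₁ b₁ a₂ b₂)
    (hle : b₂ - a₂ ≤ b₁ - a₁)
    (hg₁ : ∀ σ, π / (b₁ - a₁) < σ → GrowthAt E₁ ξ univ σ)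
    (hg₂ : ∀ σ, π / (b₁ - a₁) < σ → GrowthAt E₂ ξ univ σ)
    (hmin : ∀ ε : ℝ, 0 < ε → ∃ C N r₀ : ℝ, 0 < r₀ ∧ ∀ r ∈ Ioo 0 r₀, ∀ θ ∈ Icc τ (τ + 2 * π),
      2 * ε ≤ |θ - a₁| → 2 * ε ≤ |θ - b₁| → 2 * ε ≤ |θ - a₂| → 2 * ε ≤ |θ - b₂| →
      min ‖E₁ (ξ + r * Complex.exp (θ * Complex.I))‖ ‖E₂ (ξ + r * Complex.exp (θ * Complex.I))‖ ≤
        C * r ^ (-N))
    (hext : ∀ ε : ℝ, 0 < ε → ∃ C N r₀ : ℝ, 0 < r₀ ∧ ∀ r ∈ Ioo 0 r₀, ∀ θ ∈ Icc τ (τ + 2 * π),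
      2 * ε ≤ |θ - a₁| → 2 * ε ≤ |θ - b₁| → 2 * ε ≤ |θ - a₂| → 2 * ε ≤ |θ - b₂| →
      θ ∉ Icc a₁ b₁ → θ ∉ Icc a₂ b₂ →
      ‖E₁ (ξ + r * Complex.exp (θ * Complex.I))‖ ≤ C * r ^ (-N) ∧
      ‖E₂ (ξ + r * Complex.exp (θ * Complex.I))‖ ≤ C * r ^ (-N))
    (hbig₁ : ∀ (κ : ℕ) (C : ℝ), ∃ r₀ : ℝ, 0 < r₀ ∧ ∀ r ∈ Ioc 0 r₀, ∃ θ : ℝ,
      C * r ^ (-(κ : ℝ)) < ‖E₁ (ξ + r * Complex.exp (θ * Complex.I))‖)
    (hbig₂ : ∀ (κ : ℕ) (C : ℝ), ∃ r₀ : ℝ, 0 < r₀ ∧ ∀ r ∈ Ioc 0 r₀, ∃ θ : ℝ,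
      C * r ^ (-(κ : ℝ)) < ‖E₂ (ξ + r * Complex.exp (θ * Complex.I))‖) : False := by
  have hpi := Real.pi_pos
  obtain ⟨s1, s2, s3, s4, s5, s6, s7, s8⟩ := hs
  set α := b₁ - a₁ with hα
  have hα0 : 0 < α := by rw [hα]; linarith
  set γ := min b₁ b₂ - max a₁ a₂ with hγ
  have hγ0 : 0 < γ := by
    rw [hγ, sub_pos]
    exact max_lt (lt_min s5 s7) (lt_min s8 s6)
  have hγα : γ ≤ α := by
    have := min_le_left b₁ b₂
    have := le_max_left a₁ a₂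
    rw [hγ, hα]; linarith
  set ε := min (γ / 64) (min ((τ + 2 * π - b₁) / 2) ((τ + 2 * π - b₂) / 2)) with hε
  have hε0 : 0 < ε := lt_min (by positivity) (lt_min (by linarith) (by linarith))
  have hε1 : ε ≤ γ / 64 := min_le_left _ _
  have hε2 : ε ≤ (τ + 2 * π - b₁) / 2 := (min_le_right _ _).trans (min_le_left _ _)
  have hε3 : ε ≤ (τ + 2 * π - b₂) / 2 := (min_le_right _ _).trans (min_le_right _ _)
  set L₀ := 2 * α - γ / 2 with hL₀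
  have hL₀0 : 0 < L₀ := by rw [hL₀]; linarith
  obtain ⟨ρ, hρ1, hρ2⟩ : ∃ ρ : ℝ, π / α < ρ ∧ ρ < 2 * π / L₀ := by
    apply exists_between
    rw [div_lt_div_iff₀ hα0 hL₀0, hL₀]
    nlinarith
  have hρ0 : 0 < ρ := lt_trans (by positivity) hρ1
  have hρL : ρ * L₀ < 2 * π := by rwa [lt_div_iff₀ hL₀0] at hρ2
  obtain ⟨C₁, R₁, hR₁, hG₁⟩ := hg₁ ρ hρ1
  obtain ⟨C₂, R₂, hR₂, hG₂⟩ := hg₂ ρ hρ1
  obtain ⟨C₃, N₃, R₃, hR₃, hM⟩ := hmin ε hε0
  obtain ⟨C₄, N₄, R₄, hR₄, hX⟩ := hext ε hε0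
  obtain ⟨κ, hκ⟩ := exists_nat_ge (max N₃ N₄)
  have hκ3 : N₃ ≤ κ := (le_max_left _ _).trans hκ
  have hκ4 : N₄ ≤ κ := (le_max_right _ _).trans hκ
  set C' := max 1 (max C₃ C₄) with hC'
  have hC'1 : 1 ≤ C' := le_max_left _ _
  have hC'3 : C₃ ≤ C' := (le_max_left _ _).trans (le_max_right _ _)
  have hC'4 : C₄ ≤ C' := (le_max_right _ _).trans (le_max_right _ _)
  have hC'0 : 0 < C' := by linarith
  obtain ⟨R₅, hR₅, hB₁⟩ := hbig₁ κ C'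
  obtain ⟨R₆, hR₆, hB₂⟩ := hbig₂ κ C'
  obtain ⟨R₇, hR₇, hU₁⟩ := hbig₁ (κ + 1) C'
  obtain ⟨R₈, hR₈, hU₂⟩ := hbig₂ (κ + 1) C'
  -- the starting value of `t`
  set R := min (min (min R₁ R₂) (min R₃ R₄)) (min (min R₅ R₆) 1) with hR
  have hR0 : 0 < R := lt_min (lt_min (lt_min hR₁ hR₂) (lt_min hR₃ hR₄))
    (lt_min (lt_min hR₅ hR₆) one_pos)
  have l12 : R ≤ min R₁ R₂ := (min_le_left _ _).trans (min_le_left _ _)
  have l34 : R ≤ min R₃ R₄ := (min_le_left _ _).trans (min_le_right _ _)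
  have l56 : R ≤ min R₅ R₆ := (min_le_right _ _).trans (min_le_left _ _)
  have l1 : R ≤ 1 := (min_le_right _ _).trans (min_le_right _ _)
  set t₀ := -Real.log R + 1 with ht₀
  have ht₀0 : 0 ≤ t₀ := by
    have := Real.log_nonpos hR0.le l1
    rw [ht₀]; linarith
  have hexp : ∀ t : ℝ, t₀ ≤ t → 0 < Real.exp (-t) ∧ Real.exp (-t) < R := by
    intro t ht
    refine ⟨Real.exp_pos _, ?_⟩
    rw [← Real.lt_log_iff_exp_lt hR0]
    rw [ht₀] at ht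
    linarith
  set F₁ := FF E₁ ξ κ C' with hF₁
  set F₂ := FF E₂ ξ κ C' with hF₂
  have hF₁d : Differentiable ℂ F₁ := FF_diff h₁ κ C'
  have hF₂d : Differentiable ℂ F₂ := FF_diff h₂ κ C'
  set θ₀ := -(τ + 2 * π) with hθ₀
  set C := max C₁ C₂ with hC
  have hgrow : ∀ (E : ℂ → ℂ) (B Rr : ℝ), B ≤ C → R ≤ Rr →
      (∀ r ∈ Ioo 0 Rr, ∀ θ ∈ (univ : Set ℝ),
        Real.posLog ‖E (ξ + r * Complex.exp (θ * Complex.I))‖ ≤ B * r ^ (-ρ)) →
      ∀ ζ : ℂ, t₀ ≤ ζ.re → Real.posLog ‖FF E ξ κ C' ζ‖ ≤ C * Real.exp (ρ * ζ.re) := by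
    intro E B Rr hB hRr hg ζ hζ
    obtain ⟨e0, e1⟩ := hexp _ hζ
    have h1 := hg (Real.exp (-ζ.re)) ⟨e0, e1.trans_le hRr⟩ (-ζ.im) (mem_univ _)
    have h2 : Real.posLog ‖FF E ξ κ C' (ζ.re + ζ.im * Complex.I)‖ ≤ C * Real.exp (ρ * ζ.re) := by
      refine FF_growth hC'1 (ht₀0.trans hζ) (h1.trans ?_)
      gcongr
    rwa [Complex.re_add_im] at h2
  have hthetamem : τ + 2 * π ∈ Icc τ (τ + 2 * π) := ⟨by linarith, le_rfl⟩
  have hbase : ∀ t : ℝ, t₀ ≤ t → ‖F₁ (t + θ₀ * Complex.I)‖ ≤ 1 ∧ ‖F₂ (t + θ₀ * Complex.I)‖ ≤ 1 := by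
    intro t ht
    obtain ⟨e0, e1⟩ := hexp _ ht
    have q : ∀ x : ℝ, x + 2 * ε ≤ τ + 2 * π → 2 * ε ≤ |τ + 2 * π - x| := by
      intro x hx
      rw [abs_of_nonneg (by linarith)]
      linarith
    have h1 := hX (Real.exp (-t)) ⟨e0, e1.trans_le (l34.trans (min_le_right _ _))⟩ (τ + 2 * π)
      hthetamem (q _ (by linarith)) (q _ (by linarith)) (q _ (by linarith)) (q _ (by linarith))
      (fun h => by have := h.2; linarith) (fun h => by have := h.2; linarith)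
    have e2 : τ + 2 * π = -θ₀ := by rw [hθ₀, neg_neg]
    rw [e2] at h1
    exact ⟨FF_le_one hC'0 hC'4 hκ4 (ht₀0.trans ht) h1.1,
      FF_le_one hC'0 hC'4 hκ4 (ht₀0.trans ht) h1.2⟩
  have hcont : ∀ (F : ℂ → ℂ), Differentiable ℂ F → ∀ t : ℝ,
      Continuous fun θ : ℝ => ‖F (t + θ * Complex.I)‖ := by
    intro F hF t
    have h1 := hF.continuous
    fun_prop
  refine no_two_tracts (F₁ := F₁) (F₂ := F₂) (θ₀ := θ₀) (t₀ := t₀) (ρ := ρ) (C := C) (L₀ := L₀)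
    hF₁d hF₂d (FF_per E₁ ξ κ C') (FF_per E₂ ξ κ C') hρ0 hL₀0 hρL ?_ ?_ ?_ ?_ ?_ ?_ ?_ ?_ ?_
  · exact hgrow E₁ C₁ R₁ (le_max_left _ _) (l12.trans (min_le_left _ _)) hG₁
  · exact hgrow E₂ C₂ R₂ (le_max_right _ _) (l12.trans (min_le_right _ _)) hG₂
  · exact fun t ht => (hbase t ht).1
  · exact fun t ht => (hbase t ht).2
  · intro t ht
    obtain ⟨e0, e1⟩ := hexp _ ht
    have hθr : ∀ x ∈ Icc θ₀ (θ₀ + 2 * π), -x ∈ Icc τ (τ + 2 * π) := by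
      intro x hx
      rw [hθ₀] at hx
      exact ⟨by linarith [hx.2], by linarith [hx.1]⟩
    have habs : ∀ x a : ℝ, |(-x) - a| = |x - (-a)| := by
      intro x a
      rw [← abs_neg]; congr 1; ring
    refine meas_bound (hcont F₁ hF₁d t) (hcont F₂ hF₂d t) (p₁ := -a₁) (p₂ := -b₁) (p₃ := -a₂)
      (p₄ := -b₂) (u := -max b₁ b₂) (v := -min a₁ a₂) (δ := 2 * ε) (by positivity) ?_ ?_ ?_ ?_
    · have := min_le_left a₁ a₂
      have := le_max_left b₁ b₂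
      linarith
    · intro x hx q1 q2 q3 q4
      rw [← habs] at q1 q2 q3 q4
      have h1 := hM (Real.exp (-t)) ⟨e0, e1.trans_le (l34.trans (min_le_left _ _))⟩ (-x)
        (hθr x hx) q1 q2 q3 q4
      rw [min_le_iff] at h1 ⊢
      rcases h1 with h1 | h1
      · exact Or.inl (FF_le_one hC'0 hC'3 hκ3 (ht₀0.trans ht) h1)
      · exact Or.inr (FF_le_one hC'0 hC'3 hκ3 (ht₀0.trans ht) h1)
    · intro x hx q1 q2 q3 q4 hu
      rw [← habs] at q1 q2 q3 q4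
      have n1 : -x ∉ Icc a₁ b₁ := by
        intro h
        apply hu
        have := min_le_left a₁ a₂
        have := le_max_left b₁ b₂
        exact ⟨by linarith [h.2], by linarith [h.1]⟩
      have n2 : -x ∉ Icc a₂ b₂ := by
        intro h
        apply hu
        have := min_le_right a₁ a₂
        have := le_max_right b₁ b₂
        exact ⟨by linarith [h.2], by linarith [h.1]⟩
      have h1 := hX (Real.exp (-t)) ⟨e0, e1.trans_le (l34.trans (min_le_right _ _))⟩ (-x)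
        (hθr x hx) q1 q2 q3 q4 n1 n2
      exact ⟨FF_le_one hC'0 hC'4 hκ4 (ht₀0.trans ht) h1.1,
        FF_le_one hC'0 hC'4 hκ4 (ht₀0.trans ht) h1.2⟩
    · have e3 := min_add_max a₁ a₂
      have e4 := min_add_max b₁ b₂
      rw [hL₀]
      rw [hγ] at hε1 ⊢
      rw [hα]
      linarith
  · intro t ht
    obtain ⟨e0, e1⟩ := hexp _ ht
    obtain ⟨θ, hθ⟩ := hB₁ _ ⟨e0, (e1.trans_le (l56.trans (min_le_left _ _))).le⟩
    exact ⟨-θ, one_lt_FF hC'0 hθ⟩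
  · intro t ht
    obtain ⟨e0, e1⟩ := hexp _ ht
    obtain ⟨θ, hθ⟩ := hB₂ _ ⟨e0, (e1.trans_le (l56.trans (min_le_right _ _))).le⟩
    exact ⟨-θ, one_lt_FF hC'0 hθ⟩
  · intro K
    set t := max t₀ (max (-Real.log R₇) (Real.log (max K 1))) with ht
    have t1 : t₀ ≤ t := le_max_left _ _
    have t2 : -Real.log R₇ ≤ t := (le_max_left _ _).trans (le_max_right _ _)
    have t3 : Real.log (max K 1) ≤ t := (le_max_right _ _).trans (le_max_right _ _)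
    have e1 : Real.exp (-t) ≤ R₇ := by
      rw [← Real.le_log_iff_exp_le hR₇]; linarith
    obtain ⟨θ, hθ⟩ := hU₁ _ ⟨Real.exp_pos _, e1⟩
    refine ⟨t, -θ, t1, ?_⟩
    have h1 := exp_lt_FF hC'0 hθ
    have h2 : max K 1 ≤ Real.exp t := by
      rw [← Real.log_le_iff_le_exp (lt_of_lt_of_le one_pos (le_max_right _ _))]
      exact t3
    exact ((le_max_left _ _).trans h2).trans_lt h1
  · intro K
    set t := max t₀ (max (-Real.log R₈) (Real.log (max K 1))) with ht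
    have t1 : t₀ ≤ t := le_max_left _ _
    have t2 : -Real.log R₈ ≤ t := (le_max_left _ _).trans (le_max_right _ _)
    have t3 : Real.log (max K 1) ≤ t := (le_max_right _ _).trans (le_max_right _ _)
    have e1 : Real.exp (-t) ≤ R₈ := by
      rw [← Real.le_log_iff_exp_le hR₈]; linarith
    obtain ⟨θ, hθ⟩ := hU₂ _ ⟨Real.exp_pos _, e1⟩
    refine ⟨t, -θ, t1, ?_⟩
    have h1 := exp_lt_FF hC'0 hθ
    have h2 : max K 1 ≤ Real.exp t := by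
      rw [← Real.log_le_iff_le_exp (lt_of_lt_of_le one_pos (le_max_right _ _))]
      exact t3
    exact ((le_max_left _ _).trans h2).trans_lt h1

end MP2c3e4e
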