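import Mathlib
import Pool.Agent.Lib_MP_2c3e4e_an.G6

/-!
P3a: transcendental growth on all small circles.
-/

open MeasureTheory Set Metric Filter Topology
open scoped ENNReal Real

namespace MP2c3e4e

/-- P3a. Transcendental growth on all small circles (from piece G6 `transcendental`). -/
theorem big_circle {E : ℂ → ℂ} {ξ : ℂ} (hE : DifferentiableOn ℂ E {ξ}ᶜ)
    (hinf : Tendsto E (cocompact ℂ) (𝓝 0)) (hne : ∃ z, z ≠ ξ ∧ E z ≠ 0) {e : ℂ} (he : e ≠ 0)
    (hlim : Tendsto (fun n : ℕ => (1 / ((n : ℂ) + 1)) * E (ξ + (1 / ((n : ℂ) + 1)) * e)) atTop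
      (𝓝 0)) (κ : ℕ) (C : ℝ) :
    ∃ r₀ : ℝ, 0 < r₀ ∧ ∀ r ∈ Ioc 0 r₀, ∃ θ : ℝ,
      C * r ^ (-(κ : ℝ)) < ‖E (ξ + r * Complex.exp (θ * Complex.I))‖ := by
  set F : ℂ → ℂ := Function.update (fun w => E (ξ + w⁻¹)) 0 0 with hFdef
  have hF0 : F 0 = 0 := by simp [hFdef]
  have hFn : ∀ w, w ≠ 0 → F w = E (ξ + w⁻¹) := by
    intro w hw; simp [hFdef, hw]
  have hd1 : ∀ w : ℂ, w ≠ 0 → DifferentiableAt ℂ F w := by
    intro w hw
    have h1 : DifferentiableAt ℂ (fun w => E (ξ + w⁻¹)) w := by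
      have h2 : DifferentiableAt ℂ E (ξ + w⁻¹) := by
        refine hE.differentiableAt (isOpen_compl_singleton.mem_nhds ?_)
        simp [hw]
      exact h2.comp w (((differentiableAt_id).inv hw).const_add ξ)
    refine h1.congr_of_eventuallyEq ?_
    filter_upwards [isOpen_ne.mem_nhds hw] with v hv
    exact hFn v hv
  have hc0 : ContinuousAt F 0 := by
    rw [hFdef, continuousAt_update_same]
    have h1 : Tendsto (fun w : ℂ => w⁻¹) (𝓝[≠] 0) (cocompact ℂ) := by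
      rw [← Metric.cobounded_eq_cocompact]
      exact tendsto_inv₀_nhdsNE_zero
    have h2 : Tendsto (fun w : ℂ => ξ + w⁻¹) (𝓝[≠] 0) (cocompact ℂ) := by
      rw [← Metric.cobounded_eq_cocompact] at h1 ⊢
      exact (tendsto_const_add_cobounded ξ).comp h1
    exact hinf.comp h2
  have hF : Differentiable ℂ F := by
    intro w
    by_cases hw : w = 0
    · subst hw
      refine (Complex.analyticAt_of_differentiable_on_punctured_nhds_of_continuousAt ?_
        hc0).differentiableAt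
      filter_upwards [self_mem_nhdsWithin] with v hv
      exact hd1 v hv
    · exact hd1 w hw
  obtain ⟨z, hzξ, hz⟩ := hne
  have hz' : z - ξ ≠ 0 := sub_ne_zero.2 hzξ
  have hneF : ∃ w, F w ≠ 0 := by
    refine ⟨(z - ξ)⁻¹, ?_⟩
    rw [hFn _ (inv_ne_zero hz'), inv_inv]
    simpa using hz
  have hn1 : ∀ n : ℕ, ((n : ℂ) + 1) ≠ 0 := fun n => Nat.cast_add_one_ne_zero n
  have hnn : ∀ n : ℕ, ‖((n : ℂ) + 1)‖ = (n : ℝ) + 1 := by
    intro n
    have : ((n : ℂ) + 1) = (((n : ℝ) + 1 : ℝ) : ℂ) := by push_cast; rfl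
    rw [this, Complex.norm_real, Real.norm_of_nonneg (by positivity)]
  have hepos : 0 < ‖e‖ := norm_pos_iff.2 he
  have hw : Tendsto (fun n : ℕ => ‖((n : ℂ) + 1) / e‖) atTop atTop := by
    simp only [norm_div, hnn]
    exact (tendsto_atTop_add_const_right _ _ tendsto_natCast_atTop_atTop).atTop_div_const hepos
  have hFw : Tendsto (fun n : ℕ => ‖F (((n : ℂ) + 1) / e)‖ / ‖((n : ℂ) + 1) / e‖) atTop (𝓝 0) := by
    have h1 : ∀ n : ℕ, ‖F (((n : ℂ) + 1) / e)‖ / ‖((n : ℂ) + 1) / e‖ =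
        ‖e‖ * ‖(1 / ((n : ℂ) + 1)) * E (ξ + (1 / ((n : ℂ) + 1)) * e)‖ := by
      intro n
      rw [hFn _ (div_ne_zero (hn1 n) he), inv_div, norm_mul, norm_div, norm_div, norm_one,
        one_div_mul_eq_div, div_div_eq_mul_div]
      ring_nf
    simp only [h1]
    simpa using (hlim.norm).const_mul ‖e‖
  obtain ⟨R₀, hR₀⟩ := transcendental hF hF0 hneF (fun n : ℕ => ((n : ℂ) + 1) / e) hw hFw κ C
  refine ⟨(max R₀ 1)⁻¹, by positivity, fun r hr => ?_⟩
  have hr0 : 0 < r := hr.1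
  have hR : R₀ ≤ r⁻¹ := by
    have h1 : max R₀ 1 ≤ r⁻¹ := by
      rw [le_inv_comm₀ (by positivity) hr0]; exact hr.2
    exact (le_max_left _ _).trans h1
  obtain ⟨w, hwn, hwb⟩ := hR₀ r⁻¹ hR
  have hw0 : w ≠ 0 := by
    rw [← norm_pos_iff, hwn]; positivity
  refine ⟨Complex.arg w⁻¹, ?_⟩
  have h1 : (r : ℂ) * Complex.exp ((Complex.arg w⁻¹ : ℝ) * Complex.I) = w⁻¹ := by
    have h2 := Complex.norm_mul_exp_arg_mul_I w⁻¹
    rw [norm_inv, hwn, inv_inv] at h2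
    exact h2
  rw [h1, ← hFn w hw0, Real.rpow_neg hr0.le, Real.rpow_natCast, ← inv_pow]
  exact hwb

end MP2c3e4e
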