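import Pool.Agent.Lib_MP_2c3e4e_an.Defs3
import Pool.Agent.Lib_MP_2c3e4e_an.A2

/-!
# P4: a priori growth at an isolated singularity by Domar's lemma
-/

open MeasureTheory Set Metric Filter Topology
open scoped ENNReal Real

namespace MP2c3e4e

/-- The hypothesis of Domar's lemma from a power bound in the distance to `Γ`. -/
theorem domar_hyp {Γ : Set ℂ} {C₁ : ℝ} (hC : 0 < C₁)
    (hΓ : ∀ t : ℝ, 0 < t → t ≤ 1 → volume {x : ℂ | infDist x Γ < t} ≤ ENNReal.ofReal (C₁ * t))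
    {K N : ℝ} (hN : 0 < N) : ∃ C₀ : ℝ, 0 < C₀ ∧ ∀ (H : ℂ → ℂ) (z : ℂ) (R : ℝ), 0 < R → R ≤ 1 →
      (∀ x ∈ closedBall z R, 0 < infDist x Γ → Real.posLog ‖H x‖ ≤ K * fd Γ x ^ (-N)) →
      ∀ s : ℝ, 1 ≤ s → volume {x ∈ closedBall z R | s < Real.posLog ‖H x‖} ≤
        ENNReal.ofReal (C₀ * s ^ (-(1 / N))) := by
  set K₁ : ℝ := max K 1 with hK₁
  have hK1 : 1 ≤ K₁ := le_max_right _ _
  have hK0 : 0 < K₁ := by linarith
  have hKN : 0 < K₁ ^ (1 / N) := Real.rpow_pos_of_pos hK0 _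
  refine ⟨C₁ * K₁ ^ (1 / N) + π * K₁ ^ (1 / N), by positivity, ?_⟩
  intro H z R hR hR1 hb s hs
  have hs0 : 0 < s := by linarith
  have hN' : 0 < 1 / N := by positivity
  have hfrac : (K₁ / s) ^ (1 / N) = K₁ ^ (1 / N) * s ^ (-(1 / N)) := by
    rw [Real.div_rpow hK0.le hs0.le, Real.rpow_neg hs0.le]
    rfl
  set t : ℝ := (K₁ / s) ^ (1 / N) with ht
  have ht0 : 0 < t := Real.rpow_pos_of_pos (by positivity) _
  rcases le_or_gt K₁ s with hKs | hKs
  · have ht1 : t ≤ 1 := by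
      apply Real.rpow_le_one (by positivity) _ hN'.le
      rw [div_le_one hs0]; exact hKs
    have hsub : {x ∈ closedBall z R | s < Real.posLog ‖H x‖} ⊆ {x : ℂ | infDist x Γ < t} := by
      rintro x ⟨hx, hsx⟩
      show infDist x Γ < t
      rcases (infDist_nonneg (x := x) (s := Γ)).eq_or_lt with h0 | h0
      · rw [← h0]; exact ht0
      have h1 := hb x hx h0
      have hfd : 0 < fd Γ x := lt_min one_pos h0
      have hfp : 0 < fd Γ x ^ (-N) := Real.rpow_pos_of_pos hfd _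
      have h2 : s < K₁ * fd Γ x ^ (-N) :=
        lt_of_lt_of_le hsx (h1.trans (mul_le_mul_of_nonneg_right (le_max_left _ _) hfp.le))
      have h3 : fd Γ x ^ N < K₁ / s := by
        rw [Real.rpow_neg hfd.le] at h2
        have h4 : 0 < fd Γ x ^ N := Real.rpow_pos_of_pos hfd _
        rw [lt_div_iff₀ hs0]
        have h5 : s * fd Γ x ^ N < K₁ := by
          calc s * fd Γ x ^ N < K₁ * (fd Γ x ^ N)⁻¹ * fd Γ x ^ N :=
                mul_lt_mul_of_pos_right h2 h4
            _ = K₁ := by field_simp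
        linarith
      have h6 : fd Γ x < t := by
        have h7 : (fd Γ x ^ N) ^ (1 / N) < t :=
          Real.rpow_lt_rpow (Real.rpow_nonneg hfd.le _) h3 hN'
        rwa [← Real.rpow_mul hfd.le, mul_one_div_cancel hN.ne', Real.rpow_one] at h7
      have h8 : min 1 (infDist x Γ) < t := h6
      rcases min_lt_iff.1 h8 with h9 | h9
      · linarith
      · exact h9
    refine (measure_mono hsub).trans ((hΓ t ht0 ht1).trans (ENNReal.ofReal_le_ofReal ?_))
    rw [hfrac]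
    have : 0 ≤ π * K₁ ^ (1 / N) * s ^ (-(1 / N)) := by positivity
    nlinarith
  · have hsub : {x ∈ closedBall z R | s < Real.posLog ‖H x‖} ⊆ closedBall z R := fun x hx => hx.1
    refine (measure_mono hsub).trans ?_
    have ht1 : 1 ≤ t := by
      apply Real.one_le_rpow _ hN'.le
      rw [one_le_div hs0]; exact hKs.le
    rw [Complex.volume_closedBall]
    have h1 : ENNReal.ofReal R ^ 2 * (NNReal.pi : ℝ≥0∞) = ENNReal.ofReal (R ^ 2 * π) := by
      rw [ENNReal.ofReal_mul (by positivity), ENNReal.ofReal_pow hR.le]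
      congr 1
      rw [← NNReal.coe_real_pi, ENNReal.ofReal_coe_nnreal]
    rw [h1]
    apply ENNReal.ofReal_le_ofReal
    have h2 : π * t = π * K₁ ^ (1 / N) * s ^ (-(1 / N)) := by rw [hfrac]; ring
    have h3 : 0 ≤ C₁ * K₁ ^ (1 / N) * s ^ (-(1 / N)) := by positivity
    have h4 : R ^ 2 ≤ 1 := by nlinarith
    have h5 : R ^ 2 * π ≤ 1 * π := mul_le_mul_of_nonneg_right h4 Real.pi_pos.le
    nlinarith [Real.pi_pos]

/-- P4. A priori growth at an isolated singularity by Domar's lemma. -/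
theorem growth_apriori {E : ℂ → ℂ} {ξ : ℂ} {ρ : ℝ} (hρ : 0 < ρ)
    (hE : DifferentiableOn ℂ E (ball ξ ρ \ {ξ})) {Γ : Set ℂ} {C₁ : ℝ} (hC : 0 < C₁)
    (hΓ : ∀ t : ℝ, 0 < t → t ≤ 1 → volume {x : ℂ | infDist x Γ < t} ≤ ENNReal.ofReal (C₁ * t))
    {K N : ℝ} (hN : 0 < N)
    (hb : ∀ z ∈ ball ξ ρ, 0 < infDist z Γ → Real.posLog ‖E z‖ ≤ K * fd Γ z ^ (-N)) :
    ∃ M : ℝ, 0 < M ∧ GrowthAt E ξ univ M := by
  obtain ⟨C₀, hC₀, hdom⟩ := domar_hyp hC hΓ (K := K) hN
  obtain ⟨K', hK', hmain⟩ := domar C₀ (1 / N) hC₀ (by positivity)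
  refine ⟨2 / (1 / N), by positivity, K' * 2 ^ (2 / (1 / N)), min ρ 1 / 2, by positivity, ?_⟩
  intro r hr θ _
  have hr0 : 0 < r := hr.1
  have hr1 : r < ρ / 2 := lt_of_lt_of_le hr.2 (by
    have := min_le_left ρ 1
    linarith)
  have hr2 : r < 1 / 2 := lt_of_lt_of_le hr.2 (by
    have := min_le_right ρ 1
    linarith)
  set z : ℂ := ξ + r * Complex.exp (θ * Complex.I) with hz
  have hzξ : dist z ξ = r := by
    rw [hz, dist_eq_norm, add_sub_cancel_left, norm_mul, Complex.norm_exp_ofReal_mul_I, mul_one,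
      Complex.norm_real, Real.norm_of_nonneg hr0.le]
  have hsub : closedBall z (r / 2) ⊆ ball ξ ρ \ {ξ} := by
    intro x hx
    rw [mem_closedBall] at hx
    refine ⟨?_, ?_⟩
    · rw [mem_ball]
      have := dist_triangle x z ξ
      linarith
    · rintro rfl
      rw [dist_comm, hzξ] at hx
      linarith
  have hopen : IsOpen (ball ξ ρ \ {ξ}) := isOpen_ball.sdiff isClosed_singleton
  have han : AnalyticOnNhd ℂ E (closedBall z (r / 2)) := (hE.analyticOnNhd hopen).mono hsub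
  have h1 := hmain E z (r / 2) (by positivity) (by linarith) han
    (hdom E z (r / 2) (by positivity) (by linarith) (fun x hx h0 => hb x (hsub hx).1 h0))
  refine h1.trans (le_of_eq ?_)
  rw [Real.div_rpow hr0.le (by norm_num), Real.rpow_neg (by norm_num : (0 : ℝ) ≤ 2)]
  field_simp

end MP2c3e4e
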