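import Pool.Agent.Lib_MP_2c3e4e_an.P4

/-!
# P5: uniform bounds near a point of `Γ` by Domar's lemma
-/

open MeasureTheory Set Metric Filter Topology
open scoped ENNReal Real

namespace MP2c3e4e

/-- P5. Uniform bounds near a point of `Γ` by Domar's lemma. -/
theorem bound_apriori {Γ : Set ℂ} {C₁ : ℝ} (hC : 0 < C₁)
    (hΓ : ∀ t : ℝ, 0 < t → t ≤ 1 → volume {x : ℂ | infDist x Γ < t} ≤ ENNReal.ofReal (C₁ * t))
    {K N ρ : ℝ} (hN : 0 < N) (hρ : 0 < ρ) (c : ℂ) :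
    ∃ M : ℝ, ∀ H : ℂ → ℂ, DifferentiableOn ℂ H (ball c (2 * ρ)) →
      (∀ z ∈ ball c (2 * ρ), 0 < infDist z Γ → Real.posLog ‖H z‖ ≤ K * fd Γ z ^ (-N)) →
      ∀ z ∈ ball c ρ, ‖H z‖ ≤ M := by
  obtain ⟨C₀, hC₀, hdom⟩ := domar_hyp hC hΓ (K := K) hN
  obtain ⟨K', hK', hmain⟩ := domar C₀ (1 / N) hC₀ (by positivity)
  refine ⟨Real.exp (K' * (min ρ 1) ^ (-(2 / (1 / N)))), ?_⟩
  intro H hH hb z hz
  have hR0 : 0 < min ρ 1 := by positivity
  have hsub : closedBall z (min ρ 1) ⊆ ball c (2 * ρ) := by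
    intro x hx
    rw [mem_closedBall] at hx
    rw [mem_ball] at hz ⊢
    have := dist_triangle x z c
    have := min_le_left ρ 1
    linarith
  have han : AnalyticOnNhd ℂ H (closedBall z (min ρ 1)) :=
    (hH.analyticOnNhd isOpen_ball).mono hsub
  have h1 := hmain H z (min ρ 1) hR0 (min_le_right _ _) han
    (hdom H z (min ρ 1) hR0 (min_le_right _ _) (fun x hx h0 => hb x (hsub hx) h0))
  rcases eq_or_ne (H z) 0 with h0 | h0
  · rw [h0, norm_zero]; exact (Real.exp_pos _).le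
  have h2 : Real.log ‖H z‖ ≤ Real.posLog ‖H z‖ := le_max_right _ _
  rw [← Real.exp_log (norm_pos_iff.2 h0)]
  exact Real.exp_le_exp.2 (h2.trans h1)

end MP2c3e4e
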