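import Mathlib

/-!
P6: gluing analytic functions across a nowhere dense closed set.
-/

open MeasureTheory Set Metric Filter Topology
open scoped ENNReal Real

namespace MP2c3e4e

/-- P6. Gluing analytic functions across a nowhere dense closed set. -/
theorem glue_analytic {F S : Set ℂ} (hF : IsClosed F) (hF' : interior F = ∅) (hSF : S ⊆ F) {E₀ : ℂ → ℂ}
    (hE₀ : DifferentiableOn ℂ E₀ Fᶜ)
    (hloc : ∀ ζ ∈ F \ S, ∃ ρ : ℝ, 0 < ρ ∧ ∃ H : ℂ → ℂ, DifferentiableOn ℂ H (ball ζ ρ) ∧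
      ∀ z ∈ ball ζ ρ \ F, H z = E₀ z) :
    ∃ E : ℂ → ℂ, DifferentiableOn ℂ E Sᶜ ∧ ∀ z, z ∉ F → E z = E₀ z := by
  classical
  choose! ρ hρ H hHd hH using hloc
  have hne : ∀ z : ℂ, (𝓝[Fᶜ] z).NeBot := by
    intro z
    rw [← mem_closure_iff_nhdsWithin_neBot, closure_compl, hF', compl_empty]
    exact mem_univ _
  refine ⟨fun z => if z ∈ F \ S then H z z else E₀ z, ?_, ?_⟩
  · intro ζ hζ
    by_cases hζF : ζ ∈ F
    · have hζ' : ζ ∈ F \ S := ⟨hζF, hζ⟩
      have heq : ∀ z ∈ ball ζ (ρ ζ) ∩ Sᶜ,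
          (if z ∈ F \ S then H z z else E₀ z) = H ζ z := by
        rintro z ⟨hz, hzS⟩
        by_cases hzF : z ∈ F
        · have hz' : z ∈ F \ S := ⟨hzF, hzS⟩
          rw [if_pos hz']
          have h1 : Tendsto (H z) (𝓝[Fᶜ] z) (𝓝 (H z z)) :=
            (((hHd z hz').continuousOn.continuousAt
              (isOpen_ball.mem_nhds (mem_ball_self (hρ z hz')))).tendsto).mono_left
              nhdsWithin_le_nhds
          have h2 : Tendsto (H ζ) (𝓝[Fᶜ] z) (𝓝 (H ζ z)) :=
            (((hHd ζ hζ').continuousOn.continuousAt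
              (isOpen_ball.mem_nhds hz)).tendsto).mono_left nhdsWithin_le_nhds
          haveI := hne z
          refine tendsto_nhds_unique_of_eventuallyEq h1 h2 ?_
          filter_upwards [self_mem_nhdsWithin,
            nhdsWithin_le_nhds (isOpen_ball.mem_nhds (mem_ball_self (hρ z hz'))),
            nhdsWithin_le_nhds (isOpen_ball.mem_nhds hz)] with w hwF hw1 hw2
          rw [hH z hz' w ⟨hw1, hwF⟩, hH ζ hζ' w ⟨hw2, hwF⟩]
        · rw [if_neg (fun h => hzF h.1), hH ζ hζ' z ⟨hz, hzF⟩]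
      have hd : DifferentiableWithinAt ℂ (H ζ) Sᶜ ζ :=
        ((hHd ζ hζ').differentiableAt
          (isOpen_ball.mem_nhds (mem_ball_self (hρ ζ hζ')))).differentiableWithinAt
      refine hd.congr_of_eventuallyEq ?_ (heq ζ ⟨mem_ball_self (hρ ζ hζ'), hζ⟩)
      filter_upwards [self_mem_nhdsWithin,
        nhdsWithin_le_nhds (isOpen_ball.mem_nhds (mem_ball_self (hρ ζ hζ')))] with w hw1 hw2
      exact heq w ⟨hw2, hw1⟩
    · have hopen : Fᶜ ∈ 𝓝 ζ := hF.isOpen_compl.mem_nhds hζF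
      have hd : DifferentiableAt ℂ E₀ ζ := hE₀.differentiableAt hopen
      refine (hd.congr_of_eventuallyEq ?_).differentiableWithinAt
      filter_upwards [hopen] with w hw
      rw [if_neg (fun h => hw h.1)]
  · intro z hz
    simp only
    rw [if_neg (fun h => hz h.1)]

end MP2c3e4e
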