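import Pool.Agent.Lib_MP_2c3e4e_an.A5
import Pool.Agent.Lib_MP_2c3e4e_an.Defs4

/-!
Q0: area of neighbourhoods of both frontiers.
-/

open MeasureTheory Set Metric Filter Topology
open scoped ENNReal Real

namespace MP2c3e4e

variable {A B : Dom}

/-- Q0. area of neighbourhoods of both frontiers -/
theorem area_union (hA : A.Regular) (hB : B.Regular) : ∃ C : ℝ, 0 < C ∧ ∀ t : ℝ, 0 < t → t ≤ 1 →
    volume {x : ℂ | infDist x (frontier A.carrier ∪ frontier B.carrier) < t} ≤
      ENNReal.ofReal (C * t) := by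
  obtain ⟨L₁, γ₁, hγ₁, hs₁⟩ := hA.curve
  obtain ⟨L₂, γ₂, hγ₂, hs₂⟩ := hB.curve
  obtain ⟨C₁, hC₁, h₁⟩ := area_nbhd hγ₁ hs₁ (frontier_nonempty A)
  obtain ⟨C₂, hC₂, h₂⟩ := area_nbhd hγ₂ hs₂ (frontier_nonempty B)
  refine ⟨C₁ + C₂, by positivity, fun t ht ht1 => ?_⟩
  have hsub : {x : ℂ | infDist x (frontier A.carrier ∪ frontier B.carrier) < t} ⊆
      {x : ℂ | infDist x (frontier A.carrier) < t} ∪
      {x : ℂ | infDist x (frontier B.carrier) < t} := by
    intro x hx
    obtain ⟨y, hy, hxy⟩ := (infDist_lt_iff (frontier_nonempty A).inl).1 hx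
    rcases hy with hy | hy
    · exact Or.inl ((infDist_lt_iff (frontier_nonempty A)).2 ⟨y, hy, hxy⟩)
    · exact Or.inr ((infDist_lt_iff (frontier_nonempty B)).2 ⟨y, hy, hxy⟩)
  calc volume {x : ℂ | infDist x (frontier A.carrier ∪ frontier B.carrier) < t}
      ≤ volume ({x : ℂ | infDist x (frontier A.carrier) < t} ∪
        {x : ℂ | infDist x (frontier B.carrier) < t}) := measure_mono hsub
    _ ≤ volume {x : ℂ | infDist x (frontier A.carrier) < t} +
        volume {x : ℂ | infDist x (frontier B.carrier) < t} := measure_union_le _ _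
    _ ≤ ENNReal.ofReal (C₁ * t) + ENNReal.ofReal (C₂ * t) := add_le_add (h₁ t ht ht1) (h₂ t ht ht1)
    _ = ENNReal.ofReal ((C₁ + C₂) * t) := by
      rw [← ENNReal.ofReal_add (by positivity) (by positivity), add_mul]

end MP2c3e4e
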