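import Pool.Agent.Lib_MP_2c3e4e_an.Defs4
import Pool.Agent.Lib_MP_2c3e4e_an.G2

/-!
Piece Q1a for MP_2c3e4e_an (helper30).
-/

open MeasureTheory Set Metric Filter Topology
open scoped ENNReal Real

namespace MP2c3e4e

variable {A B : Dom} {yA : E2 A →L[ℂ] ℂ} {yB : E2 B →L[ℂ] ℂ} {ξ ξ' : ℂ}

/-- Q1a. the resolvent function of an annihilated vector vanishes outside -/
theorem ann_out (hc : Conf A B ξ ξ') {u : E2 A} {v : E2 B} (h : Ann yA yB u v) {z : ℂ}
    (hz : z ∉ closure (A.carrier ∪ B.carrier)) : RR yA yB u v z = 0 := by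
  have hd : DifferentiableOn ℂ (RR yA yB u v) (closure (A.carrier ∪ B.carrier))ᶜ := by
    rw [closure_union, compl_union]
    exact ((rem_analytic hc.regA u yA).mono inter_subset_left).add
      ((rem_analytic hc.regB v yB).mono inter_subset_right)
  have ha : AnalyticOnNhd ℂ (RR yA yB u v) (closure (A.carrier ∪ B.carrier))ᶜ :=
    hd.analyticOnNhd isClosed_closure.isOpen_compl
  obtain ⟨K, hK⟩ := Ann.far hc.regA hc.regB h
  obtain ⟨K₁, hK₁, hb₁⟩ := A.exists_bound
  obtain ⟨K₂, hK₂, hb₂⟩ := B.exists_bound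
  set M : ℝ := max K (max K₁ K₂) + 1 with hM
  have hM1 : K < M := by have := le_max_left K (max K₁ K₂); linarith
  have hM2 : max K₁ K₂ < M := by have := le_max_right K (max K₁ K₂); linarith
  have hM0 : 0 < M := hK₁.trans_lt ((le_max_left _ _).trans_lt hM2)
  have hnorm : ‖(M : ℂ)‖ = M := by rw [Complex.norm_real, Real.norm_eq_abs, abs_of_pos hM0]
  have hw : (M : ℂ) ∈ (closure (A.carrier ∪ B.carrier))ᶜ := by
    intro hcl
    have hsub : closure (A.carrier ∪ B.carrier) ⊆ closedBall 0 (max K₁ K₂) := by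
      refine closure_minimal ?_ isClosed_closedBall
      rintro z (hz | hz)
      · exact mem_closedBall_zero_iff.mpr ((hb₁ z hz).trans (le_max_left _ _))
      · exact mem_closedBall_zero_iff.mpr ((hb₂ z hz).trans (le_max_right _ _))
    have := mem_closedBall_zero_iff.mp (hsub hcl)
    rw [hnorm] at this
    linarith
  have hev : RR yA yB u v =ᶠ[𝓝 (M : ℂ)] 0 := by
    have h1 : {z : ℂ | K < ‖z‖} ∈ 𝓝 (M : ℂ) :=
      (isOpen_lt continuous_const continuous_norm).mem_nhds (by
        rw [mem_setOf_eq, hnorm]; exact hM1)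
    filter_upwards [h1] with z hz using hK z hz
  exact ha.eqOn_zero_of_preconnected_of_eventuallyEq_zero hc.outer hw hev hz

end MP2c3e4e
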