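import Pool.Agent.Lib_MP_2c3e4e_an.Q0
import Pool.Agent.Lib_MP_2c3e4e_an.Q1a
import Pool.Agent.Lib_MP_2c3e4e_an.P5
import Pool.Agent.Lib_MP_2c3e4e_an.P6
import Pool.Agent.Lib_MP_2c3e4e_an.G1
import Pool.Agent.Lib_MP_2c3e4e_an.G2
import Pool.Agent.Lib_MP_2c3e4e_an.G3
import Pool.Agent.Lib_MP_2c3e4e_an.G5
import Pool.Agent.Lib_MP_2c3e4e_an.G7

open MeasureTheory Set Metric Filter Topology
open scoped ENNReal Real

namespace MP2c3e4e

variable {A B D : Dom}

lemma interior_frontier_open {s : Set ℂ} (h : IsOpen s) : interior (frontier s) = ∅ := by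
  rw [← frontier_compl]; exact interior_frontier h.isClosed_compl

/-- bookkeeping for `log⁺` -/
lemma posLog_bound {K₂ N₁ K₃ M : ℝ} (_ : 0 ≤ K₂) (hN₁ : 0 ≤ N₁) (hK₃ : 0 ≤ K₃) {t p x : ℝ}
    (ht0 : 0 < t) (ht1 : t ≤ 1) (_ : 0 ≤ p) (hx0 : 0 ≤ x) (hx : x ≤ K₂ * t ^ (-N₁) * (1 + p))
    (hlp : Real.posLog p ≤ K₃ * t ^ (-M)) :
    Real.posLog x ≤ (Real.posLog K₂ + N₁ + Real.log 2 + K₃) * t ^ (-(max 1 M)) := by
  have hT : 1 ≤ t ^ (-(max 1 M)) := Real.one_le_rpow_of_pos_of_le_one_of_nonpos ht0 ht1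
    (by have := le_max_left 1 M; linarith)
  have h1 : Real.posLog x ≤ Real.posLog K₂ + Real.posLog (t ^ (-N₁)) +
      (Real.log 2 + Real.posLog 1 + Real.posLog p) := by
    refine (Real.posLog_le_posLog hx0 hx).trans ?_
    refine Real.posLog_mul.trans (add_le_add Real.posLog_mul Real.posLog_add)
  have h2 : Real.posLog (t ^ (-N₁)) ≤ N₁ * t ^ (-(max 1 M)) := by
    have h3 : 1 ≤ |t ^ (-N₁)| := by
      rw [abs_of_nonneg (Real.rpow_nonneg ht0.le _)]
      exact Real.one_le_rpow_of_pos_of_le_one_of_nonpos ht0 ht1 (by linarith)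
    rw [Real.posLog_eq_log h3, Real.log_rpow ht0]
    have h4 : -Real.log t ≤ t⁻¹ := by
      rw [← Real.log_inv]
      exact (Real.log_le_sub_one_of_pos (inv_pos.mpr ht0)).trans (by linarith)
    have h5 : t⁻¹ ≤ t ^ (-(max 1 M)) := by
      rw [← Real.rpow_neg_one]
      exact Real.rpow_le_rpow_of_exponent_ge ht0 ht1
        (by have := le_max_left 1 M; linarith)
    nlinarith
  have h6 : K₃ * t ^ (-M) ≤ K₃ * t ^ (-(max 1 M)) := by
    refine mul_le_mul_of_nonneg_left ?_ hK₃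
    exact Real.rpow_le_rpow_of_exponent_ge ht0 ht1
        (by have := le_max_right 1 M; linarith)
  have h7 : Real.posLog K₂ ≤ Real.posLog K₂ * t ^ (-(max 1 M)) :=
    le_mul_of_one_le_right Real.posLog_nonneg hT
  have h8 : Real.log 2 ≤ Real.log 2 * t ^ (-(max 1 M)) :=
    le_mul_of_one_le_right (Real.log_nonneg (by norm_num)) hT
  rw [Real.posLog_one] at h1
  calc Real.posLog x ≤ Real.posLog K₂ * t ^ (-(max 1 M)) + N₁ * t ^ (-(max 1 M)) +
      (Real.log 2 * t ^ (-(max 1 M)) + 0 + K₃ * t ^ (-(max 1 M))) := by linarith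
    _ = _ := by ring

lemma psi_unique {u gu : E2 D} {ψ ψ' : ℂ → ℂ} (hu : ∃ z ∈ D.carrier, u.fn z ≠ 0)
    (hψ : DifferentiableOn ℂ ψ D.carrier) (hψ' : DifferentiableOn ℂ ψ' D.carrier)
    (h : ∀ z ∈ D.carrier, gu.fn z = ψ z * u.fn z) (h' : ∀ z ∈ D.carrier, gu.fn z = ψ' z * u.fn z) :
    ∀ z ∈ D.carrier, ψ z = ψ' z := by
  have h1 : AnalyticOnNhd ℂ (fun z => ψ z - ψ' z) D.carrier :=
    (hψ.sub hψ').analyticOnNhd D.isOpen
  have h2 : AnalyticOnNhd ℂ u.fn D.carrier := u.diff.analyticOnNhd D.isOpen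
  have h3 := h1.eq_zero_or_eq_zero_of_mul_eq_zero h2
    (fun z hz => by rw [sub_mul, ← h z hz, ← h' z hz, sub_self]) D.preconnected
  rcases h3 with h3 | h3
  · exact fun z hz => sub_eq_zero.mp (h3 z hz)
  · obtain ⟨z, hz, hne⟩ := hu
    exact absurd (h3 z hz) hne

/-- local analytic continuation of the resolvent function across a boundary point of `A` -/
theorem local_ext (hA : A.Regular) (hB : B.Regular) {yA : E2 A →L[ℂ] ℂ} {yB : E2 B →L[ℂ] ℂ}
    {u gu : E2 A} {v gv : E2 B} {ψ : ℂ → ℂ} (hψ : DifferentiableOn ℂ ψ A.carrier)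
    (hgu : ∀ z ∈ A.carrier, gu.fn z = ψ z * u.fn z) (hu : ∃ z ∈ A.carrier, u.fn z ≠ 0)
    {P : ℕ → Polynomial ℂ} (hP : Tendsto (fun n => mulP (P n) u) atTop (𝓝 gu))
    (hann : Ann yA yB u v)
    (hout : ∀ z, z ∉ closure (A.carrier ∪ B.carrier) → RR yA yB u v z = 0) {ζ : ℂ}
    (hζ : ζ ∉ closure B.carrier) :
    ∃ ρ : ℝ, 0 < ρ ∧ ball ζ ρ ⊆ (closure B.carrier)ᶜ ∧ ∃ H : ℂ → ℂ, DifferentiableOn ℂ H (ball ζ ρ) ∧
      (∀ z ∈ ball ζ ρ, z ∈ A.carrier → H z = RR yA yB gu gv z - ψ z * RR yA yB u v z) ∧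
      (∀ z ∈ ball ζ ρ, z ∉ closure A.carrier → H z = RR yA yB gu gv z) := by
  classical
  obtain ⟨ρ', hρ', hsub'⟩ := Metric.isOpen_iff.mp isClosed_closure.isOpen_compl ζ hζ
  set ρ := ρ' / 2 with hρdef
  have hρ : 0 < ρ := by positivity
  have h2ρ : 2 * ρ = ρ' := by rw [hρdef]; ring
  have hsub : ball ζ (2 * ρ) ⊆ (closure B.carrier)ᶜ := by rw [h2ρ]; exact hsub'
  set Γ := frontier A.carrier ∪ frontier B.carrier with hΓ
  have hΓc : IsClosed Γ := isClosed_frontier.union isClosed_frontier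
  have hΓn : Γ.Nonempty := (frontier_nonempty A).inl
  obtain ⟨C₁, hC₁, hΓa⟩ := area_union hA hB
  obtain ⟨K₁, N₁, hK₁, hN₁, hRR⟩ := RR_bound hA hB yA yB
  obtain ⟨c, M, hc, hM, hlow⟩ := hA.one_sub_lower
  set H : ℕ → ℂ → ℂ := fun n z => yB (remE (gv - mulP (P n) v) z) with hH
  -- the formula for `H n`
  have hfB : ∀ z ∈ ball ζ (2 * ρ), z ∉ frontier B.carrier := fun z hz hf =>
    hsub hz (frontier_subset_closure hf)
  have hBz : ∀ z ∈ ball ζ (2 * ρ), z ∉ B.carrier := fun z hz hf =>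
    hsub hz (subset_closure hf)
  have hform : ∀ n, ∀ z ∈ ball ζ (2 * ρ), z ∉ frontier A.carrier → H n z =
      yB (remE gv z) + yA (remE (mulP (P n) u) z) - (P n).eval z * RR yA yB u v z := by
    intro n z hz hzA
    have h1 := hann.RR_mulP hA hB (P n) hzA (hfB z hz)
    rw [hH]
    simp only
    rw [remE_sub hB _ _ (hfB z hz), map_sub, ← h1, RR]
    ring
  -- norm bound
  obtain ⟨R₀, hR₀⟩ : ∃ R₀ : ℝ, ∀ n, ‖mulP (P n) u‖ ≤ R₀ := by
    obtain ⟨R₀, hR₀⟩ := hP.norm.bddAbove_range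
    exact ⟨R₀, fun n => hR₀ ⟨n, rfl⟩⟩
  have hR₀0 : 0 ≤ R₀ := (norm_nonneg _).trans (hR₀ 0)
  obtain ⟨K₃, hK₃, hψb⟩ := psi_bound hA u hu R₀
  set K₂ : ℝ := K₁ * ‖gv‖ + K₁ * R₀ + (K₁ * ‖u‖ + K₁ * ‖v‖) with hK₂
  have hK₂0 : 0 ≤ K₂ := by positivity
  have hbd : ∀ n, ∀ z ∈ ball ζ (2 * ρ), 0 < infDist z Γ → Real.posLog ‖H n z‖ ≤
      (Real.posLog K₂ + N₁ + Real.log 2 + K₃ / c) * fd Γ z ^ (-(max 1 M)) := by
    intro n z hz hzΓ
    have hzn : z ∉ Γ := (hΓc.notMem_iff_infDist_pos hΓn).mpr hzΓ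
    have hzA : z ∉ frontier A.carrier := fun h => hzn (Or.inl h)
    have hzB : z ∉ frontier B.carrier := fun h => hzn (Or.inr h)
    have ht0 : 0 < fd Γ z := lt_min one_pos hzΓ
    have ht1 : fd Γ z ≤ 1 := fd_le_one _ _
    have hp := hRR (mulP (P n) u) gv z hzA hzB
    have hq := hRR u v z hzA hzB
    have hT0 : 0 ≤ fd Γ z ^ (-N₁) := Real.rpow_nonneg ht0.le _
    by_cases hzin : z ∈ A.carrier
    · have hPb : Real.posLog ‖(P n).eval z‖ ≤ K₃ / c * fd Γ z ^ (-M) := by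
        have h1 := hψb (mulP (P n) u) (fun z => (P n).eval z) (hR₀ n)
          ((P n).differentiable.differentiableOn) (fun w _ => (mulP_fn _ _ _).symm) z hzin
        refine h1.trans ?_
        have h2 := hlow z hzin
        have h3 : fd Γ z ≤ A.dist z :=
          ((fd_le _ _).trans (infDist_le_infDist_of_subset subset_union_left
            (frontier_nonempty A))).trans (infDist_frontier_le A hzin)
        have h4 : c * fd Γ z ^ M ≤ 1 - ‖A.inv z‖ :=
          (mul_le_mul_of_nonneg_left (Real.rpow_le_rpow ht0.le h3 hM.le) hc.le).trans h2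
        have h5 : 0 < c * fd Γ z ^ M := mul_pos hc (Real.rpow_pos_of_pos ht0 _)
        calc K₃ / (1 - ‖A.inv z‖) ≤ K₃ / (c * fd Γ z ^ M) := by gcongr
          _ = K₃ / c * fd Γ z ^ (-M) := by rw [Real.rpow_neg ht0.le]; field_simp
      refine posLog_bound hK₂0 hN₁.le (by positivity) ht0 ht1 (norm_nonneg _) (norm_nonneg _) ?_ hPb
      rw [hform n z hz hzA]
      have e1 : ‖yB (remE gv z) + yA (remE (mulP (P n) u) z) - (P n).eval z * RR yA yB u v z‖ ≤
          K₁ * ‖gv‖ * fd Γ z ^ (-N₁) + K₁ * R₀ * fd Γ z ^ (-N₁) + ‖(P n).eval z‖ *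
            ((K₁ * ‖u‖ + K₁ * ‖v‖) * fd Γ z ^ (-N₁)) := by
        refine (norm_sub_le _ _).trans (add_le_add ((norm_add_le _ _).trans
          (add_le_add hp.2 (hp.1.trans ?_))) ?_)
        · gcongr
          exact hR₀ n
        · rw [norm_mul, add_mul]
          refine mul_le_mul_of_nonneg_left ((norm_add_le _ _).trans (add_le_add hq.1 hq.2))
            (norm_nonneg _)
      refine e1.trans ?_
      rw [hK₂]
      have p0 : 0 ≤ ‖(P n).eval z‖ := norm_nonneg _
      have q1 : 0 ≤ K₁ * ‖gv‖ := by positivity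
      have q2 : 0 ≤ K₁ * R₀ := by positivity
      have q3 : 0 ≤ K₁ * ‖u‖ + K₁ * ‖v‖ := by positivity
      generalize K₁ * ‖gv‖ = a1 at *
      generalize K₁ * R₀ = a2 at *
      generalize K₁ * ‖u‖ + K₁ * ‖v‖ = a3 at *
      generalize fd Γ z ^ (-N₁) = T at *
      generalize ‖(P n).eval z‖ = p at *
      have r1 : 0 ≤ a1 * T * p := by positivity
      have r2 : 0 ≤ a2 * T * p := by positivity
      have r3 : 0 ≤ a3 * T := by positivity
      nlinarith
    · have hzc : z ∉ closure A.carrier := notMem_closure A hzA hzin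
      have hzo : z ∉ closure (A.carrier ∪ B.carrier) := by
        rw [closure_union]
        rintro (h | h)
        · exact hzc h
        · exact hsub hz h
      have e0 := hout z hzo
      refine posLog_bound (p := 0) hK₂0 hN₁.le (by positivity : (0 : ℝ) ≤ K₃ / c) ht0 ht1 le_rfl
        (norm_nonneg _) ?_ ?_
      · rw [hform n z hz hzA, e0, mul_zero, sub_zero, add_zero, mul_one]
        refine (norm_add_le _ _).trans ?_
        have e1 : K₁ * ‖mulP (P n) u‖ * fd Γ z ^ (-N₁) ≤ K₁ * R₀ * fd Γ z ^ (-N₁) := by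
          gcongr; exact hR₀ n
        have e2 : 0 ≤ (K₁ * ‖u‖ + K₁ * ‖v‖) * fd Γ z ^ (-N₁) := by positivity
        calc _ ≤ K₁ * ‖gv‖ * fd Γ z ^ (-N₁) + K₁ * R₀ * fd Γ z ^ (-N₁) :=
              add_le_add hp.2 (hp.1.trans e1)
          _ ≤ K₁ * ‖gv‖ * fd Γ z ^ (-N₁) + K₁ * R₀ * fd Γ z ^ (-N₁) +
              (K₁ * ‖u‖ + K₁ * ‖v‖) * fd Γ z ^ (-N₁) := by linarith
          _ = K₂ * fd Γ z ^ (-N₁) := by rw [hK₂]; ring
      · rw [Real.posLog_zero]
        have : 0 ≤ fd Γ z ^ (-M) := Real.rpow_nonneg ht0.le _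
        positivity
  have hHd : ∀ n, DifferentiableOn ℂ (H n) (ball ζ (2 * ρ)) := fun n =>
    (rem_analytic hB (gv - mulP (P n) v) yB).mono hsub
  obtain ⟨Mb, hMb⟩ := bound_apriori hC₁ hΓa
    (K := Real.posLog K₂ + N₁ + Real.log 2 + K₃ / c) (N := max 1 M)
    (by have := le_max_left 1 M; linarith) hρ ζ
  have hMb' : ∀ n, ∀ z ∈ ball ζ ρ, ‖H n z‖ ≤ Mb := fun n => hMb (H n) (hHd n) (hbd n)
  have hρ2 : ball ζ ρ ⊆ ball ζ (2 * ρ) := ball_subset_ball (by linarith)
  -- pointwise limit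
  obtain ⟨ψ', hψ'd, hψ'e, hψ'l⟩ := exists_psi u gu hu P (fun n => mulP (P n) u)
    (fun n z _ => mulP_fn _ _ _) hP
  have hψψ := psi_unique hu hψ hψ'd hgu hψ'e
  have hlim : ∀ z ∈ (frontier A.carrier)ᶜ ∩ ball ζ ρ, Tendsto (fun n => H n z) atTop
      (𝓝 (if z ∈ A.carrier then RR yA yB gu gv z - ψ z * RR yA yB u v z
        else RR yA yB gu gv z)) := by
    rintro z ⟨hzA, hz⟩
    have hz2 := hρ2 hz
    have l1 : Tendsto (fun n => yA (remE (mulP (P n) u) z)) atTop (𝓝 (yA (remE gu z))) := by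
      rw [tendsto_iff_norm_sub_tendsto_zero]
      have h1 : Tendsto (fun n => K₁ * ‖mulP (P n) u - gu‖ * fd Γ z ^ (-N₁)) atTop (𝓝 0) := by
        have := tendsto_iff_norm_sub_tendsto_zero.mp hP
        simpa using (this.const_mul K₁).mul_const (fd Γ z ^ (-N₁))
      refine squeeze_zero (fun n => norm_nonneg _) (fun n => ?_) h1
      rw [← map_sub, ← remE_sub hA _ _ hzA]
      exact (hRR (mulP (P n) u - gu) v z hzA (hfB z hz2)).1
    split_ifs with hin
    · have l2 : Tendsto (fun n => (P n).eval z) atTop (𝓝 (ψ z)) := by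
        rw [hψψ z hin]; exact hψ'l z hin
      have l3 := (tendsto_const_nhds (x := yB (remE gv z))).add l1 |>.sub
        (l2.mul_const (RR yA yB u v z))
      have e : yB (remE gv z) + yA (remE gu z) - ψ z * RR yA yB u v z =
          RR yA yB gu gv z - ψ z * RR yA yB u v z := by rw [RR, RR]; ring
      rw [← e]
      exact l3.congr fun n => (hform n z hz2 hzA).symm
    · have hzc : z ∉ closure A.carrier := notMem_closure A hzA hin
      have hzo : z ∉ closure (A.carrier ∪ B.carrier) := by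
        rw [closure_union]
        rintro (h | h)
        · exact hzc h
        · exact hsub hz2 h
      have l3 := (tendsto_const_nhds (x := yB (remE gv z))).add l1
      have e : yB (remE gv z) + yA (remE gu z) = RR yA yB gu gv z := by rw [RR]; ring
      rw [← e]
      refine l3.congr fun n => ?_
      rw [hform n z hz2 hzA, hout z hzo, mul_zero, sub_zero]
  have hdense : ball ζ ρ ⊆ closure (frontier A.carrier)ᶜ := by
    rw [closure_compl, interior_frontier_open A.isOpen, compl_empty]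
    exact subset_univ _
  obtain ⟨H₀, hH₀d, hH₀⟩ := vitali hρ (fun n => (hHd n).mono hρ2) hMb' hdense _ hlim
  refine ⟨ρ, hρ, hρ2.trans hsub, H₀, hH₀d, fun z hz hin => ?_, fun z hz hout' => ?_⟩
  · have h1 := hH₀ z ⟨fun hf => A.isOpen.inter_frontier_eq.le ⟨hin, hf⟩, hz⟩
    rw [if_pos hin] at h1
    exact h1
  · have h1 := hH₀ z ⟨fun hf => hout' (frontier_subset_closure hf), hz⟩
    rw [if_neg fun h => hout' (subset_closure h)] at h1
    exact h1

lemma RR_comm (yA : E2 A →L[ℂ] ℂ) (yB : E2 B →L[ℂ] ℂ) (u : E2 A) (v : E2 B) (z : ℂ) :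
    RR yB yA v u z = RR yA yB u v z := by
  rw [RR, RR, add_comm]

lemma TE_eq (hD : D.Regular) {G : Set ℂ} (hG : IsOpen G) (hDG : D.carrier ⊆ G) {ψ : ℂ → ℂ}
    (hψ : DifferentiableOn ℂ ψ G) (f g : E2 D) (hg : ∀ z ∈ D.carrier, g.fn z = ψ z * f.fn z)
    {z₀ : ℂ} (hz₀ : z₀ ∈ G) (hfr : z₀ ∉ frontier D.carrier) :
    TE ψ f z₀ = remE g z₀ - ψ z₀ • remE f z₀ := by
  have hgood : Good D (fun z => ψ z * f.fn z) :=
    ⟨(hψ.mono hDG).mul f.diff, by
      rw [smirnovNorm_congr (D := D) (G := g.fn) fun z hz => (hg z hz).symm]; exact g.fin⟩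
  have h1 := (TE_analytic hG hDG hψ f hgood 0).2 z₀ hz₀
  refine ext_off (finite_singleton z₀) fun z hz hne => ?_
  have hg0 : g.fn z₀ = ψ z₀ * f.fn z₀ := by
    by_cases h : z₀ ∈ D.carrier
    · exact hg z₀ h
    · rw [g.off h, f.off h, mul_zero]
  rw [TE, toE_fn h1 hz, E2.fn_sub, Pi.sub_apply, E2.fn_smul, Pi.smul_apply,
    remE_fn_ne hD _ hfr hz hne, remE_fn_ne hD _ hfr hz hne, dslope_of_ne _ hne, slope_def_field,
    hg z hz, hg0, smul_eq_mul]
  ring

variable {ξ ξ' : ℂ} {f g : EP A B} {ψ : ℂ → ℂ} {yA : E2 A →L[ℂ] ℂ} {yB : E2 B →L[ℂ] ℂ}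

/-- Q1. existence of the resolvent function -/
theorem res_exists (hc : Conf A B ξ ξ') (hm : Mult f g ψ) (hann : Ann yA yB f.fst f.snd) :
    ∃ E : ℂ → ℂ, Res yA yB f g ψ ξ ξ' E := by
  classical
  set G := A.carrier ∪ B.carrier with hG
  have hGo : IsOpen G := A.isOpen.union B.isOpen
  have hAG : A.carrier ⊆ G := subset_union_left
  have hBG : B.carrier ⊆ G := subset_union_right
  have hgA : Good A (fun z => ψ z * f.fst.fn z) :=
    ⟨(hm.diff.mono hAG).mul f.fst.diff, by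
      rw [smirnovNorm_congr (D := A) (G := g.fst.fn) fun z hz => (hm.eqA z hz).symm]
      exact g.fst.fin⟩
  have hgB : Good B (fun z => ψ z * f.snd.fn z) :=
    ⟨(hm.diff.mono hBG).mul f.snd.diff, by
      rw [smirnovNorm_congr (D := B) (G := g.snd.fn) fun z hz => (hm.eqB z hz).symm]
      exact g.snd.fin⟩
  set Ein : ℂ → ℂ := fun z => yA (TE ψ f.fst z) + yB (TE ψ f.snd z) with hEin
  have hEind : DifferentiableOn ℂ Ein G :=
    (TE_analytic hGo hAG hm.diff f.fst hgA yA).1.add (TE_analytic hGo hBG hm.diff f.snd hgB yB).1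
  have hEinf : ∀ z ∈ G, z ∉ frontier A.carrier → z ∉ frontier B.carrier →
      Ein z = RR yA yB g.fst g.snd z - ψ z * RR yA yB f.fst f.snd z := by
    intro z hz hzA hzB
    rw [hEin]
    simp only
    rw [TE_eq hc.regA hGo hAG hm.diff f.fst g.fst hm.eqA hz hzA,
      TE_eq hc.regB hGo hBG hm.diff f.snd g.snd hm.eqB hz hzB, map_sub, map_sub, map_smul,
      map_smul, smul_eq_mul, smul_eq_mul, RR, RR]
    ring
  set F := frontier G with hF
  have hFc : IsClosed F := isClosed_frontier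
  have hF0 : interior F = ∅ := interior_frontier_open hGo
  have hclos : closure G = closure A.carrier ∪ closure B.carrier := closure_union
  set E₀ : ℂ → ℂ := fun z => if z ∈ G then Ein z else RR yA yB g.fst g.snd z with hE₀
  have hRRd : DifferentiableOn ℂ (RR yA yB g.fst g.snd) (closure G)ᶜ := by
    refine DifferentiableOn.add ((rem_analytic hc.regA g.fst yA).mono ?_)
      ((rem_analytic hc.regB g.snd yB).mono ?_)
    · rw [hclos]; exact compl_subset_compl.mpr subset_union_left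
    · rw [hclos]; exact compl_subset_compl.mpr subset_union_right
  have hGF : ∀ z, z ∉ F → z ∈ G ∨ z ∉ closure G := by
    intro z hz
    by_contra hcon
    push Not at hcon
    exact hz (by rw [hF, hGo.frontier_eq]; exact ⟨hcon.2, hcon.1⟩)
  have hE₀d : DifferentiableOn ℂ E₀ Fᶜ := by
    intro z hz
    rcases hGF z hz with h | h
    · have h1 : DifferentiableAt ℂ Ein z := (hEind z h).differentiableAt (hGo.mem_nhds h)
      refine (h1.congr_of_eventuallyEq ?_).differentiableWithinAt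
      filter_upwards [hGo.mem_nhds h] with w hw
      rw [hE₀]; simp only; rw [if_pos hw]
    · have h1 : DifferentiableAt ℂ (RR yA yB g.fst g.snd) z :=
        (hRRd z h).differentiableAt (isClosed_closure.isOpen_compl.mem_nhds h)
      refine (h1.congr_of_eventuallyEq ?_).differentiableWithinAt
      filter_upwards [isClosed_closure.isOpen_compl.mem_nhds h] with w hw
      rw [hE₀]; simp only; rw [if_neg fun h' => hw (subset_closure h')]
  have houtf : ∀ z, z ∉ closure (A.carrier ∪ B.carrier) → RR yA yB f.fst f.snd z = 0 :=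
    fun z hz => ann_out hc hann hz
  have hSF : ({ξ, ξ'} : Set ℂ) ⊆ F := by
    rw [← hc.corners]
    rintro z ⟨hzA, hzB⟩
    rw [hF, hGo.frontier_eq]
    refine ⟨by rw [hclos]; exact Or.inl (frontier_subset_closure hzA), ?_⟩
    rintro (h | h)
    · exact A.isOpen.inter_frontier_eq.le ⟨h, hzA⟩
    · exact B.isOpen.inter_frontier_eq.le ⟨h, hzB⟩
  have hloc : ∀ ζ ∈ F \ {ξ, ξ'}, ∃ ρ : ℝ, 0 < ρ ∧ ∃ H : ℂ → ℂ, DifferentiableOn ℂ H (ball ζ ρ) ∧
      ∀ z ∈ ball ζ ρ \ F, H z = E₀ z := by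
    rintro ζ ⟨hζF, hζS⟩
    rw [hF, hGo.frontier_eq] at hζF
    have hζA : ζ ∉ A.carrier := fun h => hζF.2 (Or.inl h)
    have hζB : ζ ∉ B.carrier := fun h => hζF.2 (Or.inr h)
    have hnot : ¬ (ζ ∈ closure A.carrier ∧ ζ ∈ closure B.carrier) := by
      rintro ⟨h1, h2⟩
      apply hζS
      rw [← hc.corners, A.isOpen.frontier_eq, B.isOpen.frontier_eq]
      exact ⟨⟨h1, hζA⟩, ⟨h2, hζB⟩⟩
    by_cases hcB : ζ ∈ closure B.carrier
    · -- swap the roles
      have hcA : ζ ∉ closure A.carrier := fun h => hnot ⟨h, hcB⟩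
      obtain ⟨P, hP⟩ := hm.limB
      have hann' : Ann yB yA f.snd f.fst := fun P => by rw [add_comm]; exact hann P
      obtain ⟨ρ, hρ, hsub, H, hHd, h1, h2⟩ := local_ext (gv := g.fst) hc.regB hc.regA
        (hm.diff.mono hBG) hm.eqB hm.neB hP hann' (fun z hz => by
          rw [RR_comm]; exact houtf z (by rw [union_comm]; exact hz)) hcA
      refine ⟨ρ, hρ, H, hHd, fun z hz => ?_⟩
      have hzA : z ∉ closure A.carrier := hsub hz.1
      rcases hGF z hz.2 with h | h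
      · have hzB : z ∈ B.carrier := h.resolve_left fun h' => hzA (subset_closure h')
        rw [h1 z hz.1 hzB, hE₀]
        simp only
        rw [if_pos h, hEinf z h (fun h' => hzA (frontier_subset_closure h'))
          (fun h' => B.isOpen.inter_frontier_eq.le ⟨hzB, h'⟩),
          RR_comm yA yB g.fst g.snd z, RR_comm yA yB f.fst f.snd z]
      · rw [h2 z hz.1 (fun h' => h (by rw [hclos]; exact Or.inr h')), hE₀]
        simp only
        rw [if_neg fun h' => h (subset_closure h'), RR_comm]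
    · obtain ⟨P, hP⟩ := hm.limA
      obtain ⟨ρ, hρ, hsub, H, hHd, h1, h2⟩ := local_ext (gv := g.snd) hc.regA hc.regB
        (hm.diff.mono hAG) hm.eqA hm.neA hP hann houtf hcB
      refine ⟨ρ, hρ, H, hHd, fun z hz => ?_⟩
      have hzB : z ∉ closure B.carrier := hsub hz.1
      rcases hGF z hz.2 with h | h
      · have hzA : z ∈ A.carrier := h.resolve_right fun h' => hzB (subset_closure h')
        rw [h1 z hz.1 hzA, hE₀]
        simp only
        rw [if_pos h, hEinf z h (fun h' => A.isOpen.inter_frontier_eq.le ⟨hzA, h'⟩)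
          (fun h' => hzB (frontier_subset_closure h'))]
      · rw [h2 z hz.1 (fun h' => h (by rw [hclos]; exact Or.inl h')), hE₀]
        simp only
        rw [if_neg fun h' => h (subset_closure h')]
  obtain ⟨E, hEd, hE⟩ := glue_analytic hFc hF0 hSF hE₀d hloc
  refine ⟨E, hEd, fun z hz hzA hzB => ?_, fun z hz => ?_⟩
  · have : z ∉ F := fun h => hGo.inter_frontier_eq.le ⟨hz, h⟩
    rw [hE z this, hE₀]
    simp only
    rw [if_pos hz, hEinf z hz hzA hzB]
  · have : z ∉ F := fun h => hz (frontier_subset_closure h)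
    rw [hE z this, hE₀]
    simp only
    rw [if_neg fun h' => hz (subset_closure h')]

end MP2c3e4e
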