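import Pool.Agent.Lib_MP_2c3e4e_an.Defs4
import Pool.Agent.Lib_MP_2c3e4e_an.K1

open MeasureTheory Set Metric Filter Topology
open scoped ENNReal Real

namespace MP2c3e4e

variable {A B : Dom} {ξ ξ' : ℂ} {τ a₁ b₁ a₂ b₂ : ℝ}

/-- geometry of one sector along good directions -/
lemma q2a_geom (D : Dom) {a b : ℝ} (hτa : τ < a) (hab : a < b) (hbτ : b < τ + 2 * π)
    (hsec : SectorAt D.carrier ξ τ a b) {ε : ℝ} (hε : 0 < ε) :
    ∃ c r₁ : ℝ, 0 < c ∧ 0 < r₁ ∧ ∀ r ∈ Ioo 0 r₁, ∀ θ ∈ Icc τ (τ + 2 * π),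
      2 * ε ≤ |θ - a| → 2 * ε ≤ |θ - b| →
      ξ + r * Complex.exp (θ * Complex.I) ∉ frontier D.carrier ∧
      (∀ w ∈ frontier D.carrier, c * r ≤ dist (ξ + r * Complex.exp (θ * Complex.I)) w) ∧
      (θ ∈ Icc a b → ξ + r * Complex.exp (θ * Complex.I) ∈ D.carrier) ∧
      (θ ∉ Icc a b → ξ + r * Complex.exp (θ * Complex.I) ∉ closure D.carrier) := by
  obtain ⟨c, r₁, hc, hr₁, h1⟩ := frontier_far D.isOpen hτa hab hbτ hsec hε
  obtain ⟨r₂, hr₂, h2⟩ := hsec ε hε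
  refine ⟨c, min r₁ r₂, hc, lt_min hr₁ hr₂, fun r hr θ hθ ha hb => ?_⟩
  have hr1 : r ∈ Ioo 0 r₁ := ⟨hr.1, hr.2.trans_le (min_le_left _ _)⟩
  have hr2 : r ∈ Ioo 0 r₂ := ⟨hr.1, hr.2.trans_le (min_le_right _ _)⟩
  have h3 := h1 r hr1 θ hθ ha hb
  obtain ⟨h4, h5⟩ := h2 r hr2 θ hθ
  have hfr : ξ + r * Complex.exp (θ * Complex.I) ∉ frontier D.carrier := by
    intro h
    have := h3 _ h
    rw [sub_self, norm_zero] at this
    have h6 : 0 < c * r := mul_pos hc hr.1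
    linarith
  refine ⟨hfr, fun w hw => by rw [dist_eq_norm]; exact h3 w hw, fun hm => ?_, fun hm => ?_⟩
  · apply h4
    · rw [abs_of_nonneg (by linarith [hm.1])] at ha
      linarith
    · rw [abs_of_nonpos (by linarith [hm.2])] at hb
      linarith
  · refine notMem_closure D hfr fun hin => ?_
    obtain ⟨h6, h7⟩ := h5 hin
    apply hm
    constructor
    · by_contra hlt
      push Not at hlt
      rw [abs_of_neg (by linarith)] at ha
      linarith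
    · by_contra hlt
      push Not at hlt
      rw [abs_of_pos (by linarith)] at hb
      linarith

/-- Q2a. geometry and polynomial growth along good directions -/
theorem RR_dir (hA : A.Regular) (hB : B.Regular) (hk : Corner A B ξ τ a₁ b₁ a₂ b₂)
    (yA : E2 A →L[ℂ] ℂ) (yB : E2 B →L[ℂ] ℂ) (u : E2 A) (v : E2 B) {ε : ℝ} (hε : 0 < ε) :
    ∃ C N r₀ : ℝ, 0 < r₀ ∧ ∀ r ∈ Ioo 0 r₀, ∀ θ ∈ Icc τ (τ + 2 * π),
      2 * ε ≤ |θ - a₁| → 2 * ε ≤ |θ - b₁| → 2 * ε ≤ |θ - a₂| → 2 * ε ≤ |θ - b₂| →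
      ξ + r * Complex.exp (θ * Complex.I) ∉ frontier A.carrier ∧
      ξ + r * Complex.exp (θ * Complex.I) ∉ frontier B.carrier ∧
      ‖RR yA yB u v (ξ + r * Complex.exp (θ * Complex.I))‖ ≤ C * r ^ (-N) ∧
      (θ ∈ Icc a₁ b₁ → ξ + r * Complex.exp (θ * Complex.I) ∈ A.carrier) ∧
      (θ ∈ Icc a₂ b₂ → ξ + r * Complex.exp (θ * Complex.I) ∈ B.carrier) ∧
      (θ ∉ Icc a₁ b₁ → θ ∉ Icc a₂ b₂ →
        ξ + r * Complex.exp (θ * Complex.I) ∉ closure (A.carrier ∪ B.carrier)) := by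
  obtain ⟨c₁, r₁, hc₁, hr₁, h₁⟩ := q2a_geom A hk.sec.h1 hk.sec.h5 hk.sec.h3 hk.secA hε
  obtain ⟨c₂, r₂, hc₂, hr₂, h₂⟩ := q2a_geom B hk.sec.h2 hk.sec.h6 hk.sec.h4 hk.secB hε
  obtain ⟨K, N, hK, hN, hb⟩ := RR_bound hA hB yA yB
  set c := min c₁ c₂ with hc
  have hc0 : 0 < c := lt_min hc₁ hc₂
  refine ⟨K * (‖u‖ + ‖v‖) * c ^ (-N), N, min (min r₁ r₂) (1 / c),
    lt_min (lt_min hr₁ hr₂) (by positivity), fun r hr θ hθ ha1 hb1 ha2 hb2 => ?_⟩
  have hr1 : r ∈ Ioo 0 r₁ :=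
    ⟨hr.1, hr.2.trans_le ((min_le_left _ _).trans (min_le_left _ _))⟩
  have hr2 : r ∈ Ioo 0 r₂ :=
    ⟨hr.1, hr.2.trans_le ((min_le_left _ _).trans (min_le_right _ _))⟩
  have hrc : r ≤ 1 / c := hr.2.le.trans (min_le_right _ _)
  have hcr : c * r ≤ 1 := by
    rw [le_div_iff₀ hc0] at hrc
    linarith
  have hcr0 : 0 < c * r := mul_pos hc0 hr.1
  obtain ⟨p1, p2, p3, p4⟩ := h₁ r hr1 θ hθ ha1 hb1
  obtain ⟨q1, q2, q3, q4⟩ := h₂ r hr2 θ hθ ha2 hb2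
  refine ⟨p1, q1, ?_, p3, q3, fun h h' => ?_⟩
  · obtain ⟨k1, k2⟩ := hb u v _ p1 q1
    have hfd : c * r ≤ fd (frontier A.carrier ∪ frontier B.carrier)
        (ξ + r * Complex.exp (θ * Complex.I)) := by
      refine le_min hcr ?_
      refine (le_infDist (frontier_nonempty A).inl).mpr ?_
      rintro w (hw | hw)
      · exact (mul_le_mul_of_nonneg_right (min_le_left _ _) hr.1.le).trans (p2 w hw)
      · exact (mul_le_mul_of_nonneg_right (min_le_right _ _) hr.1.le).trans (q2 w hw)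
    have hpow : fd (frontier A.carrier ∪ frontier B.carrier)
        (ξ + r * Complex.exp (θ * Complex.I)) ^ (-N) ≤ c ^ (-N) * r ^ (-N) := by
      rw [← Real.mul_rpow hc0.le hr.1.le]
      exact Real.rpow_le_rpow_of_nonpos hcr0 hfd (by linarith)
    calc ‖RR yA yB u v (ξ + r * Complex.exp (θ * Complex.I))‖
        ≤ ‖yA (remE u (ξ + r * Complex.exp (θ * Complex.I)))‖ +
          ‖yB (remE v (ξ + r * Complex.exp (θ * Complex.I)))‖ := norm_add_le _ _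
      _ ≤ K * ‖u‖ * (c ^ (-N) * r ^ (-N)) + K * ‖v‖ * (c ^ (-N) * r ^ (-N)) := by
          refine add_le_add (k1.trans ?_) (k2.trans ?_)
          · exact mul_le_mul_of_nonneg_left hpow (by positivity)
          · exact mul_le_mul_of_nonneg_left hpow (by positivity)
      _ = K * (‖u‖ + ‖v‖) * c ^ (-N) * r ^ (-N) := by ring
  · rw [closure_union]
    rintro (h3 | h3)
    · exact p4 h h3
    · exact q4 h' h3

end MP2c3e4e
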