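import Pool.Agent.Lib_MP_2c3e4e_an.Defs3
import Pool.Agent.Lib_MP_2c3e4e_an.D
import Pool.Agent.Lib_MP_2c3e4e_an.G3

/-!
Q2b: growth of `ψ` in a sector of `D`.
-/

open MeasureTheory Set Metric Filter Topology
open scoped ENNReal Real

namespace MP2c3e4e

/-- Q2b. growth of `ψ` in a sector of `D` -/
theorem psi_dir {ξ : ℂ} {ψ : ℂ → ℂ} {τ : ℝ} {D : Dom} (hD : D.Regular) {a b : ℝ} (hτa : τ < a) (hab : a < b)
    (hbτ : b < τ + 2 * π) (hsec : SectorAt D.carrier ξ τ a b) (f g : E2 D)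
    (hf : ∃ z ∈ D.carrier, f.fn z ≠ 0) (hψ : DifferentiableOn ℂ ψ D.carrier)
    (hg : ∀ z ∈ D.carrier, g.fn z = ψ z * f.fn z) {θ σ : ℝ} (hθ : θ ∈ Ioo a b)
    (hσ : π / (b - a) < σ) : GrowthAt ψ ξ {θ} σ := by
  have hπ := Real.pi_pos
  have hba : 0 < b - a := by linarith
  have hσ0 : 0 < σ := (div_pos hπ hba).trans hσ
  have hπσ : π / σ < b - a := by
    rw [div_lt_iff₀ hba] at hσ
    rw [div_lt_iff₀ hσ0]
    linarith
  obtain ⟨ε, hε, h1, h2, h3⟩ : ∃ ε : ℝ, 0 < ε ∧ a + 2 * ε < θ ∧ θ < b - 2 * ε ∧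
      π / σ < b - a - 2 * ε := by
    refine ⟨min (min ((θ - a) / 4) ((b - θ) / 4)) ((b - a - π / σ) / 4), ?_, ?_, ?_, ?_⟩
    · refine lt_min (lt_min ?_ ?_) ?_
      · linarith [hθ.1]
      · linarith [hθ.2]
      · linarith
    · have := (min_le_left (min ((θ - a) / 4) ((b - θ) / 4)) ((b - a - π / σ) / 4)).trans
        (min_le_left _ _)
      linarith [hθ.1]
    · have := (min_le_left (min ((θ - a) / 4) ((b - θ) / 4)) ((b - a - π / σ) / 4)).trans
        (min_le_right _ _)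
      linarith [hθ.2]
    · have := min_le_right (min ((θ - a) / 4) ((b - θ) / 4)) ((b - a - π / σ) / 4)
      linarith
  have hw : 0 < (b - ε) - (a + ε) := by
    have := div_pos hπ hσ0
    linarith
  have hρσ : π / ((b - ε) - (a + ε)) < σ := by
    rw [div_lt_iff₀ hσ0] at h3
    rw [div_lt_iff₀ hw]
    nlinarith
  obtain ⟨r₀, hr₀, hs⟩ := hsec ε hε
  obtain ⟨c, r₁, hc, hr₁, hlow⟩ := sector_lower (D := D.carrier) (inv := D.inv) D.holo_inv
    D.maps_inv (ξ := ξ) (a := a + ε) (b := b - ε) (r₀ := r₀) (by linarith) (by linarith) hr₀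
    (fun r t hr hr' hat htb =>
      (hs r ⟨hr, hr'⟩ t ⟨by linarith, by linarith⟩).1 hat htb) hε
  obtain ⟨K, hK, hpsi⟩ := psi_bound hD f hf ‖g‖
  refine ⟨K / c, min (min r₀ r₁) 1, lt_min (lt_min hr₀ hr₁) one_pos, ?_⟩
  intro r hr t ht
  rw [mem_singleton_iff] at ht
  subst ht
  have hr0 : 0 < r := hr.1
  have hrr₀ : r < r₀ := hr.2.trans_le ((min_le_left _ _).trans (min_le_left _ _))
  have hrr₁ : r < r₁ := hr.2.trans_le ((min_le_left _ _).trans (min_le_right _ _))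
  have hr1 : r < 1 := hr.2.trans_le (min_le_right _ _)
  have hzD : ξ + r * Complex.exp (t * Complex.I) ∈ D.carrier :=
    (hs r ⟨hr0, hrr₀⟩ t ⟨by linarith, by linarith⟩).1 (by linarith) (by linarith)
  have hl := hlow r t hr0 hrr₁ (by linarith) (by linarith)
  have hp := hpsi g ψ le_rfl hψ (fun z hz => (hg z hz).symm) _ hzD
  refine hp.trans ?_
  have hpos : 0 < c * r ^ (π / ((b - ε) - (a + ε))) := mul_pos hc (Real.rpow_pos_of_pos hr0 _)
  calc K / (1 - ‖D.inv (ξ + r * Complex.exp (t * Complex.I))‖)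
      ≤ K / (c * r ^ (π / ((b - ε) - (a + ε)))) := by gcongr
    _ = K / c * r ^ (-(π / ((b - ε) - (a + ε)))) := by
        rw [Real.rpow_neg hr0.le, ← div_div, ← div_eq_mul_inv]
    _ ≤ K / c * r ^ (-σ) := by
        have : r ^ (-(π / ((b - ε) - (a + ε)))) ≤ r ^ (-σ) :=
          Real.rpow_le_rpow_of_exponent_ge hr0 hr1.le (by linarith)
        have hKc : 0 ≤ K / c := (div_pos hK hc).le
        exact mul_le_mul_of_nonneg_left this hKc

end MP2c3e4e
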