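import Pool.Agent.Lib_MP_2c3e4e_an.G3
import Pool.Agent.Lib_MP_2c3e4e_an.Defs4

/-!
Q2c: a priori bound for the resolvent function.
-/

open MeasureTheory Set Metric Filter Topology
open scoped ENNReal Real

namespace MP2c3e4e

variable {A B : Dom} {ξ ξ' : ℂ} {f g : EP A B} {ψ : ℂ → ℂ} {E : ℂ → ℂ}
  {yA : E2 A →L[ℂ] ℂ} {yB : E2 B →L[ℂ] ℂ}

lemma posLog_le_self {x : ℝ} (hx : 0 ≤ x) : Real.posLog x ≤ x := by
  rw [Real.posLog_def]
  exact max_le hx (by linarith [Real.log_le_self hx])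

/-- the bound for `ψ` in one of the two domains -/
lemma psi_fd {D : Dom} (hD : D.Regular) (f g : E2 D) (hf : ∃ z ∈ D.carrier, f.fn z ≠ 0)
    (hψ : DifferentiableOn ℂ ψ D.carrier) (hg : ∀ z ∈ D.carrier, g.fn z = ψ z * f.fn z) :
    ∃ K M : ℝ, 0 < K ∧ 0 < M ∧ ∀ Γ : Set ℂ, frontier D.carrier ⊆ Γ → ∀ z ∈ D.carrier,
      0 < fd Γ z → Real.posLog ‖ψ z‖ ≤ K * fd Γ z ^ (-M) := by
  obtain ⟨K, hK, hb⟩ := psi_bound hD f hf ‖g‖
  obtain ⟨c, M, hc, hM, hlow⟩ := hD.one_sub_lower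
  refine ⟨K / c, M, by positivity, hM, fun Γ hΓ z hz hpos => ?_⟩
  have h1 := hb g ψ le_rfl hψ (fun z hz => (hg z hz).symm) z hz
  have h2 := hlow z hz
  have hdle : fd Γ z ≤ D.dist z :=
    (fd_le _ _).trans ((infDist_le_infDist_of_subset hΓ (frontier_nonempty D)).trans
      (infDist_frontier_le D hz))
  have h3 : c * fd Γ z ^ M ≤ 1 - ‖D.inv z‖ :=
    le_trans (mul_le_mul_of_nonneg_left (Real.rpow_le_rpow hpos.le hdle hM.le) hc.le) h2
  have h4 : 0 < fd Γ z ^ M := Real.rpow_pos_of_pos hpos _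
  calc Real.posLog ‖ψ z‖ ≤ K / (1 - ‖D.inv z‖) := h1
    _ ≤ K / (c * fd Γ z ^ M) := by
      apply div_le_div_of_nonneg_left hK.le (by positivity) h3
    _ = K / c * fd Γ z ^ (-M) := by
      rw [Real.rpow_neg hpos.le]; field_simp

/-- Q2c. a priori bound -/
theorem res_apriori (hc : Conf A B ξ ξ') (hm : Mult f g ψ) (hE : Res yA yB f g ψ ξ ξ' E) :
    ∃ K N : ℝ, 0 < N ∧ ∀ z, z ∉ frontier A.carrier → z ∉ frontier B.carrier →
      Real.posLog ‖E z‖ ≤ K * fd (frontier A.carrier ∪ frontier B.carrier) z ^ (-N) := by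
  obtain ⟨K₀, N₀, hK₀, hN₀, hRR⟩ := RR_bound hc.regA hc.regB yA yB
  obtain ⟨K₁, M₁, hK₁, hM₁, hψ₁⟩ := psi_fd (ψ := ψ) hc.regA f.fst g.fst hm.neA
    (hm.diff.mono subset_union_left) hm.eqA
  obtain ⟨K₂, M₂, hK₂, hM₂, hψ₂⟩ := psi_fd (ψ := ψ) hc.regB f.snd g.snd hm.neB
    (hm.diff.mono subset_union_right) hm.eqB
  set Γ := frontier A.carrier ∪ frontier B.carrier with hΓ
  have hΓc : IsClosed Γ := isClosed_frontier.union isClosed_frontier
  have hΓn : Γ.Nonempty := (frontier_nonempty A).inl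
  set N := max N₀ (max M₁ M₂) with hN
  set Cf := K₀ * ‖f.fst‖ + K₀ * ‖f.snd‖ with hCf
  set Cg := K₀ * ‖g.fst‖ + K₀ * ‖g.snd‖ with hCg
  have hCf0 : 0 ≤ Cf := by positivity
  have hCg0 : 0 ≤ Cg := by positivity
  refine ⟨Real.log 2 + Cf + Cg + K₁ + K₂, N, hN₀.trans_le (le_max_left _ _),
    fun z hzA hzB => ?_⟩
  have hzΓ : z ∉ Γ := by rintro (h | h) <;> contradiction
  have hd0 : 0 < fd Γ z := lt_min one_pos ((hΓc.notMem_iff_infDist_pos hΓn).mp hzΓ)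
  have hd1 : fd Γ z ≤ 1 := fd_le_one _ _
  have hmono : ∀ {M : ℝ}, M ≤ N → fd Γ z ^ (-M) ≤ fd Γ z ^ (-N) := fun {M} h =>
    Real.rpow_le_rpow_of_exponent_ge hd0 hd1 (by linarith)
  have hp1 : 1 ≤ fd Γ z ^ (-N) :=
    Real.one_le_rpow_of_pos_of_le_one_of_nonpos hd0 hd1
      (by have : 0 < N := hN₀.trans_le (le_max_left _ _); linarith)
  have hR : ∀ (u : E2 A) (v : E2 B), ‖RR yA yB u v z‖ ≤
      (K₀ * ‖u‖ + K₀ * ‖v‖) * fd Γ z ^ (-N) := by
    intro u v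
    obtain ⟨h1, h2⟩ := hRR u v z hzA hzB
    have h3 : fd Γ z ^ (-N₀) ≤ fd Γ z ^ (-N) := hmono (le_max_left _ _)
    calc ‖RR yA yB u v z‖ ≤ ‖yA (remE u z)‖ + ‖yB (remE v z)‖ := norm_add_le _ _
      _ ≤ K₀ * ‖u‖ * fd Γ z ^ (-N₀) + K₀ * ‖v‖ * fd Γ z ^ (-N₀) := add_le_add h1 h2
      _ = (K₀ * ‖u‖ + K₀ * ‖v‖) * fd Γ z ^ (-N₀) := by ring
      _ ≤ _ := mul_le_mul_of_nonneg_left h3 (by positivity)
  have hRf := hR f.fst f.snd
  have hRg := hR g.fst g.snd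
  have hlog2 : 0 ≤ Real.log 2 := Real.log_nonneg (by norm_num)
  by_cases hin : z ∈ A.carrier ∪ B.carrier
  · have hψ : Real.posLog ‖ψ z‖ ≤ (K₁ + K₂) * fd Γ z ^ (-N) := by
      rcases hin with h | h
      · have h1 := hψ₁ Γ subset_union_left z h hd0
        have h2 := hmono (M := M₁) ((le_max_left _ _).trans (le_max_right _ _))
        nlinarith
      · have h1 := hψ₂ Γ subset_union_right z h hd0
        have h2 := hmono (M := M₂) ((le_max_right _ _).trans (le_max_right _ _))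
        nlinarith
    rw [hE.inner z hin hzA hzB]
    have h1 : Real.posLog ‖RR yA yB g.fst g.snd z - ψ z * RR yA yB f.fst f.snd z‖ ≤
        Real.log 2 + Real.posLog ‖RR yA yB g.fst g.snd z‖ +
          Real.posLog (‖ψ z‖ * ‖RR yA yB f.fst f.snd z‖) := by
      refine (Real.posLog_le_posLog (norm_nonneg _) (norm_sub_le _ _)).trans ?_
      rw [norm_mul]
      exact Real.posLog_add
    have h2 : Real.posLog (‖ψ z‖ * ‖RR yA yB f.fst f.snd z‖) ≤
        Real.posLog ‖ψ z‖ + Real.posLog ‖RR yA yB f.fst f.snd z‖ := Real.posLog_mul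
    have h3 := posLog_le_self (norm_nonneg (RR yA yB g.fst g.snd z))
    have h4 := posLog_le_self (norm_nonneg (RR yA yB f.fst f.snd z))
    have h5 : Real.log 2 ≤ Real.log 2 * fd Γ z ^ (-N) := by nlinarith
    calc _ ≤ _ := h1
      _ ≤ Real.log 2 * fd Γ z ^ (-N) + Cg * fd Γ z ^ (-N) +
          ((K₁ + K₂) * fd Γ z ^ (-N) + Cf * fd Γ z ^ (-N)) := by linarith
      _ = _ := by ring
  · have hcl : z ∉ closure (A.carrier ∪ B.carrier) := by
      rw [closure_union]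
      rintro (h | h)
      · exact notMem_closure A hzA (fun h' => hin (Or.inl h')) h
      · exact notMem_closure B hzB (fun h' => hin (Or.inr h')) h
    rw [hE.outer z hcl]
    have h3 := posLog_le_self (norm_nonneg (RR yA yB g.fst g.snd z))
    have h5 : 0 ≤ (Real.log 2 + Cf + K₁ + K₂) * fd Γ z ^ (-N) := by positivity
    calc _ ≤ _ := h3
      _ ≤ Cg * fd Γ z ^ (-N) := hRg
      _ ≤ Cg * fd Γ z ^ (-N) + (Real.log 2 + Cf + K₁ + K₂) * fd Γ z ^ (-N) := by linarith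
      _ = _ := by ring

end MP2c3e4e
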