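import Pool.Agent.Lib_MP_2c3e4e_an.Defs4
import Pool.Agent.Lib_MP_2c3e4e_an.H4
import Pool.Agent.Lib_MP_2c3e4e_an.G4
import Pool.Agent.Lib_MP_2c3e4e_an.G7
import Pool.Agent.Lib_MP_2c3e4e_an.A5

/-!
# Q3: the singularity of the resolvent function at the second corner is removable
-/

open MeasureTheory Set Metric Filter Topology
open scoped ENNReal Real

namespace MP2c3e4e

variable {A B : Dom} {ξ ξ' : ℂ} {f g : EP A B} {ψ : ℂ → ℂ} {E : ℂ → ℂ}
  {yA : E2 A →L[ℂ] ℂ} {yB : E2 B →L[ℂ] ℂ}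

private lemma area_union_q3 (hA : A.Regular) (hB : B.Regular) :
    ∃ C : ℝ, 0 < C ∧ ∀ t : ℝ, 0 < t → t ≤ 1 →
    volume {x : ℂ | infDist x (frontier A.carrier ∪ frontier B.carrier) < t} ≤
      ENNReal.ofReal (C * t) := by
  obtain ⟨L₁, γ₁, h1, h1'⟩ := hA.curve
  obtain ⟨L₂, γ₂, h2, h2'⟩ := hB.curve
  obtain ⟨C₁, hC₁, k1⟩ := area_nbhd h1 h1' (frontier_nonempty A)
  obtain ⟨C₂, hC₂, k2⟩ := area_nbhd h2 h2' (frontier_nonempty B)
  refine ⟨C₁ + C₂, by positivity, fun t ht ht1 => ?_⟩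
  have hsub : {x : ℂ | infDist x (frontier A.carrier ∪ frontier B.carrier) < t} ⊆
      {x : ℂ | infDist x (frontier A.carrier) < t} ∪
      {x : ℂ | infDist x (frontier B.carrier) < t} := by
    intro x hx
    obtain ⟨y, hy, hxy⟩ := (infDist_lt_iff ((frontier_nonempty A).inl)).mp hx
    rcases hy with hy | hy
    · exact Or.inl ((infDist_le_dist_of_mem hy).trans_lt hxy)
    · exact Or.inr ((infDist_le_dist_of_mem hy).trans_lt hxy)
  refine (measure_mono hsub).trans ((measure_union_le _ _).trans ?_)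
  rw [add_mul, ENNReal.ofReal_add (by positivity) (by positivity)]
  exact add_le_add (k1 t ht ht1) (k2 t ht ht1)

/-- Lower bound of a nonzero element near a boundary point of analyticity. -/
lemma analyticFrom_lower {D : Dom} (h : E2 D) (hne : ∃ z ∈ D.carrier, h.fn z ≠ 0) {ξ' : ℂ}
    (hfr : ξ' ∈ closure D.carrier) (han : AnalyticFrom D.carrier h.fn ξ') :
    ∃ (c : ℝ) (m : ℕ) (ρ : ℝ), 0 < c ∧ 0 < ρ ∧ ∀ z ∈ D.carrier, ‖z - ξ'‖ < ρ →
      c * ‖z - ξ'‖ ^ m ≤ ‖h.fn z‖ := by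
  obtain ⟨F, hF, hFe⟩ := han
  have hnz : ¬ ∀ᶠ z in 𝓝 ξ', F z = 0 := by
    intro h0
    have h1 : ∀ᶠ z in 𝓝 ξ', z ∈ D.carrier → h.fn z = 0 := by
      filter_upwards [h0, hFe] with z hz1 hz2 hz3
      rw [hz2 hz3, hz1]
    obtain ⟨ρ, hρ, hb⟩ := Metric.eventually_nhds_iff_ball.mp h1
    obtain ⟨w, hwb, hwD⟩ := Metric.mem_closure_iff.mp hfr ρ hρ
    have hwb' : w ∈ ball ξ' ρ := by rwa [mem_ball, dist_comm]
    have hopen : IsOpen (D.carrier ∩ ball ξ' ρ) := D.isOpen.inter isOpen_ball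
    have hev : ∀ᶠ z in 𝓝 w, h.fn z = 0 := by
      filter_upwards [hopen.mem_nhds ⟨hwb, hwb'⟩] with z hz
      exact hb z hz.2 hz.1
    have hana : AnalyticOnNhd ℂ h.fn D.carrier := h.diff.analyticOnNhd D.isOpen
    have hzero := hana.eqOn_zero_of_preconnected_of_eventuallyEq_zero D.preconnected hwb hev
    obtain ⟨z, hz, hz0⟩ := hne
    exact hz0 (hzero hz)
  obtain ⟨m, G, hG, hG0, hGe⟩ := hF.exists_eventuallyEq_pow_smul_nonzero_iff.mpr hnz
  have hGc : ∀ᶠ z in 𝓝 ξ', ‖G ξ'‖ / 2 < ‖G z‖ := by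
    have h1 : Tendsto (fun z => ‖G z‖) (𝓝 ξ') (𝓝 ‖G ξ'‖) := hG.continuousAt.norm
    exact h1.eventually (lt_mem_nhds (half_lt_self (norm_pos_iff.mpr hG0)))
  obtain ⟨ρ, hρ, hb⟩ := Metric.eventually_nhds_iff_ball.mp (hGc.and (hGe.and hFe))
  refine ⟨‖G ξ'‖ / 2, m, ρ, half_pos (norm_pos_iff.mpr hG0), hρ, fun z hz hzρ => ?_⟩
  obtain ⟨h1, h2, h3⟩ := hb z (by rwa [mem_ball, dist_eq_norm])
  rw [h3 hz, h2, norm_smul, norm_pow, mul_comm]
  exact mul_le_mul_of_nonneg_left h1.le (by positivity)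

/-- Bound of the quotient `g / f` near a boundary point of analyticity of `f`. -/
lemma quot_bound {D : Dom} (hD : D.Regular) (f g : E2 D) (hne : ∃ z ∈ D.carrier, f.fn z ≠ 0)
    {ξ' : ℂ} {Γ : Set ℂ} (hΓ : frontier D.carrier ⊆ Γ) (hξΓ : ξ' ∈ Γ)
    (hfr : ξ' ∈ closure D.carrier) (han : AnalyticFrom D.carrier f.fn ξ')
    (hψ : ∀ z ∈ D.carrier, g.fn z = ψ z * f.fn z) :
    ∃ K N ρ : ℝ, 0 < K ∧ 0 < N ∧ 0 < ρ ∧ ∀ z ∈ D.carrier, ‖z - ξ'‖ < ρ → 0 < infDist z Γ →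
      ‖ψ z‖ ≤ K * fd Γ z ^ (-N) := by
  obtain ⟨c, m, ρ, hc, hρ, hlow⟩ := analyticFrom_lower f hne hfr han
  obtain ⟨K, N, hK, hN, hev⟩ := hD.eval
  refine ⟨K * (‖g‖ + 1) / c, N + m, ρ, by positivity, by positivity, hρ, fun z hz hzρ hz0 => ?_⟩
  have hd0 : 0 < fd Γ z := lt_min one_pos hz0
  have h1 : fd Γ z ≤ ‖z - ξ'‖ := by
    refine (fd_le _ _).trans ?_
    rw [← dist_eq_norm]
    exact infDist_le_dist_of_mem hξΓ
  have h2 : fd Γ z ≤ D.dist z :=
    ((fd_le _ _).trans (infDist_le_infDist_of_subset hΓ (frontier_nonempty D))).trans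
      (infDist_frontier_le D hz)
  have h3 : ‖g.fn z‖ * fd Γ z ^ N ≤ K * (‖g‖ + 1) := by
    calc ‖g.fn z‖ * fd Γ z ^ N ≤ ‖g.fn z‖ * D.dist z ^ N := by gcongr
      _ ≤ K * ‖g‖ := hev g z hz
      _ ≤ _ := by gcongr; linarith
  have h4 : c * fd Γ z ^ m ≤ ‖f.fn z‖ := by
    refine le_trans ?_ (hlow z hz hzρ)
    gcongr
  have h5 : ‖g.fn z‖ = ‖ψ z‖ * ‖f.fn z‖ := by rw [hψ z hz, norm_mul]
  rw [Real.rpow_neg hd0.le, ← div_eq_mul_inv, le_div_iff₀ (by positivity), le_div_iff₀ hc]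
  rw [Real.rpow_add hd0, Real.rpow_natCast]
  calc ‖ψ z‖ * (fd Γ z ^ N * fd Γ z ^ m) * c = ‖ψ z‖ * (c * fd Γ z ^ m) * fd Γ z ^ N := by ring
    _ ≤ ‖ψ z‖ * ‖f.fn z‖ * fd Γ z ^ N := by gcongr
    _ = ‖g.fn z‖ * fd Γ z ^ N := by rw [h5]
    _ ≤ _ := h3

/-- Q3. the singularity at `ξ'` is removable -/
theorem res_remove (hc : Conf A B ξ ξ') (hne : ξ ≠ ξ')
    (hcone : ExteriorCone (A.carrier ∪ B.carrier) ξ') (hm : Mult f g ψ)
    (hanA : AnalyticFrom A.carrier f.fst.fn ξ') (hanB : AnalyticFrom B.carrier f.snd.fn ξ')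
    (hE : Res yA yB f g ψ ξ ξ' E) :
    ∃ E' : ℂ → ℂ, DifferentiableOn ℂ E' {ξ}ᶜ ∧ ∀ z, z ≠ ξ → z ≠ ξ' → E' z = E z := by
  classical
  set Γ := frontier A.carrier ∪ frontier B.carrier with hΓdef
  have hΓc : IsClosed Γ := isClosed_frontier.union isClosed_frontier
  have hΓn : Γ.Nonempty := (frontier_nonempty A).inl
  have hξ' : ξ' ∈ frontier A.carrier ∩ frontier B.carrier := by
    rw [hc.corners]; simp
  obtain ⟨C₁, hC₁, harea⟩ := area_union_q3 hc.regA hc.regB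
  obtain ⟨K, N, hK, hN, hRR⟩ := RR_bound hc.regA hc.regB yA yB
  obtain ⟨KA, NA, ρA, hKA, hNA, hρA, hA⟩ := quot_bound (ψ := ψ) hc.regA f.fst g.fst hm.neA
    (Γ := Γ) subset_union_left (Or.inl hξ'.1) (frontier_subset_closure hξ'.1) hanA hm.eqA
  obtain ⟨KB, NB, ρB, hKB, hNB, hρB, hB⟩ := quot_bound (ψ := ψ) hc.regB f.snd g.snd hm.neB
    (Γ := Γ) subset_union_right (Or.inr hξ'.2) (frontier_subset_closure hξ'.2) hanB hm.eqB
  set ρ : ℝ := min (min ρA ρB) ‖ξ - ξ'‖ with hρdef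
  have hρ : 0 < ρ := lt_min (lt_min hρA hρB) (norm_pos_iff.mpr (sub_ne_zero.mpr hne))
  have hsub : ball ξ' ρ \ {ξ'} ⊆ ({ξ, ξ'} : Set ℂ)ᶜ := by
    rintro z ⟨hz1, hz2⟩ hz3
    rcases hz3 with rfl | hz3
    · have h1 : ‖z - ξ'‖ < ρ := by rwa [mem_ball, dist_eq_norm] at hz1
      have h2 : ρ ≤ ‖z - ξ'‖ := min_le_right _ _
      linarith
    · exact hz2 hz3
  -- the bound
  set M : ℝ := N + max NA NB with hM
  set Kf : ℝ := K * ‖f.fst‖ + K * ‖f.snd‖ with hKf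
  set Kg : ℝ := K * ‖g.fst‖ + K * ‖g.snd‖ with hKg
  have hmaxN : 0 < max NA NB := hNA.trans_le (le_max_left _ _)
  have hbound : ∀ z ∈ ball ξ' ρ, 0 < infDist z Γ →
      ‖E z‖ ≤ (Kg + max KA KB * Kf) * fd Γ z ^ (-M) := by
    intro z hz hz0
    have hzΓ : z ∉ Γ := (hΓc.notMem_iff_infDist_pos hΓn).mpr hz0
    have hzA : z ∉ frontier A.carrier := fun h => hzΓ (Or.inl h)
    have hzB : z ∉ frontier B.carrier := fun h => hzΓ (Or.inr h)
    have hd0 : 0 < fd Γ z := lt_min one_pos hz0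
    have hd1 : fd Γ z ≤ 1 := fd_le_one _ _
    have hzρ : ‖z - ξ'‖ < ρ := by rwa [mem_ball, dist_eq_norm] at hz
    have rr : ∀ (u : E2 A) (v : E2 B), ‖RR yA yB u v z‖ ≤
        (K * ‖u‖ + K * ‖v‖) * fd Γ z ^ (-N) := by
      intro u v
      obtain ⟨h1, h2⟩ := hRR u v z hzA hzB
      rw [RR, add_mul]
      exact (norm_add_le _ _).trans (add_le_add h1 h2)
    have hpow : fd Γ z ^ (-N) ≤ fd Γ z ^ (-M) :=
      Real.rpow_le_rpow_of_exponent_ge hd0 hd1 (by linarith)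
    have hpos : 0 ≤ fd Γ z ^ (-M) := Real.rpow_nonneg hd0.le _
    have hKf0 : 0 ≤ Kf := by positivity
    have hKg0 : 0 ≤ Kg := by positivity
    have hKAB : 0 < max KA KB := hKA.trans_le (le_max_left _ _)
    by_cases hzG : z ∈ A.carrier ∪ B.carrier
    · rw [hE.inner z hzG hzA hzB]
      have hψz : ‖ψ z‖ ≤ max KA KB * fd Γ z ^ (-(max NA NB)) := by
        rcases hzG with hzG | hzG
        · have h1 := hA z hzG (hzρ.trans_le ((min_le_left _ _).trans (min_le_left _ _))) hz0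
          have h2 : fd Γ z ^ (-NA) ≤ fd Γ z ^ (-(max NA NB)) :=
            Real.rpow_le_rpow_of_exponent_ge hd0 hd1 (neg_le_neg (le_max_left _ _))
          exact h1.trans (mul_le_mul (le_max_left _ _) h2 (Real.rpow_nonneg hd0.le _) hKAB.le)
        · have h1 := hB z hzG (hzρ.trans_le ((min_le_left _ _).trans (min_le_right _ _))) hz0
          have h2 : fd Γ z ^ (-NB) ≤ fd Γ z ^ (-(max NA NB)) :=
            Real.rpow_le_rpow_of_exponent_ge hd0 hd1 (neg_le_neg (le_max_right _ _))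
          exact h1.trans (mul_le_mul (le_max_right _ _) h2 (Real.rpow_nonneg hd0.le _) hKAB.le)
      have h1 := rr g.fst g.snd
      have h2 := rr f.fst f.snd
      have h3 : ‖ψ z * RR yA yB f.fst f.snd z‖ ≤ max KA KB * Kf * fd Γ z ^ (-M) := by
        rw [norm_mul]
        have h4 : fd Γ z ^ (-M) = fd Γ z ^ (-(max NA NB)) * fd Γ z ^ (-N) := by
          rw [← Real.rpow_add hd0]
          congr 1
          rw [hM]; ring
        calc ‖ψ z‖ * ‖RR yA yB f.fst f.snd z‖ ≤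
            (max KA KB * fd Γ z ^ (-(max NA NB))) * (Kf * fd Γ z ^ (-N)) :=
              mul_le_mul hψz h2 (norm_nonneg _)
                (mul_nonneg hKAB.le (Real.rpow_nonneg hd0.le _))
          _ = _ := by rw [h4]; ring
      calc ‖RR yA yB g.fst g.snd z - ψ z * RR yA yB f.fst f.snd z‖
          ≤ ‖RR yA yB g.fst g.snd z‖ + ‖ψ z * RR yA yB f.fst f.snd z‖ := norm_sub_le _ _
        _ ≤ Kg * fd Γ z ^ (-N) + max KA KB * Kf * fd Γ z ^ (-M) := add_le_add h1 h3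
        _ ≤ Kg * fd Γ z ^ (-M) + max KA KB * Kf * fd Γ z ^ (-M) := by gcongr
        _ = _ := by ring
    · have hzcl : z ∉ closure (A.carrier ∪ B.carrier) := by
        rw [closure_union]
        rintro (h | h)
        · exact notMem_closure A hzA (fun h' => hzG (Or.inl h')) h
        · exact notMem_closure B hzB (fun h' => hzG (Or.inr h')) h
      rw [hE.outer z hzcl]
      calc ‖RR yA yB g.fst g.snd z‖ ≤ Kg * fd Γ z ^ (-N) := rr g.fst g.snd
        _ ≤ Kg * fd Γ z ^ (-M) := by gcongr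
        _ ≤ _ := by
          rw [add_mul]
          have : 0 ≤ max KA KB * Kf * fd Γ z ^ (-M) := by positivity
          linarith
  -- the cone
  obtain ⟨e, c, hc0, hcone⟩ := hcone
  have hout : ∀ ε ∈ Ioo (0 : ℝ) c, ξ' + ε * e ∉ closure (A.carrier ∪ B.carrier) := by
    intro ε hε hcl
    obtain ⟨w, hw, hwd⟩ := Metric.mem_closure_iff.mp hcl (c * ε) (mul_pos hc0 hε.1)
    have h1 := hcone ε hε w hw
    rw [dist_comm, dist_eq_norm] at hwd
    linarith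
  have he : e ≠ 0 := by
    rintro rfl
    have h1 := hout (c / 2) ⟨by linarith, by linarith⟩
    rw [mul_zero, add_zero] at h1
    exact h1 (closure_mono subset_union_left (frontier_subset_closure hξ'.1))
  have hlim : Tendsto (fun n : ℕ => (1 / ((n : ℂ) + 1)) * E (ξ' + (1 / ((n : ℂ) + 1)) * e))
      atTop (𝓝 0) := by
    have h1 := weak_cone g.fst yA hc0 (ξ := ξ') (e := e)
      (fun ε hε z hz => hcone ε hε z (Or.inl hz))
    have h2 := weak_cone g.snd yB hc0 (ξ := ξ') (e := e)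
      (fun ε hε z hz => hcone ε hε z (Or.inr hz))
    have h3 := h1.add h2
    rw [add_zero] at h3
    refine h3.congr' ?_
    have h4 : ∀ᶠ n : ℕ in atTop, 1 / ((n : ℝ) + 1) < c :=
      (tendsto_one_div_add_atTop_nhds_zero_nat (𝕜 := ℝ)).eventually (gt_mem_nhds hc0)
    filter_upwards [h4] with n hn
    have h5 : ((1 / ((n : ℝ) + 1) : ℝ) : ℂ) = 1 / ((n : ℂ) + 1) := by push_cast; rfl
    have h6 := hout (1 / ((n : ℝ) + 1)) ⟨by positivity, hn⟩
    rw [h5] at h6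
    rw [hE.outer _ h6, RR]
    ring
  obtain ⟨E₁, hE₁, hE₁e⟩ := removable_cone hρ (hE.diff.mono hsub) hC₁ harea
    (by rw [hM]; linarith : 0 ≤ M) hbound hlim he
  -- gluing
  refine ⟨Function.update E ξ' (E₁ ξ'), ?_, fun z _ hz => Function.update_of_ne hz _ _⟩
  intro z hz
  have hzne : z ≠ ξ := hz
  apply DifferentiableAt.differentiableWithinAt
  by_cases hzξ : z = ξ'
  · subst hzξ
    have h1 : Function.update E z (E₁ z) =ᶠ[𝓝 z] E₁ := by
      filter_upwards [ball_mem_nhds z hρ] with w hw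
      by_cases hwz : w = z
      · subst hwz; simp
      · rw [Function.update_of_ne hwz]
        exact (hE₁e ⟨hw, hwz⟩).symm
    exact ((hE₁ z (mem_ball_self hρ)).differentiableAt (ball_mem_nhds z hρ)).congr_of_eventuallyEq h1
  · have hopen : IsOpen (({ξ, ξ'} : Set ℂ)ᶜ) := (Set.toFinite _).isClosed.isOpen_compl
    have hmem : z ∈ (({ξ, ξ'} : Set ℂ)ᶜ) := by
      rintro (h | h)
      · exact hzne h
      · exact hzξ h
    have h1 : Function.update E ξ' (E₁ ξ') =ᶠ[𝓝 z] E := by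
      filter_upwards [hopen.mem_nhds hmem] with w hw
      exact Function.update_of_ne (fun h => hw (Or.inr h)) _ _
    exact (hE.diff.differentiableAt (hopen.mem_nhds hmem)).congr_of_eventuallyEq h1

end MP2c3e4e
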