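import Pool.Agent.Lib_MP_2c3e4e_an.Q1

open MeasureTheory Set Metric Filter Topology
open scoped ENNReal Real

namespace MP2c3e4e

variable {A B C : Dom} {ξ ξ' : ℂ} {f g : EP A B}

/-- polynomial multiples in the space of pairs -/
noncomputable def mulPP (P : Polynomial ℂ) (f : EP A B) : EP A B :=
  Polynomial.aeval (opM A B) P f

lemma fst_add (f g : EP A B) : (f + g).fst = f.fst + g.fst := rfl
lemma snd_add (f g : EP A B) : (f + g).snd = f.snd + g.snd := rfl
lemma fst_smul (c : ℂ) (f : EP A B) : (c • f).fst = c • f.fst := rfl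
lemma snd_smul (c : ℂ) (f : EP A B) : (c • f).snd = c • f.snd := rfl

lemma opM_fst (f : EP A B) : (opM A B f).fst = mulZ A f.fst := rfl
lemma opM_snd (f : EP A B) : (opM A B f).snd = mulZ B f.snd := rfl

lemma opM_pow (n : ℕ) (f : EP A B) :
    ((opM A B ^ n) f).fst = (mulZ A ^ n) f.fst ∧ ((opM A B ^ n) f).snd = (mulZ B ^ n) f.snd := by
  induction n with
  | zero => exact ⟨rfl, rfl⟩
  | succ n ih =>
    rw [pow_succ', pow_succ', pow_succ']
    refine ⟨?_, ?_⟩
    · have : ((opM A B * opM A B ^ n) f) = opM A B ((opM A B ^ n) f) := rfl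
      rw [this, opM_fst, ih.1]; rfl
    · have : ((opM A B * opM A B ^ n) f) = opM A B ((opM A B ^ n) f) := rfl
      rw [this, opM_snd, ih.2]; rfl

lemma mulPP_add (P Q : Polynomial ℂ) (f : EP A B) : mulPP (P + Q) f = mulPP P f + mulPP Q f := by
  rw [mulPP, map_add]; rfl

lemma mulPP_mono (c : ℂ) (n : ℕ) (f : EP A B) :
    mulPP (Polynomial.C c * Polynomial.X ^ n) f = c • (opM A B ^ n) f := by
  rw [mulPP, map_mul, Polynomial.aeval_C, map_pow, Polynomial.aeval_X, ← Algebra.smul_def]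
  rfl

lemma mulPP_comp (P : Polynomial ℂ) (f : EP A B) :
    (mulPP P f).fst = mulP P f.fst ∧ (mulPP P f).snd = mulP P f.snd := by
  induction P using Polynomial.induction_on' with
  | add P Q hP hQ =>
    rw [mulPP_add, fst_add, snd_add, hP.1, hQ.1, hP.2, hQ.2, mulP_add, mulP_add]
    exact ⟨rfl, rfl⟩
  | monomial n c =>
    rw [← Polynomial.C_mul_X_pow_eq_monomial, mulPP_mono, fst_smul, snd_smul, (opM_pow n f).1,
      (opM_pow n f).2, mulP_C_mul_X_pow, mulP_C_mul_X_pow]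
    exact ⟨rfl, rfl⟩

lemma mulPP_mem_span (P : Polynomial ℂ) (f : EP A B) :
    mulPP P f ∈ Submodule.span ℂ (range fun n : ℕ => (opM A B ^ n) f) := by
  induction P using Polynomial.induction_on' with
  | add P Q hP hQ => rw [mulPP_add]; exact add_mem hP hQ
  | monomial n c =>
    rw [← Polynomial.C_mul_X_pow_eq_monomial, mulPP_mono]
    exact Submodule.smul_mem _ _ (Submodule.subset_span ⟨n, rfl⟩)

lemma mulPP_mem_cyclic (P : Polynomial ℂ) (f : EP A B) : mulPP P f ∈ cyclic (opM A B) f :=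
  Submodule.le_topologicalClosure _ (mulPP_mem_span P f)

lemma mem_span_mulPP {f h : EP A B}
    (hh : h ∈ Submodule.span ℂ (range fun n : ℕ => (opM A B ^ n) f)) :
    ∃ P : Polynomial ℂ, mulPP P f = h := by
  induction hh using Submodule.span_induction with
  | mem x hx =>
    obtain ⟨n, rfl⟩ := hx
    refine ⟨Polynomial.C 1 * Polynomial.X ^ n, ?_⟩
    rw [mulPP_mono, one_smul]
  | zero => exact ⟨0, by rw [mulPP, map_zero]; rfl⟩
  | add x y _ _ hx hy =>
    obtain ⟨P, hP⟩ := hx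
    obtain ⟨Q, hQ⟩ := hy
    exact ⟨P + Q, by rw [mulPP_add, hP, hQ]⟩
  | smul c x _ hx =>
    obtain ⟨P, hP⟩ := hx
    refine ⟨Polynomial.C c * P, ?_⟩
    rw [mulPP, map_mul, Polynomial.aeval_C, ← Algebra.smul_def]
    rw [← hP]
    rfl

lemma mem_cyclic_iff {f h : EP A B} :
    h ∈ cyclic (opM A B) f ↔ ∃ P : ℕ → Polynomial ℂ, Tendsto (fun n => mulPP (P n) f) atTop (𝓝 h) := by
  constructor
  · intro hh
    have h1 : h ∈ closure (Submodule.span ℂ (range fun n : ℕ => (opM A B ^ n) f) : Set (EP A B)) := hh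
    rw [mem_closure_iff_seq_limit] at h1
    obtain ⟨x, hx, hlim⟩ := h1
    choose P hP using fun n => mem_span_mulPP (hx n)
    exact ⟨P, by simpa only [hP] using hlim⟩
  · rintro ⟨P, hP⟩
    have h1 : h ∈ closure (Submodule.span ℂ (range fun n : ℕ => (opM A B ^ n) f) : Set (EP A B)) :=
      mem_closure_of_tendsto hP (Eventually.of_forall fun n => mulPP_mem_span (P n) f)
    exact h1

lemma continuous_fst' : Continuous (EP.fst : EP A B → E2 A) :=
  (continuous_fst : Continuous (Prod.fst : E2 A × E2 B → E2 A))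

lemma continuous_snd' : Continuous (EP.snd : EP A B → E2 B) :=
  (continuous_snd : Continuous (Prod.snd : E2 A × E2 B → E2 B))

lemma tendsto_EP {u : ℕ → EP A B} {h : EP A B} (h1 : Tendsto (fun n => (u n).fst) atTop (𝓝 h.fst))
    (h2 : Tendsto (fun n => (u n).snd) atTop (𝓝 h.snd)) : Tendsto u atTop (𝓝 h) := by
  have h3 : Tendsto (fun n => ((u n).fst, (u n).snd)) atTop (𝓝 (h.fst, h.snd)) :=
    h1.prodMk_nhds h2
  exact h3

lemma traceA_seq {f : EP A B} {g : E2 A} (hg : g ∈ traceA (cyclic (opM A B) f)) :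
    ∃ P : ℕ → Polynomial ℂ, Tendsto (fun n => mulP (P n) f.fst) atTop (𝓝 g) := by
  have h1 : {g | ∃ h ∈ cyclic (opM A B) f, g = h.fst} ⊆ closure (range fun P => mulP P f.fst) := by
    rintro _ ⟨h, hh, rfl⟩
    obtain ⟨P, hP⟩ := mem_cyclic_iff.mp hh
    refine mem_closure_of_tendsto ((continuous_fst'.tendsto h).comp hP)
      (Eventually.of_forall fun n => ⟨P n, ?_⟩)
    exact (mulPP_comp (P n) f).1.symm
  have h2 : g ∈ closure (range fun P => mulP P f.fst) := closure_minimal h1 isClosed_closure hg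
  rw [mem_closure_iff_seq_limit] at h2
  obtain ⟨x, hx, hlim⟩ := h2
  choose P hP using hx
  exact ⟨P, by simpa only [hP] using hlim⟩

lemma traceB_seq {f : EP A B} {g : E2 B} (hg : g ∈ traceB (cyclic (opM A B) f)) :
    ∃ P : ℕ → Polynomial ℂ, Tendsto (fun n => mulP (P n) f.snd) atTop (𝓝 g) := by
  have h1 : {g | ∃ h ∈ cyclic (opM A B) f, g = h.snd} ⊆ closure (range fun P => mulP P f.snd) := by
    rintro _ ⟨h, hh, rfl⟩
    obtain ⟨P, hP⟩ := mem_cyclic_iff.mp hh
    refine mem_closure_of_tendsto ((continuous_snd'.tendsto h).comp hP)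
      (Eventually.of_forall fun n => ⟨P n, ?_⟩)
    exact (mulPP_comp (P n) f).2.symm
  have h2 : g ∈ closure (range fun P => mulP P f.snd) := closure_minimal h1 isClosed_closure hg
  rw [mem_closure_iff_seq_limit] at h2
  obtain ⟨x, hx, hlim⟩ := h2
  choose P hP using hx
  exact ⟨P, by simpa only [hP] using hlim⟩

lemma eval_tendsto {D : Dom} {u : ℕ → E2 D} {w : E2 D} (h : Tendsto u atTop (𝓝 w)) {z : ℂ}
    (hz : z ∈ D.carrier) : Tendsto (fun n => (u n).fn z) atTop (𝓝 (w.fn z)) := by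
  obtain ⟨K, hK⟩ := eval_compact (D := D) isCompact_singleton (singleton_subset_iff.mpr hz)
  rw [tendsto_iff_norm_sub_tendsto_zero] at h ⊢
  have h1 : Tendsto (fun n => K * ‖u n - w‖) atTop (𝓝 0) := by simpa using h.const_mul K
  refine squeeze_zero (fun n => norm_nonneg _) (fun n => ?_) h1
  exact hK.2 (u n - w) z rfl

lemma cross_cyclic {f h : EP A B} (hh : h ∈ cyclic (opM A B) f) {z : ℂ} (hzA : z ∈ A.carrier)
    (hzB : z ∈ B.carrier) : h.fst.fn z * f.snd.fn z = h.snd.fn z * f.fst.fn z := by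
  obtain ⟨P, hP⟩ := mem_cyclic_iff.mp hh
  have h1 := (eval_tendsto ((continuous_fst'.tendsto h).comp hP) hzA).mul_const (f.snd.fn z)
  have h2 := (eval_tendsto ((continuous_snd'.tendsto h).comp hP) hzB).mul_const (f.fst.fn z)
  refine tendsto_nhds_unique h1 (h2.congr fun n => ?_)
  simp only [Function.comp_apply]
  rw [(mulPP_comp (P n) f).1, (mulPP_comp (P n) f).2, mulP_fn, mulP_fn]
  ring

lemma cross_trace {f : EP A B} {g : EP C C} (hg : g ∈ traceC C (cyclic (opM A B) f)) {z : ℂ}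
    (hzA : z ∈ A.carrier) (hzB : z ∈ B.carrier) (hzC : z ∈ C.carrier) :
    g.fst.fn z * f.snd.fn z = g.snd.fn z * f.fst.fn z := by
  have h0 : g ∈ closure {g : EP C C | ∃ h ∈ cyclic (opM A B) f,
    EqOn g.fst.fn h.fst.fn C.carrier ∧ EqOn g.snd.fn h.snd.fn C.carrier} := hg
  rw [mem_closure_iff_seq_limit] at h0
  obtain ⟨x, hx, hlim⟩ := h0
  have h1 := (eval_tendsto ((continuous_fst'.tendsto g).comp hlim) hzC).mul_const (f.snd.fn z)
  have h2 := (eval_tendsto ((continuous_snd'.tendsto g).comp hlim) hzC).mul_const (f.fst.fn z)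
  refine tendsto_nhds_unique h1 (h2.congr fun n => ?_)
  obtain ⟨h, hh, e1, e2⟩ := hx n
  simp only [Function.comp_apply]
  rw [e1 hzC, e2 hzC]
  exact (cross_cyclic hh hzA hzB).symm

/-- members of the standard subspace are multiples of `f` -/
theorem exists_mult (hC : C.carrier = A.carrier ∩ B.carrier) {f h : EP A B}
    (hfA : ∃ z ∈ A.carrier, f.fst.fn z ≠ 0) (hfB : ∃ z ∈ B.carrier, f.snd.fn z ≠ 0)
    (hh : h ∈ standard C (cyclic (opM A B) f)) : ∃ ψ : ℂ → ℂ, Mult f h ψ := by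
  classical
  obtain ⟨h1, h2, g, hg, e1, e2⟩ := hh
  obtain ⟨P, hP⟩ := traceA_seq h1
  obtain ⟨Q, hQ⟩ := traceB_seq h2
  obtain ⟨ψA, dA, eA, -⟩ := exists_psi f.fst h.fst hfA P (fun n => mulP (P n) f.fst)
    (fun n z _ => mulP_fn _ _ _) hP
  obtain ⟨ψB, dB, eB, -⟩ := exists_psi f.snd h.snd hfB Q (fun n => mulP (Q n) f.snd)
    (fun n z _ => mulP_fn _ _ _) hQ
  have hCA : C.carrier ⊆ A.carrier := hC ▸ inter_subset_left
  have hCB : C.carrier ⊆ B.carrier := hC ▸ inter_subset_right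
  have hcross : ∀ z ∈ C.carrier, h.fst.fn z * f.snd.fn z = h.snd.fn z * f.fst.fn z := by
    intro z hz
    have := cross_trace hg (hCA hz) (hCB hz) hz
    rwa [e1 hz, e2 hz] at this
  have hne : ∀ (D : Dom) (u : E2 D), C.carrier ⊆ D.carrier → (∃ z ∈ D.carrier, u.fn z ≠ 0) →
      ¬ ∀ z ∈ C.carrier, u.fn z = 0 := by
    rintro D u hCD ⟨z, hz, hz0⟩ hall
    obtain ⟨w, hw⟩ := C.nonempty
    have h3 := (u.diff.analyticOnNhd D.isOpen).eqOn_zero_of_preconnected_of_eventuallyEq_zero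
      D.preconnected (hCD hw) (by
        filter_upwards [C.isOpen.mem_nhds hw] with v hv using hall v hv)
    exact hz0 (h3 hz)
  have hAB : ∀ z ∈ C.carrier, ψA z = ψB z := by
    have a1 : AnalyticOnNhd ℂ (fun z => ψA z - ψB z) C.carrier :=
      ((dA.mono hCA).sub (dB.mono hCB)).analyticOnNhd C.isOpen
    have a2 : AnalyticOnNhd ℂ f.fst.fn C.carrier :=
      (f.fst.diff.mono hCA).analyticOnNhd C.isOpen
    have a3 : AnalyticOnNhd ℂ f.snd.fn C.carrier :=
      (f.snd.diff.mono hCB).analyticOnNhd C.isOpen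
    have h4 := a1.eq_zero_or_eq_zero_of_mul_eq_zero (a2.mul a3) (fun z hz => by
      have k1 := hcross z hz
      rw [eA z (hCA hz), eB z (hCB hz)] at k1
      show (ψA z - ψB z) * (f.fst.fn z * f.snd.fn z) = 0
      linear_combination k1) C.preconnected
    rcases h4 with h4 | h4
    · exact fun z hz => sub_eq_zero.mp (h4 z hz)
    · rcases a2.eq_zero_or_eq_zero_of_mul_eq_zero a3 h4 C.preconnected with h5 | h5
      · exact absurd h5 (hne A f.fst hCA hfA)
      · exact absurd h5 (hne B f.snd hCB hfB)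
  refine ⟨fun z => if z ∈ A.carrier then ψA z else ψB z, ?_, fun z hz => ?_, fun z hz => ?_,
    ⟨P, hP⟩, ⟨Q, hQ⟩, hfA, hfB⟩
  · rintro z (hz | hz)
    · have k1 : DifferentiableAt ℂ ψA z := (dA z hz).differentiableAt (A.isOpen.mem_nhds hz)
      refine (k1.congr_of_eventuallyEq ?_).differentiableWithinAt
      filter_upwards [A.isOpen.mem_nhds hz] with w hw
      rw [if_pos hw]
    · have k1 : DifferentiableAt ℂ ψB z := (dB z hz).differentiableAt (B.isOpen.mem_nhds hz)
      refine (k1.congr_of_eventuallyEq ?_).differentiableWithinAt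
      filter_upwards [B.isOpen.mem_nhds hz] with w hw
      split_ifs with hwA
      · exact hAB w (hC ▸ ⟨hwA, hw⟩)
      · rfl
  · rw [if_pos hz]; exact eA z hz
  · split_ifs with hzA
    · rw [hAB z (hC ▸ ⟨hzA, hz⟩)]; exact eB z hz
    · exact eB z hz

/-- degenerate case -/
theorem standard_le_of_zero {f : EP A B}
    (h0 : (∀ z ∈ A.carrier, f.fst.fn z = 0) ∨ (∀ z ∈ B.carrier, f.snd.fn z = 0)) :
    standard C (cyclic (opM A B) f) ⊆ (cyclic (opM A B) f : Set (EP A B)) := by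
  rintro h ⟨h1, h2, -⟩
  obtain ⟨P, hP⟩ := traceA_seq h1
  obtain ⟨Q, hQ⟩ := traceB_seq h2
  rcases h0 with h0 | h0
  · have e : ∀ R : Polynomial ℂ, mulP R f.fst = 0 := fun R => ext_on fun z hz => by
      rw [mulP_fn, h0 z hz, mul_zero]; rfl
    refine mem_cyclic_iff.mpr ⟨Q, tendsto_EP ?_ ?_⟩
    · refine hP.congr fun n => ?_
      rw [(mulPP_comp _ f).1, e, e]
    · refine hQ.congr fun n => ?_
      rw [(mulPP_comp _ f).2]
  · have e : ∀ R : Polynomial ℂ, mulP R f.snd = 0 := fun R => ext_on fun z hz => by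
      rw [mulP_fn, h0 z hz, mul_zero]; rfl
    refine mem_cyclic_iff.mpr ⟨P, tendsto_EP ?_ ?_⟩
    · refine hP.congr fun n => ?_
      rw [(mulPP_comp _ f).1]
    · refine hQ.congr fun n => ?_
      rw [(mulPP_comp _ f).2, e, e]

end MP2c3e4e
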