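import Pool.Agent.Lib_MP_2c3e4e_an.Q1
import Pool.Agent.Lib_MP_2c3e4e_an.Q2a
import Pool.Agent.Lib_MP_2c3e4e_an.Q2b
import Pool.Agent.Lib_MP_2c3e4e_an.Q2c
import Pool.Agent.Lib_MP_2c3e4e_an.Q3
import Pool.Agent.Lib_MP_2c3e4e_an.P2
import Pool.Agent.Lib_MP_2c3e4e_an.P3a
import Pool.Agent.Lib_MP_2c3e4e_an.P4
import Pool.Agent.Lib_MP_2c3e4e_an.G4

open MeasureTheory Set Metric Filter Topology
open scoped ENNReal Real

namespace MP2c3e4e

variable {A B : Dom} {ξ ξ' : ℂ} {f g : EP A B} {ψ : ℂ → ℂ} {E : ℂ → ℂ}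
  {yA : E2 A →L[ℂ] ℂ} {yB : E2 B →L[ℂ] ℂ} {τ a₁ b₁ a₂ b₂ : ℝ}

lemma Sec.symm (h : Sec τ a₁ b₁ a₂ b₂) : Sec τ a₂ b₂ a₁ b₁ :=
  ⟨h.h2, h.h1, h.h4, h.h3, h.h6, h.h5, h.h8, h.h7⟩

/-- bookkeeping: growth of a point value -/
lemma posLog_growth {N σ : ℝ} (hσ : 0 < σ) {r : ℝ} (hr0 : 0 < r) (hr1 : r < 1) :
    Real.posLog (r ^ (-N)) ≤ |N| / σ * r ^ (-σ) := by
  have h1 : r ^ (-N) ≤ r ^ (-|N|) :=
    Real.rpow_le_rpow_of_exponent_ge hr0 hr1.le (by have := le_abs_self N; linarith)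
  refine (Real.posLog_le_posLog (Real.rpow_nonneg hr0.le _) h1).trans ?_
  have h2 : 1 ≤ |r ^ (-|N|)| := by
    rw [abs_of_nonneg (Real.rpow_nonneg hr0.le _)]
    exact Real.one_le_rpow_of_pos_of_le_one_of_nonpos hr0 hr1.le (by have := abs_nonneg N; linarith)
  rw [Real.posLog_eq_log h2, Real.log_rpow hr0]
  have h3 : -Real.log r * σ ≤ r ^ (-σ) := by
    have h4 : Real.log (r ^ (-σ)) ≤ r ^ (-σ) - 1 :=
      Real.log_le_sub_one_of_pos (Real.rpow_pos_of_pos hr0 _)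
    rw [Real.log_rpow hr0] at h4
    linarith
  have h5 : -|N| * Real.log r = |N| / σ * (-Real.log r * σ) := by field_simp
  rw [h5]
  exact mul_le_mul_of_nonneg_left h3 (by positivity)

lemma posLog_comb {C N σ K r p x : ℝ} (_ : 0 ≤ C) (hσ : 0 < σ) (hr0 : 0 < r) (hr1 : r < 1)
    (hx0 : 0 ≤ x) (hx : x ≤ C * r ^ (-N) * (1 + p)) (hlp : Real.posLog p ≤ K * r ^ (-σ)) :
    Real.posLog x ≤ (Real.posLog C + |N| / σ + Real.log 2 + K) * r ^ (-σ) := by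
  have hT : 1 ≤ r ^ (-σ) := Real.one_le_rpow_of_pos_of_le_one_of_nonpos hr0 hr1.le (by linarith)
  have h1 : Real.posLog x ≤ Real.posLog C + Real.posLog (r ^ (-N)) +
      (Real.log 2 + Real.posLog 1 + Real.posLog p) := by
    refine (Real.posLog_le_posLog hx0 hx).trans ?_
    refine Real.posLog_mul.trans (add_le_add Real.posLog_mul Real.posLog_add)
  have h2 := posLog_growth (N := N) hσ hr0 hr1
  have h7 : Real.posLog C ≤ Real.posLog C * r ^ (-σ) :=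
    le_mul_of_one_le_right Real.posLog_nonneg hT
  have h8 : Real.log 2 ≤ Real.log 2 * r ^ (-σ) :=
    le_mul_of_one_le_right (Real.log_nonneg (by norm_num)) hT
  rw [Real.posLog_one] at h1
  calc Real.posLog x ≤ Real.posLog C * r ^ (-σ) + |N| / σ * r ^ (-σ) +
      (Real.log 2 * r ^ (-σ) + 0 + K * r ^ (-σ)) := by linarith
    _ = _ := by ring

lemma dir_eps (θ a₁ b₁ a₂ b₂ : ℝ) (h1 : θ ≠ a₁) (h2 : θ ≠ b₁) (h3 : θ ≠ a₂) (h4 : θ ≠ b₂) :
    ∃ ε : ℝ, 0 < ε ∧ 2 * ε ≤ |θ - a₁| ∧ 2 * ε ≤ |θ - b₁| ∧ 2 * ε ≤ |θ - a₂| ∧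
      2 * ε ≤ |θ - b₂| := by
  have k1 := abs_pos.mpr (sub_ne_zero.mpr h1)
  have k2 := abs_pos.mpr (sub_ne_zero.mpr h2)
  have k3 := abs_pos.mpr (sub_ne_zero.mpr h3)
  have k4 := abs_pos.mpr (sub_ne_zero.mpr h4)
  refine ⟨min (min |θ - a₁| |θ - b₁|) (min |θ - a₂| |θ - b₂|) / 2, by positivity, ?_, ?_, ?_, ?_⟩
  · have := min_le_left (min |θ - a₁| |θ - b₁|) (min |θ - a₂| |θ - b₂|)
    have := min_le_left |θ - a₁| |θ - b₁|
    linarith
  · have := min_le_left (min |θ - a₁| |θ - b₁|) (min |θ - a₂| |θ - b₂|)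
    have := min_le_right |θ - a₁| |θ - b₁|
    linarith
  · have := min_le_right (min |θ - a₁| |θ - b₁|) (min |θ - a₂| |θ - b₂|)
    have := min_le_left |θ - a₂| |θ - b₂|
    linarith
  · have := min_le_right (min |θ - a₁| |θ - b₁|) (min |θ - a₂| |θ - b₂|)
    have := min_le_right |θ - a₂| |θ - b₂|
    linarith

/-- growth of `E` in a single direction -/
theorem res_dir (hc : Conf A B ξ ξ') (hk : Corner A B ξ τ a₁ b₁ a₂ b₂) (hm : Mult f g ψ)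
    (hE : Res yA yB f g ψ ξ ξ' E) {θ σ : ℝ} (hσ0 : 0 < σ) (hθ : θ ∈ Icc τ (τ + 2 * π))
    (h1 : θ ≠ a₁) (h2 : θ ≠ b₁) (h3 : θ ≠ a₂) (h4 : θ ≠ b₂)
    (h : (θ ∈ Ioo a₁ b₁ ∧ π / (b₁ - a₁) < σ) ∨ (θ ∈ Ioo a₂ b₂ ∧ π / (b₂ - a₂) < σ) ∨
      (θ ∉ Icc a₁ b₁ ∧ θ ∉ Icc a₂ b₂)) : GrowthAt E ξ {θ} σ := by
  obtain ⟨ε, hε, e1, e2, e3, e4⟩ := dir_eps θ a₁ b₁ a₂ b₂ h1 h2 h3 h4
  obtain ⟨C₁, N₁, r₁, hr₁, H₁⟩ := RR_dir hc.regA hc.regB hk yA yB g.fst g.snd hε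
  obtain ⟨C₂, N₂, r₂, hr₂, H₂⟩ := RR_dir hc.regA hc.regB hk yA yB f.fst f.snd hε
  set C : ℝ := max (max C₁ C₂) 0 with hC
  set N : ℝ := max (max N₁ N₂) 0 with hN
  have hC0 : 0 ≤ C := le_max_right _ _
  have key : ∀ (S : Set ℝ), (∃ K r₃ : ℝ, 0 < r₃ ∧ ∀ r ∈ Ioo 0 r₃,
      ξ + r * Complex.exp (θ * Complex.I) ∈ A.carrier ∪ B.carrier →
      Real.posLog ‖ψ (ξ + r * Complex.exp (θ * Complex.I))‖ ≤ K * r ^ (-σ)) →
      GrowthAt E ξ {θ} σ := by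
    rintro - ⟨K, r₃, hr₃, H₃⟩
    refine ⟨Real.posLog C + |N| / σ + Real.log 2 + max K 0, min (min r₁ r₂) (min r₃ 1),
      by positivity, fun r hr t ht => ?_⟩
    rw [mem_singleton_iff] at ht
    subst ht
    have hr0 : 0 < r := hr.1
    have hrr₁ : r < r₁ := hr.2.trans_le ((min_le_left _ _).trans (min_le_left _ _))
    have hrr₂ : r < r₂ := hr.2.trans_le ((min_le_left _ _).trans (min_le_right _ _))
    have hrr₃ : r < r₃ := hr.2.trans_le ((min_le_right _ _).trans (min_le_left _ _))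
    have hr1 : r < 1 := hr.2.trans_le ((min_le_right _ _).trans (min_le_right _ _))
    obtain ⟨k1, k2, k3, k4, k5, k6⟩ := H₁ r ⟨hr0, hrr₁⟩ t hθ e1 e2 e3 e4
    obtain ⟨-, -, l3, -, -, -⟩ := H₂ r ⟨hr0, hrr₂⟩ t hθ e1 e2 e3 e4
    set p := ξ + r * Complex.exp (t * Complex.I) with hp
    have b1 : C₁ * r ^ (-N₁) ≤ C * r ^ (-N) := by
      have q1 : r ^ (-N₁) ≤ r ^ (-N) := Real.rpow_le_rpow_of_exponent_ge hr0 hr1.le
        (by have := (le_max_left N₁ N₂).trans (le_max_left _ (0 : ℝ)); linarith)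
      have q2 : C₁ ≤ C := (le_max_left C₁ C₂).trans (le_max_left _ _)
      have q3 : 0 ≤ r ^ (-N₁) := Real.rpow_nonneg hr0.le _
      calc C₁ * r ^ (-N₁) ≤ C * r ^ (-N₁) := by gcongr
        _ ≤ C * r ^ (-N) := by gcongr
    have b2 : C₂ * r ^ (-N₂) ≤ C * r ^ (-N) := by
      have q1 : r ^ (-N₂) ≤ r ^ (-N) := Real.rpow_le_rpow_of_exponent_ge hr0 hr1.le
        (by have := (le_max_right N₁ N₂).trans (le_max_left _ (0 : ℝ)); linarith)
      have q2 : C₂ ≤ C := (le_max_right C₁ C₂).trans (le_max_left _ _)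
      have q3 : 0 ≤ r ^ (-N₂) := Real.rpow_nonneg hr0.le _
      calc C₂ * r ^ (-N₂) ≤ C * r ^ (-N₂) := by gcongr
        _ ≤ C * r ^ (-N) := by gcongr
    have hrs : 0 ≤ r ^ (-σ) := Real.rpow_nonneg hr0.le _
    have hrN : 0 ≤ C * r ^ (-N) := mul_nonneg hC0 (Real.rpow_nonneg hr0.le _)
    by_cases hin : p ∈ A.carrier ∪ B.carrier
    · refine posLog_comb (p := ‖ψ p‖) hC0 hσ0 hr0 hr1 (norm_nonneg _) ?_
        ((H₃ r ⟨hr0, hrr₃⟩ hin).trans (by gcongr; exact le_max_left _ _))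
      rw [hE.inner p hin k1 k2, mul_add, mul_one]
      refine (norm_sub_le _ _).trans (add_le_add (k3.trans b1) ?_)
      rw [norm_mul, mul_comm]
      exact mul_le_mul_of_nonneg_right (l3.trans b2) (norm_nonneg _)
    · have hout : p ∉ closure (A.carrier ∪ B.carrier) := by
        rw [closure_union]
        rintro (h | h)
        · exact notMem_closure A k1 (fun h' => hin (Or.inl h')) h
        · exact notMem_closure B k2 (fun h' => hin (Or.inr h')) h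
      refine posLog_comb (p := 0) hC0 hσ0 hr0 hr1 (norm_nonneg _) ?_ (by
        rw [Real.posLog_zero]; positivity)
      rw [hE.outer p hout, add_zero, mul_one]
      exact k3.trans b1
  rcases h with h | h | h
  · obtain ⟨K, r₃, hr₃, H₃⟩ := psi_dir hc.regA hk.sec.h1 hk.sec.h5 hk.sec.h3 hk.secA f.fst g.fst
      hm.neA (hm.diff.mono subset_union_left) hm.eqA h.1 h.2
    exact key univ ⟨K, r₃, hr₃, fun r hr _ => H₃ r hr θ rfl⟩
  · obtain ⟨K, r₃, hr₃, H₃⟩ := psi_dir hc.regB hk.sec.h2 hk.sec.h6 hk.sec.h4 hk.secB f.snd g.snd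
      hm.neB (hm.diff.mono subset_union_right) hm.eqB h.1 h.2
    exact key univ ⟨K, r₃, hr₃, fun r hr _ => H₃ r hr θ rfl⟩
  · refine key univ ⟨0, r₁, hr₁, fun r hr hin => ?_⟩
    obtain ⟨-, -, -, -, -, k6⟩ := H₁ r hr θ hθ e1 e2 e3 e4
    exact absurd (subset_closure hin) (k6 h.1 h.2)

/-- for the exterior cone at `ξ` -/
lemma exists_cone (hA : A.Regular) (hB : B.Regular) (hk : Corner A B ξ τ a₁ b₁ a₂ b₂) :
    ∃ e : ℂ, ∃ c : ℝ, e ≠ 0 ∧ 0 < c ∧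
      ∀ ε ∈ Ioo (0 : ℝ) c, ∀ z ∈ A.carrier ∪ B.carrier, c * ε ≤ ‖z - (ξ + ε * e)‖ := by
  set θ : ℝ := (max b₁ b₂ + (τ + 2 * π)) / 2 with hθ
  have hb : max b₁ b₂ < τ + 2 * π := max_lt hk.sec.h3 hk.sec.h4
  have h1 : b₁ < θ := by have := le_max_left b₁ b₂; rw [hθ]; linarith
  have h2 : b₂ < θ := by have := le_max_right b₁ b₂; rw [hθ]; linarith
  have h3 : θ < τ + 2 * π := by rw [hθ]; linarith
  have s1 := hk.sec.h1
  have s5 := hk.sec.h5
  have s6 := hk.sec.h6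
  have h4 : θ ∈ Icc τ (τ + 2 * π) := ⟨by linarith, h3.le⟩
  obtain ⟨ε₀, hε₀, e1, e2, e3, e4⟩ := dir_eps θ a₁ b₁ a₂ b₂ (by linarith : a₁ < θ).ne' h1.ne'
    (by linarith : a₂ < θ).ne' h2.ne'
  obtain ⟨c₁, r₁, hc₁, hr₁, H₁⟩ := frontier_far A.isOpen hk.sec.h1 hk.sec.h5 hk.sec.h3 hk.secA hε₀
  obtain ⟨c₂, r₂, hc₂, hr₂, H₂⟩ := frontier_far B.isOpen hk.sec.h2 hk.sec.h6 hk.sec.h4 hk.secB hε₀
  obtain ⟨C₃, N₃, r₃, hr₃, H₃⟩ := RR_dir hA hB hk (0 : E2 A →L[ℂ] ℂ) (0 : E2 B →L[ℂ] ℂ) 0 0 hε₀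
  refine ⟨Complex.exp (θ * Complex.I), min (min c₁ c₂) (min r₁ (min r₂ r₃)), Complex.exp_ne_zero _,
    by positivity, fun ε hε z hz => ?_⟩
  have hcc₁ : min (min c₁ c₂) (min r₁ (min r₂ r₃)) ≤ c₁ :=
    (min_le_left _ _).trans (min_le_left _ _)
  have hcc₂ : min (min c₁ c₂) (min r₁ (min r₂ r₃)) ≤ c₂ :=
    (min_le_left _ _).trans (min_le_right _ _)
  have hr₁' : ε < r₁ := hε.2.trans_le ((min_le_right _ _).trans (min_le_left _ _))
  have hr₂' : ε < r₂ := hε.2.trans_le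
    ((min_le_right _ _).trans ((min_le_right _ _).trans (min_le_left _ _)))
  have hr₃' : ε < r₃ := hε.2.trans_le
    ((min_le_right _ _).trans ((min_le_right _ _).trans (min_le_right _ _)))
  obtain ⟨k1, k2, -, -, -, k6⟩ := H₃ ε ⟨hε.1, hr₃'⟩ θ h4 e1 e2 e3 e4
  have hout := k6 (fun h => absurd h.2 (not_le.mpr h1)) (fun h => absurd h.2 (not_le.mpr h2))
  set p := ξ + ε * Complex.exp (θ * Complex.I) with hp
  have gen : ∀ (D : Dom) (c : ℝ), p ∉ closure D.carrier → z ∈ D.carrier →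
      (∀ w ∈ frontier D.carrier, c * ε ≤ ‖p - w‖) → c * ε ≤ ‖z - p‖ := by
    intro D c hpD hzD hfr
    have h5 : (D.carrierᶜ) ≠ univ := by
      intro h
      rw [compl_univ_iff] at h
      exact (Set.not_nonempty_iff_eq_empty.mpr h) D.nonempty
    obtain ⟨w, hw, hwd⟩ := exists_mem_frontier_infDist_compl_eq_dist (s := D.carrierᶜ)
      (x := p) (fun h => hpD (subset_closure h)) h5
    rw [compl_compl] at hwd
    rw [frontier_compl] at hw
    have h6 := hfr w hw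
    have h7 := infDist_le_dist_of_mem (x := p) hzD
    rw [hwd, dist_eq_norm, dist_eq_norm] at h7
    rw [norm_sub_rev z p]
    linarith
  have hε0 := hε.1
  rcases hz with hz | hz
  · have := gen A c₁ (fun h => hout (by rw [closure_union]; exact Or.inl h)) hz
      (fun w hw => H₁ ε ⟨hε.1, hr₁'⟩ θ h4 e1 e2 w hw)
    refine le_trans ?_ this
    gcongr
  · have := gen B c₂ (fun h => hout (by rw [closure_union]; exact Or.inr h)) hz
      (fun w hw => H₂ ε ⟨hε.1, hr₂'⟩ θ h4 e3 e4 w hw)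
    refine le_trans ?_ this
    gcongr

/-- the function attached to a functional and to `g = ψ f` -/
theorem exists_tract (hc : Conf A B ξ ξ') (hne : ξ ≠ ξ')
    (hcone : ExteriorCone (A.carrier ∪ B.carrier) ξ') (hk : Corner A B ξ τ a₁ b₁ a₂ b₂)
    (hm : Mult f g ψ) (hanA : AnalyticFrom A.carrier f.fst.fn ξ')
    (hanB : AnalyticFrom B.carrier f.snd.fn ξ') (hann : Ann yA yB f.fst f.snd)
    (hy : yA g.fst + yB g.snd ≠ 0) :
    ∃ E : ℂ → ℂ, DifferentiableOn ℂ E {ξ}ᶜ ∧ Tendsto E (cocompact ℂ) (𝓝 0) ∧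
      Res yA yB f g ψ ξ ξ' E ∧
      (∀ σ, π / max (b₁ - a₁) (b₂ - a₂) < σ → GrowthAt E ξ univ σ) ∧
      (∀ (κ : ℕ) (C : ℝ), ∃ r₀ : ℝ, 0 < r₀ ∧ ∀ r ∈ Ioc 0 r₀, ∃ θ : ℝ,
        C * r ^ (-(κ : ℝ)) < ‖E (ξ + r * Complex.exp (θ * Complex.I))‖) := by
  obtain ⟨E₀, hE₀⟩ := res_exists hc hm hann
  obtain ⟨E, hEd, hEE⟩ := res_remove hc hne hcone hm hanA hanB hE₀
  have hcor : ({ξ, ξ'} : Set ℂ) ⊆ frontier A.carrier := by
    rw [← hc.corners]; exact inter_subset_left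
  have hξA : ξ ∈ frontier A.carrier := hcor (by simp)
  have hξ'A : ξ' ∈ frontier A.carrier := hcor (by simp)
  have hE : Res yA yB f g ψ ξ ξ' E := by
    refine ⟨hEd.mono ?_, fun z hz hzA hzB => ?_, fun z hz => ?_⟩
    · rw [compl_subset_compl, singleton_subset_iff]; simp
    · rw [hEE z (fun h => hzA (h ▸ hξA)) (fun h => hzA (h ▸ hξ'A))]
      exact hE₀.inner z hz hzA hzB
    · have hcl : frontier A.carrier ⊆ closure (A.carrier ∪ B.carrier) :=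
        frontier_subset_closure.trans (closure_mono subset_union_left)
      rw [hEE z (fun h => hz (hcl (h ▸ hξA))) (fun h => hz (hcl (h ▸ hξ'A)))]
      exact hE₀.outer z hz
  -- infinity
  have hfar : ∀ᶠ z in cocompact ℂ, z ∉ closure (A.carrier ∪ B.carrier) := by
    have hb : Bornology.IsBounded (closure (A.carrier ∪ B.carrier)) := (A.bdd.union B.bdd).closure
    have hcp : IsCompact (closure (A.carrier ∪ B.carrier)) :=
      Metric.isCompact_of_isClosed_isBounded isClosed_closure hb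
    exact hcp.compl_mem_cocompact
  have hRinf := RR_tendsto hc.regA hc.regB yA yB g.fst g.snd
  have hinf : Tendsto E (cocompact ℂ) (𝓝 0) := by
    have h1 : Tendsto (fun z : ℂ => z⁻¹ * (z * RR yA yB g.fst g.snd z)) (cocompact ℂ)
        (𝓝 (0 * (-(yA g.fst + yB g.snd)))) :=
      Tendsto.mul (by rw [← Metric.cobounded_eq_cocompact]; exact tendsto_inv₀_cobounded) hRinf
    rw [zero_mul] at h1
    refine h1.congr' ?_
    have h2 : ∀ᶠ z : ℂ in cocompact ℂ, z ≠ 0 := by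
      have : ({0} : Set ℂ)ᶜ ∈ cocompact ℂ := isCompact_singleton.compl_mem_cocompact
      exact this
    filter_upwards [hfar, h2] with z hz hz0
    rw [hE.outer z hz]
    field_simp
  have hnz : ∃ z, z ≠ ξ ∧ E z ≠ 0 := by
    by_contra hcon
    push Not at hcon
    have h2 : ∀ᶠ z : ℂ in cocompact ℂ, z ≠ ξ := by
      have : ({ξ} : Set ℂ)ᶜ ∈ cocompact ℂ := isCompact_singleton.compl_mem_cocompact
      exact this
    have h3 : Tendsto (fun z => z * RR yA yB g.fst g.snd z) (cocompact ℂ) (𝓝 0) := by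
      refine tendsto_const_nhds.congr' ?_
      filter_upwards [hfar, h2] with z hz hz0
      rw [← hE.outer z hz, hcon z hz0, mul_zero]
    have h4 := tendsto_nhds_unique hRinf h3
    exact hy (neg_eq_zero.mp h4)
  -- a priori growth
  obtain ⟨C₁, hC₁, hΓ⟩ := area_union hc.regA hc.regB
  obtain ⟨K, N, hN, hap⟩ := res_apriori hc hm hE
  have hΓc : IsClosed (frontier A.carrier ∪ frontier B.carrier) :=
    isClosed_frontier.union isClosed_frontier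
  have hΓn : (frontier A.carrier ∪ frontier B.carrier).Nonempty := (frontier_nonempty A).inl
  have hap' : ∃ M : ℝ, 0 < M ∧ GrowthAt E ξ univ M := by
    refine growth_apriori one_pos (hEd.mono ?_) hC₁ hΓ (K := K) hN fun z _ hzd => ?_
    · intro z hz; exact hz.2
    · have hzn := (hΓc.notMem_iff_infDist_pos hΓn).mpr hzd
      exact hap z (fun h => hzn (Or.inl h)) (fun h => hzn (Or.inr h))
  have s := hk.sec
  have hgA : ∀ θ ∈ Ioo a₁ b₁, θ ≠ a₂ → θ ≠ b₂ → ∀ σ, π / (b₁ - a₁) < σ → GrowthAt E ξ {θ} σ := by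
    intro θ hθ h3 h4 σ hσ
    have s1 := s.h1
    have s3 := s.h3
    have hd : 0 < b₁ - a₁ := by have := s.h5; linarith
    exact res_dir hc hk hm hE (lt_trans (by positivity) hσ)
      ⟨by linarith [hθ.1], by linarith [hθ.2]⟩ hθ.1.ne' hθ.2.ne h3 h4 (Or.inl ⟨hθ, hσ⟩)
  have hgB : ∀ θ ∈ Ioo a₂ b₂, θ ≠ a₁ → θ ≠ b₁ → ∀ σ, π / (b₂ - a₂) < σ → GrowthAt E ξ {θ} σ := by
    intro θ hθ h3 h4 σ hσ
    have s2 := s.h2
    have s4 := s.h4
    have hd : 0 < b₂ - a₂ := by have := s.h6; linarith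
    exact res_dir hc hk hm hE (lt_trans (by positivity) hσ)
      ⟨by linarith [hθ.1], by linarith [hθ.2]⟩ h3 h4 hθ.1.ne' hθ.2.ne (Or.inr (Or.inl ⟨hθ, hσ⟩))
  have hgE : ∀ θ ∈ Icc τ (τ + 2 * π), θ ∉ Icc a₁ b₁ → θ ∉ Icc a₂ b₂ → ∀ σ, 0 < σ →
      GrowthAt E ξ {θ} σ := by
    intro θ hθ h3 h4 σ hσ
    have s5 := s.h5
    have s6 := s.h6
    refine res_dir hc hk hm hE hσ hθ ?_ ?_ ?_ ?_ (Or.inr (Or.inr ⟨h3, h4⟩))
    · rintro rfl; exact h3 ⟨le_rfl, s5.le⟩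
    · rintro rfl; exact h3 ⟨s5.le, le_rfl⟩
    · rintro rfl; exact h4 ⟨le_rfl, s6.le⟩
    · rintro rfl; exact h4 ⟨s6.le, le_rfl⟩
  have hgrow : ∀ σ, π / max (b₁ - a₁) (b₂ - a₂) < σ → GrowthAt E ξ univ σ := by
    rcases le_total (b₂ - a₂) (b₁ - a₁) with hle | hle
    · rw [max_eq_left hle]
      exact growth_all hEd hinf s hle hap' hgA hgB hgE
    · rw [max_eq_right hle]
      exact growth_all hEd hinf s.symm hle hap' hgB hgA fun θ hθ h1 h2 => hgE θ hθ h2 h1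
  -- transcendental growth
  obtain ⟨e, c, he, hcpos, hcone'⟩ := exists_cone hc.regA hc.regB hk
  have hlim : Tendsto (fun n : ℕ => (1 / ((n : ℂ) + 1)) * E (ξ + (1 / ((n : ℂ) + 1)) * e)) atTop
      (𝓝 0) := by
    have l1 := (weak_cone g.fst yA hcpos fun ε hε z hz => hcone' ε hε z (Or.inl hz)).add
      (weak_cone g.snd yB hcpos fun ε hε z hz => hcone' ε hε z (Or.inr hz))
    rw [add_zero] at l1
    refine l1.congr' ?_
    have h1 : ∀ᶠ n : ℕ in atTop, 1 / ((n : ℝ) + 1) < c :=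
      (tendsto_one_div_add_atTop_nhds_zero_nat (𝕜 := ℝ)).eventually (gt_mem_nhds hcpos)
    filter_upwards [h1] with n hn
    have hn0 : 0 < 1 / ((n : ℝ) + 1) := by positivity
    have hout : ξ + (1 / ((n : ℂ) + 1)) * e ∉ closure (A.carrier ∪ B.carrier) := by
      intro hcl
      rw [Metric.mem_closure_iff] at hcl
      obtain ⟨z, hz, hd⟩ := hcl (c * (1 / ((n : ℝ) + 1))) (by positivity)
      have h2 := hcone' _ ⟨hn0, hn⟩ z hz
      rw [dist_eq_norm, norm_sub_rev] at hd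
      push_cast at h2
      linarith
    rw [hE.outer _ hout, RR]
    ring
  exact ⟨E, hEd, hinf, hE, hgrow, fun κ C => big_circle hEd hinf hnz he hlim κ C⟩

end MP2c3e4e
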