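import Pool.Agent.Lib_MP_2c3e4e_an.R1
import Pool.Agent.Lib_MP_2c3e4e_an.R2
import Pool.Agent.Lib_MP_2c3e4e_an.P3

open MeasureTheory Set Metric Filter Topology
open scoped ENNReal Real

namespace MP2c3e4e

variable {A B C : Dom} {ξ ξ' : ℂ} {τ a₁ b₁ a₂ b₂ : ℝ}

/-- Separation of a point from a closed subspace. -/
lemma separate {X : Type} [SeminormedAddCommGroup X] [NormedSpace ℂ X] {S : Submodule ℂ X}
    (hS : IsClosed (S : Set X)) {x : X} (hx : x ∉ S) :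
    ∃ y : X →L[ℂ] ℂ, (∀ s ∈ S, y s = 0) ∧ y x ≠ 0 := by
  let _ : NormedSpace ℝ X := NormedSpace.restrictScalars ℝ ℂ X
  have _ : IsScalarTower ℝ ℂ X := RestrictScalars.isScalarTower ℝ ℂ X
  have hconv : Convex ℝ (S : Set X) := (S.restrictScalars ℝ).convex
  obtain ⟨y, u, h1, h2⟩ := RCLike.geometric_hahn_banach_closed_point (𝕜 := ℂ) hconv hS hx
  have hu : 0 < u := by simpa using h1 0 S.zero_mem
  refine ⟨y, fun s hs => ?_, fun h0 => ?_⟩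
  · by_contra hne
    have h3 := h1 (((u / ‖y s‖ ^ 2 : ℝ) : ℂ) • ((starRingEnd ℂ) (y s) • s))
      (S.smul_mem _ (S.smul_mem _ hs))
    have h5 : y (((u / ‖y s‖ ^ 2 : ℝ) : ℂ) • ((starRingEnd ℂ) (y s) • s)) = (u : ℂ) := by
      rw [ContinuousLinearMap.map_smul, ContinuousLinearMap.map_smul, smul_eq_mul, smul_eq_mul,
        mul_comm ((starRingEnd ℂ) (y s)), Complex.mul_conj, ← Complex.ofReal_mul,
        Complex.normSq_eq_norm_sq, div_mul_cancel₀ _ (by positivity)]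
    rw [h5] at h3
    simp at h3
  · rw [h0] at h2
    simp at h2
    linarith

/-- The components of a functional. -/
lemma components (y : EP A B →L[ℂ] ℂ) : ∃ (yA : E2 A →L[ℂ] ℂ) (yB : E2 B →L[ℂ] ℂ),
    ∀ h : EP A B, y h = yA h.fst + yB h.snd := by
  let y' : (E2 A × E2 B) →L[ℂ] ℂ := y
  refine ⟨y'.comp (ContinuousLinearMap.inl ℂ (E2 A) (E2 B)),
    y'.comp (ContinuousLinearMap.inr ℂ (E2 A) (E2 B)), fun h => ?_⟩
  have h1 : y' (h.fst, h.snd) = y' (h.fst, 0) + y' (0, h.snd) := by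
    rw [← map_add]; congr 1; simp
  exact h1

lemma mulPP_mem {S : Submodule ℂ (EP A B)} (hS : IsLat (opM A B) S) {h : EP A B} (hh : h ∈ S)
    (P : Polynomial ℂ) : mulPP P h ∈ S := by
  have h1 : ∀ n : ℕ, (opM A B ^ n) h ∈ S := by
    intro n
    induction n with
    | zero => exact hh
    | succ n ih => rw [pow_succ']; exact hS.invariant _ ih
  induction P using Polynomial.induction_on' with
  | add P Q hP hQ => rw [mulPP_add]; exact add_mem hP hQ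
  | monomial n c =>
    rw [← Polynomial.C_mul_X_pow_eq_monomial, mulPP_mono]
    exact Submodule.smul_mem _ _ (h1 n)

lemma ann_of_mem {S : Submodule ℂ (EP A B)} (hS : IsLat (opM A B) S) {y : EP A B →L[ℂ] ℂ}
    (hy : ∀ s ∈ S, y s = 0) {yA : E2 A →L[ℂ] ℂ} {yB : E2 B →L[ℂ] ℂ}
    (hc : ∀ h : EP A B, y h = yA h.fst + yB h.snd) {h : EP A B} (hh : h ∈ S) :
    Ann yA yB h.fst h.snd := by
  intro P
  rw [← (mulPP_comp P h).1, ← (mulPP_comp P h).2, ← hc]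
  exact hy _ (mulPP_mem hS hh P)

/-- If `y` annihilates `φ f`, then `RR (φ f) = φ RR f`. -/
lemma RR_factor {f g : EP A B} {φ : ℂ → ℂ} {yA : E2 A →L[ℂ] ℂ} {yB : E2 B →L[ℂ] ℂ}
    (hc : Conf A B ξ ξ') (hm : Mult f g φ) (hann : Ann yA yB f.fst f.snd)
    (hann' : Ann yA yB g.fst g.snd) {z : ℂ} (hz : z ∈ A.carrier ∪ B.carrier)
    (hzA : z ∉ frontier A.carrier) (hzB : z ∉ frontier B.carrier) :
    RR yA yB g.fst g.snd z = φ z * RR yA yB f.fst f.snd z := by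
  obtain ⟨E, hE⟩ := res_exists hc hm hann
  have hcount : ({ξ, ξ'} : Set ℂ).Countable := (Set.toFinite _).countable
  have hopen : IsOpen ({ξ, ξ'} : Set ℂ)ᶜ := (Set.toFinite _).isClosed.isOpen_compl
  have hpre : IsPreconnected ({ξ, ξ'} : Set ℂ)ᶜ :=
    (hcount.isConnected_compl_of_one_lt_rank (by rw [Complex.rank_real_complex]; norm_num)).isPreconnected
  have han : AnalyticOnNhd ℂ E ({ξ, ξ'} : Set ℂ)ᶜ := hE.diff.analyticOnNhd hopen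
  have hcor : ({ξ, ξ'} : Set ℂ) ⊆ frontier A.carrier := by
    rw [← hc.corners]; exact inter_subset_left
  have hcl : frontier A.carrier ⊆ closure (A.carrier ∪ B.carrier) :=
    frontier_subset_closure.trans (closure_mono subset_union_left)
  have hfar : ∀ᶠ z in cocompact ℂ, z ∉ closure (A.carrier ∪ B.carrier) := by
    have hb : Bornology.IsBounded (closure (A.carrier ∪ B.carrier)) := (A.bdd.union B.bdd).closure
    exact (Metric.isCompact_of_isClosed_isBounded isClosed_closure hb).compl_mem_cocompact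
  obtain ⟨w, hw⟩ := hfar.exists
  have hw' : w ∈ ({ξ, ξ'} : Set ℂ)ᶜ := fun h => hw (hcl (hcor h))
  have hzero : ∀ᶠ v in 𝓝 w, E v = 0 := by
    filter_upwards [isClosed_closure.isOpen_compl.mem_nhds hw] with v hv
    rw [hE.outer v hv]
    exact ann_out hc hann' hv
  have h0 := han.eqOn_zero_of_preconnected_of_eventuallyEq_zero hpre hw' hzero
  have hz' : z ∈ ({ξ, ξ'} : Set ℂ)ᶜ := fun h => hzA (hcor h)
  have h1 := h0 hz'
  rw [hE.inner z hz hzA hzB] at h1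
  exact sub_eq_zero.mp h1

/-- The smaller of two numbers is controlled by a product. -/
lemma min_le_of_prod {E₁ E₂ k₁ k₂ k₃ k₄ : ℂ} {S : ℝ} (h : (E₁ - k₁) * (E₂ - k₂) = k₃ * k₄)
    (h1 : ‖k₁‖ ≤ S) (h2 : ‖k₂‖ ≤ S) (h3 : ‖k₃‖ ≤ S) (h4 : ‖k₄‖ ≤ S) :
    min ‖E₁‖ ‖E₂‖ ≤ 2 * S := by
  by_contra hcon
  rw [not_le, lt_min_iff] at hcon
  have hS : 0 ≤ S := (norm_nonneg _).trans h1
  have a1 : S < ‖E₁ - k₁‖ := by
    have := norm_sub_norm_le E₁ k₁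
    linarith
  have a2 : S < ‖E₂ - k₂‖ := by
    have := norm_sub_norm_le E₂ k₂
    linarith
  have a3 : ‖E₁ - k₁‖ * ‖E₂ - k₂‖ ≤ S * S := by
    rw [← norm_mul, h, norm_mul]
    exact mul_le_mul h3 h4 (norm_nonneg _) hS
  have a4 : S * S < ‖E₁ - k₁‖ * ‖E₂ - k₂‖ := mul_lt_mul'' a1 a2 hS hS
  linarith

theorem no_incomparable (hc : Conf A B ξ ξ') (hne : ξ ≠ ξ')
    (hcone : ExteriorCone (A.carrier ∪ B.carrier) ξ') (hk : Corner A B ξ τ a₁ b₁ a₂ b₂)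
    {f g₁ g₂ : EP A B} {φ ψ : ℂ → ℂ} (hm₁ : Mult f g₁ φ) (hm₂ : Mult f g₂ ψ)
    (hanA : AnalyticFrom A.carrier f.fst.fn ξ') (hanB : AnalyticFrom B.carrier f.snd.fn ξ')
    {yA₁ yA₂ : E2 A →L[ℂ] ℂ} {yB₁ yB₂ : E2 B →L[ℂ] ℂ}
    (hf₁ : Ann yA₁ yB₁ f.fst f.snd) (hf₂ : Ann yA₂ yB₂ f.fst f.snd)
    (hg₁ : Ann yA₁ yB₁ g₁.fst g₁.snd) (hg₂ : Ann yA₂ yB₂ g₂.fst g₂.snd)
    (hy₁ : yA₁ g₂.fst + yB₁ g₂.snd ≠ 0) (hy₂ : yA₂ g₁.fst + yB₂ g₁.snd ≠ 0) : False := by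
  obtain ⟨E₁, d₁, i₁, R₁, gr₁, big₁⟩ := exists_tract hc hne hcone hk hm₂ hanA hanB hf₁ hy₁
  obtain ⟨E₂, d₂, i₂, R₂, gr₂, big₂⟩ := exists_tract hc hne hcone hk hm₁ hanA hanB hf₂ hy₂
  have main : ∀ ε : ℝ, 0 < ε → ∃ S N r₀ : ℝ, 0 < r₀ ∧ ∀ r ∈ Ioo 0 r₀, ∀ θ ∈ Icc τ (τ + 2 * π),
      2 * ε ≤ |θ - a₁| → 2 * ε ≤ |θ - b₁| → 2 * ε ≤ |θ - a₂| → 2 * ε ≤ |θ - b₂| →
      min ‖E₁ (ξ + r * Complex.exp (θ * Complex.I))‖ ‖E₂ (ξ + r * Complex.exp (θ * Complex.I))‖ ≤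
        S * r ^ (-N) ∧
      (θ ∉ Icc a₁ b₁ → θ ∉ Icc a₂ b₂ →
        ‖E₁ (ξ + r * Complex.exp (θ * Complex.I))‖ ≤ S * r ^ (-N) ∧
        ‖E₂ (ξ + r * Complex.exp (θ * Complex.I))‖ ≤ S * r ^ (-N)) := by
    intro ε hε
    obtain ⟨C₁, N₁, r₁, hr₁, H₁⟩ := RR_dir hc.regA hc.regB hk yA₁ yB₁ g₂.fst g₂.snd hε
    obtain ⟨C₂, N₂, r₂, hr₂, H₂⟩ := RR_dir hc.regA hc.regB hk yA₂ yB₂ g₁.fst g₁.snd hε
    obtain ⟨C₃, N₃, r₃, hr₃, H₃⟩ := RR_dir hc.regA hc.regB hk yA₁ yB₁ g₁.fst g₁.snd hε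
    obtain ⟨C₄, N₄, r₄, hr₄, H₄⟩ := RR_dir hc.regA hc.regB hk yA₂ yB₂ g₂.fst g₂.snd hε
    set S : ℝ := |C₁| + |C₂| + |C₃| + |C₄| with hS
    set N : ℝ := |N₁| + |N₂| + |N₃| + |N₄| with hN
    have hS0 : 0 ≤ S := by positivity
    refine ⟨2 * S, N, min (min r₁ r₂) (min (min r₃ r₄) 1), by positivity,
      fun r hr θ hθ e1 e2 e3 e4 => ?_⟩
    have hr0 : 0 < r := hr.1
    have hr1 : r < 1 := hr.2.trans_le ((min_le_right _ _).trans (min_le_right _ _))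
    have hrr₁ : r < r₁ := hr.2.trans_le ((min_le_left _ _).trans (min_le_left _ _))
    have hrr₂ : r < r₂ := hr.2.trans_le ((min_le_left _ _).trans (min_le_right _ _))
    have hrr₃ : r < r₃ := hr.2.trans_le
      ((min_le_right _ _).trans ((min_le_left _ _).trans (min_le_left _ _)))
    have hrr₄ : r < r₄ := hr.2.trans_le
      ((min_le_right _ _).trans ((min_le_left _ _).trans (min_le_right _ _)))
    obtain ⟨k1, k2, k3, k4, k5, k6⟩ := H₁ r ⟨hr0, hrr₁⟩ θ hθ e1 e2 e3 e4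
    obtain ⟨-, -, l3, -, -, -⟩ := H₂ r ⟨hr0, hrr₂⟩ θ hθ e1 e2 e3 e4
    obtain ⟨-, -, m3, -, -, -⟩ := H₃ r ⟨hr0, hrr₃⟩ θ hθ e1 e2 e3 e4
    obtain ⟨-, -, n3, -, -, -⟩ := H₄ r ⟨hr0, hrr₄⟩ θ hθ e1 e2 e3 e4
    set p := ξ + r * Complex.exp (θ * Complex.I) with hp
    have gen : ∀ C' N' x : ℝ, x ≤ C' * r ^ (-N') → |C'| ≤ S → |N'| ≤ N → x ≤ S * r ^ (-N) := by
      intro C' N' x hx hC' hN'
      have q1 : r ^ (-N') ≤ r ^ (-N) := Real.rpow_le_rpow_of_exponent_ge hr0 hr1.le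
        (by have := le_abs_self N'; linarith)
      have q3 : 0 ≤ r ^ (-N') := Real.rpow_nonneg hr0.le _
      calc x ≤ C' * r ^ (-N') := hx
        _ ≤ |C'| * r ^ (-N') := by gcongr; exact le_abs_self _
        _ ≤ S * r ^ (-N) := by gcongr
    have p1 := abs_nonneg C₁
    have p2 := abs_nonneg C₂
    have p3 := abs_nonneg C₃
    have p4 := abs_nonneg C₄
    have q1 := abs_nonneg N₁
    have q2 := abs_nonneg N₂
    have q3 := abs_nonneg N₃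
    have q4 := abs_nonneg N₄
    have b1 := gen _ _ _ k3 (by rw [hS]; linarith) (by rw [hN]; linarith)
    have b2 := gen _ _ _ l3 (by rw [hS]; linarith) (by rw [hN]; linarith)
    have b3 := gen _ _ _ m3 (by rw [hS]; linarith) (by rw [hN]; linarith)
    have b4 := gen _ _ _ n3 (by rw [hS]; linarith) (by rw [hN]; linarith)
    have hT : 0 ≤ S * r ^ (-N) := mul_nonneg hS0 (Real.rpow_nonneg hr0.le _)
    have hext : p ∉ closure (A.carrier ∪ B.carrier) →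
        ‖E₁ p‖ ≤ 2 * S * r ^ (-N) ∧ ‖E₂ p‖ ≤ 2 * S * r ^ (-N) := by
      intro hout
      rw [R₁.outer p hout, R₂.outer p hout]
      exact ⟨by linarith, by linarith⟩
    refine ⟨?_, fun h1 h2 => hext (k6 h1 h2)⟩
    by_cases hin : p ∈ A.carrier ∪ B.carrier
    · have e1 := R₁.inner p hin k1 k2
      have e2 := R₂.inner p hin k1 k2
      have e3 := RR_factor hc hm₁ hf₁ hg₁ hin k1 k2
      have e4 := RR_factor hc hm₂ hf₂ hg₂ hin k1 k2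
      have hprod : (E₁ p - RR yA₁ yB₁ g₂.fst g₂.snd p) * (E₂ p - RR yA₂ yB₂ g₁.fst g₁.snd p) =
          RR yA₁ yB₁ g₁.fst g₁.snd p * RR yA₂ yB₂ g₂.fst g₂.snd p := by
        rw [e1, e2, e3, e4]; ring
      have := min_le_of_prod hprod b1 b2 b3 b4
      linarith
    · have hout : p ∉ closure (A.carrier ∪ B.carrier) := by
        rw [closure_union]
        rintro (h | h)
        · exact notMem_closure A k1 (fun h' => hin (Or.inl h')) h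
        · exact notMem_closure B k2 (fun h' => hin (Or.inr h')) h
      exact (min_le_left _ _).trans (hext hout).1
  rcases le_total (b₂ - a₂) (b₁ - a₁) with hle | hle
  · rw [max_eq_left hle] at gr₁ gr₂
    refine no_pair d₁ d₂ i₁ i₂ hk.sec hle gr₁ gr₂ (fun ε hε => ?_) (fun ε hε => ?_) big₁ big₂
    · obtain ⟨S, N, r₀, hr₀, H⟩ := main ε hε
      exact ⟨S, N, r₀, hr₀, fun r hr θ hθ e1 e2 e3 e4 => (H r hr θ hθ e1 e2 e3 e4).1⟩
    · obtain ⟨S, N, r₀, hr₀, H⟩ := main ε hε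
      exact ⟨S, N, r₀, hr₀, fun r hr θ hθ e1 e2 e3 e4 h1 h2 => (H r hr θ hθ e1 e2 e3 e4).2 h1 h2⟩
  · rw [max_eq_right hle] at gr₁ gr₂
    refine no_pair d₁ d₂ i₁ i₂ hk.sec.symm hle gr₁ gr₂ (fun ε hε => ?_) (fun ε hε => ?_) big₁ big₂
    · obtain ⟨S, N, r₀, hr₀, H⟩ := main ε hε
      exact ⟨S, N, r₀, hr₀, fun r hr θ hθ e1 e2 e3 e4 => (H r hr θ hθ e3 e4 e1 e2).1⟩
    · obtain ⟨S, N, r₀, hr₀, H⟩ := main ε hε
      exact ⟨S, N, r₀, hr₀, fun r hr θ hθ e1 e2 e3 e4 h1 h2 => (H r hr θ hθ e3 e4 e1 e2).2 h2 h1⟩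

/-- Main theorem. -/
theorem comparable (hc : Conf A B ξ ξ') (hne : ξ ≠ ξ')
    (hcone : ExteriorCone (A.carrier ∪ B.carrier) ξ') (hk : Corner A B ξ τ a₁ b₁ a₂ b₂)
    (hC : C.carrier = A.carrier ∩ B.carrier) (f : EP A B)
    (hanA : AnalyticFrom A.carrier f.fst.fn ξ') (hanB : AnalyticFrom B.carrier f.snd.fn ξ')
    {S₁ S₂ : Submodule ℂ (EP A B)} (h₁ : IsLat (opM A B) S₁) (h₂ : IsLat (opM A B) S₂)
    (hf₁ : cyclic (opM A B) f ≤ S₁) (hf₂ : cyclic (opM A B) f ≤ S₂)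
    (hs₁ : (S₁ : Set (EP A B)) ⊆ standard C (cyclic (opM A B) f))
    (hs₂ : (S₂ : Set (EP A B)) ⊆ standard C (cyclic (opM A B) f)) : S₁ ≤ S₂ ∨ S₂ ≤ S₁ := by
  by_cases hfA : ∃ z ∈ A.carrier, f.fst.fn z ≠ 0
  swap
  · push Not at hfA
    exact Or.inl fun x hx => hf₂ (standard_le_of_zero (C := C) (Or.inl hfA) (hs₁ hx))
  by_cases hfB : ∃ z ∈ B.carrier, f.snd.fn z ≠ 0
  swap
  · push Not at hfB
    exact Or.inl fun x hx => hf₂ (standard_le_of_zero (C := C) (Or.inr hfB) (hs₁ hx))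
  by_contra hcon
  push Not at hcon
  obtain ⟨hn1, hn2⟩ := hcon
  obtain ⟨g₁, hg₁S, hg₁n⟩ := SetLike.not_le_iff_exists.mp hn1
  obtain ⟨g₂, hg₂S, hg₂n⟩ := SetLike.not_le_iff_exists.mp hn2
  obtain ⟨φ, hφ⟩ := exists_mult hC hfA hfB (hs₁ hg₁S)
  obtain ⟨ψ, hψ⟩ := exists_mult hC hfA hfB (hs₂ hg₂S)
  obtain ⟨y₁, hy₁, hy₁'⟩ := separate h₁.closed hg₂n
  obtain ⟨y₂, hy₂, hy₂'⟩ := separate h₂.closed hg₁n
  obtain ⟨yA₁, yB₁, hyc₁⟩ := components y₁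
  obtain ⟨yA₂, yB₂, hyc₂⟩ := components y₂
  have hfm : f ∈ cyclic (opM A B) f :=
    Submodule.le_topologicalClosure _ (Submodule.subset_span ⟨0, rfl⟩)
  exact no_incomparable hc hne hcone hk hφ hψ hanA hanB
    (ann_of_mem h₁ hy₁ hyc₁ (hf₁ hfm)) (ann_of_mem h₂ hy₂ hyc₂ (hf₂ hfm))
    (ann_of_mem h₁ hy₁ hyc₁ hg₁S) (ann_of_mem h₂ hy₂ hyc₂ hg₂S)
    (by rw [← hyc₁]; exact hy₁') (by rw [← hyc₂]; exact hy₂')

end MP2c3e4e
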